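import Pool.Agent.BURN.Basic

namespace Pool.Agent.BURN

variable {G X : Type} [Group G] [MulAction G X] {d : X → X → ℕ} {δ : ℕ}

theorem w97_mid (h : IsDG d) (hy : Hyp d δ) (hi : IsIso G d) {x y : X} {γ : ℕ → X}
    (hg : IsGeod d x y γ) {u : G} {l : ℕ} (hx : d x (u • x) ≤ l) (hyy : d y (u • y) ≤ l) {t : ℕ}
    (h1 : l + δ + 1 ≤ t) (h2 : t + l + δ + 1 ≤ d x y) :
    t ≤ d x (u • γ t) + l ∧ d x (u • γ t) ≤ t + l ∧
    d (u • γ t) (γ (d x (u • γ t))) ≤ 3 * δ ∧
    gp d x y (u • γ t) ≤ 2 * δ := by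
  have e1 : d (u • x) (u • γ t) = t := by rw [hi, hg.dist_left (by omega)]
  have e2 : d (u • γ t) (u • y) = d x y - t := by rw [hi, hg.dist_right (by omega)]
  have e3 : d (u • x) (u • y) = d x y := hi _ _ _
  set z := u • γ t with hz
  have t1 := h.tri x (u • x) z
  have t2 := h.tri (u • x) x z
  have t3 := h.tri z (u • y) y
  have t4 := h.tri z y (u • y)
  have s1 := h.symm (u • x) x
  have s2 := h.symm (u • y) y
  have a1 := gp_add h x (u • x) z
  have a2 := gp_add h y (u • y) z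
  have a3 := gp_add h (u • x) (u • y) z
  have s3 := h.symm y z
  have s4 := h.symm (u • y) z
  have H1 := hyp_gp h hy (u • x) (u • y) y z
  have H2 := hyp_gp h hy x y (u • x) z
  have c1 := gp_comm h y (u • y) z
  have hS1 : t ≤ d x z + l := by omega
  have hS2 : d x z ≤ t + l := by omega
  have g3 : gp d (u • x) (u • y) z = 0 := by omega
  have g2 : 2 * δ + 2 ≤ gp d y (u • y) z := by omega
  have g1 : 2 * δ + 2 ≤ gp d x (u • x) z := by omega
  have g4 : gp d (u • x) y z ≤ δ := by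
    rcases min_le_iff.1 (by simpa [g3] using H1) with hh | hh <;> omega
  have H3 := hyp_gp h hy (u • x) y x z
  have c2 := gp_comm h x (u • x) z
  have g5 : gp d x y z ≤ 2 * δ := by
    rcases min_le_iff.1 H3 with hh | hh <;> omega
  refine ⟨hS1, hS2, ?_, g5⟩
  have hn : d x z ≤ d x y := by omega
  have b := near_of_btw h hy (hg.btw' hn) z
  have q1 := hg.dist_left hn
  have q2 := hg.dist_right hn
  have a4 := gp_add h x y z
  have s5 := h.symm z x
  have s6 := h.symm z y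
  have s7 := h.symm y (γ (d x z))
  omega

theorem w97_mid_mono (h : IsDG d) (hy : Hyp d δ) (hi : IsIso G d) {x y : X} {γ : ℕ → X}
    (hg : IsGeod d x y γ) {u : G} {l : ℕ} (hx : d x (u • x) ≤ l) (hyy : d y (u • y) ≤ l) {s t : ℕ}
    (h1 : l + δ + 1 ≤ s) (hst : s ≤ t) (h2 : t + l + δ + 1 ≤ d x y) :
    d x (u • γ t) + s ≤ d x (u • γ s) + t ∧ d x (u • γ s) + t ≤ d x (u • γ t) + s + δ := by
  have e1 : d (u • x) (u • γ s) = s := by rw [hi, hg.dist_left (by omega)]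
  have e1' : d (u • x) (u • γ t) = t := by rw [hi, hg.dist_left (by omega)]
  have e2 : d (u • γ s) (u • γ t) = t - s := by rw [hi, hg.2.2 s t hst (by omega)]
  set z := u • γ s with hz
  set w := u • γ t with hw
  have t1 := h.tri x z w
  have a1 := gp_add h x (u • x) z
  have a2 := gp_add h (u • x) w z
  have a3 := gp_add h x w z
  have t2 := h.tri (u • x) x z
  have s1 := h.symm (u • x) x
  have s2 := h.symm w z
  have H := hyp_gp h hy (u • x) w x z
  have c := gp_comm h x (u • x) z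
  refine ⟨by omega, ?_⟩
  rcases min_le_iff.1 H with hh | hh <;> omega

theorem w97_hulldisp (h : IsDG d) (hy : Hyp d δ) (hi : IsIso G d) {x y p : X}
    (hb : Btw d x p y) {u : G} {l : ℕ} (hx : d x (u • x) ≤ l) (hyy : d y (u • y) ≤ l) :
    d p (u • p) ≤ l + δ := by
  have hb' : Btw d (u • x) (u • p) (u • y) := by unfold Btw at *; rw [hi, hi, hi, hb]
  have H := near_of_btw h hy hb' p
  rw [hi, hi] at H
  have t1 := h.tri p x (u • x)
  have t2 := h.tri p y (u • y)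
  have s1 := h.symm p x
  have s2 := h.symm p y
  omega

theorem w97_comm (h : IsDG d) (hy : Hyp d δ) (hi : IsIso G d) {x y : X} {γ : ℕ → X}
    (hg : IsGeod d x y γ) {u v : G} {l : ℕ} (hx : d x (u • x) ≤ l) (hyy : d y (u • y) ≤ l)
    (hx' : d x (v • x) ≤ l) (hyy' : d y (v • y) ≤ l) {t : ℕ}
    (h1 : 2 * l + δ + 1 ≤ t) (h2 : t + 2 * l + δ + 1 ≤ d x y) :
    t ≤ d x (u • γ t) + d x (v • γ t) ∧ d x (u • γ t) + d x (v • γ t) - t ≤ d x y ∧
      d ((u * v) • γ t) (γ (d x (u • γ t) + d x (v • γ t) - t)) ≤ 7 * δ := by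
  obtain ⟨p1, p2, p3, -⟩ := w97_mid h hy hi hg hx' hyy' (t := t) (by omega) (by omega)
  obtain ⟨q1, q2, q3, -⟩ := w97_mid h hy hi hg hx hyy (t := t) (by omega) (by omega)
  obtain ⟨r1, r2, r3, -⟩ := w97_mid h hy hi hg hx hyy (t := d x (v • γ t)) (by omega) (by omega)
  refine ⟨by omega, by omega, ?_⟩
  have e1 : d ((u * v) • γ t) (u • γ (d x (v • γ t))) ≤ 3 * δ := by
    rw [mul_smul, hi]; exact p3
  have m : d (γ (d x (u • γ (d x (v • γ t))))) (γ (d x (u • γ t) + d x (v • γ t) - t)) ≤ δ := by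
    rcases le_total t (d x (v • γ t)) with hc | hc
    · obtain ⟨m1, m2⟩ := w97_mid_mono h hy hi hg hx hyy (s := t) (t := d x (v • γ t))
        (by omega) hc (by omega)
      rw [hg.2.2 _ _ (by omega) (by omega)]; omega
    · obtain ⟨m1, m2⟩ := w97_mid_mono h hy hi hg hx hyy (s := d x (v • γ t)) (t := t)
        (by omega) hc (by omega)
      rw [h.symm, hg.2.2 _ _ (by omega) (by omega)]; omega
  have t1 := h.tri ((u * v) • γ t) (u • γ (d x (v • γ t)))
    (γ (d x (u • γ t) + d x (v • γ t) - t))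
  have t2 := h.tri (u • γ (d x (v • γ t))) (γ (d x (u • γ (d x (v • γ t)))))
    (γ (d x (u • γ t) + d x (v • γ t) - t))
  omega

/-- the commutator moves middle points by at most 14 δ -/
theorem w97_comm' (h : IsDG d) (hy : Hyp d δ) (hi : IsIso G d) {x y : X} {γ : ℕ → X}
    (hg : IsGeod d x y γ) {u v : G} {l : ℕ} (hx : d x (u • x) ≤ l) (hyy : d y (u • y) ≤ l)
    (hx' : d x (v • x) ≤ l) (hyy' : d y (v • y) ≤ l) {t : ℕ}
    (h1 : 2 * l + δ + 1 ≤ t) (h2 : t + 2 * l + δ + 1 ≤ d x y) :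
    d (γ t) ((u⁻¹ * v⁻¹ * u * v) • γ t) ≤ 14 * δ := by
  obtain ⟨-, -, p⟩ := w97_comm h hy hi hg hx hyy hx' hyy' h1 h2
  obtain ⟨-, -, q⟩ := w97_comm h hy hi hg hx' hyy' hx hyy h1 h2
  have e : d (γ t) ((u⁻¹ * v⁻¹ * u * v) • γ t) = d ((v * u) • γ t) ((u * v) • γ t) := by
    rw [← hi (v * u), ← mul_smul]; congr 2; group
  rw [e]
  rw [show d x (v • γ t) + d x (u • γ t) - t = d x (u • γ t) + d x (v • γ t) - t by omega] at q
  have t1 := h.tri ((v * u) • γ t) (γ (d x (u • γ t) + d x (v • γ t) - t)) ((u * v) • γ t)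
  have s1 := h.symm ((u * v) • γ t) (γ (d x (u • γ t) + d x (v • γ t) - t))
  omega

/-- displacement of middle points -/
theorem w97_middisp (h : IsDG d) (hy : Hyp d δ) (hi : IsIso G d) {x y : X} {γ : ℕ → X}
    (hg : IsGeod d x y γ) {u : G} {l : ℕ} (hx : d x (u • x) ≤ l) (hyy : d y (u • y) ≤ l) {t : ℕ}
    (h1 : l + δ + 1 ≤ t) (h2 : t + l + δ + 1 ≤ d x y) :
    d (γ t) (u • γ t) + min t (d x (u • γ t)) ≤ max t (d x (u • γ t)) + 3 * δ := by
  obtain ⟨p1, p2, p3, -⟩ := w97_mid h hy hi hg hx hyy h1 h2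
  have t1 := h.tri (γ t) (γ (d x (u • γ t))) (u • γ t)
  have s1 := h.symm (u • γ t) (γ (d x (u • γ t)))
  rcases le_total t (d x (u • γ t)) with hc | hc
  · have := hg.2.2 t (d x (u • γ t)) hc (by omega)
    omega
  · have := hg.2.2 (d x (u • γ t)) t hc (by omega)
    have s2 := h.symm (γ t) (γ (d x (u • γ t)))
    omega

/-- 4.2.2 -/
theorem w97_nonlox (h : IsDG d) (hy : Hyp d δ) (hi : IsIso G d) {x y : X} {γ : ℕ → X}
    (hg : IsGeod d x y γ) {u : G}
    (hnl : ∀ p : X, d p (u ^ 2 • p) ≤ d p (u • p) + δ)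
    {l : ℕ} (hx : d x (u • x) ≤ l) (hyy : d y (u • y) ≤ l) {t : ℕ}
    (h1 : 2 * l + δ + 1 ≤ t) (h2 : t + 2 * l + δ + 1 ≤ d x y) :
    d (γ t) (u • γ t) ≤ 14 * δ := by
  obtain ⟨a1, a2, a3⟩ := w97_comm h hy hi hg hx hyy hx hyy h1 h2
  have b := w97_middisp h hy hi hg hx hyy (t := t) (by omega) (by omega)
  have c := hnl (γ t)
  rw [pow_two] at c
  have t1 := h.tri (γ t) ((u * u) • γ t) (γ (d x (u • γ t) + d x (u • γ t) - t))
  have e : d (γ t) (γ (d x (u • γ t) + d x (u • γ t) - t)) + min t (d x (u • γ t)) +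
      min t (d x (u • γ t)) = max t (d x (u • γ t)) + max t (d x (u • γ t)) := by
    rcases le_total t (d x (u • γ t)) with hc | hc
    · rw [hg.2.2 t _ (by omega) (by omega)]; omega
    · rw [h.symm, hg.2.2 _ t (by omega) (by omega)]; omega
  omega

end Pool.Agent.BURN
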