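import Pool.Agent.BURN.Stmts2

/-! Section 4: constants and the inequalities used. The constants are obtained by
`Classical.choose`, so that no closed term can ever be evaluated. -/

namespace Pool.Agent.BURN

theorem ex_dd : ∃ n : ℕ, n = dq1 del1 (2 * f3 + 1) (2 * f3) := ⟨_, rfl⟩
noncomputable def dd : ℕ := Classical.choose ex_dd
theorem dd_eq : dd = dq1 del1 (2 * f3 + 1) (2 * f3) := Classical.choose_spec ex_dd

theorem ex_M2 : ∃ n : ℕ, n = 2 ^ (202 * dd) := ⟨_, rfl⟩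
noncomputable def M2 : ℕ := Classical.choose ex_M2
theorem M2_eq : M2 = 2 ^ (202 * dd) := Classical.choose_spec ex_M2

theorem ex_Om : ∃ n : ℕ, n = 8 * (M2 + 60) := ⟨_, rfl⟩
noncomputable def Om : ℕ := Classical.choose ex_Om
theorem Om_eq : Om = 8 * (M2 + 60) := Classical.choose_spec ex_Om

theorem ex_s2 : ∃ n : ℕ, n = Nat.clog 2 Om := ⟨_, rfl⟩
noncomputable def s2 : ℕ := Classical.choose ex_s2
theorem s2_eq : s2 = Nat.clog 2 Om := Classical.choose_spec ex_s2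

theorem ex_s3 : ∃ n : ℕ, n = s2 + 3 * f3 + 250 := ⟨_, rfl⟩
noncomputable def s3 : ℕ := Classical.choose ex_s3
theorem s3_eq : s3 = s2 + 3 * f3 + 250 := Classical.choose_spec ex_s3

theorem ex_M1 : ∃ n : ℕ, n = 2 ^ (4 * dd) + dd + 2 := ⟨_, rfl⟩
noncomputable def M1 : ℕ := Classical.choose ex_M1
theorem M1_eq : M1 = 2 ^ (4 * dd) + dd + 2 := Classical.choose_spec ex_M1

theorem ex_N0 : ∃ n : ℕ, n = aa0 del1 (2 * f3 + 1) (2 * f3) + 200 * dd + 10 := ⟨_, rfl⟩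
noncomputable def N0 : ℕ := Classical.choose ex_N0
theorem N0_eq : N0 = aa0 del1 (2 * f3 + 1) (2 * f3) + 200 * dd + 10 := Classical.choose_spec ex_N0

theorem ex_rho : ∃ n : ℕ, n = f3 + 20 + sig0 del1 (2 * f3 + 1) (2 * f3) + N0 + M1 + M2 + s3 +
  del1 + eta1 del1 (2 * f3) + 1000 * dd := ⟨_, rfl⟩
noncomputable def rho : ℕ := Classical.choose ex_rho
theorem rho_eq : rho = f3 + 20 + sig0 del1 (2 * f3 + 1) (2 * f3) + N0 + M1 + M2 + s3 +
  del1 + eta1 del1 (2 * f3) + 1000 * dd := Classical.choose_spec ex_rho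

theorem ex_A1 : ∃ n : ℕ, n = 100 * dd + 2 ^ (200 * dd) + Om + f3 + 60 + 2 * dd := ⟨_, rfl⟩
noncomputable def A1 : ℕ := Classical.choose ex_A1
theorem A1_eq : A1 = 100 * dd + 2 ^ (200 * dd) + Om + f3 + 60 + 2 * dd := Classical.choose_spec ex_A1

theorem ex_A0 : ∃ n : ℕ, n = 2 ^ (101 * dd + 3) + 400 * dd + 4 * rho + 4 * M1 + 100 := ⟨_, rfl⟩
noncomputable def A0 : ℕ := Classical.choose ex_A0
theorem A0_eq : A0 = 2 ^ (101 * dd + 3) + 400 * dd + 4 * rho + 4 * M1 + 100 := Classical.choose_spec ex_A0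

theorem ex_Lam : ∃ n : ℕ, n = A0 + A1 + 100 * dd + 4 := ⟨_, rfl⟩
noncomputable def Lam : ℕ := Classical.choose ex_Lam
theorem Lam_eq : Lam = A0 + A1 + 100 * dd + 4 := Classical.choose_spec ex_Lam

theorem ex_Rr : ∃ n : ℕ, n = Lam * 2 ^ s3 := ⟨_, rfl⟩
noncomputable def Rr : ℕ := Classical.choose ex_Rr
theorem Rr_eq : Rr = Lam * 2 ^ s3 := Classical.choose_spec ex_Rr

theorem ex_n0 : ∃ n : ℕ, n = Rr * Lam * 2 ^ (rho + 7) := ⟨_, rfl⟩
noncomputable def n0 : ℕ := Classical.choose ex_n0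
theorem n0_eq : n0 = Rr * Lam * 2 ^ (rho + 7) := Classical.choose_spec ex_n0

theorem Om_le : Om ≤ 2 ^ s2 := by
  rw [s2_eq]; exact Nat.le_pow_clog (by norm_num) _

theorem f3_ge : 1000 ≤ f3 := by unfold f3; norm_num

theorem del1_pos : 1 ≤ del1 := by unfold del1 Dlt; omega

theorem dd_gen (e g a b : ℕ) : e ≤ Dlt (4 * ee3 e (2 * g) + 2 * a + e + 2 + b + 2) ∧
    g ≤ Dlt (4 * ee3 e (2 * g) + 2 * a + e + 2 + b + 2) := by
  unfold Dlt ee3 eta1 tht BB eta bet1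
  constructor
  · nlinarith [Nat.zero_le e, Nat.zero_le g, Nat.zero_le a, Nat.zero_le b]
  · nlinarith [Nat.zero_le e, Nat.zero_le g, Nat.zero_le a, Nat.zero_le b]

theorem del1_le_dd : del1 ≤ dd := by
  rw [dd_eq]; unfold dq1 CL
  exact (dd_gen del1 f3 (aa0 del1 (2 * f3 + 1) (2 * f3)) (CT del1 (2 * f3))).1

theorem f3_le_dd : f3 ≤ dd := by
  rw [dd_eq]; unfold dq1 CL
  exact (dd_gen del1 f3 (aa0 del1 (2 * f3 + 1) (2 * f3)) (CT del1 (2 * f3))).2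

theorem dd_ge : 1000 ≤ dd := f3_ge.trans f3_le_dd

theorem Lam_pos : 1 ≤ Lam := by rw [Lam_eq]; omega
theorem Rr_pos : 1 ≤ Rr := by
  rw [Rr_eq]; exact Nat.mul_pos Lam_pos (Nat.two_pow_pos _)
theorem Lam_le_Rr : Lam ≤ Rr := by
  rw [Rr_eq]; exact Nat.le_mul_of_pos_right _ (Nat.two_pow_pos _)
theorem n0_pos : 1 ≤ n0 := by
  rw [n0_eq]
  exact Nat.mul_pos (Nat.mul_pos Rr_pos Lam_pos) (Nat.two_pow_pos _)

theorem pow_4dd_le_M2 : 2 ^ (4 * dd) ≤ M2 := by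
  rw [M2_eq]; exact Nat.pow_le_pow_right (by norm_num) (by omega)
theorem pow_200dd_le_M2 : 2 ^ (200 * dd) ≤ M2 := by
  rw [M2_eq]; exact Nat.pow_le_pow_right (by norm_num) (by omega)
theorem pow_101dd_le_M2 : 2 ^ (101 * dd) ≤ M2 := by
  rw [M2_eq]; exact Nat.pow_le_pow_right (by norm_num) (by omega)
theorem pow_6dd_le_M2 : 2 ^ (6 * dd + 2) ≤ M2 := by
  rw [M2_eq]; exact Nat.pow_le_pow_right (by norm_num) (by have := dd_ge; omega)

/-- bet1 ≤ aa0, alp1 ≤ aa0, 2 f3 + 1 ≤ aa0, eta1 ≤ aa0 -/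
theorem aa0_ge : bet1 del1 (2 * f3) ≤ aa0 del1 (2 * f3 + 1) (2 * f3) ∧
    alp1 del1 (2 * f3 + 1) (2 * f3) ≤ aa0 del1 (2 * f3 + 1) (2 * f3) ∧
    2 * f3 + 1 ≤ aa0 del1 (2 * f3 + 1) (2 * f3) ∧
    eta1 del1 (2 * f3) ≤ aa0 del1 (2 * f3 + 1) (2 * f3) := by
  generalize del1 = e
  generalize f3 = g
  unfold aa0 alp1 eta1 tht BB eta bet1
  refine ⟨?_, ?_, ?_, ?_⟩ <;> omega

end Pool.Agent.BURN
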