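import Pool.Agent.BURN.Defs

/-! Section 0 and 1.1-1.3 of the blueprint. -/

namespace Pool.Agent.BURN

variable {X : Type} {d : X → X → ℕ} {δ : ℕ}

theorem gp_comm (h : IsDG d) (x y z : X) : gp d x y z = gp d y x z := by
  unfold gp; rw [h.symm x y]; omega

theorem gp_add (h : IsDG d) (x y z : X) : gp d x y z + d x y = d x z + d y z := by
  unfold gp; have := h.tri x z y; rw [h.symm z y] at this; omega

theorem gp_self (h : IsDG d) (x z : X) : gp d x x z = 2 * d x z := by
  have := gp_add h x x z; have h0 := (h.eq_zero x x).2 rfl; omega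

theorem gp_le_left (h : IsDG d) (x y z : X) : gp d x y z ≤ 2 * d x z := by
  have := gp_add h x y z; have := h.tri y x z; rw [h.symm y x] at this; omega

theorem gp_le_right (h : IsDG d) (x y z : X) : gp d x y z ≤ 2 * d y z := by
  rw [gp_comm h]; exact gp_le_left h y x z

theorem gp_add_gp (h : IsDG d) (x y z : X) : gp d x y z + gp d z y x = 2 * d x z := by
  have := gp_add h x y z; have := gp_add h z y x
  rw [h.symm z x, h.symm y x, h.symm z y] at this
  omega

theorem gp_right_self (h : IsDG d) (x y : X) : gp d x y y = 0 := by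
  have := gp_add h x y y; have h0 := (h.eq_zero y y).2 rfl; omega

theorem gp_left_self (h : IsDG d) (x y : X) : gp d x y x = 0 := by
  rw [gp_comm h]; exact gp_right_self h y x

theorem btw_iff (h : IsDG d) (x p y : X) : Btw d x p y ↔ gp d x y p = 0 := by
  have := gp_add h x y p; unfold Btw; rw [h.symm p y]; omega

theorem btw_symm (h : IsDG d) {x p y : X} (hb : Btw d x p y) : Btw d y p x := by
  unfold Btw at *; rw [h.symm y p, h.symm p x, h.symm y x]; omega

/-- (*) of section 0 -/
theorem gp_mono (h : IsDG d) {x p y : X} (hb : Btw d x p y) (c : X) : gp d x y c ≤ gp d p y c := by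
  have h1 := gp_add h x y c; have h2 := gp_add h p y c
  have h3 := h.tri x p c
  unfold Btw at hb; omega

theorem gp_le_of_near (h : IsDG d) (x x' y z : X) : gp d x y z ≤ gp d x' y z + 2 * d x x' := by
  have h1 := gp_add h x y z; have h2 := gp_add h x' y z
  have h3 := h.tri x x' z; have h4 := h.tri x' x y; rw [h.symm x' x] at h4; omega

theorem gp_le_of_near_right (h : IsDG d) (x y y' z : X) :
    gp d x y z ≤ gp d x y' z + 2 * d y y' := by
  rw [gp_comm h x y, gp_comm h x y']; exact gp_le_of_near h y y' x z

theorem gp_le_of_near_base (h : IsDG d) (x y z z' : X) :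
    gp d x y z ≤ gp d x y z' + 2 * d z z' := by
  have h1 := gp_add h x y z; have h2 := gp_add h x y z'
  have h3 := h.tri x z' z; have h4 := h.tri y z' z; rw [h.symm z' z] at h3 h4; omega

/-- (H): the Gromov product form of hyperbolicity -/
theorem hyp_gp (h : IsDG d) (hy : Hyp d δ) (x y z p : X) :
    min (gp d x z p) (gp d z y p) ≤ gp d x y p + δ := by
  have h1 := gp_add h x z p; have h2 := gp_add h z y p; have h3 := gp_add h x y p
  have h4 := hy x y z p
  rw [h.symm y p, h.symm y z, h.symm z p] at h4
  rw [h.symm y p] at h2 h3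
  rw [h.symm z p] at h1 h2
  omega

theorem isIso_gp {G : Type} [Group G] [MulAction G X] (hi : IsIso G d) (g : G) (x y z : X) :
    gp d (g • x) (g • y) (g • z) = gp d x y z := by
  unfold gp; rw [hi, hi, hi]

/-- 1.1 -/
theorem near_of_btw (h : IsDG d) (hy : Hyp d δ) {x p y : X} (hb : Btw d x p y) (z : X) :
    d z p + d x p ≤ d z x + δ ∨ d z p + d y p ≤ d z y + δ := by
  have h4 := hy z p x y
  unfold Btw at hb
  rw [h.symm p y, h.symm p x] at h4
  rw [h.symm p y] at hb
  omega

theorem exists_geod (h : IsDG d) (x y : X) : ∃ g, IsGeod d x y g := by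
  have key : ∀ n (x y : X), d x y = n → ∃ g : ℕ → X, g 0 = x ∧ g n = y ∧
      ∀ i j, i ≤ j → j ≤ n → d (g i) (g j) = j - i := by
    intro n
    induction n with
    | zero =>
      intro x y hxy
      have hx := (h.eq_zero x y).1 hxy
      refine ⟨fun _ => x, rfl, hx, ?_⟩
      intro i j hij hj
      have : j - i = 0 := by omega
      rw [this]; exact (h.eq_zero x x).2 rfl
    | succ n ih =>
      intro x y hxy
      obtain ⟨z, hz1, hz2⟩ := h.geo x y 1 (by omega)
      obtain ⟨g, g0, gn, gd⟩ := ih z y (by omega)
      refine ⟨fun i => if i = 0 then x else g (i - 1), by simp, ?_, ?_⟩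
      · simp [gn]
      · intro i j hij hj
        by_cases hi : i = 0
        · by_cases hj0 : j = 0
          · simp [hi, hj0, (h.eq_zero x x).2 rfl]
          · simp only [hi, hj0, if_true, if_false]
            have e1 : d z (g (j-1)) = j - 1 := by
              have := gd 0 (j-1) (by omega) (by omega); rw [g0] at this; omega
            have e2 : d (g (j-1)) y = n - (j - 1) := by
              have := gd (j-1) n (by omega) (by omega); rw [gn] at this; omega
            have t1 := h.tri x z (g (j-1))
            have t2 := h.tri x (g (j-1)) y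
            omega
        · have hj0 : j ≠ 0 := by omega
          simp only [hi, hj0, if_false]
          rw [gd (i-1) (j-1) (by omega) (by omega)]; omega
  exact key _ x y rfl

theorem IsGeod.btw {x y : X} {g : ℕ → X} (hg : IsGeod d x y g) {i j k : ℕ}
    (hij : i ≤ j) (hjk : j ≤ k) (hk : k ≤ d x y) : Btw d (g i) (g j) (g k) := by
  unfold Btw; rw [hg.2.2 i j hij (by omega), hg.2.2 j k hjk hk, hg.2.2 i k (by omega) hk]; omega

/-- a geodesic path through a given point of the interval -/
theorem exists_geod_through (h : IsDG d) {x p y : X} (hb : Btw d x p y) :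
    ∃ g, IsGeod d x y g ∧ g (d x p) = p := by
  obtain ⟨g1, a0, a1, a2⟩ := exists_geod h x p
  obtain ⟨g2, b0, b1, b2⟩ := exists_geod h p y
  unfold Btw at hb
  refine ⟨fun i => if i ≤ d x p then g1 i else g2 (i - d x p), ⟨?_, ?_, ?_⟩, ?_⟩
  · simp [a0]
  · by_cases hh : d x y ≤ d x p
    · have e : d p y = 0 := by omega
      have e' := (h.eq_zero _ _).1 e
      have e2 : d x y = d x p := by omega
      simp only [e2, le_refl, if_true]; rw [a1]; exact e'
    · simp only [hh, if_false]
      have : d x y - d x p = d p y := by omega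
      rw [this]; exact b1
  · intro i j hij hj
    by_cases hi : i ≤ d x p
    · by_cases hj' : j ≤ d x p
      · simp only [hi, hj', if_true]; exact a2 i j hij hj'
      · simp only [hi, hj', if_true, if_false]
        have e1 : d x (g1 i) = i := by have := a2 0 i (by omega) hi; rw [a0] at this; omega
        have e2 : d (g1 i) p = d x p - i := by have := a2 i _ hi le_rfl; rw [a1] at this; omega
        have e3 : d p (g2 (j - d x p)) = j - d x p := by
          have := b2 0 (j - d x p) (by omega) (by omega); rw [b0] at this; omega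
        have e4 : d (g2 (j - d x p)) y = d x y - j := by
          have := b2 (j - d x p) _ (by omega) le_rfl; rw [b1] at this; omega
        have t1 := h.tri (g1 i) p (g2 (j - d x p))
        have t2 := h.tri x (g1 i) (g2 (j - d x p))
        have t3 := h.tri x (g2 (j - d x p)) y
        omega
    · have hj' : ¬ j ≤ d x p := by omega
      simp only [hi, hj', if_false]
      rw [b2 (i - d x p) (j - d x p) (by omega) (by omega)]; omega
  · simp [a1]

theorem IsGeod.dist_left {x y : X} {g : ℕ → X} (hg : IsGeod d x y g) {i : ℕ} (hi : i ≤ d x y) :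
    d x (g i) = i := by
  have := hg.2.2 0 i (by omega) hi; rw [hg.1] at this; omega

theorem IsGeod.dist_right {x y : X} {g : ℕ → X} (hg : IsGeod d x y g) {i : ℕ} (hi : i ≤ d x y) :
    d (g i) y = d x y - i := by
  have := hg.2.2 i _ hi le_rfl; rw [hg.2.1] at this; omega

theorem IsGeod.btw' {x y : X} {g : ℕ → X} (hg : IsGeod d x y g) {i : ℕ}
    (hi : i ≤ d x y) : Btw d x (g i) y := by
  unfold Btw; rw [hg.dist_left hi, hg.dist_right hi]; omega

/-- 1.2 -/
theorem near_geod (h : IsDG d) (hy : Hyp d δ) {x y : X} {g : ℕ → X} (hg : IsGeod d x y g)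
    (z : X) : gp d y z x / 2 ≤ d x y ∧ d z (g (gp d y z x / 2)) ≤ (gp d x y z + 1) / 2 + δ := by
  have h0 : gp d y z x ≤ 2 * d y x := gp_le_left h y z x
  rw [h.symm y x] at h0
  have ht : gp d y z x / 2 ≤ d x y := by omega
  refine ⟨ht, ?_⟩
  have e1 := hg.dist_left ht
  have e2 := hg.dist_right ht
  have hb := near_of_btw h hy (hg.btw' ht) z
  have g1 := gp_add h y z x
  have g2 := gp_add h x y z
  rw [h.symm y x, h.symm z x] at g1
  rw [h.symm y (g _), h.symm z x, h.symm z y] at hb
  rw [h.symm y z] at g1 hb
  rw [h.symm y z] at g2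
  rw [e1, e2] at hb
  omega

theorem gp_le_of_btw (h : IsDG d) {x p y : X} (hb : Btw d x p y) (z : X) :
    gp d x y z ≤ 2 * d z p := by
  have := gp_le_of_near_base h x y z p
  rw [(btw_iff h x p y).1 hb] at this; omega

/-- 1.3, same endpoints -/
theorem btw_near (h : IsDG d) (hy : Hyp d δ) {x y p q : X} (hp : Btw d x p y) (hq : Btw d x q y)
    (e : d x p = d x q) : d p q ≤ δ := by
  have := near_of_btw h hy hp q
  unfold Btw at *
  rw [h.symm q p, h.symm q x, h.symm q y, h.symm y q, h.symm y p] at this
  omega

/-- 1.3, fellow travelling -/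
theorem fellow (h : IsDG d) (hy : Hyp d δ) {x y y' p q : X} (hp : Btw d x p y)
    (hq : Btw d x q y') (e : d x p = d x q) (ht : 2 * d x p ≤ gp d y y' x) :
    d p q ≤ 2 * δ := by
  have a1 : gp d p y x = 2 * d x p := by
    have := gp_add h p y x; unfold Btw at hp; rw [h.symm p x, h.symm y x] at this; omega
  have a2 : gp d q y' x = 2 * d x q := by
    have := gp_add h q y' x; unfold Btw at hq; rw [h.symm q x, h.symm y' x] at this; omega
  have b1 := hyp_gp h hy p y' y x
  have b2 := hyp_gp h hy p q y' x
  rw [gp_comm h y' q] at b2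
  have g := gp_add h p q x
  rw [h.symm p x, h.symm q x] at g
  omega

end Pool.Agent.BURN
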