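import Pool.Agent.BURN.Stmts2
import Pool.Agent.BURN.Basic

/-! 3.9: the group action on the cone-off. -/

namespace Pool.Agent.BURN

namespace GamActAux

theorem dist_le_of_hom {A : Type} (H : SimpleGraph A) (f : A → A)
    (hf : ∀ u v, H.Adj u v → H.Adj (f u) (f v)) (u v : A) (hr : H.Reachable u v) :
    H.dist (f u) (f v) ≤ H.dist u v ∧ H.Reachable (f u) (f v) := by
  obtain ⟨p, hp⟩ := hr.exists_walk_length_eq_dist
  let F : H →g H := ⟨f, fun {a b} h => hf a b h⟩
  constructor
  · have h1 : H.dist (f u) (f v) ≤ (p.map F).length := SimpleGraph.dist_le _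
    rw [SimpleGraph.Walk.length_map, hp] at h1
    exact h1
  · exact ⟨p.map F⟩

theorem dist_eq_of_equiv {A : Type} (H : SimpleGraph A) (f f' : A → A)
    (hf : ∀ u v, H.Adj u v → H.Adj (f u) (f v)) (hf' : ∀ u v, H.Adj u v → H.Adj (f' u) (f' v))
    (hff : ∀ u, f' (f u) = u) (u v : A) :
    H.dist (f u) (f v) = H.dist u v := by
  by_cases hr : H.Reachable u v
  · obtain ⟨h1, h2⟩ := dist_le_of_hom H f hf u v hr
    obtain ⟨h3, _⟩ := dist_le_of_hom H f' hf' _ _ h2
    rw [hff, hff] at h3
    exact le_antisymm h1 h3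
  · have hr' : ¬ H.Reachable (f u) (f v) := by
      intro h
      obtain ⟨_, h4⟩ := dist_le_of_hom H f' hf' _ _ h
      rw [hff, hff] at h4
      exact hr h4
    rw [SimpleGraph.dist_eq_zero_of_not_reachable hr,
      SimpleGraph.dist_eq_zero_of_not_reachable hr']

end GamActAux

theorem gamAct_proof : Stmt_GamAct := by
  intro G V I _ _ _ D Y ρ hcd hiso hY
  have hok : ∀ (g : G) (u : CV V I), CVOk Y ρ u → CVOk Y ρ (g • u) := by
    intro g u hu
    cases u with
    | b v => trivial
    | c i y s => exact ⟨hY g i y hu.1, hu.2⟩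
    | a i => trivial
  have h1 : ∀ u : CV V I, (1 : G) • u = u := by
    intro u
    cases u with
    | b v => exact congrArg CV.b (one_smul G v)
    | c i y s =>
      show CV.c ((1 : G) • i) ((1 : G) • y) s = CV.c i y s
      rw [one_smul, one_smul]
    | a i => exact congrArg CV.a (one_smul G i)
  have hm : ∀ (g h : G) (u : CV V I), (g * h) • u = g • (h • u) := by
    intro g h u
    cases u with
    | b v => exact congrArg CV.b (mul_smul g h v)
    | c i y s =>
      show CV.c ((g * h) • i) ((g * h) • y) s = CV.c (g • h • i) (g • h • y) s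
      rw [mul_smul, mul_smul]
    | a i => exact congrArg CV.a (mul_smul g h i)
  have hadj : ∀ (g : G) (u w : CV V I), CAdj D ρ u w → CAdj D ρ (g • u) (g • w) := by
    intro g u w h
    cases u with
    | b x =>
      cases w with
      | b x' => show D (g • x) (g • x') = 1; rw [hiso]; exact h
      | c i y s => exact ⟨h.1, congrArg (g • ·) h.2⟩
      | a i => exact h
    | c i y s =>
      cases w with
      | b x' => exact ⟨h.1, congrArg (g • ·) h.2⟩
      | c j y' s' =>
        obtain ⟨e, h2⟩ := h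
        refine ⟨congrArg (g • ·) e, ?_⟩
        rcases h2 with ⟨e2, h3⟩ | ⟨e2, h3⟩
        · exact Or.inl ⟨congrArg (g • ·) e2, h3⟩
        · right
          rw [hiso]
          exact ⟨e2, h3⟩
      | a j => exact ⟨congrArg (g • ·) h.1, h.2⟩
    | a i =>
      cases w with
      | b x' => exact h
      | c j y' s' => exact ⟨congrArg (g • ·) h.1, h.2⟩
      | a j => exact h
  let act : MulAction G (Gam Y ρ) :=
    { smul := fun g u => ⟨g • u.1, hok g u.1 u.2⟩
      one_smul := fun u => Subtype.ext (h1 u.1)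
      mul_smul := fun g h u => Subtype.ext (hm g h u.1) }
  refine ⟨act, fun g u => rfl, ?_⟩
  intro g u w
  have hadj' : ∀ (g : G) (u w : Gam Y ρ),
      (SimpleGraph.fromRel (fun u w : Gam Y ρ => CAdj D ρ u.1 w.1)).Adj u w →
      (SimpleGraph.fromRel (fun u w : Gam Y ρ => CAdj D ρ u.1 w.1)).Adj (g • u) (g • w) := by
    intro g u w h
    rw [SimpleGraph.fromRel_adj] at h ⊢
    refine ⟨fun e => h.1 (MulAction.injective g e), ?_⟩
    exact h.2.imp (hadj g _ _) (hadj g _ _)
  exact GamActAux.dist_eq_of_equiv _ (g • ·) (g⁻¹ • ·) (hadj' g) (hadj' g⁻¹)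
    (fun u => inv_smul_smul g u) u w

end Pool.Agent.BURN
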