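import Pool.Agent.BURN.Basic

/-! 4.3 stable length -/

namespace Pool.Agent.BURN.W97

open Filter Topology

variable {G X : Type} [Group G] [MulAction G X] {d : X → X → ℕ}

/-- stable length of g (independent of x) -/
noncomputable def wlen (d : X → X → ℕ) (g : G) (x : X) : ℝ :=
  sInf ((fun n : ℕ => ((d x (g ^ n • x) : ℕ) : ℝ) / n) '' Set.Ici 1)

theorem wlen_subadd (h : IsDG d) (hi : IsIso G d) (g : G) (x : X) :
    Subadditive (fun n : ℕ => ((d x (g ^ n • x) : ℕ) : ℝ)) := by
  intro m n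
  have t := h.tri x (g ^ m • x) (g ^ (m + n) • x)
  rw [pow_add, mul_smul, hi] at t
  show ((d x (g ^ (m + n) • x) : ℕ) : ℝ) ≤ ((d x (g ^ m • x) : ℕ) : ℝ) + ((d x (g ^ n • x) : ℕ) : ℝ)
  rw [pow_add, mul_smul]
  exact_mod_cast t

theorem wlen_eq (h : IsDG d) (hi : IsIso G d) (g : G) (x : X) :
    (wlen_subadd h hi g x).lim = wlen d g x := by
  rw [Subadditive.lim]; rfl

theorem wlen_tendsto (h : IsDG d) (hi : IsIso G d) (g : G) (x : X) :
    Tendsto (fun n : ℕ => ((d x (g ^ n • x) : ℕ) : ℝ) / n) atTop (𝓝 (wlen d g x)) := by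
  have := (wlen_subadd h hi g x).tendsto_lim ⟨0, by
    rintro _ ⟨n, rfl⟩; positivity⟩
  rw [wlen_eq h hi] at this
  exact this

theorem wlen_nonneg (h : IsDG d) (hi : IsIso G d) (g : G) (x : X) : 0 ≤ wlen d g x :=
  ge_of_tendsto' (wlen_tendsto h hi g x) (fun n => by positivity)

theorem wlen_le (h : IsDG d) (hi : IsIso G d) (g : G) (x : X) : wlen d g x ≤ d x (g • x) := by
  have := (wlen_subadd h hi g x).lim_le_div (n := 1) ⟨0, by
    rintro _ ⟨n, rfl⟩; positivity⟩ one_ne_zero
  rw [wlen_eq h hi] at this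
  simpa using this

theorem wlen_indep (h : IsDG d) (hi : IsIso G d) (g : G) (x y : X) :
    wlen d g x = wlen d g y := by
  have h1 := wlen_tendsto h hi g x
  have h2 := wlen_tendsto h hi g y
  have h3 : Tendsto (fun n : ℕ => (2 * (d x y : ℝ)) / n) atTop (𝓝 0) :=
    tendsto_const_div_atTop_nhds_zero_nat _
  have key : ∀ (a b : X) (n : ℕ), ((d a (g ^ n • a) : ℕ) : ℝ) / n ≤
      ((d b (g ^ n • b) : ℕ) : ℝ) / n + (2 * (d a b : ℝ)) / n := by
    intro a b n
    rw [← add_div]
    apply div_le_div_of_nonneg_right _ (by positivity)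
    have t1 := h.tri a b (g ^ n • a)
    have t2 := h.tri b (g ^ n • b) (g ^ n • a)
    rw [hi] at t2
    have s := h.symm a b
    have : d a (g ^ n • a) ≤ d b (g ^ n • b) + 2 * d a b := by omega
    exact_mod_cast this
  apply le_antisymm
  · have := h2.add h3
    rw [add_zero] at this
    exact le_of_tendsto_of_tendsto' h1 this (fun n => key x y n)
  · have := h1.add h3
    rw [add_zero] at this
    refine le_of_tendsto_of_tendsto' h2 this (fun n => ?_)
    rw [h.symm x y]; exact key y x n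

theorem wlen_conj (h : IsDG d) (hi : IsIso G d) (g k : G) (x : X) :
    wlen d (k * g * k⁻¹) x = wlen d g x := by
  rw [wlen_indep h hi g x (k⁻¹ • x)]
  have h1 := wlen_tendsto h hi (k * g * k⁻¹) x
  have h2 := wlen_tendsto h hi g (k⁻¹ • x)
  refine tendsto_nhds_unique h1 (h2.congr (fun n => ?_))
  have : d (k⁻¹ • x) (g ^ n • k⁻¹ • x) = d x ((k * g * k⁻¹) ^ n • x) := by
    rw [conj_pow, ← hi k, smul_inv_smul, ← mul_smul, ← mul_smul, mul_assoc]
  rw [this]

theorem wlen_pow (h : IsDG d) (hi : IsIso G d) (g : G) (x : X) (k : ℕ) :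
    wlen d (g ^ k) x = k * wlen d g x := by
  have h1 := wlen_tendsto h hi (g ^ k) x
  rcases Nat.eq_zero_or_pos k with rfl | hk
  · simp only [pow_zero, Nat.cast_zero, zero_mul]
    have h0 : d x x = 0 := (h.eq_zero x x).2 rfl
    refine tendsto_nhds_unique (wlen_tendsto h hi (1 : G) x) ?_
    simp [h0]
  · have h2 := (wlen_tendsto h hi g x).comp (tendsto_id.const_mul_atTop' hk)
    have h3 := h2.const_mul (k : ℝ)
    refine tendsto_nhds_unique h1 (h3.congr' ?_)
    filter_upwards [eventually_gt_atTop 0] with n hn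
    have hk' : (k : ℝ) ≠ 0 := by positivity
    have hn' : (n : ℝ) ≠ 0 := by positivity
    simp only [Function.comp, id]
    rw [pow_mul]
    push_cast
    field_simp

theorem wlen_inv (h : IsDG d) (hi : IsIso G d) (g : G) (x : X) :
    wlen d g⁻¹ x = wlen d g x := by
  refine tendsto_nhds_unique (wlen_tendsto h hi g⁻¹ x)
    ((wlen_tendsto h hi g x).congr (fun n => ?_))
  have : d x (g ^ n • x) = d x (g⁻¹ ^ n • x) := by
    rw [← hi (g⁻¹ ^ n) x (g ^ n • x), ← mul_smul]
    rw [show g⁻¹ ^ n * g ^ n = 1 by simp, one_smul, h.symm]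
  rw [this]

theorem wlen_zpow (h : IsDG d) (hi : IsIso G d) (g : G) (x : X) (k : ℤ) :
    wlen d (g ^ k) x = |(k : ℝ)| * wlen d g x := by
  rcases Int.eq_nat_or_neg k with ⟨n, rfl | rfl⟩
  · rw [zpow_natCast, wlen_pow h hi]; simp
  · rw [zpow_neg, zpow_natCast, wlen_inv h hi, wlen_pow h hi]; simp

theorem wlen_ge (h : IsDG d) (hi : IsIso G d) {g : G} {x : X} {R : ℕ}
    (H : ∀ m : ℕ, m ≤ R * d x (g ^ m • x)) : 1 ≤ R * wlen d g x := by
  have h1 := (wlen_tendsto h hi g x).const_mul (R : ℝ)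
  refine ge_of_tendsto h1 ?_
  filter_upwards [eventually_gt_atTop 0] with n hn
  have hn' : (0 : ℝ) < n := by positivity
  rw [← mul_div_assoc, le_div_iff₀ hn', one_mul]
  exact_mod_cast H n

theorem wlen_torsion (h : IsDG d) (hi : IsIso G d) {g : G} {x : X} {N : ℕ} (hN : 0 < N)
    (H : g ^ N = 1) : wlen d g x = 0 := by
  have h1 := wlen_pow h hi g x N
  rw [H] at h1
  have h0 := wlen_pow h hi g x 0
  rw [pow_zero] at h0
  have : (N : ℝ) * wlen d g x = 0 := by rw [← h1, h0]; simp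
  rcases mul_eq_zero.1 this with h2 | h2
  · exfalso; have : (0 : ℝ) < N := by positivity
    linarith
  · exact h2

/-- positive stable length is loxodromic -/
theorem lox_of_wlen (h : IsDG d) (hi : IsIso G d) {g : G} {x : X} (H : 0 < wlen d g x) :
    Lox d g := by
  intro y B
  rw [wlen_indep h hi g x y] at H
  by_contra hc
  push Not at hc
  have h1 := wlen_tendsto h hi g y
  have h3 : Tendsto (fun n : ℕ => (B : ℝ) / n) atTop (𝓝 0) :=
    tendsto_const_div_atTop_nhds_zero_nat _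
  have := le_of_tendsto_of_tendsto' h1 h3 (fun n => by
    apply div_le_div_of_nonneg_right _ (by positivity)
    exact_mod_cast hc n)
  linarith

end Pool.Agent.BURN.W97
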