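import Pool.Agent.BURN.Defs

/-! Exact statements of the modules of sections 1 and 2 of the blueprint.
For each `Stmt_Foo` the file `Pool/Agent/BURN/Foo.lean` must prove `theorem Foo_proof : Stmt_Foo`
(possibly with other `Stmt_Bar` as hypotheses, listed in the module table). -/

namespace Pool.Agent.BURN

/-- 1.4 broken geodesics. x 0, ..., x n; products at interior vertices ≤ a;
interior segments longer than a + δ. (n ≥ 2.) -/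
def Stmt_LGa : Prop := ∀ (X : Type) (d : X → X → ℕ) (δ a n : ℕ) (x : ℕ → X), IsDG d → Hyp d δ →
  2 ≤ n →
  (∀ i, 1 ≤ i → i + 1 ≤ n → gp d (x (i - 1)) (x (i + 1)) (x i) ≤ a) →
  (∀ i, 1 ≤ i → i + 2 ≤ n → a + δ < d (x i) (x (i + 1))) →
  gp d (x 0) (x n) (x (n - 1)) ≤ a + δ ∧ gp d (x 0) (x n) (x 1) ≤ a + δ ∧
  (∀ m, m + 1 ≤ n → (∑ i ∈ Finset.range (m + 1), d (x i) (x (i + 1))) ≤
    d (x 0) (x (m + 1)) + m * (a + δ))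

/-- 1.4(b): needs slightly longer interior segments -/
def Stmt_LGb : Prop := ∀ (X : Type) (d : X → X → ℕ) (δ a n : ℕ) (x : ℕ → X), IsDG d → Hyp d δ →
  2 ≤ n →
  (∀ i, 1 ≤ i → i + 1 ≤ n → gp d (x (i - 1)) (x (i + 1)) (x i) ≤ a) →
  (∀ i, 1 ≤ i → i + 2 ≤ n → a + 2 * δ < d (x i) (x (i + 1))) →
  ∀ i, 1 ≤ i → i + 1 ≤ n → gp d (x 0) (x n) (x i) ≤ a + 2 * δ

/-- 1.5 -/
def Stmt_Cover : Prop := ∀ (X : Type) (d : X → X → ℕ) (δ b n : ℕ) (x : ℕ → X) (p : X),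
  IsDG d → Hyp d δ → 1 ≤ n →
  (∀ i, 1 ≤ i → i + 1 ≤ n → gp d (x 0) (x n) (x i) ≤ b) →
  Btw d (x 0) p (x n) →
  ∃ i, i < n ∧ gp d (x i) (x (i + 1)) p ≤ 2 * b + 2 * δ

/-- 1.6 -/
def Stmt_Hull : Prop := ∀ (X : Type) (d : X → X → ℕ) (δ : ℕ), IsDG d → Hyp d δ →
  (∀ A : Set X, QC d (2 * δ) (hull d A)) ∧
  (∀ (c : X) (r : ℕ), QC d δ {x | d c x ≤ r})

/-- 1.7 guessing geodesics, relative form (V = set of the points between which paths are guessed) -/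
def Stmt_RLC : Prop := ∀ (Y : Type) (d : Y → Y → ℕ) (V : Set Y) (h : ℕ) (L : Y → Y → Set Y),
  IsDG d → 1 ≤ h →
  (∀ x ∈ V, ∀ y ∈ V, ∀ z ∈ V, ∀ p ∈ L x z, ∃ q ∈ L x y ∪ L y z, d p q ≤ h) →
  (∀ x ∈ V, ∀ y ∈ V, ∀ g, IsGeod d x y g → (∀ i, 0 < i → i < d x y → g i ∉ V) →
    ∀ p ∈ L x y, ∃ i ≤ d x y, d p (g i) ≤ h) →
  (∀ x ∈ V, ∀ y ∈ V, ∃ (m : ℕ) (u : ℕ → Y), u 0 = x ∧ u m = y ∧ (∀ j ≤ m, u j ∈ L x y) ∧
    ∀ j < m, d (u j) (u (j + 1)) ≤ h) →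
  (∀ x ∈ V, ∀ y ∈ V, ∀ g, IsGeod d x y g → ∀ p ∈ L x y, ∃ i ≤ d x y, d p (g i) ≤ 32 * h ^ 2) ∧
  (∀ x ∈ V, ∀ y ∈ V, ∀ g, IsGeod d x y g → ∀ i ≤ d x y, ∃ p ∈ L x y,
    d (g i) p ≤ 3 * (32 * h ^ 2) + h) ∧
  (∀ x ∈ V, ∀ y ∈ V, ∀ z ∈ V, ∀ w ∈ V,
    d x y + d z w ≤ max (d x z + d y w) (d x w + d y z) + Dlt h)

/-- 1.8 (a)-(c) -/
def Stmt_Iso1 : Prop := ∀ (G X : Type) [Group G] [MulAction G X] (d : X → X → ℕ) (δ : ℕ),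
  IsDG d → Hyp d δ → IsIso G d →
  (∀ (g : G) (x : X), d x (g • x) + δ < d x (g ^ 2 • x) →
     Lox d g ∧ ∀ m : ℕ, m * (d x (g ^ 2 • x) - d x (g • x) - δ) ≤ d x (g ^ m • x)) ∧
  (∀ (g : G) (x y : X), Btw d x y (g • x) → d x y = d x (g • x) / 2 →
     d y (g • y) ≤ max 1 (d x (g ^ 2 • x) - d x (g • x)) + 2 * δ) ∧
  (∀ (g : G) (x : X), ¬ Lox d g →
     ∀ y, Btw d x y (g • x) → d x y = d x (g • x) / 2 → d y (g • y) ≤ 3 * δ + 1)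

/-- 1.8 (d): displacement bounded below by m ≥ 3 δ + 2 -/
def Stmt_Iso2 : Prop := ∀ (G X : Type) [Group G] [MulAction G X] (d : X → X → ℕ) (δ m : ℕ),
  IsDG d → Hyp d δ → IsIso G d → 3 * δ + 2 ≤ m →
  ∀ (g : G) (x : X), d x (g • x) = m → (∀ y, m ≤ d y (g • y)) →
   Lox d g ∧ gp d x (g ^ 2 • x) (g • x) ≤ 2 * δ ∧
   (∀ j : ℕ, j * (m - 3 * δ) ≤ d x (g ^ j • x)) ∧
   (∀ (y : X) (j : ℕ), j * (m - 3 * δ) ≤ d y (g ^ j • y))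

/-- 1.8 (f): axis -/
def Stmt_Axis : Prop := ∀ (G X : Type) [Group G] [MulAction G X] (d : X → X → ℕ) (δ m : ℕ),
  IsDG d → Hyp d δ → IsIso G d → 16 * δ + 2 ≤ m →
  ∀ (g : G) (x : X), d x (g • x) = m → (∀ y, m ≤ d y (g • y)) →
   (∀ i j k : ℤ, i < k → k < j → gp d (g ^ i • x) (g ^ j • x) (g ^ k • x) ≤ 4 * δ) ∧
   QC d (6 * δ) {p | ∃ i : ℤ, Btw d (g ^ i • x) p (g ^ (i + 1) • x)} ∧
   ∀ z, ∃ q, (∃ i : ℤ, Btw d (g ^ i • x) q (g ^ (i + 1) • x)) ∧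
     2 * d z q + m ≤ d z (g • z) + 30 * δ + 2

/-- nearest point -/
def IsNear {X : Type} (d : X → X → ℕ) (W : Set X) (x p : X) : Prop :=
  p ∈ W ∧ ∀ w ∈ W, d x p ≤ d x w

/-- 1.9 -/
def Stmt_Proj : Prop := ∀ (X : Type) (d : X → X → ℕ) (δ k c1 c2 c3 c5 : ℕ) (W : Set X),
  IsDG d → Hyp d δ → QC d k W → c1 = 2 * k + 2 * δ + 1 → c3 = c1 + δ →
  c2 = (c3 + 1) / 2 + δ → c5 = 2 * c2 + 3 * δ + k + 1 →
  (∀ x p w, IsNear d W x p → w ∈ W → gp d x w p ≤ c1) ∧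
  (∀ x x' p p', IsNear d W x p → IsNear d W x' p' → c3 < d p p' →
    gp d x x' p ≤ c3 ∧ gp d x x' p' ≤ c3 ∧ d x p + d p p' + d p' x' ≤ d x x' + 2 * c3) ∧
  (∀ x x' p p', IsNear d W x p → IsNear d W x' p' → d p p' ≤ d x x' + 2 * c3) ∧
  (∀ x p p', IsNear d W x p → IsNear d W x p' → d p p' ≤ c1) ∧
  (∀ x x' q p p' r, IsNear d W x p → IsNear d W x' p' → Btw d x q x' → IsNear d W q r →
    c3 < d r p → c3 < d r p' → d q r ≤ c3) ∧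
  (∀ x x' p p' g, IsNear d W x p → IsNear d W x' p' → c3 < d p p' → IsGeod d x x' g →
    ∃ i j, i ≤ d x x' ∧ j ≤ d x x' ∧ d (g i) p ≤ c2 ∧ d (g j) p' ≤ c2 ∧
     ∀ l, min i j ≤ l → l ≤ max i j → ∃ w ∈ W, d (g l) w ≤ c5)

/-! ## Section 2 -/

/-- 2.1.1 chains (W may be any set with H_W C_1 ⊆ C_1, H_W = KK (C ∩ W) R) -/
def Stmt_Chain : Prop := ∀ (G X : Type) [Group G] [MulAction G X] [Nonempty X]
  (d : X → X → ℕ) (C : Set X)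
  (R : X → Subgroup G) (δ α β σ : ℕ) (W C1 : Set X), RF d C R δ α β σ → C1 ⊆ C →
  (∀ h ∈ KK (C ∩ W) R, ∀ c ∈ C1, h • c ∈ C1) →
  ∀ g ∈ KK ((C ∩ W) ∪ C1) R,
   ∃ (m : ℕ) (gs : ℕ → G) (c : ℕ → X) (h : G), h ∈ KK (C ∩ W) R ∧ gs 0 = 1 ∧ g = gs m * h ∧
    (∀ i, i ≤ m → gs i ∈ KK ((C ∩ W) ∪ C1) R) ∧
    (∀ i, 1 ≤ i → i ≤ m → c i ∈ C ∧ (gs (i - 1))⁻¹ • c i ∈ C1 ∧ (gs i)⁻¹ • c i ∈ C1 ∧
      ∃ r ∈ R (c i), r ≠ 1 ∧ gs i = r * gs (i - 1)) ∧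
    (∀ i, 1 ≤ i → i + 1 ≤ m → c i ≠ c (i + 1))

/-- 2.1.2 claim A -/
def Stmt_ClaimA : Prop := ∀ (G X : Type) [Group G] [MulAction G X] (d : X → X → ℕ) (C : Set X)
  (R : X → Subgroup G) (δ α β σ : ℕ) (V : Set X) (c q q' : X), RF d C R δ α β σ →
  QC d (2 * δ) V → c ∈ C → (∀ v ∈ V, aa0 δ α β < d c v) →
  ((∃ v ∈ V, d q v ≤ 1) ∨ (q ∈ C ∧ q ≠ c ∧ ∃ v ∈ V, d q v ≤ bb0 δ α β)) →
  ((∃ v ∈ V, d q' v ≤ 1) ∨ (q' ∈ C ∧ q' ≠ c ∧ ∃ v ∈ V, d q' v ≤ bb0 δ α β)) →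
  2 * aa0 δ α β + 1 ≤ gp d q q' c + 8 * δ

/-- 2.1.4 the next windmill -/
def Stmt_NextWind : Prop := ∀ (G X : Type) [Group G] [MulAction G X] (d : X → X → ℕ) (C : Set X)
  (R : X → Subgroup G) (δ α β σ : ℕ) (W C1 W' : Set X), RF d C R δ α β σ →
  Wind d C R δ (aa0 δ α β) W →
  C1 = {c | c ∈ C ∧ c ∉ W ∧ ∃ w ∈ W, d c w ≤ bb0 δ α β} →
  W' = hull d {x | ∃ h ∈ KK ((C ∩ W) ∪ C1) R, ∃ y, ((∃ w ∈ W, d y w ≤ 1) ∨ y ∈ C1) ∧ x = h • y} →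
  Wind d C R δ (aa0 δ α β) W' ∧ KK (C ∩ W') R = KK ((C ∩ W) ∪ C1) R ∧
  (∀ x, (∃ w ∈ W, d x w ≤ 1) → x ∈ W')

/-- 2.2 Greendlinger -/
def Stmt_GL : Prop := ∀ (G X : Type) [Group G] [MulAction G X] (d : X → X → ℕ) (C : Set X)
  (R : X → Subgroup G) (δ α β σ : ℕ), RF d C R δ α β σ → ∀ (x : X), ∀ k ∈ KK C R, k ≠ 1 →
  (∃ c ∈ C, d x c ≤ aa0 δ α β ∧ k ∈ R c) ∨
  (∃ c ∈ C, ∃ r ∈ R c, r ≠ 1 ∧ aa0 δ α β < d x c ∧ gp d x (k • x) c ≤ bet1 δ β ∧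
    alp1 δ α β ≤ gp d x (r⁻¹ • k • x) c)

/-- 2.3 -/
def Stmt_GLcor : Prop := ∀ (G X : Type) [Group G] [MulAction G X] (d : X → X → ℕ) (C : Set X)
  (R : X → Subgroup G) (δ α β σ : ℕ), RF d C R δ α β σ →
  (∀ (x : X) (N : ℕ), ∀ k ∈ KK C R, k ≠ 1 → (∀ c ∈ C, aa0 δ α β < d x c) →
    (∀ c ∈ C, N ≤ d x c) → 2 * N ≤ d x (k • x) + bet1 δ β) ∧
  (∀ c ∈ C, ∀ k ∈ KK C R, k • c = c → k ∈ R c) ∧
  (∀ (x : X), ∀ k ∈ KK C R, (∀ c ∈ C, aa0 δ α β < d x c) → k • x = x → k = 1)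

/-- 2.4 minimal pairs are irreducible; symmetry -/
def Stmt_IrrMin : Prop := ∀ (G X : Type) [Group G] [MulAction G X] (d : X → X → ℕ) (C : Set X)
  (R : X → Subgroup G) (δ α β σ : ℕ), RF d C R δ α β σ →
  (∀ x y, d x y = dK d (KK C R) x y → (∀ c ∈ C, ∀ r ∈ R c, gp d x (r • y) c ≤ gp d x y c) ∧
     Irr d C R (eta δ β) (tht δ β) x y) ∧
  (∀ x y, Irr d C R (eta δ β) (tht δ β) x y → Irr d C R (eta δ β) (tht δ β) y x) ∧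
  (∀ (g : G) x y, Irr d C R (eta δ β) (tht δ β) x y →
     Irr d C R (eta δ β) (tht δ β) (g • x) (g • y))

/-- 2.4.1 -/
def Stmt_FS : Prop := ∀ (G X : Type) [Group G] [MulAction G X] (d : X → X → ℕ) (C : Set X)
  (R : X → Subgroup G) (δ α β σ : ℕ), RF d C R δ α β σ →
  ∀ (p p' x x' y : X) (k : G), k ∈ KK C R → Btw d x p y → Btw d x' p' (k • y) →
  Irr d C R (eta δ β) (tht δ β) x y → Irr d C R (eta δ β) (tht δ β) x' (k • y) →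
  ∀ c ∈ C, ∀ r ∈ R c, gp d y (k • y) c ≤ bet1 δ β → alp1 δ α β ≤ gp d y (r⁻¹ • k • y) c →
  (p = p' ∨ alp1 δ α β + eta1 δ β ≤ gp d p p' c) →
  gp d p y c ≤ eta1 δ β ∧ gp d p' (k • y) c ≤ eta1 δ β

/-- 2.4.1, FS0 -/
def Stmt_FS0 : Prop := ∀ (G X : Type) [Group G] [MulAction G X] (d : X → X → ℕ) (C : Set X)
  (R : X → Subgroup G) (δ α β σ : ℕ), RF d C R δ α β σ →
  ∀ (x y : X) (k : G), k ∈ KK C R → k ≠ 1 → (∀ c ∈ C, aa0 δ α β < d y c) →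
  Irr d C R (eta δ β) (tht δ β) x y → Irr d C R (eta δ β) (tht δ β) x (k • y) →
  ∃ c ∈ C, gp d x y c ≤ eta1 δ β ∧ gp d x (k • y) c ≤ eta1 δ β

/-- 2.4.2 ladder -/
def Stmt_Ladder : Prop := ∀ (G X : Type) [Group G] [MulAction G X] (d : X → X → ℕ) (C : Set X)
  (R : X → Subgroup G) (δ α β σ : ℕ), RF d C R δ α β σ →
  ∀ (x y : X) (k : G) (g g' : ℕ → X), k ∈ KK C R → IsGeod d x y g → IsGeod d x (k • y) g' →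
  Irr d C R (eta δ β) (tht δ β) x y → Irr d C R (eta δ β) (tht δ β) x (k • y) →
  ∀ i ≤ d x y, ∃ k' ∈ KK C R, ∃ j ≤ d x (k • y), d (k' • g i) (g' j) ≤ CL δ α β

/-- 2.4.3 triangle -/
def Stmt_Triangle : Prop := ∀ (G X : Type) [Group G] [MulAction G X] (d : X → X → ℕ) (C : Set X)
  (R : X → Subgroup G) (δ α β σ : ℕ), RF d C R δ α β σ →
  ∀ (x y z : X) (g1 g2 : ℕ → X), d x y = dK d (KK C R) x y → d y z = dK d (KK C R) y z →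
  IsGeod d x y g1 → IsGeod d y z g2 →
  ∃ k ∈ KK C R, Irr d C R (eta δ β) (tht δ β) x (k • z) ∧
   ∀ q, Btw d x q (k • z) → (∃ i ≤ d x y, d q (g1 i) ≤ CT δ β) ∨
     (∃ j ≤ d y z, d q (k • g2 j) ≤ CT δ β)

/-- the quotient of X by a normal subgroup K of G: a space with an action of G ⧸ K -/
structure IsQuot {G X Y : Type} [Group G] [MulAction G X] (d : X → X → ℕ) (K : Subgroup G)
    [K.Normal] [MulAction (G ⧸ K) Y] (dY : Y → Y → ℕ) (q : X → Y) : Prop where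
  surj : Function.Surjective q
  eq_iff : ∀ x y, q x = q y ↔ ∃ k ∈ K, k • x = y
  dist : ∀ x y, dY (q x) (q y) = dK d K x y
  smul : ∀ (g : G) x, (QuotientGroup.mk g : G ⧸ K) • q x = q (g • x)

/-- quotients exist, are DG-spaces with an isometric action, geodesics lift -/
def Stmt_QuotEx : Prop := ∀ (G X : Type) [Group G] [MulAction G X] (d : X → X → ℕ)
  (K : Subgroup G) [K.Normal], IsDG d → IsIso G d →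
  (∃ (Y : Type) (_ : MulAction (G ⧸ K) Y) (dY : Y → Y → ℕ) (q : X → Y), IsQuot d K dY q) ∧
  (∀ (Y : Type) [MulAction (G ⧸ K) Y] (dY : Y → Y → ℕ) (q : X → Y), IsQuot d K dY q →
    IsDG dY ∧ IsIso (G ⧸ K) dY ∧
    (∀ x y, dY (q x) (q y) ≤ d x y) ∧
    (∀ x y, ∃ k ∈ K, d x (k • y) = dY (q x) (q y)) ∧
    (∀ x yb g, IsGeod dY (q x) yb g → ∃ (y : X) (g' : ℕ → X), d x y = dY (q x) yb ∧
      IsGeod d x y g' ∧ ∀ i ≤ d x y, q (g' i) = g i))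

/-- 2.5 the quotient by the rotations is hyperbolic -/
def Stmt_QuotHyp : Prop := ∀ (G X : Type) [Group G] [MulAction G X] (d : X → X → ℕ) (C : Set X)
  (R : X → Subgroup G) (δ α β σ : ℕ), RF d C R δ α β σ →
  ∀ (_ : (KK C R).Normal) (Y : Type) [MulAction (G ⧸ KK C R) Y] (dY : Y → Y → ℕ) (q : X → Y),
   IsQuot d (KK C R) dY q → Hyp dY (dq1 δ α β)

def Stmt_KKnormal : Prop := ∀ (G X : Type) [Group G] [MulAction G X] (d : X → X → ℕ) (C : Set X)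
  (R : X → Subgroup G) (δ α β σ : ℕ), RF d C R δ α β σ → (KK C R).Normal

/-- 2.6 unique lifting -/
def Stmt_LL : Prop := ∀ (G X : Type) [Group G] [MulAction G X] (d : X → X → ℕ) (C : Set X)
  (R : X → Subgroup G) (δ α β σ : ℕ), RF d C R δ α β σ →
  (∀ (x : X) (N : ℕ) (g g' : G), aa0 δ α β < N → (∀ c ∈ C, N ≤ d x c) →
     g' * g⁻¹ ∈ KK C R → d x (g • x) + d x (g' • x) + bet1 δ β < 2 * N → g = g') ∧
  (∀ (x y : X) (N l : ℕ) (p : ℕ → X) (g0 : G), aa0 δ α β < N → IsGeod d x y p →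
     2 * l + 2 + bet1 δ β < 2 * N → (∀ i ≤ d x y, ∀ c ∈ C, N ≤ d (p i) c) →
     (∀ i ≤ d x y, dK d (KK C R) (p i) (g0 • p i) ≤ l) →
     ∃ g : G, g * g0⁻¹ ∈ KK C R ∧ ∀ i ≤ d x y, d (p i) (g • p i) ≤ l)

end Pool.Agent.BURN
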