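import Pool.Agent.BURN.Basic
import Pool.Agent.BURN.Stmts1

/-! Section 1.8 (a)-(d) of the blueprint: isometries. -/

namespace Pool.Agent.BURN

namespace IsoAux

variable {G X : Type} [Group G] [MulAction G X] {d : X → X → ℕ} {δ : ℕ}

theorem step (hi : IsIso G d) (g : G) (x : X) (i : ℕ) :
    d (g ^ i • x) (g ^ (i + 1) • x) = d x (g • x) := by
  have := hi (g ^ i) x (g • x)
  rw [← mul_smul, ← pow_succ] at this
  exact this

theorem step2 (hi : IsIso G d) (g : G) (x : X) (i : ℕ) :
    d (g ^ i • x) (g ^ (i + 2) • x) = d x (g ^ 2 • x) := by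
  have := hi (g ^ i) x (g ^ 2 • x)
  rw [← mul_smul, ← pow_add] at this
  exact this

theorem le_mul (h : IsDG d) (hi : IsIso G d) (g : G) (x : X) (k : ℕ) :
    d x (g ^ k • x) ≤ k * d x (g • x) := by
  induction k with
  | zero => simp [(h.eq_zero x x).2 rfl]
  | succ k ih =>
    have h1 := h.tri x (g ^ k • x) (g ^ (k + 1) • x)
    have h2 := step hi g x k
    rw [Nat.succ_mul]
    omega

theorem near_pow (h : IsDG d) (hi : IsIso G d) (g : G) (x y : X) :
    d x (g • x) ≤ d y (g • y) + 2 * d x y := by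
  have h1 := h.tri x y (g • x)
  have h2 := h.tri y (g • y) (g • x)
  rw [hi g y x, h.symm y x] at h2
  omega

theorem partA (hLG : Stmt_LGa) (h : IsDG d) (hy : Hyp d δ) (hi : IsIso G d) (g : G) (x : X)
    (hL : d x (g • x) + δ < d x (g ^ 2 • x)) (m : ℕ) :
    m * (d x (g ^ 2 • x) - d x (g • x) - δ) ≤ d x (g ^ m • x) := by
  have hup := le_mul h hi g x 2
  rcases Nat.lt_or_ge m 2 with hm | hm
  · rcases Nat.lt_or_ge m 1 with hm1 | hm1
    · have : m = 0 := by omega
      subst this; simp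
    · have : m = 1 := by omega
      subst this; simp only [pow_one]; omega
  · have key := hLG X d δ (2 * d x (g • x) - d x (g ^ 2 • x)) m (fun i => g ^ i • x) h hy hm
      (by
        intro i hi1 hi2
        obtain ⟨j, rfl⟩ : ∃ j, i = j + 1 := ⟨i - 1, by omega⟩
        have e0 : j + 1 - 1 = j := by omega
        simp only [e0]
        have g1 := gp_add h (g ^ j • x) (g ^ (j + 1 + 1) • x) (g ^ (j + 1) • x)
        rw [step hi g x j, h.symm (g ^ (j + 1 + 1) • x), step hi g x (j + 1),
          step2 hi g x j] at g1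
        omega)
      (by
        intro i hi1 hi2
        simp only [step hi g x i]
        omega)
    have k3 := key.2.2 (m - 1) (by omega)
    simp only [step hi g x, Finset.sum_const, Finset.card_range, smul_eq_mul] at k3
    have e1 : m - 1 + 1 = m := by omega
    rw [e1] at k3
    simp only [pow_zero, one_smul] at k3
    obtain ⟨c, hc⟩ : ∃ c, d x (g ^ 2 • x) = d x (g • x) + δ + c := ⟨_, (by omega : _ = _ + (d x (g ^ 2 • x) - d x (g • x) - δ))⟩
    have e2 : d x (g ^ 2 • x) - d x (g • x) - δ = c := by omega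
    have e3 : d x (g • x) = 2 * d x (g • x) - d x (g ^ 2 • x) + δ + c := by omega
    rw [e2]
    set A := 2 * d x (g • x) - d x (g ^ 2 • x) + δ with hA
    rw [e3] at k3
    have k4 : m * (A + c) = m * A + m * c := Nat.mul_add _ _ _
    have k5 : (m - 1) * A ≤ m * A := Nat.mul_le_mul_right _ (by omega)
    omega

theorem loxOf (h : IsDG d) (hi : IsIso G d) (g : G) (x : X)
    (H : ∀ m : ℕ, m ≤ d x (g ^ m • x)) : Lox d g := by
  intro z B
  refine ⟨B + 2 * d x z + 1, ?_⟩
  have h1 := H (B + 2 * d x z + 1)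
  have h2 := near_pow h hi (g ^ (B + 2 * d x z + 1)) x z
  omega

theorem partB (h : IsDG d) (hy : Hyp d δ) (hi : IsIso G d) (g : G) (x y : X)
    (hb : Btw d x y (g • x)) (hm : d x y = d x (g • x) / 2) :
    d y (g • y) ≤ max 1 (d x (g ^ 2 • x) - d x (g • x)) + 2 * δ := by
  have hb2 : Btw d (g • x) (g • y) (g ^ 2 • x) := by
    unfold Btw at *
    rw [pow_two, mul_smul, hi, hi, hi]; exact hb
  have a1 := near_of_btw h hy hb2 y
  have a2 := near_of_btw h hy hb (g ^ 2 • x)
  have e1 : d (g • x) (g • y) = d x y := hi g x y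
  have e2 : d (g ^ 2 • x) (g • y) = d (g • x) y := by
    rw [pow_two, mul_smul, hi]
  have e3 : d (g ^ 2 • x) (g • x) = d x (g • x) := by
    rw [pow_two, mul_smul, hi, h.symm]
  have e4 : d y (g ^ 2 • x) = d (g ^ 2 • x) y := h.symm _ _
  have e5 : d x (g ^ 2 • x) = d (g ^ 2 • x) x := h.symm _ _
  have e6 : d y (g • x) = d (g • x) y := h.symm _ _
  unfold Btw at hb
  rw [e1, e2] at a1
  rw [e3] at a2
  omega

end IsoAux

open IsoAux in
theorem Iso1_proof (hLG : Stmt_LGa) : Stmt_Iso1 := by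
  intro G X _ _ d δ h hy hi
  have hA : ∀ (g : G) (x : X), d x (g • x) + δ < d x (g ^ 2 • x) →
     Lox d g ∧ ∀ m : ℕ, m * (d x (g ^ 2 • x) - d x (g • x) - δ) ≤ d x (g ^ m • x) := by
    intro g x hL
    have hA := partA hLG h hy hi g x hL
    refine ⟨loxOf h hi g x fun m => ?_, hA⟩
    refine le_trans ?_ (hA m)
    exact Nat.le_mul_of_pos_right m (by omega)
  refine ⟨hA, fun g x y hb hm => partB h hy hi g x y hb hm, ?_⟩
  intro g x hl y hb hm
  have h1 := partB h hy hi g x y hb hm
  have h2 : ¬ (d x (g • x) + δ < d x (g ^ 2 • x)) := fun hc => hl (hA g x hc).1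
  omega

open IsoAux in
theorem Iso2_proof (hLG : Stmt_LGa) : Stmt_Iso2 := by
  intro G X _ _ d δ m h hy hi hm g x hx hmin
  obtain ⟨y, hy1, hy2⟩ := h.geo x (g • x) (d x (g • x) / 2) (by omega)
  have hb : Btw d x y (g • x) := by unfold Btw; omega
  have hB := partB h hy hi g x y hb hy1
  have hmy := hmin y
  have hup := le_mul h hi g x 2
  have hL : 2 * m ≤ d x (g ^ 2 • x) + 2 * δ := by omega
  have hA := partA hLG h hy hi g x (by omega)
  have hJ : ∀ j : ℕ, j * (m - 3 * δ) ≤ d x (g ^ j • x) := fun j =>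
    le_trans (Nat.mul_le_mul_left j (by omega)) (hA j)
  refine ⟨loxOf h hi g x fun j => le_trans (Nat.le_mul_of_pos_right j (by omega)) (hJ j),
    ?_, hJ, ?_⟩
  · have g1 := gp_add h x (g ^ 2 • x) (g • x)
    have e3 : d (g ^ 2 • x) (g • x) = d x (g • x) := by
      rw [pow_two, mul_smul, hi, h.symm]
    omega
  · intro z j
    by_contra hcon
    push Not at hcon
    have h1 := hJ (j * (2 * d x z + 1))
    have h2 := near_pow h hi (g ^ (j * (2 * d x z + 1))) x z
    have h3 := le_mul h hi (g ^ j) z (2 * d x z + 1)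
    rw [← pow_mul] at h3
    have h4 : (2 * d x z + 1) * (d z (g ^ j • z) + 1) ≤
        (2 * d x z + 1) * (j * (m - 3 * δ)) := Nat.mul_le_mul_left _ hcon
    have h5 : j * (2 * d x z + 1) * (m - 3 * δ) = (2 * d x z + 1) * (j * (m - 3 * δ)) := by
      ring
    rw [Nat.mul_add] at h4
    omega

end Pool.Agent.BURN
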