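import Pool.Agent.BURN.Stmts2
import Pool.Agent.BURN.Basic

/-! Section 3.1 of the blueprint: the cone-off is a discrete geodesic space. -/

namespace Pool.Agent.BURN

section GamDGsec

variable {V I : Type} {D : V → V → ℕ} {Y : I → Set V} {ρ : ℕ}

theorem CAdj_symm (hD : ∀ x y, D x y = D y x) (u w : CV V I) (h : CAdj D ρ u w) :
    CAdj D ρ w u := by
  cases u with
  | b x =>
    cases w with
    | b x' => simp only [CAdj] at h ⊢; rw [hD]; exact h
    | c i y s => simpa only [CAdj] using h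
    | a i => simp only [CAdj] at h
  | c i y s =>
    cases w with
    | b x' => simpa only [CAdj] using h
    | c j y' s' =>
      simp only [CAdj] at h ⊢
      obtain ⟨h1, h2⟩ := h
      refine ⟨h1.symm, ?_⟩
      rcases h2 with ⟨h3, h4⟩ | ⟨h3, h4, h5⟩
      · exact Or.inl ⟨h3.symm, by omega⟩
      · refine Or.inr ⟨h3.symm, ?_, ?_⟩
        · rw [hD]; exact h4
        · rw [hD, ← h3]; exact h5
    | a j => simp only [CAdj] at h ⊢; exact ⟨h.1, h.2⟩
  | a i =>
    cases w with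
    | b x' => simp only [CAdj] at h
    | c j y s => simp only [CAdj] at h ⊢; exact ⟨h.1, h.2⟩
    | a j => simp only [CAdj] at h

theorem CAdj_irrefl (hD : ∀ x, D x x = 0) (u : CV V I) : ¬ CAdj D ρ u u := by
  cases u with
  | b x => simp [CAdj, hD]
  | c i y s => simp [CAdj, hD]
  | a i => simp [CAdj]

/-- the graph of the cone-off -/
def GamG (D : V → V → ℕ) (Y : I → Set V) (ρ : ℕ) : SimpleGraph (Gam Y ρ) :=
  SimpleGraph.fromRel (fun u w : Gam Y ρ => CAdj D ρ u.1 w.1)

theorem dGam_eq (u w : Gam Y ρ) : dGam D Y ρ u w = (GamG D Y ρ).dist u w := rfl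

theorem GamG_adj (h : CD D Y ρ) (u w : Gam Y ρ) :
    (GamG D Y ρ).Adj u w ↔ CAdj D ρ u.1 w.1 := by
  unfold GamG
  rw [SimpleGraph.fromRel_adj]
  have hs : ∀ x y, D x y = D y x := h.dg.symm
  have h0 : ∀ x, D x x = 0 := fun x => (h.dg.eq_zero x x).2 rfl
  constructor
  · rintro ⟨_, h1 | h1⟩
    · exact h1
    · exact CAdj_symm hs _ _ h1
  · intro h1
    refine ⟨?_, Or.inl h1⟩
    rintro rfl
    exact CAdj_irrefl h0 _ h1

/-- a sequence of adjacent vertices gives a walk -/
theorem exists_walk_of_seq0 {W : Type} (G : SimpleGraph W) (k : ℕ) (g : ℕ → W)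
    (hg : ∀ j < k, G.Adj (g j) (g (j + 1))) : ∃ p : G.Walk (g 0) (g k), p.length = k := by
  induction k with
  | zero => exact ⟨SimpleGraph.Walk.nil, rfl⟩
  | succ k ih =>
    obtain ⟨p, hp⟩ := ih (fun j hj => hg j (by omega))
    refine ⟨p.concat (hg k (by omega)), ?_⟩
    rw [SimpleGraph.Walk.length_concat, hp]

theorem exists_walk_of_seq {W : Type} (G : SimpleGraph W) (k : ℕ) (g : ℕ → W) (u w : W)
    (h0 : g 0 = u) (hk : g k = w)
    (hg : ∀ j < k, G.Adj (g j) (g (j + 1))) : ∃ p : G.Walk u w, p.length = k := by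
  subst h0; subst hk; exact exists_walk_of_seq0 G k g hg

/-- Lipschitz potentials -/
theorem walk_lip {W : Type} (G : SimpleGraph W) (f : W → ℤ)
    (hf : ∀ u w, G.Adj u w → f w ≤ f u + 1) {u w : W} (p : G.Walk u w) :
    f w ≤ f u + p.length := by
  induction p with
  | nil => simp
  | cons hadj p ih =>
    have := hf _ _ hadj
    rw [SimpleGraph.Walk.length_cons]
    push_cast
    omega

/-- the vertical line over y in the horoball i: height 0 is the base vertex, height ρ+1 the apex -/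
def vline (Y : I → Set V) (ρ : ℕ) (i : I) (y : V) (hy : y ∈ Y i) (t : ℕ) : Gam Y ρ :=
  if h0 : t = 0 then vb Y ρ y
  else if h1 : t ≤ ρ then ⟨.c i y t, hy, by omega, h1⟩
  else va Y ρ i

theorem vline_zero (i : I) (y : V) (hy : y ∈ Y i) : vline Y ρ i y hy 0 = vb Y ρ y := by
  simp [vline]

theorem vline_mid (i : I) (y : V) (hy : y ∈ Y i) (t : ℕ) (h0 : 1 ≤ t) (h1 : t ≤ ρ) :
    (vline Y ρ i y hy t).1 = .c i y t := by
  have h2 : ¬ t = 0 := by omega
  simp [vline, h2, h1]

theorem vline_top (i : I) (y : V) (hy : y ∈ Y i) : vline Y ρ i y hy (ρ + 1) = va Y ρ i := by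
  simp [vline]

theorem vline_adj (h : CD D Y ρ) (hρ : 1 ≤ ρ) (i : I) (y : V) (hy : y ∈ Y i) (t : ℕ)
    (ht : t ≤ ρ) :
    (GamG D Y ρ).Adj (vline Y ρ i y hy t) (vline Y ρ i y hy (t + 1)) := by
  rw [GamG_adj h]
  by_cases h0 : t = 0
  · subst h0
    rw [vline_zero, vline_mid i y hy (0 + 1) (by omega) (by omega)]
    simp [vb, CAdj]
  · rw [vline_mid i y hy t (by omega) ht]
    by_cases h1 : t + 1 ≤ ρ
    · rw [vline_mid i y hy (t + 1) (by omega) h1]
      simp [CAdj]
    · have h2 : t = ρ := by omega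
      subst h2
      rw [vline_top]
      simp [CAdj, va]

theorem vline_walk (h : CD D Y ρ) (hρ : 1 ≤ ρ) (i : I) (y : V) (hy : y ∈ Y i) (s t : ℕ)
    (hst : s ≤ t) (ht : t ≤ ρ + 1) :
    ∃ p : (GamG D Y ρ).Walk (vline Y ρ i y hy s) (vline Y ρ i y hy t), p.length = t - s := by
  have e2 : s + (t - s) = t := by omega
  exact exists_walk_of_seq (GamG D Y ρ) (t - s) (fun j => vline Y ρ i y hy (s + j)) _ _
    rfl (by simp only [e2]) (fun j hj => vline_adj h hρ i y hy (s + j) (by omega))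

theorem vline_dist_le (h : CD D Y ρ) (hρ : 1 ≤ ρ) (i : I) (y : V) (hy : y ∈ Y i) (s t : ℕ)
    (hst : s ≤ t) (ht : t ≤ ρ + 1) :
    dGam D Y ρ (vline Y ρ i y hy s) (vline Y ρ i y hy t) ≤ t - s := by
  obtain ⟨p, hp⟩ := vline_walk h hρ i y hy s t hst ht
  rw [dGam_eq, ← hp]; exact SimpleGraph.dist_le p

/-- base walks -/
theorem base_walk (h : CD D Y ρ) (x y : V) :
    ∃ p : (GamG D Y ρ).Walk (vb Y ρ x) (vb Y ρ y), p.length = D x y := by
  obtain ⟨g, g0, g1, g2⟩ := exists_geod h.dg x y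
  exact exists_walk_of_seq (GamG D Y ρ) (D x y) (fun j => vb Y ρ (g j)) _ _
    (by simp only [g0]) (by simp only [g1]) (by
    intro j hj
    rw [GamG_adj h]
    have := g2 j (j + 1) (by omega) (by omega)
    simp only [vb, CAdj]
    omega)

/-- every vertex is reachable from a base vertex -/
theorem reach_base (h : CD D Y ρ) (hρ : 1 ≤ ρ) (u : Gam Y ρ) :
    ∃ y : V, (GamG D Y ρ).Reachable (vb Y ρ y) u := by
  obtain ⟨u, hu⟩ := u
  cases u with
  | b x => exact ⟨x, SimpleGraph.Reachable.refl _⟩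
  | c i y s =>
    obtain ⟨hy, h1, h2⟩ := hu
    refine ⟨y, ?_⟩
    obtain ⟨p, _⟩ := vline_walk h hρ i y hy 0 s (by omega) (by omega)
    rw [vline_zero] at p
    have e : vline Y ρ i y hy s = ⟨.c i y s, hy, h1, h2⟩ :=
      Subtype.ext (vline_mid i y hy s h1 h2)
    rw [e] at p
    exact p.reachable
  | a i =>
    obtain ⟨y, hy, _⟩ := h.unb i 0
    refine ⟨y, ?_⟩
    obtain ⟨p, _⟩ := vline_walk h hρ i y hy 0 (ρ + 1) (by omega) (by omega)
    rw [vline_zero, vline_top] at p
    exact p.reachable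

theorem GamG_pre (h : CD D Y ρ) (hρ : 1 ≤ ρ) : (GamG D Y ρ).Preconnected := by
  intro u w
  obtain ⟨x, hx⟩ := reach_base h hρ u
  obtain ⟨y, hy⟩ := reach_base h hρ w
  obtain ⟨p, _⟩ := base_walk h x y
  exact (hx.symm.trans p.reachable).trans hy

/-- Lipschitz potentials, distance form -/
theorem dGam_lip (h : CD D Y ρ) (hρ : 1 ≤ ρ) (f : CV V I → ℤ)
    (hf : ∀ u w, CAdj D ρ u w → f w ≤ f u + 1) (u w : Gam Y ρ) :
    f w.1 ≤ f u.1 + dGam D Y ρ u w := by
  obtain ⟨p, hp⟩ := (GamG_pre h hρ u w).exists_walk_length_eq_dist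
  rw [dGam_eq, ← hp]
  exact walk_lip (GamG D Y ρ) (fun v => f v.1) (fun u w huw => hf _ _ ((GamG_adj h u w).1 huw)) p

theorem ht_lip (u w : CV V I) (h : CAdj D ρ u w) : (ht ρ w : ℤ) ≤ ht ρ u + 1 := by
  cases u with
  | b x =>
    cases w with
    | b x' => simp [ht]
    | c i y s => simp only [CAdj] at h; simp only [ht]; omega
    | a i => simp only [CAdj] at h
  | c i y s =>
    cases w with
    | b x' => simp only [ht]; omega
    | c j y' s' =>
      simp only [CAdj] at h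
      simp only [ht]
      obtain ⟨_, h2⟩ := h
      rcases h2 with ⟨_, h4⟩ | ⟨h3, _, _⟩ <;> omega
    | a j => simp only [CAdj] at h; simp only [ht]; omega
  | a i =>
    cases w with
    | b x' => simp only [CAdj] at h
    | c j y s => simp only [CAdj] at h; simp only [ht]; omega
    | a j => simp only [CAdj] at h

theorem Hor_b (i : I) (x : V) : ¬ Hor i (.b x : CV V I) := by
  rintro (⟨y, s, h⟩ | h) <;> cases h

theorem Hor_c (i j : I) (y : V) (s : ℕ) : Hor i (.c j y s : CV V I) ↔ i = j := by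
  constructor
  · rintro (⟨y, s, h⟩ | h)
    · cases h; rfl
    · cases h
  · rintro rfl; exact Or.inl ⟨y, s, rfl⟩

theorem Hor_a (i j : I) : Hor i (.a j : CV V I) ↔ i = j := by
  constructor
  · rintro (⟨y, s, h⟩ | h)
    · cases h
    · cases h; rfl
  · rintro rfl; exact Or.inr rfl

open Classical in
/-- signed height with respect to the horoball i -/
noncomputable def sht (ρ : ℕ) (i : I) (u : CV V I) : ℤ :=
  if Hor i u then - (ht ρ u : ℤ) else ht ρ u

theorem sht_b (i : I) (x : V) : sht ρ i (.b x) = 0 := by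
  unfold sht; rw [if_neg (Hor_b i x)]; simp [ht]

theorem sht_c_eq (i : I) (y : V) (s : ℕ) : sht ρ i (.c i y s) = - (s : ℤ) := by
  unfold sht; rw [if_pos ((Hor_c i i y s).2 rfl)]; simp [ht]

theorem sht_c_ne (i j : I) (hij : i ≠ j) (y : V) (s : ℕ) : sht ρ i (.c j y s) = (s : ℤ) := by
  unfold sht; rw [if_neg (fun h => hij ((Hor_c i j y s).1 h))]; simp [ht]

theorem sht_a_eq (i : I) : sht ρ i (.a i : CV V I) = - ((ρ : ℤ) + 1) := by
  unfold sht; rw [if_pos ((Hor_a i i).2 rfl)]; simp [ht]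

theorem sht_a_ne (i j : I) (hij : i ≠ j) : sht ρ i (.a j : CV V I) = (ρ : ℤ) + 1 := by
  unfold sht; rw [if_neg (fun h => hij ((Hor_a i j).1 h))]; simp [ht]

theorem sht_lip (i : I) (u w : CV V I) (h : CAdj D ρ u w) : sht ρ i w ≤ sht ρ i u + 1 := by
  cases u with
  | b x =>
    cases w with
    | b x' => rw [sht_b, sht_b]; omega
    | c j y s =>
      simp only [CAdj] at h
      by_cases hij : i = j
      · subst hij; rw [sht_b, sht_c_eq]; omega
      · rw [sht_b, sht_c_ne i j hij]; omega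
    | a j => simp only [CAdj] at h
  | c j y s =>
    cases w with
    | b x' =>
      simp only [CAdj] at h
      by_cases hij : i = j
      · subst hij; rw [sht_b, sht_c_eq]; omega
      · rw [sht_b, sht_c_ne i j hij]; omega
    | c l y' s' =>
      simp only [CAdj] at h
      obtain ⟨h1, h2⟩ := h
      subst h1
      by_cases hij : i = j
      · subst hij
        rw [sht_c_eq, sht_c_eq]
        rcases h2 with ⟨_, h4⟩ | ⟨h3, _, _⟩ <;> omega
      · rw [sht_c_ne i j hij, sht_c_ne i j hij]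
        rcases h2 with ⟨_, h4⟩ | ⟨h3, _, _⟩ <;> omega
    | a l =>
      simp only [CAdj] at h
      obtain ⟨h1, h2⟩ := h
      subst h1
      by_cases hij : i = j
      · subst hij; rw [sht_c_eq, sht_a_eq]; omega
      · rw [sht_c_ne i j hij, sht_a_ne i j hij]; omega
  | a j =>
    cases w with
    | b x' => simp only [CAdj] at h
    | c l y s =>
      simp only [CAdj] at h
      obtain ⟨h1, h2⟩ := h
      subst h1
      by_cases hij : i = l
      · subst hij; rw [sht_c_eq, sht_a_eq]; omega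
      · rw [sht_c_ne i l hij, sht_a_ne i l hij]; omega
    | a l => simp only [CAdj] at h

theorem dGam_isDG (h : CD D Y ρ) (hρ : 1 ≤ ρ) : IsDG (dGam D Y ρ) := by
  have hc := GamG_pre h hρ
  refine ⟨?_, ?_, ?_, ?_⟩
  · intro u w
    rw [dGam_eq]
    exact (hc u w).dist_eq_zero_iff
  · intro u w
    rw [dGam_eq, dGam_eq]; exact SimpleGraph.dist_comm
  · intro u v w
    rw [dGam_eq, dGam_eq, dGam_eq]
    exact (hc u v).dist_triangle_left w
  · intro u w t ht
    obtain ⟨p, hp⟩ := (hc u w).exists_walk_length_eq_dist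
    have h1 := SimpleGraph.dist_le (p.take t)
    have h2 := SimpleGraph.dist_le (p.drop t)
    rw [SimpleGraph.Walk.take_length] at h1
    rw [SimpleGraph.Walk.drop_length] at h2
    have h3 := (hc u (p.getVert t)).dist_triangle_left w
    simp only [dGam_eq] at ht ⊢
    refine ⟨p.getVert t, ?_, ?_⟩ <;> omega

theorem dGam_ht (h : CD D Y ρ) (hρ : 1 ≤ ρ) (u w : Gam Y ρ) :
    ht ρ w.1 ≤ ht ρ u.1 + dGam D Y ρ u w := by
  have h1 : (ht ρ w.1 : ℤ) ≤ ht ρ u.1 + dGam D Y ρ u w :=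
    dGam_lip h hρ (fun v => (ht ρ v : ℤ)) ht_lip u w
  omega

/-- vertices of the vertical line -/
theorem IVert_vline (i : I) (y : V) (s : ℕ) (u : Gam Y ρ) (hu : IVert Y i y s u.1) :
    ∃ hy : y ∈ Y i, s ≤ ρ ∧ u = vline Y ρ i y hy s ∧ ht ρ u.1 = s := by
  rcases hu with ⟨h0, hy, h1⟩ | ⟨h0, h1⟩
  · subst h0
    refine ⟨hy, by omega, ?_, ?_⟩
    · rw [vline_zero]; exact Subtype.ext h1
    · rw [h1]; rfl
  · have hok := u.2
    rw [h1] at hok
    obtain ⟨hy, _, h3⟩ := hok
    refine ⟨hy, h3, ?_, ?_⟩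
    · exact Subtype.ext (by rw [h1, vline_mid i y hy s h0 h3])
    · rw [h1]; rfl

theorem GamDG_proof : Stmt_GamDG := by
  intro V I D Y ρ h
  have hρ : 1 ≤ ρ := by have := h.big; omega
  refine ⟨dGam_isDG h hρ, ?_, dGam_ht h hρ, ?_, ?_, ?_, ?_, ?_⟩
  · intro u w
    rw [dGam_eq, SimpleGraph.dist_eq_one_iff_adj, GamG_adj h]
  · intro i u w hu hw
    have := dGam_lip h hρ (sht ρ i) (sht_lip i) u w
    have e1 : sht ρ i u.1 = - (ht ρ u.1 : ℤ) := by unfold sht; rw [if_pos hu]
    have e2 : sht ρ i w.1 = (ht ρ w.1 : ℤ) := by unfold sht; rw [if_neg hw]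
    omega
  · intro x y
    obtain ⟨p, hp⟩ := base_walk h x y
    rw [dGam_eq, ← hp]; exact SimpleGraph.dist_le p
  · intro i y s u hu
    obtain ⟨hy, hs, e, hh⟩ := IVert_vline i y s u hu
    have h1 := dGam_ht h hρ u (va Y ρ i)
    have h2 : ht ρ (va Y ρ i : Gam Y ρ).1 = ρ + 1 := rfl
    have h3 := vline_dist_le h hρ i y hy s (ρ + 1) (by omega) le_rfl
    rw [← e, vline_top] at h3
    omega
  · intro i y s t u w hst hu hw
    obtain ⟨hy, hs, e, hh⟩ := IVert_vline i y s u hu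
    obtain ⟨hy', ht', e', hh'⟩ := IVert_vline i y t w hw
    have h1 := dGam_ht h hρ u w
    have h3 := vline_dist_le h hρ i y hy s t hst (by omega)
    rw [← e, ← e'] at h3
    omega
  · intro i y y' s u w hs hD hu hw
    by_cases hyy : y = y'
    · subst hyy
      have : u = w := Subtype.ext (by rw [hu, hw])
      rw [this, ((dGam_isDG h hρ).eq_zero w w).2 rfl]; omega
    · have hne : D y y' ≠ 0 := fun h0 => hyy ((h.dg.eq_zero y y').1 h0)
      have hadj : (GamG D Y ρ).Adj u w := by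
        rw [GamG_adj h, hu, hw]
        show i = i ∧ _
        exact ⟨rfl, Or.inr ⟨rfl, by omega, hD⟩⟩
      have := SimpleGraph.dist_eq_one_iff_adj.2 hadj
      rw [dGam_eq]; omega

end GamDGsec

end Pool.Agent.BURN
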