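import Pool.Agent.BURN.BaseE
import Pool.Agent.BURN.Lox38

/-! A * F_infinity acting on a scaled tree is a good base stage with property (M). -/

namespace Pool.Agent.BURN

open FreeGroup Pool.Agent.BURN.TreeX Pool.Agent.BURN.BaseX

namespace BaseAX

set_option linter.unusedSectionVars false

/-- automorphisms of a free group given by an action on the letters -/
def autF (A γ : Type) [Group A] [MulAction A γ] : A →* MulAut (FreeGroup γ) where
  toFun a := FreeGroup.freeGroupCongr (MulAction.toPerm a)
  map_one' := by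
    ext x
    simp [MulAction.toPerm]
  map_mul' a b := by
    ext x
    simp only [MulAction.toPerm, FreeGroup.freeGroupCongr_apply, MulAut.mul_apply, FreeGroup.map.comp]
    congr 2
    funext y
    exact mul_smul a b y

variable {A : Type} [Group A]

theorem autF_apply {γ : Type} [MulAction A γ] (a : A) (x : FreeGroup γ) :
    autF A γ a x = FreeGroup.map (fun b => a • b) x := rfl

theorem autF_mk {γ : Type} [MulAction A γ] (a : A) (L : List (γ × Bool)) :
    autF A γ a (mk L) = mk (L.map (fun p => (a • p.1, p.2))) := rfl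

theorem map_red {γ : Type} [MulAction A γ] (a : A) {L : List (γ × Bool)}
    (h : FreeGroup.IsReduced L) : FreeGroup.IsReduced (L.map (fun p => (a • p.1, p.2))) := by
  unfold FreeGroup.IsReduced at *
  rw [List.isChain_map]
  refine h.imp ?_
  intro p q hpq e
  exact hpq (MulAction.injective a e)

theorem autF_toWord {γ : Type} [MulAction A γ] [DecidableEq γ] (a : A) (x : FreeGroup γ) :
    (autF A γ a x).toWord = x.toWord.map (fun p => (a • p.1, p.2)) := by
  conv_lhs => rw [← mk_toWord (x := x)]
  rw [autF_mk, toWord_mk, (map_red a isReduced_toWord).reduce_eq]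

theorem autF_norm {γ : Type} [MulAction A γ] [DecidableEq γ] (a : A) (x : FreeGroup γ) :
    (autF A γ a x).norm = x.norm := by
  rw [FreeGroup.norm, autF_toWord, List.length_map]; rfl

/-- a free action on the letters has no fixed word except 1 -/
theorem autF_fix {γ : Type} [MulAction A γ] [DecidableEq γ] (hfree : ∀ (a : A) (b : γ), a • b = b →
    a = 1) (a : A) (x : FreeGroup γ) (hx : x ≠ 1) (h : autF A γ a x = x) : a = 1 := by
  have h1 := autF_toWord a x
  rw [h] at h1
  rcases hw : x.toWord with _ | ⟨p, l⟩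
  · exact absurd (toWord_eq_nil_iff.1 hw) hx
  · rw [hw, List.map_cons] at h1
    have h2 := (List.cons.inj h1).1
    exact hfree a p.1 (congrArg Prod.fst h2).symm

theorem dF_autF {γ : Type} [MulAction A γ] [DecidableEq γ] (a : A) (x y : FreeGroup γ) :
    dF (autF A γ a x) (autF A γ a y) = dF x y := by
  unfold dF
  rw [← _root_.map_inv, ← _root_.map_mul, autF_norm]

/-- Gromov products in the tree of a free group are even -/
theorem gp_even {γ : Type} [DecidableEq γ] (x y z : FreeGroup γ) : ∃ k, gp dF x y z = 2 * k := by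
  have h := dF_lcp (z⁻¹ * x) (z⁻¹ * y)
  rw [dF_mul] at h
  refine ⟨lcp (z⁻¹ * x).toWord (z⁻¹ * y).toWord, ?_⟩
  have e1 : dF x z = (z⁻¹ * x).norm := by
    rw [dF_isDG.symm]; rfl
  have e2 : dF y z = (z⁻¹ * y).norm := by
    rw [dF_isDG.symm]; rfl
  unfold gp
  omega

/-- letters of A * F_infinity -/
instance actB (A : Type) [Group A] : MulAction A (A × ℕ) where
  smul a p := (a * p.1, p.2)
  one_smul p := by show (1 * p.1, p.2) = p; rw [one_mul]
  mul_smul a b p := by show (a * b * p.1, p.2) = (a * (b * p.1), p.2); rw [mul_assoc]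

instance actBx (A β : Type) [Group A] [MulAction A β] (Λ : ℕ) : MulAction A (Bx β Λ) where
  smul a p := (a • p.1, p.2)
  one_smul p := by show ((1 : A) • p.1, p.2) = p; rw [one_smul]; rfl
  mul_smul a b p := by show ((a * b) • p.1, p.2) = (a • b • p.1, p.2); rw [mul_smul]

theorem psi_equiv {β : Type} [DecidableEq β] [MulAction A β] (Λ : ℕ) (a : A) (x : FreeGroup β) :
    psi Λ (autF A β a x) = autF A (Bx β Λ) a (psi Λ x) := by
  have : (psi Λ).comp (autF A β a).toMonoidHom =
      (autF A (Bx β Λ) a).toMonoidHom.comp (psi Λ) := by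
    ext b
    show psi Λ (autF A β a (of b)) = autF A (Bx β Λ) a (psi Λ (of b))
    rw [autF_apply, FreeGroup.map.of, psi, FreeGroup.lift_apply_of, FreeGroup.lift_apply_of, autF_mk]
    congr 1
    unfold pblk
    rw [List.map_ofFn]
    rfl
  exact DFunLike.congr_fun this x

section act
variable {β : Type} [DecidableEq β] [MulAction A β] (Λ : ℕ)

/-- action on the scaled tree -/
@[instance_reducible] def actG : MulAction (FreeGroup β ⋊[autF A β] A) (FreeGroup (Bx β Λ)) where
  smul g x := psi Λ g.left * autF A (Bx β Λ) g.right x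
  one_smul x := by
    show psi Λ (1 : FreeGroup β ⋊[autF A β] A).left *
      autF A (Bx β Λ) (1 : FreeGroup β ⋊[autF A β] A).right x = x
    simp
  mul_smul g h x := by
    show psi Λ (g * h).left * autF A (Bx β Λ) (g * h).right x =
      psi Λ g.left * autF A (Bx β Λ) g.right (psi Λ h.left * autF A (Bx β Λ) h.right x)
    rw [SemidirectProduct.mul_left, SemidirectProduct.mul_right, _root_.map_mul, _root_.map_mul,
      psi_equiv, _root_.map_mul, MulAut.mul_apply, mul_assoc]

/-- action on the tree of the free group itself -/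
@[instance_reducible] def actT : MulAction (FreeGroup β ⋊[autF A β] A) (FreeGroup β) where
  smul g x := g.left * autF A β g.right x
  one_smul x := by
    show (1 : FreeGroup β ⋊[autF A β] A).left *
      autF A β (1 : FreeGroup β ⋊[autF A β] A).right x = x
    simp
  mul_smul g h x := by
    show (g * h).left * autF A β (g * h).right x =
      g.left * autF A β g.right (h.left * autF A β h.right x)
    rw [SemidirectProduct.mul_left, SemidirectProduct.mul_right, _root_.map_mul, _root_.map_mul,
      MulAut.mul_apply, mul_assoc]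

end act

/-- generic: translation by t and automorphism a of a free group fixing two points -/
theorem fix_two {γ : Type} [DecidableEq γ] [MulAction A γ] (hfree : ∀ (a : A) (b : γ), a • b = b →
    a = 1) (t : FreeGroup γ) (a : A) (x y : FreeGroup γ) (hxy : x ≠ y)
    (hx : t * autF A γ a x = x) (hy : t * autF A γ a y = y) : t = 1 ∧ a = 1 := by
  have h1 : autF A γ a (x⁻¹ * y) = x⁻¹ * y := by
    conv_rhs => rw [← hx, ← hy]
    rw [_root_.map_mul, _root_.map_inv]
    group
  have ha := autF_fix hfree a (x⁻¹ * y) (fun h => hxy (inv_mul_eq_one.1 h)) h1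
  refine ⟨?_, ha⟩
  rw [ha, _root_.map_one, MulAut.one_apply] at hx
  exact mul_eq_right.1 hx

theorem finOrder_not_lox {G X : Type} [Group G] [MulAction G X] {d : X → X → ℕ} (x : X) (g : G)
    (n : ℕ) (hn : 0 < n) (hg : g ^ n = 1) : ¬ Lox d g := by
  intro hl
  obtain ⟨m, hm⟩ := hl x ((Finset.range n).sup (fun k => d x (g ^ k • x)))
  have e : g ^ m = g ^ (m % n) := by
    conv_lhs => rw [← Nat.div_add_mod m n, pow_add, pow_mul, hg, one_pow, one_mul]
  rw [e] at hm
  have := Finset.le_sup (f := fun k => d x (g ^ k • x)) (Finset.mem_range.2 (Nat.mod_lt m hn))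
  omega

/-- torsion of odd order in F x| A is conjugate into A -/
theorem conj_into {β : Type} [DecidableEq β] [MulAction A β] (hI1 : Stmt_Iso1) (hI2 : Stmt_Iso2)
    (g : FreeGroup β ⋊[autF A β] A) (n : ℕ) (hn : Odd n) (hg : g ^ n = 1) :
    ∃ h a, g = h * SemidirectProduct.inr a * h⁻¹ := by
  let act : MulAction (FreeGroup β ⋊[autF A β] A) (FreeGroup β) := actT
  have smul_def : ∀ (g : FreeGroup β ⋊[autF A β] A) (x : FreeGroup β),
    g • x = g.left * autF A β g.right x := fun _ _ => rfl
  have iso : IsIso (FreeGroup β ⋊[autF A β] A) (dF (β := β)) := by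
    intro g x y
    rw [smul_def, smul_def, dF_mul, dF_autF]
  have hnl : ¬ Lox (X := FreeGroup β) dF g := finOrder_not_lox 1 g n hn.pos hg
  -- minimal displacement
  obtain ⟨y, hy⟩ : ∃ y : FreeGroup β, ∀ z, dF y (g • y) ≤ dF z (g • z) := by
    obtain ⟨y, -, hy⟩ := WellFounded.has_min (InvImage.wf (fun z : FreeGroup β => dF z (g • z))
      Nat.lt_wfRel.wf) Set.univ ⟨1, trivial⟩
    exact ⟨y, fun z => not_lt.1 (hy z trivial)⟩
  have h0 : dF y (g • y) = 0 := by
    rcases Nat.lt_or_ge (dF y (g • y)) 2 with h | h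
    · by_contra hne
      have h1 : dF y (g • y) = 1 := by omega
      obtain ⟨I1, -, -⟩ := hI1 (FreeGroup β ⋊[autF A β] A) (FreeGroup β) dF 0 dF_isDG dF_hyp iso
      have h2 : dF y (g ^ 2 • y) ≤ 1 := by
        by_contra hc
        exact hnl (I1 g y (by omega)).1
      have e2 : dF (g ^ 2 • y) (g • y) = 1 := by
        rw [dF_isDG.symm, pow_two, mul_smul, iso, h1]
      obtain ⟨k, hk⟩ := gp_even y (g ^ 2 • y) (g • y)
      unfold gp at hk
      have h3 : dF y (g ^ 2 • y) = 0 := by omega
      have h4 : g ^ 2 • y = y := ((dF_isDG.eq_zero _ _).1 h3).symm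
      obtain ⟨j, hj⟩ := hn
      have h5 : (g ^ 2) ^ j • y = y := by
        clear hj
        induction j with
        | zero => simp
        | succ i ih => rw [pow_succ, mul_smul, h4, ih]
      have h6 : g • y = y := by
        have : g ^ n • y = g • (g ^ 2) ^ j • y := by
          rw [← mul_smul, ← pow_mul, hj, pow_succ']
        rw [hg, one_smul, h5] at this
        exact this.symm
      rw [h6, (dF_isDG.eq_zero _ _).2 rfl] at h1
      omega
    · exact absurd (hI2 (FreeGroup β ⋊[autF A β] A) (FreeGroup β) dF 0 (dF y (g • y)) dF_isDG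
        dF_hyp iso (by omega) g y rfl hy).1 hnl
  have h1 : g • y = y := ((dF_isDG.eq_zero _ _).1 h0).symm
  rw [smul_def] at h1
  refine ⟨SemidirectProduct.inl y, g.right, ?_⟩
  ext
  · have : g.left = y * (autF A β g.right y)⁻¹ := by
      rw [eq_mul_inv_iff_mul_eq]; exact h1
    simp [this]
  · simp

end BaseAX

open BaseAX

theorem BaseA_proof (hB : Stmt_BaseGen) (hI1 : Stmt_Iso1) (hI2 : Stmt_Iso2) (hLG : Stmt_LGa) :
    Stmt_BaseA := by
  classical
  intro A _ _ N hN hAN
  obtain ⟨n, hn⟩ : ∃ n, n = Nat.card A := ⟨_, rfl⟩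
  have hnpos : 0 < n := by rw [hn]; exact Nat.card_pos
  have hnodd : Odd n := by
    rw [hn]; exact hN.of_dvd_nat hAN
  obtain ⟨Λ, hΛ⟩ : ∃ Λ, Λ = n * (100 * dd + 1) := ⟨_, rfl⟩
  have hΛ1 : 1 ≤ Λ := by rw [hΛ]; exact Nat.mul_pos hnpos (by omega)
  have hfree : ∀ (a : A) (b : A × ℕ), a • b = b → a = 1 := by
    intro a b h
    have h1 : a * b.1 = b.1 := congrArg Prod.fst h
    exact mul_eq_right.1 h1
  have hfree' : ∀ (a : A) (b : Bx (A × ℕ) Λ), a • b = b → a = 1 := by
    intro a b h
    have h1 : a • b.1 = b.1 := congrArg Prod.fst h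
    exact hfree a b.1 h1
  let act : MulAction (FreeGroup (A × ℕ) ⋊[autF A (A × ℕ)] A) (FreeGroup (Bx (A × ℕ) Λ)) := actG Λ
  have smul_def : ∀ (g : FreeGroup (A × ℕ) ⋊[autF A (A × ℕ)] A) (x : FreeGroup (Bx (A × ℕ) Λ)),
    g • x = psi Λ g.left * autF A (Bx (A × ℕ) Λ) g.right x := fun _ _ => rfl
  have iso : IsIso (FreeGroup (A × ℕ) ⋊[autF A (A × ℕ)] A) (dF (β := Bx (A × ℕ) Λ)) := by
    intro g x y
    rw [smul_def, smul_def, dF_mul, dF_autF]
  have disp : ∀ g : FreeGroup (A × ℕ) ⋊[autF A (A × ℕ)] A, g ^ n ≠ 1 →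
      ∀ (x : FreeGroup (Bx (A × ℕ) Λ)) (m : ℕ), m * (100 * dd + 1) ≤ dF x (g ^ m • x) := by
    intro g hg x m
    have hr : (g ^ n).right = 1 := by
      have : (g ^ n).right = g.right ^ n := by
        have := _root_.map_pow (SemidirectProduct.rightHom (φ := autF A (A × ℕ))) g n
        exact this
      rw [this, hn]; exact pow_card_eq_one'
    obtain ⟨f, hf⟩ : ∃ f, f = (g ^ n).left := ⟨_, rfl⟩
    have hgn : g ^ n = SemidirectProduct.inl f := by
      ext
      · simp [hf]
      · simp [hr]
    have hf1 : f ≠ 1 := by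
      rintro rfl
      exact hg (by rw [hgn, _root_.map_one])
    have h1 : m * Λ ≤ dF x ((g ^ n) ^ m • x) := by
      have e : (SemidirectProduct.inl f : FreeGroup (A × ℕ) ⋊[autF A (A × ℕ)] A) ^ m =
          SemidirectProduct.inl (f ^ m) := (_root_.map_pow _ _ _).symm
      rw [hgn, e, smul_def, SemidirectProduct.left_inl, SemidirectProduct.right_inl,
        _root_.map_one, MulAut.one_apply, _root_.map_pow]
      exact psi_growth Λ hΛ1 f hf1 x m
    have h2 := pow_disp dF_isDG iso (g ^ m) x n
    rw [← pow_mul, mul_comm m n, pow_mul] at h2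
    have h3 : n * (m * (100 * dd + 1)) = m * Λ := by rw [hΛ]; ring
    exact Nat.le_of_mul_le_mul_left (by rw [h3]; exact h1.trans h2) hnpos
  obtain ⟨good, nl⟩ := hB (FreeGroup (A × ℕ) ⋊[autF A (A × ℕ)] A) (FreeGroup (Bx (A × ℕ) Λ)) dF n N
    dF_isDG dF_hyp iso ⟨1⟩ hN (by rw [hn]; exact hAN)
    (by
      intro g x y hxy hx hy
      rw [smul_def] at hx hy
      obtain ⟨h1, h2⟩ := fix_two hfree' _ _ x y hxy hx hy
      ext
      · rw [psi_inj Λ hΛ1 _ h1]; rfl
      · exact h2)
    disp
  refine ⟨FreeGroup (A × ℕ) ⋊[autF A (A × ℕ)] A, FreeGroup (Bx (A × ℕ) Λ), inferInstance, act, dF,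
    SemidirectProduct.inr, 1, fun k => SemidirectProduct.inl (of (1, k)), good,
    SemidirectProduct.inr_injective, ?_, ?_, ?_, ?_⟩
  · intro a
    rw [smul_def]
    simp
  · intro g hg
    exact conj_into hI1 hI2 g n hnodd (nl g hg)
  · rintro _ ⟨a1, rfl⟩ _ ⟨a2, rfl⟩ _ ⟨a3, rfl⟩ n1 n2 n3 y h heq
    let act' : MulAction (FreeGroup (A × ℕ) ⋊[autF A (A × ℕ)] A) (FreeGroup (A × ℕ)) := actT
    have smul_def' : ∀ (g : FreeGroup (A × ℕ) ⋊[autF A (A × ℕ)] A) (x : FreeGroup (A × ℕ)),
      g • x = g.left * autF A (A × ℕ) g.right x := fun _ _ => rfl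
    have iso' : IsIso (FreeGroup (A × ℕ) ⋊[autF A (A × ℕ)] A) (dF (β := A × ℕ)) := by
      intro g x y
      rw [smul_def', smul_def', dF_mul, dF_autF]
    -- an elliptic element does not fold geodesics
    have fold : ∀ (g : FreeGroup (A × ℕ) ⋊[autF A (A × ℕ)] A) (P z : FreeGroup (A × ℕ)), g ≠ 1 →
        g • P = P → gp dF z (g • z) P ≤ 0 := by
      intro g P z hg hP
      by_contra hc
      obtain ⟨k, hk⟩ := gp_even z (g • z) P
      have hgl := gp_le_left dF_isDG z (g • z) P
      have hsym := dF_isDG.symm z P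
      obtain ⟨p, hp1, hp2⟩ := dF_isDG.geo P z 1 (by omega)
      have b1 : Btw dF P p z := by unfold Btw; omega
      have b2 : Btw dF P (g • p) (g • z) := by
        have : Btw dF (g • P) (g • p) (g • z) := by
          unfold Btw at *
          rw [iso', iso', iso']; exact b1
        rwa [hP] at this
      have d2 : dF P (g • p) = 1 := by
        have := iso' g P p
        rw [hP] at this
        rw [this, hp1]
      have := fellow dF_isDG dF_hyp b1 b2 (by rw [hp1, d2]) (by rw [hp1]; omega)
      have e : p = g • p := (dF_isDG.eq_zero _ _).1 (by omega)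
      have hPp : P ≠ p := by
        intro h
        rw [← h, (dF_isDG.eq_zero _ _).2 rfl] at hp1
        omega
      rw [smul_def'] at hP e
      obtain ⟨h1, h2⟩ := fix_two hfree _ _ P p hPp hP e.symm
      apply hg
      ext
      · exact h1
      · exact h2
    have fix1 : ∀ a : A, (SemidirectProduct.inr a : FreeGroup (A × ℕ) ⋊[autF A (A × ℕ)] A) •
        (1 : FreeGroup (A × ℕ)) = 1 := by
      intro a
      rw [smul_def']; simp
    by_cases hy : y⁻¹ • (1 : FreeGroup (A × ℕ)) = 1
    · have hy2 : y • (1 : FreeGroup (A × ℕ)) = 1 := by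
        conv_lhs => rw [← hy]
        rw [smul_inv_smul]
      rw [smul_def'] at hy2
      simp only [_root_.map_one, mul_one] at hy2
      refine ⟨y.right, ?_⟩
      ext
      · simp [hy2]
      · simp
    · exfalso
      have hP' : (y⁻¹ * SemidirectProduct.inr a2 * y) • y⁻¹ • (1 : FreeGroup (A × ℕ)) =
          y⁻¹ • (1 : FreeGroup (A × ℕ)) := by
        rw [mul_smul, mul_smul, smul_inv_smul, fix1]
      have hne2 : y⁻¹ * SemidirectProduct.inr a2 * y ≠ 1 := by
        intro h
        apply n2
        have := congrArg (fun t => y * t * y⁻¹) h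
        simpa [mul_assoc] using this
      have hlox := (Lox38.lox_general hLG (a := 0) dF_isDG dF_hyp iso' (SemidirectProduct.inr a1)
        (y⁻¹ * SemidirectProduct.inr a2 * y) (1 : FreeGroup (A × ℕ)) (y⁻¹ • 1) (fix1 a1) hP'
        (fold _ _ _ n1 (fix1 a1)) (fold _ _ _ hne2 hP')
        (by
          have : dF (1 : FreeGroup (A × ℕ)) (y⁻¹ • 1) ≠ 0 := by
            intro h
            exact hy ((dF_isDG.eq_zero _ _).1 h).symm
          omega)).2
      rw [heq] at hlox
      refine finOrder_not_lox (1 : FreeGroup (A × ℕ)) _ n hnpos ?_ hlox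
      rw [conj_pow, ← _root_.map_pow, hn, pow_card_eq_one', _root_.map_one, mul_one,
        mul_inv_cancel]
  · intro H _ f
    refine ⟨SemidirectProduct.lift (FreeGroup.lift (fun p : A × ℕ => f p.2)) 1 ?_, ?_, ?_⟩
    · intro a
      ext p
      show (FreeGroup.lift (fun p : A × ℕ => f p.2)) (autF A (A × ℕ) a (of p)) = _
      rw [autF_apply, FreeGroup.map.of, FreeGroup.lift_apply_of]
      simp
      rfl
    · intro a; simp
    · intro k; simp

end Pool.Agent.BURN
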