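import Pool.Agent.BURN.Stmts38

/-! Base stages on the scaled tree (helper33). -/

namespace Pool.Agent.BURN

/-- general criterion: a tree (Hyp 0) on which every element with g ^ n ≠ 1 moves every point by
more than 100 dd and no non-trivial element fixes two points -/
def Stmt_BaseGen : Prop := ∀ (G X : Type) [Group G] [MulAction G X] (d : X → X → ℕ) (n N : ℕ),
  IsDG d → Hyp d 0 → IsIso G d → Nonempty X → Odd N → n ∣ N →
  (∀ (g : G) (x y : X), x ≠ y → g • x = x → g • y = y → g = 1) →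
  (∀ g : G, g ^ n ≠ 1 → ∀ (x : X) (m : ℕ), m * (100 * dd + 1) ≤ d x (g ^ m • x)) →
  Good (G := G) d N ∧ ∀ g : G, ¬ Lox d g → g ^ n = 1

/-- free groups -/
def Stmt_BaseE : Prop := ∀ (S : Type) [DecidableEq S] (N : ℕ), Odd N →
  ∃ (X : Type) (_ : MulAction (FreeGroup S) X) (d : X → X → ℕ), Good (G := FreeGroup S) d N ∧
    (∀ g : FreeGroup S, ¬ Lox d g → g = 1) ∧
    ((∃ a b : S, a ≠ b) → NE (G := FreeGroup S) d)

/-- free products A * F_infinity with A finite of order dividing N -/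
def Stmt_BaseA : Prop := ∀ (A : Type) [Group A] [Finite A] (N : ℕ), Odd N → Nat.card A ∣ N →
  ∃ (G X : Type) (_ : Group G) (_ : MulAction G X) (d : X → X → ℕ) (i : A →* G) (P : X)
    (b : ℕ → G), Good (G := G) d N ∧ Function.Injective i ∧ (∀ a, i a • P = P) ∧
    (∀ g : G, ¬ Lox d g → ∃ (h : G) (a : A), g = h * i a * h⁻¹) ∧ MProp i.range ∧
    (∀ (H : Type) [CommGroup H] (f : ℕ → H), ∃ χ : G →* H, (∀ a, χ (i a) = 1) ∧
      ∀ n, χ (b n) = f n)

end Pool.Agent.BURN
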