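import Pool.Agent.BURN.Base1
import Pool.Agent.BURN.BaseStmts

/-! Free groups acting on scaled trees are good base stages. -/

namespace Pool.Agent.BURN

open FreeGroup Pool.Agent.BURN.TreeX Pool.Agent.BURN.BaseX

namespace BaseX

set_option linter.unusedSectionVars false

theorem pow_disp {G X : Type} [Group G] [MulAction G X] {d : X → X → ℕ} (hdg : IsDG d)
    (hi : IsIso G d) (g : G) (x : X) (k : ℕ) : d x (g ^ k • x) ≤ k * d x (g • x) := by
  induction k with
  | zero => simp [(hdg.eq_zero x x).2 rfl]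
  | succ n ih =>
    have t := hdg.tri x (g ^ n • x) (g ^ (n + 1) • x)
    have e : d (g ^ n • x) (g ^ (n + 1) • x) = d x (g • x) := by
      rw [pow_succ, mul_smul, hi]
    rw [add_mul, one_mul]
    omega

/-- linear growth at one point gives linear growth at every point -/
theorem growth {G X : Type} [Group G] [MulAction G X] {d : X → X → ℕ} (hdg : IsDG d)
    (hi : IsIso G d) (g : G) (x0 : X) (c : ℕ) (h : ∀ m : ℕ, m * c ≤ d x0 (g ^ m • x0)) (x : X)
    (m : ℕ) : m * c ≤ d x (g ^ m • x) := by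
  by_contra hcon
  push Not at hcon
  obtain ⟨K, hK⟩ : ∃ K, K = 2 * d x x0 + 1 := ⟨_, rfl⟩
  have h1 := pow_disp hdg hi (g ^ m) x K
  rw [← pow_mul] at h1
  have h2 := h (m * K)
  have t1 := hdg.tri x0 x (g ^ (m * K) • x0)
  have t2 := hdg.tri x (g ^ (m * K) • x) (g ^ (m * K) • x0)
  have t3 := hi (g ^ (m * K)) x x0
  have t4 := hdg.symm x0 x
  have h3 : K * (d x (g ^ m • x) + 1) ≤ K * (m * c) := Nat.mul_le_mul_left _ hcon
  have h4 : K * (m * c) = m * K * c := by ring
  rw [mul_add, mul_one] at h3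
  omega

variable {β : Type} [DecidableEq β] (Λ : ℕ)

theorem psi_inj (hΛ : 1 ≤ Λ) (g : FreeGroup β) (h : psi Λ g = 1) : g = 1 := by
  have h1 := psi_norm Λ hΛ g
  rw [h, FreeGroup.norm_one] at h1
  rcases Nat.mul_eq_zero.1 h1.symm with h2 | h2
  · omega
  · exact FreeGroup.norm_eq_zero.1 h2

/-- growth of the displacement for the scaled action -/
theorem psi_growth (hΛ : 1 ≤ Λ) (g : FreeGroup β) (hg : g ≠ 1) (x : FreeGroup (Bx β Λ)) (m : ℕ) :
    m * Λ ≤ dF x (psi Λ g ^ m * x) := by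
  obtain ⟨u, c, hgc, hc⟩ := exists_conj g hg
  have iso : IsIso (FreeGroup (Bx β Λ)) (dF (β := Bx β Λ)) := fun g x y => dF_mul g x y
  refine growth (G := FreeGroup (Bx β Λ)) dF_isDG iso (psi Λ g) (psi Λ u) Λ ?_ x m
  intro k
  have e : psi Λ g ^ k * psi Λ u = psi Λ (u * c ^ k) := by
    rw [hgc, ← _root_.map_pow, ← _root_.map_mul, conj_pow]
    congr 1
    group
  show k * Λ ≤ dF (psi Λ u) (psi Λ g ^ k * psi Λ u)
  rw [e]
  unfold dF
  rw [← _root_.map_inv, ← _root_.map_mul, psi_norm Λ hΛ]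
  have : u⁻¹ * (u * c ^ k) = c ^ k := by group
  rw [this, mul_comm]
  exact Nat.mul_le_mul_left _ (hc k)

theorem two_letters {S : Type} [DecidableEq S] (a b : S) (hab : a ≠ b) (m : ℕ) (hm : 1 ≤ m) :
    of b * of a ^ m * (of b)⁻¹ ≠ of a ^ m := by
  intro h
  let f : FreeGroup S →* Equiv.Perm ℤ := FreeGroup.lift (fun s =>
    if s = a then Equiv.addRight (1 : ℤ) else if s = b then Equiv.neg ℤ else 1)
  have fa : f (of a) = Equiv.addRight (1 : ℤ) := by simp [f]
  have fb : f (of b) = Equiv.neg ℤ := by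
    simp [f, Ne.symm hab]
  have e := congrArg (fun t => f t 0) h
  simp only [_root_.map_mul, _root_.map_pow, _root_.map_inv, fa, fb] at e
  have p : ∀ (k : ℕ) (x : ℤ), ((Equiv.addRight (1 : ℤ)) ^ k) x = x + k := by
    intro k
    induction k with
    | zero => intro x; simp
    | succ n ih => intro x; rw [pow_succ', Equiv.Perm.mul_apply, ih]; simp; ring
  have hinv : (Equiv.neg ℤ)⁻¹ (0:ℤ) = 0 := by
    rw [Equiv.Perm.inv_eq_iff_eq]; simp
  rw [Equiv.Perm.mul_apply, Equiv.Perm.mul_apply, hinv, p] at e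
  simp at e
  omega

end BaseX

theorem BaseE_proof (hB : Stmt_BaseGen) : Stmt_BaseE := by
  intro S _ N hN
  obtain ⟨Λ, hΛ⟩ : ∃ Λ, Λ = 100 * dd + 1 := ⟨_, rfl⟩
  have hΛ1 : 1 ≤ Λ := by omega
  let act : MulAction (FreeGroup S) (FreeGroup (Bx S Λ)) :=
    { smul := fun g x => psi Λ g * x
      one_smul := fun x => by show psi Λ 1 * x = x; rw [_root_.map_one, one_mul]
      mul_smul := fun g h x => by
        show psi Λ (g * h) * x = psi Λ g * (psi Λ h * x)
        rw [_root_.map_mul, mul_assoc] }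
  have smul_def : ∀ (g : FreeGroup S) (x : FreeGroup (Bx S Λ)), g • x = psi Λ g * x :=
    fun _ _ => rfl
  have iso : IsIso (FreeGroup S) (dF (β := Bx S Λ)) := by
    intro g x y
    rw [smul_def, smul_def]
    exact dF_mul _ _ _
  have grow : ∀ g : FreeGroup S, g ≠ 1 → ∀ (x : FreeGroup (Bx S Λ)) (m : ℕ),
      m * Λ ≤ dF x (g ^ m • x) := by
    intro g hg x m
    rw [smul_def, _root_.map_pow]
    exact psi_growth Λ hΛ1 g hg x m
  obtain ⟨good, nl⟩ := hB (FreeGroup S) (FreeGroup (Bx S Λ)) dF 1 N dF_isDG dF_hyp iso ⟨1⟩ hN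
    (one_dvd _)
    (by
      intro g x y _ hx _
      rw [smul_def] at hx
      exact psi_inj Λ hΛ1 g (mul_eq_right.1 hx))
    (by
      intro g hg x m
      rw [pow_one] at hg
      have := grow g hg x m
      exact (Nat.mul_le_mul_left m (le_of_eq hΛ.symm)).trans this)
  refine ⟨FreeGroup (Bx S Λ), act, dF, good, fun g hg => by simpa using nl g hg, ?_⟩
  rintro ⟨a, b, hab⟩
  refine ⟨of a, of b, ?_, fun m hm => two_letters a b hab m hm⟩
  intro x B
  refine ⟨B + 1, ?_⟩
  have h := grow (of a) (FreeGroup.of_ne_one a) x (B + 1)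
  have : B + 1 ≤ (B + 1) * Λ := Nat.le_mul_of_pos_right _ hΛ1
  omega

end Pool.Agent.BURN
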