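import Pool.Agent.BURN.BaseStmts
import Pool.Agent.BURN.Basic

/-! General criterion for base stages. -/

namespace Pool.Agent.BURN

theorem BaseGen_proof (hCo : Stmt_Comm) (hSl : Stmt_Slen) : Stmt_BaseGen := by
  intro G X _ _ d n N hdg hy0 hiso hne hodd hnN hfix hdisp
  have hNpos : 0 < N := hodd.pos
  have hnpos : 0 < n := Nat.pos_of_dvd_of_pos hnN hNpos
  have nonlox : ∀ g : G, g ^ n = 1 → ¬ Lox d g := by
    intro g hg hl
    obtain ⟨x⟩ := hne
    -- the orbit is finite
    obtain ⟨m, hm⟩ := hl x ((Finset.range n).sup (fun k => d x (g ^ k • x)))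
    have e : g ^ m = g ^ (m % n) := by
      conv_lhs => rw [← Nat.div_add_mod m n, pow_add, pow_mul, hg, one_pow, one_mul]
    rw [e] at hm
    have := Finset.le_sup (f := fun k => d x (g ^ k • x)) (Finset.mem_range.2 (Nat.mod_lt m hnpos))
    omega
  have lox : ∀ g : G, g ^ n ≠ 1 → Lox d g := by
    intro g hg x B
    refine ⟨B + 1, ?_⟩
    have := hdisp g hg x (B + 1)
    have h2 : B + 1 ≤ (B + 1) * (100 * dd + 1) := Nat.le_mul_of_pos_right _ (by omega)
    omega
  have tors : ∀ g : G, ¬ Lox d g → g ^ n = 1 := by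
    intro g hg
    by_contra h
    exact hg (lox g h)
  have small : ∀ (g : G) (x : X), d x (g • x) ≤ 100 * dd → g ^ n = 1 := by
    intro g x h
    by_contra hg
    have := hdisp g hg x 1
    rw [pow_one] at this
    omega
  refine ⟨?_, tors⟩
  constructor
  · exact hdg
  · intro x y z w
    have := hy0 x y z w
    omega
  · exact hiso
  · exact hodd
  · exact hne
  · intro x y hxy
    refine ⟨1, Or.inl rfl, ?_⟩
    intro g hgx hgy
    have hg1 := small g x hgx
    have hnl := nonlox g hg1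
    obtain ⟨γ, hγ⟩ := exists_geod hdg x y
    have hA0 : 4 * (100 * dd) + 3 ≤ A0 := by
      rw [A0_eq]
      generalize 2 ^ (101 * dd + 3) = zz
      omega
    have c1 := (hCo G X d 0 (100 * dd) x y γ g g hdg hy0 hiso hγ hgx hgy hgx hgy
      (2 * (100 * dd) + 0 + 1) (by omega) (by omega)).2.2 hnl
    have c2 := (hCo G X d 0 (100 * dd) x y γ g g hdg hy0 hiso hγ hgx hgy hgx hgy
      (2 * (100 * dd) + 0 + 2) (by omega) (by omega)).2.2 hnl
    have e1 := (hdg.eq_zero _ _).1 (Nat.le_zero.1 (by simpa using c1))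
    have e2 := (hdg.eq_zero _ _).1 (Nat.le_zero.1 (by simpa using c2))
    have hd : d (γ (2 * (100 * dd) + 0 + 1)) (γ (2 * (100 * dd) + 0 + 2)) = 1 := by
      rw [hγ.2.2 _ _ (by omega) (by omega)]; omega
    have hne' : γ (2 * (100 * dd) + 0 + 1) ≠ γ (2 * (100 * dd) + 0 + 2) := by
      intro h
      rw [h, (hdg.eq_zero _ _).2 rfl] at hd
      omega
    rw [hfix g _ _ hne' e1.symm e2.symm]
    exact Subgroup.one_mem _
  · intro g hg
    obtain ⟨k, hk⟩ := hnN
    rw [hk, pow_mul, tors g hg, one_pow]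
  · intro g hg x m
    have h1 : g ^ n ≠ 1 := fun h => nonlox g h hg
    have h2 := hdisp g h1 x m
    have h3 : m ≤ m * (100 * dd + 1) := Nat.le_mul_of_pos_right _ (by omega)
    have h4 : d x (g ^ m • x) ≤ Rr * d x (g ^ m • x) := Nat.le_mul_of_pos_left _ Rr_pos
    omega
  · intro c g hc hg hg1 x hx
    exfalso
    obtain ⟨j, hj⟩ := Subgroup.mem_zpowers_iff.1 hg
    have hj0 : j ≠ 0 := by
      intro h0
      rw [h0, zpow_zero] at hj
      exact hg1 hj.symm
    have hlox := ((hSl G X d hdg hiso).2.2.2.2.2.1 c j hj0).2 hc.1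
    rw [hj] at hlox
    exact nonlox g (small g x hx) hlox

end Pool.Agent.BURN
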