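import Pool.Agent.BURN.BurnF
import Pool.Agent.BURN.BaseStmts

/-! Module BurnF from the base stage of helper33 (`Stmt_BaseE`). -/

namespace Pool.Agent.BURN

open BurnFX in
theorem BurnF_proof_of_BaseE (hB : Stmt_BaseE) (hT : Stmt_Tower) (hL1 : Stmt_Lim1)
    (hL2 : Stmt_Lim2) (hL3 : Stmt_Lim3) : Stmt_BurnF := by
  intro S _ p hodd hp Fp hFp
  obtain ⟨X, _, d, hgood, hnl, hNE⟩ := hB S p hodd
  obtain ⟨M, hnorm, h1, h2, h3, h4⟩ := limit_exists hT hL1 hL2 hL3 p p
    ⟨FreeGroup S, X, d, hgood⟩ hp dvd_rfl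
  have hMF : M = Fp := by
    apply le_antisymm
    · rw [hFp]
      exact h2.trans (Subgroup.closure_le_normalClosure)
    · rw [hFp]
      refine Subgroup.normalClosure_le_normal ?_
      rintro x ⟨y, rfl⟩
      exact h1 y
  subst hMF
  constructor
  · intro x hx
    refine h3 x hx ?_
    intro g0 hg0 hmem
    rw [hnl g0 hg0, inv_one, mul_one] at hmem
    exact hx hmem
  · intro hab K hK U hU hUf
    exact h4 (hNE hab) K hK U hU hUf

end Pool.Agent.BURN
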