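import Pool.Agent.BURN.Basic
import Pool.Agent.BURN.Stmts1

/-! Module ClaimA of the Burnside engine (2.1.2). -/

namespace Pool.Agent.BURN

theorem ClaimA_proof : Stmt_ClaimA := by
  intro G X _ _ d C R δ α β σ V c q q' hRF hV hc hfar hq hq'
  have h := hRF.dg
  have hy := hRF.hyp
  have h1 := hRF.one_le
  have hs : 4 * (aa0 δ α β + bb0 δ α β) ≤ σ := by
    refine le_trans ?_ hRF.big
    unfold sig0; omega
  have key : ∀ q, ((∃ v ∈ V, d q v ≤ 1) ∨ (q ∈ C ∧ q ≠ c ∧ ∃ v ∈ V, d q v ≤ bb0 δ α β)) →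
      ∃ w ∈ V, 2 * aa0 δ α β ≤ gp d q w c := by
    rintro q (⟨v, hv, hv1⟩ | ⟨hqC, hqc, v, hv, hv1⟩)
    · refine ⟨v, hv, ?_⟩
      have f := hfar v hv
      have g := gp_add h q v c
      have t := h.tri v q c
      have s := h.symm v q
      have s2 := h.symm v c
      omega
    · refine ⟨v, hv, ?_⟩
      have f := hRF.sep q hqC c hc hqc
      have g := gp_add h q v c
      have t := h.tri q v c
      omega
  obtain ⟨w, hw, hw1⟩ := key q hq
  obtain ⟨w', hw', hw1'⟩ := key q' hq'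
  obtain ⟨g, hg⟩ := exists_geod h w w'
  obtain ⟨hl, hn⟩ := near_geod h hy hg c
  obtain ⟨v, hv, hv1⟩ := hV w hw w' hw' _ (hg.btw' hl)
  have f := hfar v hv
  have t := h.tri c (g (gp d w' c w / 2)) v
  have k1 := hyp_gp h hy q w' w c
  have k2 := hyp_gp h hy q q' w' c
  rw [gp_comm h w' q'] at k2
  omega

end Pool.Agent.BURN
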