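import Pool.Agent.BURN.Stmts1

/-! Section 3 of the blueprint: cone-off with truncated horoballs. Definitions and exact statements. -/

namespace Pool.Agent.BURN

/-- the guessing constant f = 32 * 250^2 (never evaluate) -/
@[irreducible] def f3 : ℕ := 32 * 250 ^ 2

/-- raw vertices of the cone-off: base vertices, cone vertices (height s), apices -/
inductive CV (V I : Type) : Type
  | b (v : V) : CV V I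
  | c (i : I) (y : V) (s : ℕ) : CV V I
  | a (i : I) : CV V I

variable {V I : Type}

/-- admissible vertices -/
def CVOk (Y : I → Set V) (ρ : ℕ) : CV V I → Prop
  | .b _ => True
  | .c i y s => y ∈ Y i ∧ 1 ≤ s ∧ s ≤ ρ
  | .a _ => True

/-- adjacency -/
def CAdj (D : V → V → ℕ) (ρ : ℕ) : CV V I → CV V I → Prop
  | .b x, .b x' => D x x' = 1
  | .b x, .c _ y s => s = 1 ∧ x = y
  | .c _ y s, .b x => s = 1 ∧ x = y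
  | .c i y s, .c j y' s' => i = j ∧ ((y = y' ∧ (s' = s + 1 ∨ s = s' + 1)) ∨
      (s = s' ∧ 1 ≤ D y y' ∧ D y y' ≤ 2 ^ s))
  | .c i _ s, .a j => i = j ∧ s = ρ
  | .a j, .c i _ s => i = j ∧ s = ρ
  | .b _, .a _ => False
  | .a _, .b _ => False
  | .a _, .a _ => False

/-- the vertex set of the cone-off -/
def Gam (Y : I → Set V) (ρ : ℕ) : Type := {u : CV V I // CVOk Y ρ u}

/-- the graph distance of the cone-off -/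
noncomputable def dGam (D : V → V → ℕ) (Y : I → Set V) (ρ : ℕ) (u w : Gam Y ρ) : ℕ :=
  (SimpleGraph.fromRel (fun u w : Gam Y ρ => CAdj D ρ u.1 w.1)).dist u w

/-- base vertex -/
def vb (Y : I → Set V) (ρ : ℕ) (x : V) : Gam Y ρ := ⟨.b x, trivial⟩
/-- apex -/
def va (Y : I → Set V) (ρ : ℕ) (i : I) : Gam Y ρ := ⟨.a i, trivial⟩

/-- height -/
def ht (ρ : ℕ) : CV V I → ℕ
  | .b _ => 0
  | .c _ _ s => s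
  | .a _ => ρ + 1

/-- u lies in the horoball i -/
def Hor (i : I) (u : CV V I) : Prop := (∃ y s, u = .c i y s) ∨ u = .a i

/-- y is the foot of the non-apex vertex u -/
def IsFt (u : CV V I) (y : V) : Prop := u = .b y ∨ ∃ i s, u = .c i y s

/-- u is the vertex (i,y,s), where (i,y,0) is the base vertex y ∈ Y i -/
def IVert (Y : I → Set V) (i : I) (y : V) (s : ℕ) (u : CV V I) : Prop :=
  (s = 0 ∧ y ∈ Y i ∧ u = .b y) ∨ (1 ≤ s ∧ u = .c i y s)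

/-- geodesic sequence g 0, ..., g k -/
def GSeq {X : Type} (d : X → X → ℕ) (k : ℕ) (g : ℕ → X) : Prop :=
  ∀ i j, i ≤ j → j ≤ k → d (g i) (g j) = j - i

/-- x is within 25 of S -/
def Nr (D : V → V → ℕ) (x : V) (S : Set V) : Prop := ∃ w ∈ S, D x w ≤ 25

/-- cone-off data -/
structure CD (D : V → V → ℕ) (Y : I → Set V) (ρ : ℕ) : Prop where
  dg : IsDG D
  hyp : Hyp D 2
  qc : ∀ i, QC D 1 (Y i)
  unb : ∀ i B, ∃ y ∈ Y i, ∃ y' ∈ Y i, B < D y y'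
  ov : ∀ i l, i ≠ l → ∀ x y, Nr D x (Y i) → Nr D x (Y l) → Nr D y (Y i) → Nr D y (Y l) →
    D x y ≤ 53
  big : f3 + 20 ≤ ρ

/-- a choice of nearest points -/
def IsPr (D : V → V → ℕ) (Y : I → Set V) (pr : I → V → V) : Prop :=
  ∀ i x, IsNear D (Y i) x (pr i x)

/-- p is i-deep for (x,y) -/
def Deep (D : V → V → ℕ) (pr : I → V → V) (i : I) (x y p : V) : Prop :=
  100 < D (pr i p) (pr i x) ∧ 100 < D (pr i p) (pr i y)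

/-- arch over A, B ∈ Y i with T = clog2 D(A,B) -/
def Arch (D : V → V → ℕ) (ρ : ℕ) (i : I) (A B : V) : Set (CV V I) :=
  {u | u = .b A ∨ u = .b B ∨
    (∃ t, 1 ≤ t ∧ t ≤ Nat.clog 2 (D A B) ∧ t ≤ ρ ∧ (u = .c i A t ∨ u = .c i B t)) ∨
    (ρ < Nat.clog 2 (D A B) ∧ u = .a i)}

/-- the guessed path -/
def Lset (D : V → V → ℕ) (Y : I → Set V) (ρ : ℕ) (pr : I → V → V) (x y : V) : Set (Gam Y ρ) :=
  {u | (∃ p, u.1 = .b p ∧ Btw D x p y ∧ ∀ i, ¬ Deep D pr i x y p) ∨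
    ∃ i, 100 ≤ D (pr i x) (pr i y) ∧ u.1 ∈ Arch D ρ i (pr i x) (pr i y)}

/-! ## statements -/

/-- 3.1 (module GamDG) -/
def Stmt_GamDG : Prop := ∀ (V I : Type) (D : V → V → ℕ) (Y : I → Set V) (ρ : ℕ), CD D Y ρ →
  IsDG (dGam D Y ρ) ∧
  (∀ u w : Gam Y ρ, dGam D Y ρ u w = 1 ↔ CAdj D ρ u.1 w.1) ∧
  (∀ u w : Gam Y ρ, ht ρ w.1 ≤ ht ρ u.1 + dGam D Y ρ u w) ∧
  (∀ (i : I) (u w : Gam Y ρ), Hor i u.1 → ¬ Hor i w.1 → ht ρ u.1 + ht ρ w.1 ≤ dGam D Y ρ u w) ∧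
  (∀ x y, dGam D Y ρ (vb Y ρ x) (vb Y ρ y) ≤ D x y) ∧
  (∀ (i : I) (y : V) (s : ℕ) (u : Gam Y ρ), IVert Y i y s u.1 →
     dGam D Y ρ u (va Y ρ i) = ρ + 1 - s) ∧
  (∀ (i : I) (y : V) (s t : ℕ) (u w : Gam Y ρ), s ≤ t → IVert Y i y s u.1 → IVert Y i y t w.1 →
     dGam D Y ρ u w = t - s) ∧
  (∀ (i : I) (y y' : V) (s : ℕ) (u w : Gam Y ρ), 1 ≤ s → D y y' ≤ 2 ^ s →
     u.1 = .c i y s → w.1 = .c i y' s → dGam D Y ρ u w ≤ 1)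

/-- 3.1 (c),(d) (module GamLen) -/
def Stmt_GamLen : Prop := ∀ (V I : Type) (D : V → V → ℕ) (Y : I → Set V) (ρ : ℕ), CD D Y ρ →
  (∀ (k s : ℕ) (g : ℕ → Gam Y ρ) (y y' : V), GSeq (dGam D Y ρ) k g → s ≤ ρ →
    (∀ j ≤ k, ht ρ (g j).1 ≤ s) → IsFt (g 0).1 y → IsFt (g k).1 y' → D y y' ≤ k * 2 ^ s) ∧
  (∀ x y, dGam D Y ρ (vb Y ρ x) (vb Y ρ y) ≤ 2 * ρ + 1 →
    D x y ≤ 2 ^ (dGam D Y ρ (vb Y ρ x) (vb Y ρ y)))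

/-- 3.2.1 (module Climb) -/
def Stmt_Climb : Prop := ∀ (V I : Type) (D : V → V → ℕ) (Y : I → Set V) (ρ : ℕ), CD D Y ρ →
  ∀ (i : I) (k t : ℕ) (g : ℕ → Gam Y ρ) (yy : ℕ → V) (ss : ℕ → ℕ), GSeq (dGam D Y ρ) k g →
  (∀ j ≤ k, IVert Y i (yy j) (ss j) (g j).1) → (∀ j < k, ¬ (ss j = 0 ∧ ss (j + 1) = 0)) →
  (∀ j < k, ss j < t) → ss k = t → 1 ≤ t → t ≤ ρ →
  ∀ v : Gam Y ρ, v.1 = .c i (yy 0) t → dGam D Y ρ v (g k) ≤ 1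

/-- 3.2.2 (module Climb) -/
def Stmt_Top : Prop := ∀ (V I : Type) (D : V → V → ℕ) (Y : I → Set V) (ρ : ℕ), CD D Y ρ →
  ∀ (i : I) (k H : ℕ) (g : ℕ → Gam Y ρ) (yy : ℕ → V) (ss : ℕ → ℕ), GSeq (dGam D Y ρ) k g →
  (∀ j ≤ k, IVert Y i (yy j) (ss j) (g j).1) → (∀ j < k, ¬ (ss j = 0 ∧ ss (j + 1) = 0)) →
  (∀ j ≤ k, ss j ≤ H) → H < ρ → D (yy 0) (yy k) ≤ 5 * 2 ^ H

/-- 3.2.3 (module Excur) -/
def Stmt_Excur : Prop := ∀ (V I : Type) (D : V → V → ℕ) (Y : I → Set V) (ρ : ℕ), CD D Y ρ →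
  ∀ (x y : V) (g : ℕ → Gam Y ρ), IsGeod (dGam D Y ρ) (vb Y ρ x) (vb Y ρ y) g →
  (∀ j, 0 < j → j < dGam D Y ρ (vb Y ρ x) (vb Y ρ y) → ∀ v, (g j).1 ≠ .b v) →
  2 ≤ dGam D Y ρ (vb Y ρ x) (vb Y ρ y) →
  ∃ i, x ∈ Y i ∧ y ∈ Y i ∧
    (∀ j, 0 < j → j < dGam D Y ρ (vb Y ρ x) (vb Y ρ y) → Hor i (g j).1) ∧
    ∀ u : Gam Y ρ, u.1 ∈ Arch D ρ i x y →
      ∃ j ≤ dGam D Y ρ (vb Y ρ x) (vb Y ρ y), dGam D Y ρ u (g j) ≤ 4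

/-- 3.3 (module Shadow) -/
def Stmt_Shadow : Prop := ∀ (V I : Type) (D : V → V → ℕ) (Y : I → Set V) (ρ : ℕ)
  (pr : I → V → V), CD D Y ρ → IsPr D Y pr →
  (∀ i y, y ∈ Y i → pr i y = y) ∧
  (∀ i x y, D (pr i x) (pr i y) ≤ D x y + 18) ∧
  (∀ i x y p, Btw D x p y → Deep D pr i x y p → D p (pr i p) ≤ 9 ∧
     166 ≤ D (pr i x) (pr i y)) ∧
  (∀ i x y g, IsGeod D x y g → 100 ≤ D (pr i x) (pr i y) →
     ∃ t1 t2, t1 < t2 ∧ t2 ≤ D x y ∧ D (g t1) (pr i x) ≤ 7 ∧ D (g t2) (pr i y) ≤ 7 ∧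
       (∀ l, ¬ Deep D pr l x y (g t1)) ∧ (∀ l, ¬ Deep D pr l x y (g t2))) ∧
  (∀ i l x y g t, IsGeod D x y g → t + 1 ≤ D x y →
     ((Deep D pr i x y (g t) ∧ Deep D pr l x y (g (t + 1))) ∨
      (Deep D pr i x y (g (t + 1)) ∧ Deep D pr l x y (g t))) → i = l) ∧
  (∀ i l x y, i ≠ l → x ∈ Y l → y ∈ Y l → D (pr i x) (pr i y) ≤ 67)

/-- 3.4 (R1) (module R1) -/
def Stmt_R1 : Prop := ∀ (V I : Type) (D : V → V → ℕ) (Y : I → Set V) (ρ : ℕ)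
  (pr : I → V → V), CD D Y ρ → IsPr D Y pr →
  ∀ x y z, ∀ u ∈ Lset D Y ρ pr x z, ∃ w ∈ Lset D Y ρ pr x y ∪ Lset D Y ρ pr y z,
    dGam D Y ρ u w ≤ 250

/-- 3.4 (R2) (module R2) -/
def Stmt_R2 : Prop := ∀ (V I : Type) (D : V → V → ℕ) (Y : I → Set V) (ρ : ℕ)
  (pr : I → V → V), CD D Y ρ → IsPr D Y pr →
  ∀ (x y : V) (g : ℕ → Gam Y ρ), IsGeod (dGam D Y ρ) (vb Y ρ x) (vb Y ρ y) g →
  (∀ j, 0 < j → j < dGam D Y ρ (vb Y ρ x) (vb Y ρ y) → ∀ v, (g j).1 ≠ .b v) →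
  ∀ u ∈ Lset D Y ρ pr x y, ∃ j ≤ dGam D Y ρ (vb Y ρ x) (vb Y ρ y), dGam D Y ρ u (g j) ≤ 250

/-- 3.4 (R3) (module R3) -/
def Stmt_R3 : Prop := ∀ (V I : Type) (D : V → V → ℕ) (Y : I → Set V) (ρ : ℕ)
  (pr : I → V → V), CD D Y ρ → IsPr D Y pr →
  ∀ x y, ∃ (m : ℕ) (u : ℕ → Gam Y ρ), u 0 = vb Y ρ x ∧ u m = vb Y ρ y ∧
    (∀ j ≤ m, u j ∈ Lset D Y ρ pr x y) ∧ ∀ j < m, dGam D Y ρ (u j) (u (j + 1)) ≤ 250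

/-- 3.4 (L1)-(L3) (module Guess, from R1, R2, R3, RLC, GamDG) -/
def Stmt_Guess : Prop := ∀ (V I : Type) (D : V → V → ℕ) (Y : I → Set V) (ρ : ℕ)
  (pr : I → V → V), CD D Y ρ → IsPr D Y pr →
  (∀ (x y : V) (g : ℕ → Gam Y ρ), IsGeod (dGam D Y ρ) (vb Y ρ x) (vb Y ρ y) g →
    (∀ u ∈ Lset D Y ρ pr x y, ∃ j ≤ dGam D Y ρ (vb Y ρ x) (vb Y ρ y),
      dGam D Y ρ u (g j) ≤ f3) ∧
    (∀ j ≤ dGam D Y ρ (vb Y ρ x) (vb Y ρ y), ∃ u ∈ Lset D Y ρ pr x y,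
      dGam D Y ρ (g j) u ≤ 3 * f3 + 250)) ∧
  (∀ x y z w : V, dGam D Y ρ (vb Y ρ x) (vb Y ρ y) + dGam D Y ρ (vb Y ρ z) (vb Y ρ w) ≤
    max (dGam D Y ρ (vb Y ρ x) (vb Y ρ z) + dGam D Y ρ (vb Y ρ y) (vb Y ρ w))
      (dGam D Y ρ (vb Y ρ x) (vb Y ρ w) + dGam D Y ρ (vb Y ρ y) (vb Y ρ z)) + Dlt 250)

/-- 3.5 Claim E (module ClaimE) -/
def Stmt_ClaimE : Prop := ∀ (V I : Type) (D : V → V → ℕ) (Y : I → Set V) (ρ : ℕ), CD D Y ρ →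
  ∀ u w1 w2 w3 : Gam Y ρ, ∃ u' : V,
    gp (dGam D Y ρ) (vb Y ρ u') w1 u ≤ 2 * f3 + 18 ∧
    gp (dGam D Y ρ) (vb Y ρ u') w2 u ≤ 2 * f3 + 18 ∧
    gp (dGam D Y ρ) (vb Y ρ u') w3 u ≤ 2 * f3 + 18

/-- hyperbolicity constant of the cone-off -/
@[irreducible] def del1 : ℕ := Dlt 250 + 4 * (2 * f3 + 18)

/-- 3.5 (module HypGam) -/
def Stmt_HypGam : Prop := ∀ (V I : Type) (D : V → V → ℕ) (Y : I → Set V) (ρ : ℕ), CD D Y ρ →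
  Hyp (dGam D Y ρ) del1

/-- v is a foot of z with respect to i -/
def Foot (D : V → V → ℕ) (Y : I → Set V) (ρ : ℕ) (i : I) (z : Gam Y ρ) (v : V) : Prop :=
  v ∈ Y i ∧ ((∃ s, z.1 = .c i v s) ∨
    (¬ Hor i z.1 ∧ dGam D Y ρ z (va Y ρ i) = dGam D Y ρ z (vb Y ρ v) + ρ + 1))

/-- 3.6 (a) (module FootEx) -/
def Stmt_FootEx : Prop := ∀ (V I : Type) (D : V → V → ℕ) (Y : I → Set V) (ρ : ℕ), CD D Y ρ →
  (∀ (i : I) (z : Gam Y ρ), z ≠ va Y ρ i → ∃ v, Foot D Y ρ i z v) ∧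
  (∀ (i : I) (z : Gam Y ρ) (v : V), v ∈ Y i →
    dGam D Y ρ z (va Y ρ i) ≤ dGam D Y ρ z (vb Y ρ v) + ρ + 1) ∧
  (∀ (i : I) (z : Gam Y ρ) (g : ℕ → Gam Y ρ), ¬ Hor i z.1 →
    IsGeod (dGam D Y ρ) z (va Y ρ i) g →
    ∃ v, Foot D Y ρ i z v ∧ ρ + 1 ≤ dGam D Y ρ z (va Y ρ i) ∧
      g (dGam D Y ρ z (va Y ρ i) - (ρ + 1)) = vb Y ρ v ∧
      ∀ s, 1 ≤ s → s ≤ ρ → (g (dGam D Y ρ z (va Y ρ i) - (ρ + 1) + s)).1 = .c i v s)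

/-- 3.6 (b) (module FootPr) -/
def Stmt_FootPr : Prop := ∀ (V I : Type) (D : V → V → ℕ) (Y : I → Set V) (ρ : ℕ)
  (pr : I → V → V), CD D Y ρ → IsPr D Y pr →
  ∀ (i : I) (z v : V), Foot D Y ρ i (vb Y ρ z) v → D v (pr i z) ≤ 2 ^ f3

/-- 3.6 (c) (module VR0) -/
def Stmt_VR0 : Prop := ∀ (V I : Type) (D : V → V → ℕ) (Y : I → Set V) (ρ : ℕ), CD D Y ρ →
  ∀ (i : I) (x y : Gam Y ρ) (A B : V), Foot D Y ρ i x A → Foot D Y ρ i y B →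
    2 ^ (ρ + 5) ≤ D A B → gp (dGam D Y ρ) x y (va Y ρ i) ≤ 2 * f3

/-- 3.7 (module NoDeep) -/
def Stmt_NoDeep : Prop := ∀ (V I : Type) (D : V → V → ℕ) (Y : I → Set V) (ρ : ℕ)
  (pr : I → V → V), CD D Y ρ → IsPr D Y pr →
  ∀ (x y : V) (s s3 : ℕ), s3 = s + 3 * f3 + 250 → s3 ≤ ρ →
  (∀ i, D (pr i x) (pr i y) ≤ 2 ^ s) →
  (∀ g, IsGeod (dGam D Y ρ) (vb Y ρ x) (vb Y ρ y) g →
    ∀ j ≤ dGam D Y ρ (vb Y ρ x) (vb Y ρ y), ht ρ (g j).1 ≤ s3) ∧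
  D x y ≤ 2 ^ s3 * dGam D Y ρ (vb Y ρ x) (vb Y ρ y) ∧
  (∀ i, 2 * (ρ + 1) ≤ gp (dGam D Y ρ) (vb Y ρ x) (vb Y ρ y) (va Y ρ i) + 2 * (s3 + del1 + 1))

/-- rescaled metric -/
def Dsc {X : Type} (Λ : ℕ) (d : X → X → ℕ) (x y : X) : ℕ := (d x y + Λ - 1) / Λ

/-- 3.8 (module Rescale) -/
def Stmt_Rescale : Prop := ∀ (X : Type) (d : X → X → ℕ) (δ k Λ : ℕ), IsDG d → Hyp d δ →
  2 ≤ Λ → 2 * δ + 2 * k ≤ Λ →
  IsDG (Dsc Λ d) ∧ Hyp (Dsc Λ d) 2 ∧ (∀ W, QC d k W → QC (Dsc Λ d) 1 W)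

instance CV.instSMul {G V I : Type} [SMul G V] [SMul G I] : SMul G (CV V I) where
  smul g u := match u with
    | .b v => .b (g • v)
    | .c i y s => .c (g • i) (g • y) s
    | .a i => .a (g • i)

/-- 3.9 the group action on the cone-off (module GamAct) -/
def Stmt_GamAct : Prop := ∀ (G V I : Type) [Group G] [MulAction G V] [MulAction G I]
  (D : V → V → ℕ) (Y : I → Set V) (ρ : ℕ), CD D Y ρ → IsIso G D →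
  (∀ (g : G) i y, y ∈ Y i → g • y ∈ Y (g • i)) →
  ∃ (_ : MulAction G (Gam Y ρ)), (∀ (g : G) (u : Gam Y ρ), (g • u).1 = g • u.1) ∧
    IsIso G (dGam D Y ρ)

/-- 3.6 (d) + 3.5: the rotating family of the cone-off (module GamRF). `va` are the apices;
the rotation group at the vertex `va i` is `Rot i`. -/
def Stmt_GamRF : Prop := ∀ (G V I : Type) [Group G] [MulAction G V] [MulAction G I]
  (D : V → V → ℕ) (Y : I → Set V) (ρ : ℕ) (Rot : I → Subgroup G)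
  [MulAction G (Gam Y ρ)], CD D Y ρ → IsIso G D →
  (∀ (g : G) i y, y ∈ Y i → g • y ∈ Y (g • i)) →
  (∀ (g : G) (u : Gam Y ρ), (g • u).1 = g • u.1) →
  (∀ i, ∀ r ∈ Rot i, r • i = i) →
  (∀ (g : G) i (r : G), r ∈ Rot i ↔ g * r * g⁻¹ ∈ Rot (g • i)) →
  (∀ i, ∀ r ∈ Rot i, r ≠ 1 → ∀ y ∈ Y i, 2 ^ (ρ + 7) ≤ D y (r • y)) →
  sig0 del1 (2 * f3 + 1) (2 * f3) ≤ 2 * ρ + 2 →
  ∀ R : Gam Y ρ → Subgroup G, (∀ i, R (va Y ρ i) = Rot i) →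
  RF (dGam D Y ρ) (Set.range (va Y ρ)) R del1 (2 * f3 + 1) (2 * f3) (2 * ρ + 2)

end Pool.Agent.BURN
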