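import Pool.Agent.BURN.Basic
import Pool.Agent.BURN.Stmts2

/-! 3.5 Claim E of the blueprint. -/

namespace Pool.Agent.BURN.ClaimEX

open Pool.Agent.BURN

variable {V I : Type} {D : V → V → ℕ} {Y : I → Set V} {ρ : ℕ}

theorem f3_ge : 1000 ≤ f3 := by
  unfold f3; norm_num

/-- nearest points exist -/
theorem exists_pr (h : CD D Y ρ) : ∃ pr : I → V → V, IsPr D Y pr := by
  classical
  have key : ∀ (i : I) (x : V), ∃ p, IsNear D (Y i) x p := by
    intro i x
    obtain ⟨y, hy, -⟩ := h.unb i 0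
    have hex : ∃ n, ∃ p ∈ Y i, D x p = n := ⟨_, y, hy, rfl⟩
    obtain ⟨p, hp, hpn⟩ := Nat.find_spec hex
    refine ⟨p, hp, ?_⟩
    intro w hw
    rw [hpn]
    exact Nat.find_min' hex ⟨w, hw, rfl⟩
  choose pr hpr using key
  exact ⟨pr, hpr⟩

/-- four points far from each other -/
theorem four_points (h : CD D Y ρ) (i : I) (y ys : V) (hy : y ∈ Y i) (hys : ys ∈ Y i) (n : ℕ)
    (hn : 3 * n ≤ D y ys) : ∃ yy : Fin 4 → V, (∀ j, yy j ∈ Y i) ∧ (∀ j, D y (yy j) ≤ 3 * n + 1) ∧
      ∀ j m, j ≠ m → n ≤ D (yy j) (yy m) + 2 := by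
  obtain ⟨g, hg⟩ := exists_geod h.dg y ys
  have hj : ∀ j : Fin 4, (j : ℕ) * n ≤ 3 * n := by
    intro j
    have : (j : ℕ) ≤ 3 := by omega
    exact Nat.mul_le_mul_right n this
  have hw : ∀ j : Fin 4, ∃ w ∈ Y i, D (g ((j : ℕ) * n)) w ≤ 1 := by
    intro j
    exact h.qc i y hy ys hys _ (hg.btw' (le_trans (hj j) hn))
  choose yy hyy hd using hw
  refine ⟨yy, hyy, ?_, ?_⟩
  · intro j
    have h1 := h.dg.tri y (g ((j : ℕ) * n)) (yy j)
    have h2 := hg.dist_left (le_trans (hj j) hn)
    have h3 := hd j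
    have h4 := hj j
    omega
  · have key : ∀ j m : Fin 4, (j : ℕ) < (m : ℕ) → n ≤ D (yy j) (yy m) + 2 := by
      intro j m hjm
      have h1 : (j : ℕ) * n + n ≤ (m : ℕ) * n := by
        have := Nat.mul_le_mul_right n hjm
        rw [Nat.succ_mul] at this
        exact this
      have h2 := hg.2.2 ((j : ℕ) * n) ((m : ℕ) * n) (by omega) (le_trans (hj m) hn)
      have h3 := h.dg.tri (g ((j : ℕ) * n)) (yy j) (g ((m : ℕ) * n))
      have h4 := h.dg.tri (yy j) (yy m) (g ((m : ℕ) * n))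
      have h5 := hd j
      have h6 := hd m
      rw [h.dg.symm] at h6
      omega
    intro j m hjm
    rcases lt_trichotomy (j : ℕ) (m : ℕ) with hlt | heq | hgt
    · exact key j m hlt
    · exact absurd (Fin.ext heq) hjm
    · rw [h.dg.symm]; exact key m j hgt

/-- the part of a geodesic path after the last base vertex -/
theorem last_base (_hdg : IsDG (dGam D Y ρ))
    (hadj : ∀ u w : Gam Y ρ, dGam D Y ρ u w = 1 ↔ CAdj D ρ u.1 w.1)
    (x : V) (w : Gam Y ρ) (g : ℕ → Gam Y ρ) (hg : IsGeod (dGam D Y ρ) (vb Y ρ x) w g)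
    (hw : ∀ v, w.1 ≠ .b v) :
    ∃ k, k < dGam D Y ρ (vb Y ρ x) w ∧ ∃ v l, g k = vb Y ρ v ∧ v ∈ Y l ∧
      ∀ t, k < t → t ≤ dGam D Y ρ (vb Y ρ x) w → Hor l (g t).1 := by
  classical
  set N := dGam D Y ρ (vb Y ρ x) w with hN
  have hP0 : ∃ v, g 0 = vb Y ρ v := ⟨x, hg.1⟩
  set k := Nat.findGreatest (fun k => ∃ v, g k = vb Y ρ v) N with hk
  have hkN : k ≤ N := Nat.findGreatest_le N
  have hkP : ∃ v, g k = vb Y ρ v := by
    have := Nat.findGreatest_spec (P := fun k => ∃ v, g k = vb Y ρ v) (Nat.zero_le N) hP0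
    exact this
  have hkn : ∀ t, k < t → t ≤ N → ¬ ∃ v, g t = vb Y ρ v := by
    intro t h1 h2
    exact Nat.findGreatest_is_greatest h1 h2
  obtain ⟨v, hv⟩ := hkP
  have hklt : k < N := by
    rcases Nat.lt_or_ge k N with h | h
    · exact h
    · exfalso
      have e : k = N := le_antisymm hkN h
      rw [e, hg.2.1] at hv
      exact hw v (by rw [hv]; rfl)
  have hstep : ∀ t, t + 1 ≤ N → CAdj D ρ (g t).1 (g (t + 1)).1 := by
    intro t ht
    have := hg.2.2 t (t + 1) (by omega) ht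
    rw [← hadj]; omega
  have hnb : ∀ t, k < t → t ≤ N → ∀ z, (g t).1 ≠ .b z := by
    intro t h1 h2 z hz
    exact hkn t h1 h2 ⟨z, Subtype.ext hz⟩
  -- the first step
  have h1 := hstep k hklt
  have h1b := hnb (k + 1) (by omega) (by omega)
  have hv1 : (g k).1 = .b v := by rw [hv]; rfl
  obtain ⟨l, hl⟩ : ∃ l, (g (k + 1)).1 = .c l v 1 ∧ v ∈ Y l := by
    have hok := (g (k + 1)).2
    rw [hv1] at h1
    rcases hgk : (g (k + 1)).1 with z | ⟨l, y, s⟩ | l
    · exact absurd hgk (h1b z)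
    · rw [hgk] at h1 hok
      simp only [CAdj] at h1
      obtain ⟨rfl, rfl⟩ := h1
      exact ⟨l, rfl, hok.1⟩
    · rw [hgk] at h1
      simp only [CAdj] at h1
  refine ⟨k, hklt, v, l, hv, hl.2, ?_⟩
  intro t ht htN
  obtain ⟨r, rfl⟩ : ∃ r, t = k + 1 + r := ⟨t - (k + 1), by omega⟩
  clear ht
  induction r with
  | zero => left; exact ⟨v, 1, by simpa using hl.1⟩
  | succ r ih =>
    have ih' := ih (by omega)
    have hs := hstep (k + 1 + r) (by omega)
    have hb := hnb (k + 1 + (r + 1)) (by omega) htN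
    have e : k + 1 + r + 1 = k + 1 + (r + 1) := by omega
    rw [e] at hs
    rcases ih' with ⟨y, s, hys⟩ | ha
    · rw [hys] at hs
      rcases hgk : (g (k + 1 + (r + 1))).1 with z | ⟨l', y', s'⟩ | l'
      · exact absurd hgk (hb z)
      · rw [hgk] at hs
        simp only [CAdj] at hs
        left; exact ⟨y', s', by rw [hs.1]⟩
      · rw [hgk] at hs
        simp only [CAdj] at hs
        right; rw [hs.1]
    · rw [ha] at hs
      rcases hgk : (g (k + 1 + (r + 1))).1 with z | ⟨l', y', s'⟩ | l'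
      · exact absurd hgk (hb z)
      · rw [hgk] at hs
        simp only [CAdj] at hs
        left; exact ⟨y', s', by rw [hs.1]⟩
      · rw [hgk] at hs
        simp only [CAdj] at hs

/-- the base case: w = base vertex -/
theorem base_case (hGam : Stmt_GamDG) (hGuess : Stmt_Guess) (h : CD D Y ρ)
    {pr : I → V → V} (hpr : IsPr D Y pr) (hprid : ∀ i y, y ∈ Y i → pr i y = y)
    (i : I) (y w0 : V) (hy : y ∈ Y i) (s' m : ℕ) (hs' : 7 ≤ s') (hm : m = min s' ρ)
    (hD : 2 ^ s' ≤ D y (pr i w0)) (u q : Gam Y ρ) (hq : q.1 = .c i y m)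
    (huq : dGam D Y ρ u q ≤ 9) :
    gp (dGam D Y ρ) (vb Y ρ y) (vb Y ρ w0) u ≤ 2 * f3 + 18 := by
  obtain ⟨hdg, -⟩ := hGam V I D Y ρ h
  obtain ⟨g, hg⟩ := exists_geod hdg (vb Y ρ y) (vb Y ρ w0)
  have hG := ((hGuess V I D Y ρ pr h hpr).1 y w0 g hg).1
  have h128 : 128 ≤ 2 ^ s' := by
    calc 128 = 2 ^ 7 := by norm_num
      _ ≤ 2 ^ s' := Nat.pow_le_pow_right (by norm_num) hs'
  have hok := q.2
  rw [hq] at hok
  have hmem : q ∈ Lset D Y ρ pr y w0 := by
    right
    refine ⟨i, ?_, ?_⟩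
    · rw [hprid i y hy]; omega
    · right; right; left
      rw [hprid i y hy]
      refine ⟨m, hok.2.1, ?_, hok.2.2, Or.inl hq⟩
      have h1 : 2 ^ m ≤ 2 ^ Nat.clog 2 (D y (pr i w0)) := by
        calc 2 ^ m ≤ 2 ^ s' := Nat.pow_le_pow_right (by norm_num) (by omega)
          _ ≤ D y (pr i w0) := hD
          _ ≤ _ := Nat.le_pow_clog (by norm_num) _
      exact (Nat.pow_le_pow_iff_right (by norm_num)).1 h1
  obtain ⟨j, hj, hqj⟩ := hG q hmem
  have h1 := gp_le_of_btw hdg (hg.btw' hj) u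
  have h2 := hdg.tri u q (g j)
  omega

/-- at most one of two well separated points is bad for w -/
theorem one_bad (hGam : Stmt_GamDG) (hClimb : Stmt_Climb) (hTop : Stmt_Top)
    (hGuess : Stmt_Guess) (hSh : Stmt_Shadow) (h : CD D Y ρ) (i : I) (s' m : ℕ) (hs' : 7 ≤ s')
    (hm : m = min s' ρ) (u : Gam Y ρ) (y1 y2 : V) (hy1 : y1 ∈ Y i) (hy2 : y2 ∈ Y i)
    (hfar : 8 * 2 ^ s' ≤ D y1 y2)
    (hu1 : ∀ v : Gam Y ρ, v.1 = .c i y1 m → dGam D Y ρ u v ≤ 9)
    (hu2 : ∀ v : Gam Y ρ, v.1 = .c i y2 m → dGam D Y ρ u v ≤ 9)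
    (hv1 : ∀ A ∈ Y i, D A y1 < 2 ^ s' → ∀ v : Gam Y ρ, v.1 = .c i A m → dGam D Y ρ u v ≤ 10)
    (hv2 : ∀ A ∈ Y i, D A y2 < 2 ^ s' → ∀ v : Gam Y ρ, v.1 = .c i A m → dGam D Y ρ u v ≤ 10)
    (w : Gam Y ρ) (b1 : 2 * f3 + 18 < gp (dGam D Y ρ) (vb Y ρ y1) w u)
    (b2 : 2 * f3 + 18 < gp (dGam D Y ρ) (vb Y ρ y2) w u) : False := by
  have : Nonempty V := ⟨y1⟩
  obtain ⟨pr, hpr⟩ := exists_pr h
  obtain ⟨hprid, -, -, -, -, hproj⟩ := hSh V I D Y ρ pr h hpr
  obtain ⟨hdg, hadj, hht, -, -, -, -, -⟩ := hGam V I D Y ρ h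
  have hbig := h.big
  have hf3 := f3_ge
  have hm1 : 1 ≤ m := by omega
  have hmρ : m ≤ ρ := by omega
  have h128 : 128 ≤ 2 ^ s' := by
    calc 128 = 2 ^ 7 := by norm_num
      _ ≤ 2 ^ s' := Nat.pow_le_pow_right (by norm_num) hs'
  -- for a base vertex w0: not bad or close
  have hbase : ∀ (y : V), y ∈ Y i → (∀ v : Gam Y ρ, v.1 = .c i y m → dGam D Y ρ u v ≤ 9) →
      ∀ w0 : V, 2 ^ s' ≤ D y (pr i w0) →
      gp (dGam D Y ρ) (vb Y ρ y) (vb Y ρ w0) u ≤ 2 * f3 + 18 := by
    intro y hy hu w0 hD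
    have hok : CVOk (V := V) (I := I) Y ρ (.c i y m) := ⟨hy, hm1, hmρ⟩
    exact base_case hGam hGuess h hpr hprid i y w0 hy s' m hs' hm hD u ⟨.c i y m, hok⟩ rfl
      (hu _ rfl)
  by_cases hwb : ∃ v, w.1 = .b v
  · obtain ⟨v, hv⟩ := hwb
    have hwv : w = vb Y ρ v := Subtype.ext hv
    have c1 : D y1 (pr i v) < 2 ^ s' := by
      by_contra hc
      have := hbase y1 hy1 hu1 v (by omega)
      rw [← hwv] at this; omega
    have c2 : D y2 (pr i v) < 2 ^ s' := by
      by_contra hc
      have := hbase y2 hy2 hu2 v (by omega)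
      rw [← hwv] at this; omega
    have t := h.dg.tri y1 (pr i v) y2
    rw [h.dg.symm (pr i v) y2] at t
    omega
  · push Not at hwb
    -- for a point y: last base vertex
    have hcase : ∀ (y : V), y ∈ Y i → (∀ v : Gam Y ρ, v.1 = .c i y m → dGam D Y ρ u v ≤ 9) →
        (∀ A ∈ Y i, D A y < 2 ^ s' → ∀ v : Gam Y ρ, v.1 = .c i A m → dGam D Y ρ u v ≤ 10) →
        2 * f3 + 18 < gp (dGam D Y ρ) (vb Y ρ y) w u →
        ∃ v l, v ∈ Y l ∧ Hor l w.1 ∧ D y (pr i v) < 2 ^ s' ∧
          (l = i → ∃ y' s, w.1 = .c i y' s ∧ 2 * D v y' ≤ 5 * 2 ^ s') := by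
      intro y hy hu hv hbad
      obtain ⟨g, hg⟩ := exists_geod hdg (vb Y ρ y) w
      obtain ⟨k, hk, v, l, hgk, hvl, hhor⟩ := last_base hdg hadj y w g hg hwb
      have hbt : Btw (dGam D Y ρ) (vb Y ρ y) (vb Y ρ v) w := by
        rw [← hgk]; exact hg.btw' hk.le
      have hgpv : gp (dGam D Y ρ) (vb Y ρ y) w u ≤ gp (dGam D Y ρ) (vb Y ρ y) (vb Y ρ v) u := by
        have := gp_mono hdg (btw_symm hdg hbt) u
        rw [gp_comm hdg w, gp_comm hdg (vb Y ρ v)] at this
        exact this
      have c1 : D y (pr i v) < 2 ^ s' := by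
        by_contra hc
        have := hbase y hy hu v (by omega)
        omega
      have hwl : Hor l w.1 := by
        have := hhor _ hk le_rfl
        rwa [hg.2.1] at this
      refine ⟨v, l, hvl, hwl, c1, ?_⟩
      intro hli
      subst hli
      rw [hprid l v hvl] at c1
      set N := dGam D Y ρ (vb Y ρ y) w with hN
      -- the shifted path
      set f : ℕ → Gam Y ρ := fun t => g (k + t) with hf
      have hfs : ∀ r, k + r ≤ N → GSeq (dGam D Y ρ) r f := by
        intro r hr a b hab hbr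
        simp only [hf]
        rw [hg.2.2 (k + a) (k + b) (by omega) (by omega)]; omega
      -- no vertex of height ≥ m
      have hlow : ∀ t, k ≤ t → t ≤ N → ht ρ (g t).1 < m := by
        by_contra hcon
        push Not at hcon
        have hex : ∃ r, k + r ≤ N ∧ m ≤ ht ρ (f r).1 := by
          obtain ⟨t, ht1, ht2, ht3⟩ := hcon
          exact ⟨t - k, by omega, by simp only [hf]; rw [show k + (t - k) = t by omega]; exact ht3⟩
        classical
        obtain ⟨hr1, hr2⟩ := Nat.find_spec hex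
        set r := Nat.find hex with hr
        have hrmin : ∀ b < r, ht ρ (f b).1 < m := by
          intro b hb
          by_contra hc
          exact Nat.find_min hex hb ⟨by omega, by omega⟩
        have hf0 : f 0 = vb Y ρ v := by simp only [hf, Nat.add_zero]; exact hgk
        have hr0 : r ≠ 0 := by
          intro h0
          rw [h0, hf0] at hr2
          simp only [vb, ht] at hr2
          omega
        have hreq : ht ρ (f r).1 = m := by
          have h1 := hrmin (r - 1) (by omega)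
          have h2 := hht (f (r - 1)) (f r)
          have h3 := hfs r hr1 (r - 1) r (by omega) le_rfl
          omega
        -- vertices
        have hvert : ∀ b ≤ r, 1 ≤ b → ∃ y' s, (f b).1 = .c l y' s := by
          intro b hb hb1
          rcases hhor (k + b) (by omega) (by omega) with ⟨y', s, hys⟩ | ha
          · exact ⟨y', s, hys⟩
          · exfalso
            have : ht ρ (f b).1 ≤ m := by
              rcases Nat.lt_or_ge b r with hlt | hge
              · exact (hrmin b hlt).le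
              · have : b = r := by omega
                rw [this]; exact hreq.le
            simp only [hf] at this
            rw [ha] at this
            simp only [ht] at this
            omega
        choose! yy0 ss0 hys0 using hvert
        set yy : ℕ → V := fun b => if b = 0 then v else yy0 b with hyy
        set ss : ℕ → ℕ := fun b => if b = 0 then 0 else ss0 b with hss
        have hiv : ∀ b ≤ r, IVert Y l (yy b) (ss b) (f b).1 := by
          intro b hb
          rcases Nat.eq_zero_or_pos b with rfl | hpos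
          · left
            simp only [hyy, hss, if_true]
            exact ⟨trivial, hvl, by rw [hf0]; rfl⟩
          · right
            have hb0 : b ≠ 0 := by omega
            simp only [hyy, hss, hb0, if_false]
            have hok := (f b).2
            rw [hys0 b hb hpos] at hok
            exact ⟨hok.2.1, hys0 b hb hpos⟩
        have hssht : ∀ b ≤ r, ss b = ht ρ (f b).1 := by
          intro b hb
          rcases hiv b hb with ⟨h1, -, h2⟩ | ⟨-, h2⟩
          · rw [h2]; simp only [ht]; exact h1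
          · rw [h2]; simp only [ht]
        have hok : CVOk (V := V) (I := I) Y ρ (.c l (yy 0) m) := by
          refine ⟨?_, hm1, hmρ⟩
          simp only [hyy, if_true]; exact hvl
        have hcl := hClimb V I D Y ρ h l r m f yy ss (hfs r hr1) hiv (by
            intro b hb hcon
            have hb1 : 1 ≤ ss (b + 1) := by
              rcases hiv (b + 1) (by omega) with ⟨-, -, h2⟩ | ⟨h1, -⟩
              · rw [hys0 (b + 1) (by omega) (by omega)] at h2
                exact absurd h2 (by simp)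
              · exact h1
            omega) (by
            intro b hb
            rw [hssht b hb.le]; exact hrmin b hb) (by
            rw [hssht r le_rfl]; exact hreq) hm1 hmρ ⟨_, hok⟩ rfl
        have hu10 := hv (yy 0) (by simp only [hyy, if_true]; exact hvl) (by
          simp only [hyy, if_true]; rw [h.dg.symm]; exact c1) ⟨_, hok⟩ rfl
        have h1 := gp_le_of_btw hdg (hg.btw' hr1) u
        have h2 := hdg.tri u ⟨_, hok⟩ (f r)
        simp only [hf] at h2 hcl
        omega
      -- all heights < m: all vertices are cone vertices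
      have hvert : ∀ b, k + b ≤ N → 1 ≤ b → ∃ y' s, (f b).1 = .c l y' s := by
        intro b hb hb1
        rcases hhor (k + b) (by omega) (by omega) with ⟨y', s, hys⟩ | ha
        · exact ⟨y', s, hys⟩
        · exfalso
          have := hlow (k + b) (by omega) hb
          rw [ha] at this
          simp only [ht] at this
          omega
      have hf0 : f 0 = vb Y ρ v := by simp only [hf, Nat.add_zero]; exact hgk
      choose! yy0 ss0 hys0 using hvert
      set r := N - k with hr
      set yy : ℕ → V := fun b => if b = 0 then v else yy0 b with hyy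
      set ss : ℕ → ℕ := fun b => if b = 0 then 0 else ss0 b with hss
      have hiv : ∀ b ≤ r, IVert Y l (yy b) (ss b) (f b).1 := by
        intro b hb
        rcases Nat.eq_zero_or_pos b with rfl | hpos
        · left
          simp only [hyy, hss, if_true]
          exact ⟨trivial, hvl, by rw [hf0]; rfl⟩
        · right
          have hb0 : b ≠ 0 := by omega
          simp only [hyy, hss, hb0, if_false]
          have hok := (f b).2
          rw [hys0 b (by omega) hpos] at hok
          exact ⟨hok.2.1, hys0 b (by omega) hpos⟩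
      have hssht : ∀ b ≤ r, ss b = ht ρ (f b).1 := by
        intro b hb
        rcases hiv b hb with ⟨h1, -, h2⟩ | ⟨-, h2⟩
        · rw [h2]; simp only [ht]; exact h1
        · rw [h2]; simp only [ht]
      have htop := hTop V I D Y ρ h l r (m - 1) f yy ss (hfs r (by omega)) hiv (by
          intro b hb hcon
          have hb1 : 1 ≤ ss (b + 1) := by
            rcases hiv (b + 1) (by omega) with ⟨-, -, h2⟩ | ⟨h1, -⟩
            · rw [hys0 (b + 1) (by omega) (by omega)] at h2
              exact absurd h2 (by simp)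
            · exact h1
          omega) (by
          intro b hb
          have h1 := hlow (k + b) (by omega) (by omega)
          rw [hssht b hb]
          simp only [hf]
          omega) (by omega)
      have hr0 : r ≠ 0 := by omega
      have hfr : f r = w := by
        simp only [hf, hr]
        rw [show k + (N - k) = N by omega]; exact hg.2.1
      refine ⟨yy0 r, ss0 r, ?_, ?_⟩
      · rw [← hfr]; exact hys0 r (by omega) (by omega)
      · simp only [hyy, if_true, hr0, if_false] at htop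
        have h2 : 2 * 2 ^ (m - 1) = 2 ^ m := by
          rw [← pow_succ']; congr 1; omega
        have h3 : 2 ^ m ≤ 2 ^ s' := Nat.pow_le_pow_right (by norm_num) (by omega)
        omega
    obtain ⟨v1, l1, hvl1, hw1, hc1, hi1⟩ := hcase y1 hy1 hu1 hv1 b1
    obtain ⟨v2, l2, hvl2, hw2, hc2, hi2⟩ := hcase y2 hy2 hu2 hv2 b2
    have hll : l1 = l2 := by
      rcases hw1 with ⟨a1, a2, a3⟩ | a3 <;> rcases hw2 with ⟨a4, a5, a6⟩ | a6
      · rw [a3] at a6; injection a6
      · rw [a3] at a6; cases a6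
      · rw [a3] at a6; cases a6
      · rw [a3] at a6; injection a6
    subst hll
    by_cases hli : l1 = i
    · obtain ⟨z1, r1, e1, f1⟩ := hi1 hli
      obtain ⟨z2, r2, e2, f2⟩ := hi2 hli
      have ez : z1 = z2 := by rw [e1] at e2; injection e2
      subst ez
      subst hli
      rw [hprid l1 v1 hvl1] at hc1
      rw [hprid l1 v2 hvl2] at hc2
      have t1 := h.dg.tri y1 v1 z1
      have t2 := h.dg.tri y2 v2 z1
      have t3 := h.dg.tri y1 z1 y2
      rw [h.dg.symm z1 y2] at t3
      omega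
    · have h67 := hproj i l1 v1 v2 (fun e => hli e.symm) hvl1 hvl2
      have t1 := h.dg.tri y1 (pr i v1) (pr i v2)
      have t2 := h.dg.tri y1 (pr i v2) y2
      rw [h.dg.symm (pr i v2) y2] at t2
      omega

/-- conclusion from four well separated points -/
theorem conclude (hGam : Stmt_GamDG) (hClimb : Stmt_Climb) (hTop : Stmt_Top)
    (hGuess : Stmt_Guess) (hSh : Stmt_Shadow) (h : CD D Y ρ) (i : I) (s' m : ℕ) (hs' : 7 ≤ s')
    (hm : m = min s' ρ) (u : Gam Y ρ) (yy : Fin 4 → V) (hy : ∀ j, yy j ∈ Y i)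
    (hfar : ∀ j l, j ≠ l → 8 * 2 ^ s' ≤ D (yy j) (yy l))
    (hu : ∀ j, ∀ v : Gam Y ρ, v.1 = .c i (yy j) m → dGam D Y ρ u v ≤ 9)
    (hv : ∀ j, ∀ A ∈ Y i, D A (yy j) < 2 ^ s' → ∀ v : Gam Y ρ, v.1 = .c i A m →
      dGam D Y ρ u v ≤ 10)
    (w1 w2 w3 : Gam Y ρ) : ∃ u' : V,
    gp (dGam D Y ρ) (vb Y ρ u') w1 u ≤ 2 * f3 + 18 ∧
    gp (dGam D Y ρ) (vb Y ρ u') w2 u ≤ 2 * f3 + 18 ∧
    gp (dGam D Y ρ) (vb Y ρ u') w3 u ≤ 2 * f3 + 18 := by
  by_contra hcon
  push Not at hcon
  set ws : Fin 3 → Gam Y ρ := ![w1, w2, w3] with hws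
  have hbad : ∀ j : Fin 4, ∃ k : Fin 3,
      2 * f3 + 18 < gp (dGam D Y ρ) (vb Y ρ (yy j)) (ws k) u := by
    intro j
    by_contra hc
    push Not at hc
    have h0 := hc 0
    have h1 := hc 1
    have h2 := hc 2
    simp only [hws, Matrix.cons_val_zero, Matrix.cons_val_one, Matrix.cons_val] at h0 h1 h2
    have := hcon (yy j) h0 h1
    omega
  choose φ hφ using hbad
  obtain ⟨a, b, hab, he⟩ := Fintype.exists_ne_map_eq_of_card_lt φ (by simp)
  refine one_bad hGam hClimb hTop hGuess hSh h i s' m hs' hm u (yy a) (yy b) (hy a) (hy b)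
    (hfar a b hab) (hu a) (hu b) (hv a) (hv b) (ws (φ a)) (hφ a) ?_
  rw [he]; exact hφ b

end Pool.Agent.BURN.ClaimEX

namespace Pool.Agent.BURN

open ClaimEX

theorem ClaimE_proof (hGam : Stmt_GamDG) (hClimb : Stmt_Climb) (hTop : Stmt_Top)
    (hGuess : Stmt_Guess) (hSh : Stmt_Shadow) : Stmt_ClaimE := by
  intro V I D Y ρ h u w1 w2 w3
  obtain ⟨hdg, hadj, hht, -, -, hapex, hvert, hhoriz⟩ := hGam V I D Y ρ h
  have hf3 := f3_ge
  have hbig := h.big
  rcases hu : u.1 with x | ⟨i, y, s⟩ | i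
  · have hux : u = vb Y ρ x := Subtype.ext hu
    refine ⟨x, ?_, ?_, ?_⟩ <;> rw [hux, gp_left_self hdg] <;> omega
  · have hok := u.2
    rw [hu] at hok
    obtain ⟨hyi, hs1, hsρ⟩ := hok
    by_cases hs : s ≤ 14
    · have hd : dGam D Y ρ (vb Y ρ y) u ≤ 14 := by
        have := hvert i y 0 s (vb Y ρ y) u (by omega) (Or.inl ⟨rfl, hyi, rfl⟩)
          (Or.inr ⟨hs1, hu⟩)
        omega
      refine ⟨y, ?_, ?_, ?_⟩
      · have := gp_le_left hdg (vb Y ρ y) w1 u; omega
      · have := gp_le_left hdg (vb Y ρ y) w2 u; omega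
      · have := gp_le_left hdg (vb Y ρ y) w3 u; omega
    · push Not at hs
      -- a far point
      obtain ⟨p1, hp1, p2, hp2, hpd⟩ := h.unb i (2 * 2 ^ s)
      obtain ⟨ys, hys, hyd⟩ : ∃ ys ∈ Y i, 2 ^ s ≤ D y ys := by
        by_contra hc
        push Not at hc
        have c1 := hc p1 hp1
        have c2 := hc p2 hp2
        have t := h.dg.tri p1 y p2
        rw [h.dg.symm p1 y] at t
        omega
      have hpow1 : 4 * 2 ^ (s - 2) = 2 ^ s := by
        rw [show (4 : ℕ) = 2 ^ 2 by norm_num, ← pow_add]; congr 1; omega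
      have hpow2 : 64 * 2 ^ (s - 8) = 2 ^ (s - 2) := by
        rw [show (64 : ℕ) = 2 ^ 6 by norm_num, ← pow_add]; congr 1; omega
      have h128 : 128 ≤ 2 ^ (s - 8) := by
        calc 128 = 2 ^ 7 := by norm_num
          _ ≤ 2 ^ (s - 8) := Nat.pow_le_pow_right (by norm_num) (by omega)
      obtain ⟨yy, hyy, hyyd, hyyf⟩ := four_points h i y ys hyi hys (2 ^ (s - 2)) (by omega)
      have hmm : s - 8 = min (s - 8) ρ := by omega
      have hu9 : ∀ j, ∀ v : Gam Y ρ, v.1 = .c i (yy j) (s - 8) → dGam D Y ρ u v ≤ 9 := by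
        intro j v hv
        have hok' : CVOk (V := V) (I := I) Y ρ (.c i (yy j) s) := ⟨hyy j, hs1, hsρ⟩
        have h1 := hhoriz i y (yy j) s u ⟨_, hok'⟩ hs1 (by have := hyyd j; omega) hu rfl
        have h2 := hvert i (yy j) (s - 8) s v ⟨_, hok'⟩ (by omega) (Or.inr ⟨by omega, hv⟩)
          (Or.inr ⟨hs1, rfl⟩)
        rw [hdg.symm] at h2
        have h3 := hdg.tri u ⟨_, hok'⟩ v
        omega
      refine conclude hGam hClimb hTop hGuess hSh h i (s - 8) (s - 8) (by omega) hmm u yy hyy ?_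
        hu9 ?_ w1 w2 w3
      · intro j l hjl
        have := hyyf j l hjl
        omega
      · intro j A hA hAd v hv
        have hok' : CVOk (V := V) (I := I) Y ρ (.c i (yy j) (s - 8)) :=
          ⟨hyy j, by omega, by omega⟩
        have h1 := hu9 j ⟨_, hok'⟩ rfl
        have h2 := hhoriz i (yy j) A (s - 8) ⟨_, hok'⟩ v (by omega)
          (by rw [h.dg.symm]; exact hAd.le) rfl hv
        have h3 := hdg.tri u ⟨_, hok'⟩ v
        omega
  · have hua : u = va Y ρ i := Subtype.ext hu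
    obtain ⟨p1, hp1, p2, hp2, hpd⟩ := h.unb i (3 * 2 ^ (ρ + 5))
    obtain ⟨yy, hyy, hyyd, hyyf⟩ := four_points h i p1 p2 hp1 hp2 (2 ^ (ρ + 5)) hpd.le
    have hpow : 16 * 2 ^ (ρ + 1) = 2 ^ (ρ + 5) := by
      rw [show (16 : ℕ) = 2 ^ 4 by norm_num, ← pow_add]; congr 1; omega
    have hge : 2 ≤ 2 ^ (ρ + 1) := by
      calc 2 = 2 ^ 1 := by norm_num
        _ ≤ 2 ^ (ρ + 1) := Nat.pow_le_pow_right (by norm_num) (by omega)
    have hall : ∀ A ∈ Y i, ∀ v : Gam Y ρ, v.1 = .c i A ρ → dGam D Y ρ u v ≤ 1 := by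
      intro A hA v hv
      have h1 := hapex i A ρ v (Or.inr ⟨by omega, hv⟩)
      rw [hua, hdg.symm]
      omega
    refine conclude hGam hClimb hTop hGuess hSh h i (ρ + 1) ρ (by omega) (by omega) u yy hyy ?_
      ?_ ?_ w1 w2 w3
    · intro j l hjl
      have := hyyf j l hjl
      omega
    · intro j v hv
      have := hall (yy j) (hyy j) v hv
      omega
    · intro j A hA _ v hv
      have := hall A hA v hv
      omega

end Pool.Agent.BURN
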