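import Pool.Agent.BURN.Stmts2

/-! Module Climb: 3.2, 3.2.1 and 3.2.2 of the blueprint. -/

namespace Pool.Agent.BURN

variable {V I : Type}

/-- chains in `Y i` with steps at most `2 ^ s` -/
inductive ClCh (D : V → V → ℕ) (Y : I → Set V) (i : I) (s : ℕ) : ℕ → V → V → Prop
  | nil (y : V) (hy : y ∈ Y i) : ClCh D Y i s 0 y y
  | snoc (S : ℕ) (y z z' : V) (h : ClCh D Y i s S y z) (hz : z' ∈ Y i) (hd : D z z' ≤ 2 ^ s) :
      ClCh D Y i s (S + 1) y z'

theorem ClCh.left {D : V → V → ℕ} {Y : I → Set V} {i : I} {s S : ℕ} {y z : V}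
    (h : ClCh D Y i s S y z) : y ∈ Y i := by
  induction h with
  | nil y hy => exact hy
  | snoc S y z z' h hz hd ih => exact ih

theorem ClCh.right {D : V → V → ℕ} {Y : I → Set V} {i : I} {s S : ℕ} {y z : V}
    (h : ClCh D Y i s S y z) : z ∈ Y i := by
  cases h with
  | nil y hy => exact hy
  | snoc S y z z' h hz hd => exact hz

theorem ClCh.append {D : V → V → ℕ} {Y : I → Set V} {i : I} {s S T : ℕ} {y z w : V}
    (h : ClCh D Y i s S y z) (h' : ClCh D Y i s T z w) : ClCh D Y i s (S + T) y w := by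
  induction h' with
  | nil y hy => exact h
  | snoc T z w w' h' hw hd ih => exact ClCh.snoc _ _ _ _ (ih h) hw hd

theorem ClCh.dist_le {D : V → V → ℕ} (hD : IsDG D) {Y : I → Set V} {i : I} {s S : ℕ} {y z : V}
    (h : ClCh D Y i s S y z) : D y z ≤ S * 2 ^ s := by
  induction h with
  | nil y hy => rw [(hD.eq_zero y y).2 rfl]; exact Nat.zero_le _
  | snoc S y z z' h hz hd ih =>
    have := hD.tri y z z'
    rw [Nat.add_mul, Nat.one_mul]; omega

/-- 3.2, second half -/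
theorem ClCh.gam_le {D : V → V → ℕ} {Y : I → Set V} {ρ : ℕ} (hGD : Stmt_GamDG) (hC : CD D Y ρ)
    {i : I} {s : ℕ} (hs : s + 1 ≤ ρ) :
    ∀ (S : ℕ) {y z : V}, ClCh D Y i s S y z → ∀ u w : Gam Y ρ, u.1 = .c i y (s + 1) →
      w.1 = .c i z (s + 1) → dGam D Y ρ u w ≤ (S + 1) / 2 := by
  obtain ⟨gdg, gadj, ght, ghor, gb, gva, gvert, ghz⟩ := hGD V I D Y ρ hC
  intro S
  induction S using Nat.strong_induction_on with
  | _ S ih =>
    intro y z h u w hu hw
    cases h with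
    | nil y hy =>
      have : u = w := Subtype.ext (by rw [hu, hw])
      have h0 := (gdg.eq_zero w w).2 rfl
      rw [this]; omega
    | snoc S' y z1 z' h hz hd =>
      cases h with
      | nil y hy =>
        have := ghz i y z (s + 1) u w (by omega) (by
          have : 2 ^ s ≤ 2 ^ (s + 1) := Nat.pow_le_pow_right (by norm_num) (by omega)
          omega) hu hw
        omega
      | snoc S'' y z2 z1' h' hz' hd' =>
        have h2 := h'.right
        have hv : CVOk Y ρ (.c i z2 (s + 1)) := ⟨h2, by omega, hs⟩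
        have e1 := ih S'' (by omega) h' u ⟨.c i z2 (s + 1), hv⟩ hu rfl
        have e2 := ghz i z2 z (s + 1) ⟨.c i z2 (s + 1), hv⟩ w (by omega) (by
          have := hC.dg.tri z2 z1 z
          have e : 2 ^ (s + 1) = 2 * 2 ^ s := by rw [pow_succ]; ring
          omega) rfl hw
        have e3 := gdg.tri u ⟨.c i z2 (s + 1), hv⟩ w
        omega

theorem climb_mem {Y : I → Set V} {ρ : ℕ} {i : I} {y : V} {s : ℕ} {u : Gam Y ρ}
    (hu : IVert Y i y s u.1) : y ∈ Y i := by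
  rcases hu with ⟨_, h, _⟩ | ⟨_, h⟩
  · exact h
  · have := u.2; rw [h] at this; exact this.1

theorem climb_step {D : V → V → ℕ} {Y : I → Set V} {ρ : ℕ} {i : I} {y y' : V} {s s' : ℕ}
    {u w : Gam Y ρ} (hu : IVert Y i y s u.1) (hw : IVert Y i y' s' w.1)
    (h : CAdj D ρ u.1 w.1) (h0 : ¬ (s = 0 ∧ s' = 0)) :
    (y = y' ∧ (s' = s + 1 ∨ s = s' + 1)) ∨ (s = s' ∧ D y y' ≤ 2 ^ s) := by
  rcases hu with ⟨a1, a2, a3⟩ | ⟨a1, a3⟩ <;> rcases hw with ⟨b1, b2, b3⟩ | ⟨b1, b3⟩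
  · exact absurd ⟨a1, b1⟩ h0
  · rw [a3, b3] at h
    have h : s' = 1 ∧ y = y' := h
    exact Or.inl ⟨h.2, Or.inl (by omega)⟩
  · rw [a3, b3] at h
    have h : s = 1 ∧ y' = y := h
    exact Or.inl ⟨h.2.symm, Or.inr (by omega)⟩
  · rw [a3, b3] at h
    have h : i = i ∧ ((y = y' ∧ (s' = s + 1 ∨ s = s' + 1)) ∨
      (s = s' ∧ 1 ≤ D y y' ∧ D y y' ≤ 2 ^ s)) := h
    rcases h.2 with h | h
    · exact Or.inl h
    · exact Or.inr ⟨h.1, h.2.2⟩

/-- 3.2, first half -/
theorem climb_chain {D : V → V → ℕ} {Y : I → Set V} {ρ : ℕ} (hGD : Stmt_GamDG) (hC : CD D Y ρ)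
    {i : I} {s : ℕ} {g : ℕ → Gam Y ρ} {yy : ℕ → V} {ss : ℕ → ℕ} :
    ∀ k, GSeq (dGam D Y ρ) k g → (∀ j ≤ k, IVert Y i (yy j) (ss j) (g j).1) →
      (∀ j < k, ¬ (ss j = 0 ∧ ss (j + 1) = 0)) → (∀ j ≤ k, ss j ≤ s) →
      ∃ S, ClCh D Y i s S (yy 0) (yy k) ∧ S + (ss k - ss 0) ≤ k ∧ S + (ss 0 - ss k) ≤ k := by
  obtain ⟨gdg, gadj, ght, ghor, gb, gva, gvert, ghz⟩ := hGD V I D Y ρ hC
  intro k
  induction k with
  | zero =>
    intro hg hv h0 hs
    exact ⟨0, ClCh.nil _ (climb_mem (hv 0 le_rfl)), by omega, by omega⟩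
  | succ k ih =>
    intro hg hv h0 hs
    obtain ⟨S, hS, e1, e2⟩ := ih (fun i j hij hj => hg i j hij (by omega))
      (fun j hj => hv j (by omega)) (fun j hj => h0 j (by omega)) (fun j hj => hs j (by omega))
    have hadj := (gadj (g k) (g (k + 1))).1 (by rw [hg k (k + 1) (by omega) le_rfl]; omega)
    have hm := climb_mem (hv (k + 1) le_rfl)
    rcases climb_step (hv k (by omega)) (hv (k + 1) le_rfl) hadj (h0 k (by omega)) with
      ⟨h1, h2⟩ | ⟨h1, h2⟩
    · rw [← h1]; exact ⟨S, hS, by omega, by omega⟩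
    · have hp : 2 ^ ss k ≤ 2 ^ s := Nat.pow_le_pow_right (by norm_num) (hs k (by omega))
      exact ⟨S + 1, ClCh.snoc _ _ _ _ hS hm (by omega), by omega, by omega⟩

/-- 3.2.1 -/
theorem Climb_proof (hGD : Stmt_GamDG) : Stmt_Climb := by
  intro V I D Y ρ hC i k t g yy ss hg hv h0 hlt hk ht htρ v hvv
  obtain ⟨gdg, gadj, ght, ghor, gb, gva, gvert, ghz⟩ := hGD V I D Y ρ hC
  have hk' := hv k le_rfl
  have hgk : (g k).1 = .c i (yy k) t := by
    rcases hk' with ⟨a, _, _⟩ | ⟨_, a⟩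
    · omega
    · rw [a, hk]
  rcases Nat.eq_zero_or_pos k with rfl | hkpos
  · have : v = g 0 := Subtype.ext (by rw [hvv, hgk])
    rw [this, (gdg.eq_zero _ _).2 rfl]; omega
  · obtain ⟨k, rfl⟩ : ∃ k', k = k' + 1 := ⟨k - 1, by omega⟩
    obtain ⟨S, hS, e1, e2⟩ := climb_chain (s := t - 1) hGD hC k
      (fun i j hij hj => hg i j hij (by omega))
      (fun j hj => hv j (by omega)) (fun j hj => h0 j (by omega))
      (fun j hj => by have := hlt j (by omega); omega)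
    have hadj := (gadj (g k) (g (k + 1))).1 (by rw [hg k (k + 1) (by omega) le_rfl]; omega)
    have hl := hlt k (by omega)
    have hstep := climb_step (hv k (by omega)) (hv (k + 1) le_rfl) hadj (h0 k (by omega))
    have hyk : yy k = yy (k + 1) := by
      rcases hstep with h | h
      · exact h.1
      · omega
    have hsk : ss k = t - 1 := by
      rcases hstep with h | h
      · omega
      · omega
    rw [hyk] at hS
    have hsr : t - 1 + 1 ≤ ρ := by omega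
    have ht1 : t - 1 + 1 = t := by omega
    have e3 := ClCh.gam_le hGD hC hsr S hS v (g (k + 1)) (by rw [ht1]; exact hvv)
      (by rw [ht1]; exact hgk)
    have h00 := hlt 0 (by omega)
    have e4 := gvert i (yy 0) (ss 0) t (g 0) v (by omega) (hv 0 (by omega)) (Or.inr ⟨ht, hvv⟩)
    have e5 := gdg.tri (g 0) v (g (k + 1))
    have e6 := hg 0 (k + 1) (by omega) le_rfl
    omega

/-- 3.2.2 -/
theorem Top_proof (hGD : Stmt_GamDG) : Stmt_Top := by
  intro V I D Y ρ hC i k H0 g yy ss hg hv h0 hle hHρ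
  obtain ⟨gdg, gadj, ght, ghor, gb, gva, gvert, ghz⟩ := hGD V I D Y ρ hC
  -- a vertex of maximal height
  obtain ⟨m, hm, hmax⟩ : ∃ m ≤ k, ∀ j ≤ k, ss j ≤ ss m := by
    have := Finset.exists_max_image (Finset.range (k + 1)) ss ⟨0, by simp⟩
    obtain ⟨m, hm, hmax⟩ := this
    exact ⟨m, by simpa [Nat.lt_succ_iff] using hm,
      fun j hj => hmax j (by simp; omega)⟩
  have hHm := hle m hm
  obtain ⟨S1, hS1, a1, a2⟩ := climb_chain (s := ss m) hGD hC m
    (fun i j hij hj => hg i j hij (by omega))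
    (fun j hj => hv j (by omega)) (fun j hj => h0 j (by omega))
    (fun j hj => hmax j (by omega))
  obtain ⟨S2, hS2, b1, b2⟩ := climb_chain (s := ss m) (g := fun j => g (m + j))
    (yy := fun j => yy (m + j)) (ss := fun j => ss (m + j)) hGD hC (k - m)
    (fun i j hij hj => by
      have := hg (m + i) (m + j) (by omega) (by omega)
      simp only; omega)
    (fun j hj => hv (m + j) (by omega)) (fun j hj => h0 (m + j) (by omega))
    (fun j hj => hmax (m + j) (by omega))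
  have hmk : m + (k - m) = k := by omega
  simp only [hmk, Nat.add_zero] at hS2 b1 b2
  have hS := hS1.append hS2
  have hsr : ss m + 1 ≤ ρ := by omega
  obtain ⟨u, hu⟩ : ∃ u : Gam Y ρ, u.1 = .c i (yy 0) (ss m + 1) :=
    ⟨⟨.c i (yy 0) (ss m + 1), ⟨climb_mem (hv 0 (by omega)), by omega, hsr⟩⟩, rfl⟩
  obtain ⟨w, hw⟩ : ∃ u : Gam Y ρ, u.1 = .c i (yy k) (ss m + 1) :=
    ⟨⟨.c i (yy k) (ss m + 1), ⟨climb_mem (hv k le_rfl), by omega, hsr⟩⟩, rfl⟩
  have e3 := ClCh.gam_le hGD hC hsr (S1 + S2) hS u w hu hw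
  have m0 := hmax 0 (by omega)
  have mk := hmax k le_rfl
  have e4 := gvert i (yy 0) (ss 0) (ss m + 1) (g 0) u (by omega) (hv 0 (by omega))
    (Or.inr ⟨by omega, hu⟩)
  have e5 := gvert i (yy k) (ss k) (ss m + 1) (g k) w (by omega) (hv k le_rfl)
    (Or.inr ⟨by omega, hw⟩)
  rw [gdg.symm] at e5
  have e6 := hg 0 k (by omega) le_rfl
  have e7 := gdg.tri (g 0) u (g k)
  have e8 := gdg.tri u w (g k)
  have hS5 : S1 + S2 ≤ 5 := by omega
  have e9 := hS.dist_le hC.dg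
  have e10 : 2 ^ ss m ≤ 2 ^ H0 := Nat.pow_le_pow_right (by norm_num) hHm
  calc D (yy 0) (yy k) ≤ (S1 + S2) * 2 ^ ss m := e9
    _ ≤ 5 * 2 ^ H0 := Nat.mul_le_mul hS5 e10

end Pool.Agent.BURN
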