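import Pool.Agent.BURN.Stmts3
import Pool.Agent.BURN.W97Mid

/-! module Comm (4.2.1, 4.2.2) -/

namespace Pool.Agent.BURN

theorem Comm_proof (hI : Stmt_Iso1) : Stmt_Comm := by
  intro G X _ _ d δ l x y γ u v h hy hi hg hx hyy hx' hyy' t h1 h2
  have hg0 : γ 0 = x := hg.1
  obtain ⟨a1, a2, a3⟩ := w97_comm h hy hi hg hx hyy hx' hyy' h1 h2
  refine ⟨⟨d x (u • γ t) + d x (v • γ t) - t, ?_, a2, a3⟩,
    w97_comm' h hy hi hg hx hyy hx' hyy' h1 h2, ?_⟩
  · unfold Tr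
    rw [hg0]
    omega
  · intro hu
    refine w97_nonlox h hy hi hg (fun p => ?_) hx hyy h1 h2
    by_contra hc
    exact hu (((hI G X d δ h hy hi).1 u p (by omega)).1)

end Pool.Agent.BURN
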