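import Pool.Agent.BURN.Basic
import Pool.Agent.BURN.Stmts1

/-! Module Cover of the Burnside engine: points on a geodesic are near the broken path (1.5). -/

namespace Pool.Agent.BURN

theorem Cover_proof : Stmt_Cover := by
  intro X d δ b n x p h hy hn hb hp
  have hx0 := (h.eq_zero (x 0) (x 0)).2 rfl
  have hD : d (x 0) p ≤ d (x 0) (x n) := by unfold Btw at hp; omega
  have key : ∃ i, i < n ∧ d (x 0) (x i) ≤ d (x 0) p ∧ d (x 0) p ≤ d (x 0) (x (i + 1)) := by
    classical
    have hex : ∃ j, 1 ≤ j ∧ d (x 0) p ≤ d (x 0) (x j) := ⟨n, hn, hD⟩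
    have hs := Nat.find_spec hex
    have hle : Nat.find hex ≤ n := Nat.find_min' hex ⟨hn, hD⟩
    refine ⟨Nat.find hex - 1, by omega, ?_, ?_⟩
    · by_cases h1 : Nat.find hex = 1
      · rw [h1]; simp only [Nat.sub_self]; omega
      · have := Nat.find_min hex (m := Nat.find hex - 1) (by omega)
        have h2 : ¬ d (x 0) p ≤ d (x 0) (x (Nat.find hex - 1)) := fun hh =>
          this ⟨by omega, hh⟩
        omega
    · rw [show Nat.find hex - 1 + 1 = Nat.find hex by omega]; exact hs.2
  obtain ⟨i, hi, hi1, hi2⟩ := key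
  refine ⟨i, hi, ?_⟩
  -- d (x j) (x n) + s_j ≤ D + b
  have hq : ∀ j, j ≤ n → d (x 0) (x j) + d (x n) (x j) ≤ d (x 0) (x n) + b := by
    intro j hj
    by_cases h0 : j = 0
    · subst h0; rw [hx0, h.symm (x n) (x 0)]; omega
    by_cases h1 : j = n
    · subst h1; rw [(h.eq_zero _ _).2 rfl]; omega
    have := hb j (by omega) (by omega)
    have := gp_add h (x 0) (x n) (x j)
    omega
  have n1 := near_of_btw h hy hp (x i)
  have n2 := near_of_btw h hy hp (x (i + 1))
  have q1 := hq i (by omega)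
  have q2 := hq (i + 1) (by omega)
  rw [h.symm (x i) (x 0), h.symm (x i) (x n)] at n1
  rw [h.symm (x (i+1)) (x 0), h.symm (x (i+1)) (x n)] at n2
  have g := gp_add h (x i) (x (i + 1)) p
  have t := h.tri (x 0) (x i) (x (i + 1))
  unfold Btw at hp
  rw [h.symm p (x n)] at hp
  omega

end Pool.Agent.BURN
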