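import Pool.Agent.BURN.Basic
import Pool.Agent.BURN.Stmts2

/-! Section 3.2.3 of the blueprint: excursions of geodesics of the cone-off into a horoball. -/

namespace Pool.Agent.BURN

namespace ExcurAux

variable {V I : Type} {D : V → V → ℕ} {Y : I → Set V} {ρ : ℕ}

/-- foot of a vertex, default value x0 at an apex -/
def ftOf (x0 : V) : CV V I → V
  | .b v => v
  | .c _ y _ => y
  | .a _ => x0

theorem hor_ht {i : I} {u : Gam Y ρ} (h : Hor i u.1) (hh : ht ρ u.1 ≤ ρ) (x0 : V) :
    1 ≤ ht ρ u.1 ∧ u.1 = .c i (ftOf x0 u.1) (ht ρ u.1) := by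
  obtain ⟨u, hu⟩ := u
  rcases h with ⟨y, s, rfl⟩ | rfl
  · simp only [CVOk] at hu
    exact ⟨hu.2.1, rfl⟩
  · simp only [ht] at hh; omega

theorem side (_hdg : IsDG (dGam D Y ρ))
    (hlip : ∀ u w : Gam Y ρ, ht ρ w.1 ≤ ht ρ u.1 + dGam D Y ρ u w)
    (hC : Stmt_Climb) (hcd : CD D Y ρ) {x y : V} {g : ℕ → Gam Y ρ}
    (hg : IsGeod (dGam D Y ρ) (vb Y ρ x) (vb Y ρ y) g)
    {i : I} (hx : x ∈ Y i)
    (hH : ∀ j, 0 < j → j < dGam D Y ρ (vb Y ρ x) (vb Y ρ y) → Hor i (g j).1)
    {t j0 : ℕ} (ht1 : 1 ≤ t) (htr : t ≤ ρ) (hj0 : j0 ≤ dGam D Y ρ (vb Y ρ x) (vb Y ρ y))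
    (hj0t : t ≤ ht ρ (g j0).1) {v : Gam Y ρ} (hv : v.1 = .c i x t) :
    ∃ k ≤ dGam D Y ρ (vb Y ρ x) (vb Y ρ y), dGam D Y ρ v (g k) ≤ 1 := by
  classical
  have hex : ∃ k, t ≤ ht ρ (g k).1 := ⟨j0, hj0t⟩
  obtain ⟨k, hk, hmin⟩ : ∃ k, t ≤ ht ρ (g k).1 ∧ ∀ j < k, ht ρ (g j).1 < t :=
    ⟨Nat.find hex, Nat.find_spec hex, fun j hj => not_le.1 (Nat.find_min hex hj)⟩
  have hkn : k ≤ dGam D Y ρ (vb Y ρ x) (vb Y ρ y) := by
    by_contra hc
    have := hmin j0 (by omega)
    omega
  have hk0 : 0 < k := by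
    rcases Nat.eq_zero_or_pos k with h0 | h0
    · rw [h0, hg.1] at hk
      simp only [vb, ht] at hk
      omega
    · exact h0
  have hkn' : k < dGam D Y ρ (vb Y ρ x) (vb Y ρ y) := by
    rcases Nat.lt_or_ge k (dGam D Y ρ (vb Y ρ x) (vb Y ρ y)) with h0 | h0
    · exact h0
    · have : k = dGam D Y ρ (vb Y ρ x) (vb Y ρ y) := by omega
      rw [this, hg.2.1] at hk
      simp only [vb, ht] at hk
      omega
  have hkt : ht ρ (g k).1 = t := by
    have h1 := hmin (k - 1) (by omega)
    have h2 := hlip (g (k - 1)) (g k)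
    have h3 := hg.2.2 (k - 1) k (by omega) (by omega)
    omega
  have hle : ∀ j ≤ k, ht ρ (g j).1 ≤ t := by
    intro j hj
    rcases Nat.lt_or_ge j k with h0 | h0
    · exact (hmin j h0).le
    · have : j = k := by omega
      rw [this, hkt]
  have hI : ∀ j ≤ k, IVert Y i (ftOf x (g j).1) (ht ρ (g j).1) (g j).1 := by
    intro j hj
    rcases Nat.eq_zero_or_pos j with h0 | h0
    · rw [h0, hg.1]
      left
      exact ⟨rfl, hx, rfl⟩
    · have h1 := hH j h0 (by omega)
      have h2 := hor_ht h1 (by have := hle j hj; omega) x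
      right
      exact h2
  have hno : ∀ j < k, ¬ (ht ρ (g j).1 = 0 ∧ ht ρ (g (j + 1)).1 = 0) := by
    intro j hj hc
    have h1 := hH (j + 1) (by omega) (by omega)
    have h2 := hor_ht h1 (by omega) x
    omega
  have hG : GSeq (dGam D Y ρ) k g := fun a b hab hb => hg.2.2 a b hab (by omega)
  have h0x : ftOf x (g 0).1 = x := by rw [hg.1]; rfl
  refine ⟨k, hkn, ?_⟩
  refine hC V I D Y ρ hcd i k t g (fun j => ftOf x (g j).1) (fun j => ht ρ (g j).1) hG hI hno
    hmin hkt ht1 htr v ?_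
  rw [hv, h0x]

end ExcurAux

open ExcurAux in
theorem Excur_proof (hGD : Stmt_GamDG) (hC : Stmt_Climb) (hT : Stmt_Top) : Stmt_Excur := by
  intro V I D Y ρ hcd x y g hg hnb hn
  obtain ⟨hdg, hadj, hlip, -, -, hapex, hvert, -⟩ := hGD V I D Y ρ hcd
  set n := dGam D Y ρ (vb Y ρ x) (vb Y ρ y) with hndef
  -- adjacency of consecutive vertices
  have hadj' : ∀ j, j < n → CAdj D ρ (g j).1 (g (j + 1)).1 := by
    intro j hj
    rw [← hadj, hg.2.2 j (j + 1) (by omega) (by omega)]
    omega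
  -- the first vertex
  have h1 : ∃ i, (g 1).1 = .c i x 1 := by
    have ha := hadj' 0 (by omega)
    rw [hg.1] at ha
    have hb := hnb 1 (by omega) (by omega)
    rcases hu : (g 1).1 with v | ⟨i, y', s⟩ | i
    · exact absurd hu (hb v)
    · rw [zero_add, hu] at ha
      simp only [vb, CAdj] at ha
      exact ⟨i, by rw [ha.1, ha.2]⟩
    · rw [zero_add, hu] at ha
      simp only [vb, CAdj] at ha
  obtain ⟨i, hi⟩ := h1
  have hx : x ∈ Y i := by
    have := (g 1).2
    rw [hi] at this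
    exact this.1
  have hH : ∀ j, 0 < j → j < n → Hor i (g j).1 := by
    intro j
    induction j with
    | zero => intro h; omega
    | succ j ih =>
      intro _ hj
      rcases Nat.eq_zero_or_pos j with h0 | h0
      · subst h0
        left; exact ⟨x, 1, hi⟩
      · have h2 := ih h0 (by omega)
        have ha := hadj' j (by omega)
        have hb := hnb (j + 1) (by omega) hj
        rcases hu : (g (j + 1)).1 with v | ⟨i', y', s⟩ | i'
        · exact absurd hu (hb v)
        · rcases h2 with ⟨y2, s2, h2⟩ | h2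
          · rw [h2, hu] at ha
            simp only [CAdj] at ha
            left; exact ⟨y', s, by rw [ha.1]⟩
          · rw [h2, hu] at ha
            simp only [CAdj] at ha
            left; exact ⟨y', s, by rw [ha.1]⟩
        · rcases h2 with ⟨y2, s2, h2⟩ | h2
          · rw [h2, hu] at ha
            simp only [CAdj] at ha
            right; rw [ha.1]
          · rw [h2, hu] at ha
            simp only [CAdj] at ha
  have hy : y ∈ Y i := by
    have ha := hadj' (n - 1) (by omega)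
    have e : n - 1 + 1 = n := by omega
    rw [e, hg.2.1] at ha
    have h2 := hH (n - 1) (by omega) (by omega)
    have hok := (g (n - 1)).2
    rcases h2 with ⟨y2, s2, h2⟩ | h2
    · rw [h2] at ha hok
      simp only [vb, CAdj] at ha
      rw [ha.2]; exact hok.1
    · rw [h2] at ha
      simp only [vb, CAdj] at ha
  -- the reversed path
  have hny : dGam D Y ρ (vb Y ρ y) (vb Y ρ x) = n := by rw [hdg.symm]
  have hgr : IsGeod (dGam D Y ρ) (vb Y ρ y) (vb Y ρ x) (fun j => g (n - j)) := by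
    refine ⟨?_, ?_, ?_⟩
    · simp only [Nat.sub_zero]; exact hg.2.1
    · simp only [hny, Nat.sub_self]; exact hg.1
    · intro a b hab hb
      rw [hny] at hb
      simp only
      rw [hdg.symm, hg.2.2 (n - b) (n - a) (by omega) (by omega)]
      omega
  have hHr : ∀ j, 0 < j → j < dGam D Y ρ (vb Y ρ y) (vb Y ρ x) → Hor i (g (n - j)).1 := by
    intro j h0 hj
    rw [hny] at hj
    exact hH _ (by omega) (by omega)
  -- both sides
  have sideB : ∀ t j0 : ℕ, 1 ≤ t → t ≤ ρ → j0 ≤ n → t ≤ ht ρ (g j0).1 → ∀ v : Gam Y ρ,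
      (v.1 = .c i x t ∨ v.1 = .c i y t) → ∃ k ≤ n, dGam D Y ρ v (g k) ≤ 1 := by
    intro t j0 ht1 htr hj0 hj0t v hv
    rcases hv with hv | hv
    · exact side hdg hlip hC hcd hg hx hH ht1 htr hj0 hj0t hv
    · have hnj : n - (n - j0) = j0 := by omega
      obtain ⟨k, hk, hk'⟩ := side hdg hlip hC hcd hgr hy hHr (j0 := n - j0) ht1 htr
        (by rw [hny]; omega) (by rw [hnj]; exact hj0t) hv
      exact ⟨n - k, by omega, hk'⟩
  -- maximal height
  obtain ⟨m, hm, hmax⟩ : ∃ m ≤ n, ∀ j ≤ n, ht ρ (g j).1 ≤ ht ρ (g m).1 := by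
    obtain ⟨m, hm, hmax⟩ := Finset.exists_max_image (Finset.range (n + 1))
      (fun j => ht ρ (g j).1) ⟨0, by simp⟩
    exact ⟨m, by simpa [Nat.lt_succ_iff] using hm, fun j hj => hmax j (by simpa [Nat.lt_succ_iff] using hj)⟩
  set H := ht ρ (g m).1 with hHdef
  have hH1 : 1 ≤ H := by
    have := hmax 1 (by omega)
    rw [hi] at this
    exact this
  have hm0 : 0 < m ∧ m < n := by
    constructor
    · rcases Nat.eq_zero_or_pos m with h0 | h0
      · exfalso
        rw [hHdef, h0, hg.1] at hH1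
        simp only [vb, ht] at hH1
        omega
      · exact h0
    · rcases Nat.lt_or_ge m n with h0 | h0
      · exact h0
      · exfalso
        have : m = n := by omega
        rw [hHdef, this, hg.2.1] at hH1
        simp only [vb, ht] at hH1
        omega
  have hTH : H < ρ → Nat.clog 2 (D x y) ≤ H + 3 := by
    intro hlt
    have hI : ∀ j ≤ n, IVert Y i (ftOf x (g j).1) (ht ρ (g j).1) (g j).1 := by
      intro j hj
      rcases Nat.eq_zero_or_pos j with h0 | h0
      · rw [h0, hg.1]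
        left
        exact ⟨rfl, hx, rfl⟩
      · rcases Nat.lt_or_ge j n with h3 | h3
        · have h1 := hH j h0 h3
          have h2 := hor_ht h1 (by have := hmax j hj; omega) x
          right
          exact h2
        · have h4 : j = n := by omega
          rw [h4, hg.2.1]
          left
          exact ⟨rfl, hy, rfl⟩
    have hno : ∀ j < n, ¬ (ht ρ (g j).1 = 0 ∧ ht ρ (g (j + 1)).1 = 0) := by
      intro j hj hc
      rcases Nat.eq_zero_or_pos j with h0 | h0
      · subst h0
        have h2 := hor_ht (hH 1 (by omega) (by omega)) (by simpa using hc.2.le.trans (Nat.zero_le _)) x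
        rw [zero_add] at hc
        omega
      · have h2 := hor_ht (hH j h0 hj) (by omega) x
        omega
    have hG : GSeq (dGam D Y ρ) n g := fun a b hab hb => hg.2.2 a b hab hb
    have := hT V I D Y ρ hcd i n H g (fun j => ftOf x (g j).1) (fun j => ht ρ (g j).1) hG hI hno
      hmax hlt
    have e0 : ftOf x (g 0).1 = x := by rw [hg.1]; rfl
    have en : ftOf x (g n).1 = y := by rw [hg.2.1]; rfl
    simp only [e0, en] at this
    refine (Nat.clog_le_iff_le_pow (by norm_num)).2 (this.trans ?_)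
    rw [pow_add]
    have : 0 < 2 ^ H := by positivity
    omega
  refine ⟨i, hx, hy, hH, ?_⟩
  intro u hu
  rcases hu with hu | hu | ⟨t, ht1, htT, htr, hu⟩ | ⟨hTr, hu⟩
  · refine ⟨0, by omega, ?_⟩
    have : u = g 0 := by rw [hg.1]; exact Subtype.ext hu
    rw [this, (hdg.eq_zero _ _).2 rfl]; omega
  · refine ⟨n, le_rfl, ?_⟩
    have : u = g n := by rw [hg.2.1]; exact Subtype.ext hu
    rw [this, (hdg.eq_zero _ _).2 rfl]; omega
  · rcases Nat.lt_or_ge H t with hlt | hge
    · -- t above the maximal height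
      have hHT := hTH (by omega)
      obtain ⟨z, hz, hzu⟩ : ∃ z : V, z ∈ Y i ∧ u.1 = .c i z t ∧ (z = x ∨ z = y) := by
        rcases hu with hu | hu
        · exact ⟨x, hx, hu, Or.inl rfl⟩
        · exact ⟨y, hy, hu, Or.inr rfl⟩
      let v : Gam Y ρ := ⟨.c i z H, ⟨hz, hH1, by omega⟩⟩
      obtain ⟨k, hk, hk'⟩ := sideB H m hH1 (by omega) hm le_rfl v (by
        rcases hzu.2 with rfl | rfl
        · left; rfl
        · right; rfl)
      have h5 := hvert i z H t v u (by omega) (Or.inr ⟨hH1, rfl⟩) (Or.inr ⟨ht1, hzu.1⟩)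
      refine ⟨k, hk, ?_⟩
      have h6 := hdg.tri u v (g k)
      rw [hdg.symm u v] at h6
      omega
    · obtain ⟨k, hk, hk'⟩ := sideB t m ht1 htr hm hge u hu
      exact ⟨k, hk, by omega⟩
  · -- the apex
    refine ⟨m, hm, ?_⟩
    have hua : u = va Y ρ i := Subtype.ext hu
    rcases hH m hm0.1 hm0.2 with ⟨y2, s2, h2⟩ | h2
    · have hok := (g m).2
      rw [h2] at hok
      have hs : H = s2 := by rw [hHdef, h2]; rfl
      have h3 := hapex i y2 s2 (g m) (Or.inr ⟨hok.2.1, h2⟩)
      rw [hua, hdg.symm, h3]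
      rcases Nat.lt_or_ge H ρ with h4 | h4
      · have := hTH h4
        omega
      · omega
    · have : g m = va Y ρ i := Subtype.ext h2
      rw [hua, this, (hdg.eq_zero _ _).2 rfl]; omega

end Pool.Agent.BURN
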