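import Pool.Agent.BURN.Basic
import Pool.Agent.BURN.Stmts1

/-! Section 2.4: minimal pairs are irreducible (IrrMin), first step (FS) and FS0. -/

namespace Pool.Agent.BURN

namespace FSX

variable {G X : Type} [Group G] [MulAction G X] {d : X → X → ℕ} {C : Set X}
  {R : X → Subgroup G} {δ α β σ : ℕ}

omit [MulAction G X] in
theorem mem_KK {c : X} (hc : c ∈ C) {r : G} (hr : r ∈ R c) : r ∈ KK C R :=
  Subgroup.subset_closure ⟨c, hc, hr⟩

/-- a rotation around c moves the product at c to the other side -/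
theorem gp_rot (H : RF d C R δ α β σ) {c : X} (hc : c ∈ C) {r : G} (hr : r ∈ R c) (u v : X) :
    gp d u (r⁻¹ • v) c = gp d (r • u) v c := by
  have h1 := isIso_gp H.iso r u (r⁻¹ • v) c
  rw [H.fix c hc r hr, smul_inv_smul] at h1
  exact h1.symm

theorem dist_rot (H : RF d C R δ α β σ) {c : X} (hc : c ∈ C) {r : G} (hr : r ∈ R c) (y : X) :
    d (r • y) c = d y c := by
  have h1 := H.iso r y c
  rw [H.fix c hc r hr] at h1
  exact h1

/-- the common core of the two cases of the first step: a point p on [x,y] close to the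
direction of y at c in the sense gp p y c ≤ eta, and to the direction z = r • y with
gp p z c ≥ tht + 2 δ, forces gp x z c ≥ tht. -/
theorem core (h : IsDG d) (hy : Hyp d δ) {x p y z c : X} (hb : Btw d x p y)
    (h1 : gp d p y c ≤ eta δ β) (h2 : tht δ β + 2 * δ ≤ gp d p z c) :
    gp d x y c ≤ eta δ β ∧ tht δ β ≤ gp d x z c := by
  have e0 := gp_mono h hb c
  have e1 := gp_le_left h p z c
  have e2 := gp_add_gp h p y c
  have e3 := (btw_iff h x p y).1 hb
  have e4 := hyp_gp h hy x y c p
  have e5 := gp_add_gp h p x c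
  have e6 := hyp_gp h hy x z p c
  rw [gp_comm h p x c, gp_comm h c x p] at e5
  rw [e3] at e4
  have e7 : tht δ β = eta δ β + 4 * δ + 1 := rfl
  refine ⟨by omega, ?_⟩
  omega

end FSX

open FSX

theorem IrrMin_proof : Stmt_IrrMin := by
  intro G X _ _ d C R δ α β σ H
  have h := H.dg
  refine ⟨?_, ?_, ?_⟩
  · intro x y hxy
    have key : ∀ c ∈ C, ∀ r ∈ R c, gp d x (r • y) c ≤ gp d x y c := by
      intro c hc r hr
      have e1 : dK d (KK C R) x y ≤ d x (r • y) := Nat.sInf_le ⟨r, mem_KK hc hr, rfl⟩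
      have e2 := gp_add h x (r • y) c
      have e3 := gp_add h x y c
      have e4 := dist_rot H hc hr y
      omega
    refine ⟨key, ?_⟩
    intro c hc r hr h1
    have e7 : tht δ β = eta δ β + 4 * δ + 1 := rfl
    have := key c hc r hr
    omega
  · intro x y hI c hc r hr h1
    have h2 := hI c hc r⁻¹ (inv_mem hr) (by rw [gp_comm h]; exact h1)
    rw [gp_rot H hc hr] at h2
    rw [gp_comm h]; exact h2
  · intro g x y hI c hc r hr h1
    have hc' : g⁻¹ • c ∈ C := H.cinv _ c hc
    have hr' : g⁻¹ * r * g ∈ R (g⁻¹ • c) := by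
      have := (H.conj g⁻¹ c hc r).1 hr
      rwa [inv_inv] at this
    have e1 := isIso_gp H.iso g x y (g⁻¹ • c)
    have e2 := isIso_gp H.iso g x ((g⁻¹ * r * g) • y) (g⁻¹ • c)
    rw [smul_inv_smul] at e1 e2
    have e3 : g • (g⁻¹ * r * g) • y = r • g • y := by
      rw [smul_smul, smul_smul]; congr 1; group
    rw [e3] at e2
    have := hI _ hc' _ hr' (by omega)
    omega

theorem FS_proof : Stmt_FS := by
  intro G X _ _ d C R δ α β σ H p p' x x' y k hk hb hb' hI hI' c hc r hr h1 h2 h3
  have h := H.dg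
  have hy := H.hyp
  have e7 : tht δ β = eta δ β + 4 * δ + 1 := rfl
  have e8 : eta δ β = bet1 δ β + 2 * δ := rfl
  have e9 : eta1 δ β = tht δ β + 4 * δ := rfl
  have e10 : eta1 δ β + δ ≤ alp1 δ α β := le_max_right _ _
  -- transport of the product with the other point
  have tr1 : eta1 δ β < gp d p' (k • y) c → tht δ β + 3 * δ ≤ gp d p (k • y) c := by
    intro h4
    rcases h3 with h3 | h3
    · rw [h3]; omega
    · have := hyp_gp h hy p (k • y) p' c
      omega
  have tr2 : eta1 δ β < gp d p y c → tht δ β + 3 * δ ≤ gp d p' y c := by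
    intro h4
    rcases h3 with h3 | h3
    · rw [← h3]; omega
    · have := hyp_gp h hy p' y p c
      rw [gp_comm h p' p] at this
      omega
  have dich := hyp_gp h hy y (k • y) p c
  rw [gp_comm h y p] at dich
  by_cases hcase : gp d p y c ≤ bet1 δ β + δ
  · refine ⟨by omega, ?_⟩
    by_contra h4
    have h5 := tr1 (by omega)
    have h6 : alp1 δ α β ≤ gp d (k • y) (r • y) c := by
      rw [gp_rot H hc hr, gp_comm h] at h2; exact h2
    have h7 := hyp_gp h hy p (r • y) (k • y) c
    obtain ⟨h8, h9⟩ := core (z := r • y) h hy hb (by omega : gp d p y c ≤ eta δ β) (by omega)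
    have := hI c hc r hr h8
    omega
  · have hcase2 : gp d p (k • y) c ≤ bet1 δ β + δ := by omega
    have h4 : gp d p' (k • y) c ≤ eta δ β := by
      rcases h3 with h3 | h3
      · rw [← h3]; omega
      · have := hyp_gp h hy p (k • y) p' c
        omega
    refine ⟨?_, by omega⟩
    by_contra h5
    have h6 := tr2 (by omega)
    have h7 := hyp_gp h hy p' (r⁻¹ • k • y) y c
    obtain ⟨h8, h9⟩ := core (z := r⁻¹ • k • y) h hy hb' h4 (by omega)
    have := hI' c hc r⁻¹ (inv_mem hr) h8
    omega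

theorem FS0_proof (hGL : Stmt_GL) : Stmt_FS0 := by
  intro G X _ _ d C R δ α β σ H x y k hk hk1 hfar hI hI'
  have h := H.dg
  rcases hGL G X d C R δ α β σ H y k hk hk1 with ⟨c, hc, h1, _⟩ | ⟨c, hc, r, hr, _, _, h2, h3⟩
  · have := hfar c hc; omega
  · have hx0 : d x x = 0 := (h.eq_zero x x).2 rfl
    have := FS_proof G X d C R δ α β σ H x x x x y k hk (by unfold Btw; omega)
      (by unfold Btw; omega) hI hI' c hc r hr h2 h3 (Or.inl rfl)
    exact ⟨c, hc, this.1, this.2⟩

end Pool.Agent.BURN
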