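import Pool.Agent.BURN.Stmts2
import Pool.Agent.BURN.Basic

/-! 3.6 (b): feet are near projections. -/

namespace Pool.Agent.BURN

theorem FootPrX.f3_ge : 7 ≤ f3 := by
  unfold f3; norm_num

theorem FootPr_proof (hG : Stmt_GamDG) (hGu : Stmt_Guess) (hS : Stmt_Shadow) : Stmt_FootPr := by
  intro V I D Y ρ pr hCD hpr i z v hF
  obtain ⟨hdg, -, hht, -, -, hap, -, -⟩ := hG V I D Y ρ hCD
  obtain ⟨hpr1, -⟩ := hS V I D Y ρ pr hCD hpr
  obtain ⟨hL1, -⟩ := hGu V I D Y ρ pr hCD hpr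
  obtain ⟨hv, hF⟩ := hF
  have hvv : pr i v = v := hpr1 i v hv
  have hsymD : D v (pr i z) = D (pr i z) v := hCD.dg.symm _ _
  have hf3 := FootPrX.f3_ge
  have hbig := hCD.big
  rcases hF with ⟨s, hs⟩ | ⟨-, hF⟩
  · exact absurd hs (by simp [vb])
  by_cases h100 : D v (pr i z) < 100
  · have h1 : (2 : ℕ) ^ 7 ≤ 2 ^ f3 := Nat.pow_le_pow_right (by norm_num) hf3
    generalize (2 : ℕ) ^ f3 = q at h1 ⊢
    norm_num at h1
    omega
  have h100' : 100 ≤ D (pr i z) (pr i v) := by rw [hvv]; omega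
  have hprz : pr i z ∈ Y i := (hpr i z).1
  have hT1 : 1 ≤ Nat.clog 2 (D (pr i z) v) := by
    have h2 : Nat.clog 2 2 ≤ Nat.clog 2 (D (pr i z) v) :=
      Nat.clog_mono_right 2 (by rw [hvv] at h100'; omega)
    have h3 : 1 ≤ Nat.clog 2 2 := Nat.clog_pos (by norm_num) (by norm_num)
    omega
  obtain ⟨T, hT⟩ : ∃ T, T = Nat.clog 2 (D (pr i z) v) := ⟨_, rfl⟩
  rw [← hT] at hT1
  obtain ⟨t, htt⟩ : ∃ t, t = min T ρ := ⟨_, rfl⟩
  have htT : t ≤ T := by omega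
  have htρ : t ≤ ρ := by omega
  have ht1 : 1 ≤ t := by omega
  let u : Gam Y ρ := ⟨.c i (pr i z) t, hprz, ht1, htρ⟩
  have hu : u ∈ Lset D Y ρ pr z v := by
    refine Or.inr ⟨i, h100', ?_⟩
    refine Or.inr (Or.inr (Or.inl ⟨t, ht1, ?_, htρ, Or.inl rfl⟩))
    rw [hvv, ← hT]; exact htT
  obtain ⟨g, hg⟩ := exists_geod hdg (vb Y ρ z) (vb Y ρ v)
  obtain ⟨j, hj, hju⟩ := (hL1 z v g hg).1 u hu
  have e1 := hg.dist_left hj
  have e2 := hg.dist_right hj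
  have t1 := hdg.tri (vb Y ρ z) (g j) u
  have t2 := hdg.tri u (g j) (vb Y ρ v)
  have s1 := hdg.symm u (g j)
  have hh1 : ht ρ u.1 = t := rfl
  have hh2 : ht ρ (vb Y ρ v : Gam Y ρ).1 = 0 := rfl
  have hA := hap i (pr i z) t u (Or.inr ⟨ht1, rfl⟩)
  have t3 := hdg.tri (vb Y ρ z) u (va Y ρ i)
  have hsym := hdg.symm u (vb Y ρ v)
  have hle : t ≤ f3 := by
    have hh5 : ht ρ u.1 ≤ ht ρ (vb Y ρ v : Gam Y ρ).1 + dGam D Y ρ (vb Y ρ v) u := by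
      simpa using hht (vb Y ρ v) u
    rw [hh1, hh2] at hh5
    omega
  have hTf : T ≤ f3 := by omega
  have hDT : D (pr i z) v ≤ 2 ^ T := by rw [hT]; exact Nat.le_pow_clog (by norm_num) _
  rw [hsymD]
  exact hDT.trans (Nat.pow_le_pow_right (by norm_num) hTf)

end Pool.Agent.BURN
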