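import Pool.Agent.BURN.Basic
import Pool.Agent.BURN.Stmts1

/-! Sections 2.2, 2.3 of the blueprint: Greendlinger's lemma and corollaries. -/

namespace Pool.Agent.BURN

section

variable {G X : Type} [Group G] [MulAction G X] {d : X → X → ℕ} {C : Set X}
  {R : X → Subgroup G} {δ α β σ : ℕ}

theorem const_facts (δ α β : ℕ) : α ≤ alp1 δ α β ∧ eta1 δ β + δ ≤ alp1 δ α β ∧
    aa0 δ α β = alp1 δ α β + 9 * δ + 1 ∧ bet1 δ β = β + δ ∧ eta δ β = β + 3 * δ ∧
    BB δ β = β + 7 * δ ∧ tht δ β = β + 7 * δ + 1 ∧ eta1 δ β = β + 11 * δ + 1 ∧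
    ee3 δ β = β + 12 * δ + 2 ∧ bb0 δ α β = aa0 δ α β + 2 * β + 10 * δ + 10 ∧
    sig0 δ α β = 4 * (aa0 δ α β + bb0 δ α β + β + ee3 δ β + eta1 δ β + 10 * δ + 10) +
      2 * alp1 δ α β := by
  unfold sig0 bb0 aa0 ee3 alp1 eta1 tht BB eta bet1
  refine ⟨le_max_left _ _, le_max_right _ _, rfl, rfl, ?_, ?_, ?_, ?_, ?_, rfl, rfl⟩ <;> omega

theorem KK_mono {C C' : Set X} (h : C ⊆ C') : KK C R ≤ KK C' R := by
  unfold KK
  apply Subgroup.closure_mono
  rintro r ⟨c, hc, hr⟩
  exact ⟨c, h hc, hr⟩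

theorem mem_KK {C : Set X} {c : X} (hc : c ∈ C) {r : G} (hr : r ∈ R c) : r ∈ KK C R :=
  Subgroup.subset_closure ⟨c, hc, hr⟩

theorem RF.d_self (h : RF d C R δ α β σ) (x : X) : d x x = 0 := (h.dg.eq_zero x x).2 rfl

theorem RF.iso_inv (h : RF d C R δ α β σ) (g : G) (x y : X) : d (g⁻¹ • x) y = d x (g • y) := by
  have := h.iso g (g⁻¹ • x) y
  rw [smul_inv_smul] at this
  exact this.symm

/-- the next windmill -/
def nextW (d : X → X → ℕ) (C : Set X) (R : X → Subgroup G) (b : ℕ) (W : Set X) : Set X :=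
  hull d {x | ∃ h ∈ KK ((C ∩ W) ∪ {c | c ∈ C ∧ c ∉ W ∧ ∃ w ∈ W, d c w ≤ b}) R, ∃ y,
    ((∃ w ∈ W, d y w ≤ 1) ∨ y ∈ {c | c ∈ C ∧ c ∉ W ∧ ∃ w ∈ W, d c w ≤ b}) ∧ x = h • y}

/-- the sequence of windmills -/
def seqW (d : X → X → ℕ) (C : Set X) (R : X → Subgroup G) (b : ℕ) (W : Set X) : ℕ → Set X
  | 0 => W
  | n + 1 => nextW d C R b (seqW d C R b W n)

theorem seqW_wind (hN : Stmt_NextWind) (h : RF d C R δ α β σ) {W : Set X}
    (hW : Wind d C R δ (aa0 δ α β) W) (n : ℕ) :
    Wind d C R δ (aa0 δ α β) (seqW d C R (bb0 δ α β) W n) := by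
  induction n with
  | zero => exact hW
  | succ n ih =>
    exact (hN G X d C R δ α β σ _ _ _ h ih rfl rfl).1

theorem seqW_KK (hN : Stmt_NextWind) (h : RF d C R δ α β σ) {W : Set X}
    (hW : Wind d C R δ (aa0 δ α β) W) (n : ℕ) :
    KK (C ∩ seqW d C R (bb0 δ α β) W (n + 1)) R =
    KK ((C ∩ seqW d C R (bb0 δ α β) W n) ∪ {c | c ∈ C ∧ c ∉ seqW d C R (bb0 δ α β) W n ∧
      ∃ w ∈ seqW d C R (bb0 δ α β) W n, d c w ≤ bb0 δ α β}) R :=
  (hN G X d C R δ α β σ _ _ _ h (seqW_wind hN h hW n) rfl rfl).2.1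

theorem seqW_succ (hN : Stmt_NextWind) (h : RF d C R δ α β σ) {W : Set X}
    (hW : Wind d C R δ (aa0 δ α β) W) (n : ℕ) (x : X)
    (hx : ∃ w ∈ seqW d C R (bb0 δ α β) W n, d x w ≤ 1) :
    x ∈ seqW d C R (bb0 δ α β) W (n + 1) :=
  (hN G X d C R δ α β σ _ _ _ h (seqW_wind hN h hW n) rfl rfl).2.2 x hx

theorem seqW_mono (hN : Stmt_NextWind) (h : RF d C R δ α β σ) {W : Set X}
    (hW : Wind d C R δ (aa0 δ α β) W) {m n : ℕ} (hmn : m ≤ n) :
    seqW d C R (bb0 δ α β) W m ⊆ seqW d C R (bb0 δ α β) W n := by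
  induction n, hmn using Nat.le_induction with
  | base => exact subset_rfl
  | succ n hn ih =>
    intro x hx
    exact seqW_succ hN h hW n x ⟨x, ih hx, by rw [h.d_self]; omega⟩

theorem seqW_ball (hN : Stmt_NextWind) (h : RF d C R δ α β σ) {W : Set X}
    (hW : Wind d C R δ (aa0 δ α β) W) {x : X} (hx : x ∈ W) (n : ℕ) :
    ∀ y, d x y = n → y ∈ seqW d C R (bb0 δ α β) W n := by
  induction n with
  | zero =>
    intro y hy
    rw [← (h.dg.eq_zero x y).1 hy]; exact hx
  | succ n ih =>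
    intro y hy
    obtain ⟨z, hz1, hz2⟩ := h.dg.geo x y n (by omega)
    refine seqW_succ hN h hW n y ⟨z, ih z hz1, ?_⟩
    rw [h.dg.symm]; omega

theorem mem_seqW_KK (hN : Stmt_NextWind) (h : RF d C R δ α β σ) {W : Set X}
    (hW : Wind d C R δ (aa0 δ α β) W) {x : X} (hx : x ∈ W) {k : G} (hk : k ∈ KK C R) :
    ∃ n, k ∈ KK (C ∩ seqW d C R (bb0 δ α β) W n) R := by
  unfold KK at hk
  induction hk using Subgroup.closure_induction with
  | mem r hr =>
    obtain ⟨c, hc, hr⟩ := hr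
    exact ⟨d x c, mem_KK (C := C ∩ seqW d C R (bb0 δ α β) W (d x c)) (c := c)
      ⟨hc, seqW_ball hN h hW hx _ c rfl⟩ hr⟩
  | one => exact ⟨0, Subgroup.one_mem _⟩
  | mul a b _ _ iha ihb =>
    obtain ⟨m, hm⟩ := iha
    obtain ⟨n, hn⟩ := ihb
    refine ⟨max m n, Subgroup.mul_mem _ ?_ ?_⟩
    · exact KK_mono (Set.inter_subset_inter_right _ (seqW_mono hN h hW (le_max_left m n))) hm
    · exact KK_mono (Set.inter_subset_inter_right _ (seqW_mono hN h hW (le_max_right m n))) hn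
  | inv a _ iha =>
    obtain ⟨m, hm⟩ := iha
    exact ⟨m, Subgroup.inv_mem _ hm⟩

/-- the main step of Greendlinger: an element of the next windmill group outside the windmill
group -/
theorem gl_step (hL : Stmt_LGa) (hCh : Stmt_Chain) (hA : Stmt_ClaimA)
    (h : RF d C R δ α β σ) {W : Set X} (hW : Wind d C R δ (aa0 δ α β) W) {x : X} (hx : x ∈ W)
    {k : G} (hk : k ∈ KK ((C ∩ W) ∪ {c | c ∈ C ∧ c ∉ W ∧ ∃ w ∈ W, d c w ≤ bb0 δ α β}) R)
    (hk' : k ∉ KK (C ∩ W) R) :
    ∃ c ∈ C, ∃ r ∈ R c, r ≠ 1 ∧ aa0 δ α β < d x c ∧ gp d x (k • x) c ≤ bet1 δ β ∧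
      alp1 δ α β ≤ gp d x (r⁻¹ • k • x) c := by
  classical
  obtain ⟨cf1, cf2, cf3, cf4, cf5, cf6, cf7, cf8, cf9, cf10, cf11⟩ := const_facts δ α β
  have hσ := h.big
  set C1 : Set X := {c | c ∈ C ∧ c ∉ W ∧ ∃ w ∈ W, d c w ≤ bb0 δ α β} with hC1
  have hsub : C1 ⊆ C := fun c hc => hc.1
  have hinv : ∀ h ∈ KK (C ∩ W) R, ∀ c ∈ C1, h • c ∈ C1 := by
    intro g hg c hc
    refine ⟨h.cinv g c hc.1, ?_, ?_⟩
    · intro hcW
      have := hW.inv g⁻¹ (Subgroup.inv_mem _ hg) _ hcW
      rw [inv_smul_smul] at this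
      exact hc.2.1 this
    · obtain ⟨w, hw, hcw⟩ := hc.2.2
      exact ⟨g • w, hW.inv g hg w hw, by rw [h.iso]; exact hcw⟩
  haveI : Nonempty X := ⟨x⟩
  obtain ⟨m, gs, c, g0, hg0, hgs0, hgk, hgsK, hc, hcne⟩ :=
    hCh G X d C R δ α β σ W C1 h hsub hinv k hk
  have hm : 1 ≤ m := by
    rcases Nat.eq_zero_or_pos m with hm | hm
    · exfalso
      apply hk'
      rw [hgk, hm, hgs0, one_mul]; exact hg0
    · exact hm
  -- the sets V i
  have hVqc : ∀ g : G, QC d (2 * δ) {v | g⁻¹ • v ∈ W} := by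
    intro g a ha b hb p hp
    have : Btw d (g⁻¹ • a) (g⁻¹ • p) (g⁻¹ • b) := by
      unfold Btw at hp ⊢; rw [h.iso, h.iso, h.iso]; exact hp
    obtain ⟨w, hw, hpw⟩ := hW.qc _ ha _ hb _ this
    refine ⟨g • w, by simpa using hw, ?_⟩
    rw [← h.iso_inv]; exact hpw
  have hVfar : ∀ i, 1 ≤ i → i ≤ m → ∀ v ∈ {v | (gs (i - 1))⁻¹ • v ∈ W},
      aa0 δ α β < d (c i) v := by
    intro i h1 h2 v hv
    obtain ⟨_, hci, _, _⟩ := hc i h1 h2
    have := hW.far _ hci.1 hci.2.1 _ hv
    rw [h.iso] at this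
    exact this
  -- the sequence
  let xs : ℕ → X := fun i => if i = 0 then x else if i ≤ m then c i else k • x
  have xs0 : xs 0 = x := by simp [xs]
  have xsi : ∀ i, 1 ≤ i → i ≤ m → xs i = c i := by
    intro i h1 h2
    have : i ≠ 0 := by omega
    simp [xs, this, h2]
  have xsm : ∀ i, m < i → xs i = k • x := by
    intro i h1
    have h0 : i ≠ 0 := by omega
    have h2 : ¬ i ≤ m := by omega
    simp [xs, h0, h2]
  -- products with the rotated next point
  have hA' : ∀ i, 1 ≤ i → i ≤ m → ∀ r ∈ R (c i), gs i = r * gs (i - 1) →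
      2 * aa0 δ α β + 1 ≤ gp d (xs (i - 1)) (r⁻¹ • xs (i + 1)) (c i) + 8 * δ := by
    intro i h1 h2 r hr hgs
    have hcC := (hc i h1 h2).1
    apply hA G X d C R δ α β σ {v | (gs (i - 1))⁻¹ • v ∈ W} (c i) _ _ h (hVqc _) hcC
      (hVfar i h1 h2)
    · by_cases hi : i = 1
      · left
        refine ⟨x, ?_, ?_⟩
        · simp [hi, hgs0, hx]
        · simp [hi, xs0, h.d_self]
      · right
        have e : xs (i - 1) = c (i - 1) := xsi _ (by omega) (by omega)
        obtain ⟨hC', hp1, hp2, _⟩ := hc (i - 1) (by omega) (by omega)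
        rw [e]
        refine ⟨hC', ?_, ?_⟩
        · have := hcne (i - 1) (by omega) (by omega)
          rwa [Nat.sub_add_cancel h1] at this
        · obtain ⟨w, hw, hcw⟩ := hp2.2.2
          refine ⟨gs (i - 1) • w, by simpa using hw, ?_⟩
          rw [← h.iso_inv]; exact hcw
    · have hrfix : r • c i = c i := h.fix _ hcC r hr
      by_cases hi : i = m
      · left
        have e : xs (i + 1) = k • x := xsm _ (by omega)
        refine ⟨r⁻¹ • k • x, ?_, ?_⟩
        · show (gs (i - 1))⁻¹ • r⁻¹ • k • x ∈ W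
          rw [hgk, ← hi, hgs, smul_smul, smul_smul]
          have : (gs (i - 1))⁻¹ * r⁻¹ * (r * gs (i - 1) * g0) = g0 := by group
          rw [this]
          exact hW.inv g0 hg0 x hx
        · rw [e, h.d_self]; omega
      · right
        have e : xs (i + 1) = c (i + 1) := xsi _ (by omega) (by omega)
        obtain ⟨hC', hp1, hp2, _⟩ := hc (i + 1) (by omega) (by omega)
        rw [e]
        rw [Nat.add_sub_cancel] at hp1
        refine ⟨h.cinv _ _ hC', ?_, ?_⟩
        · intro heq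
          have : c (i + 1) = c i := by
            rw [← hrfix, ← heq, smul_inv_smul]
          exact hcne i h1 (by omega) this.symm
        · obtain ⟨w, hw, hcw⟩ := hp1.2.2
          refine ⟨gs (i - 1) • w, by simpa using hw, ?_⟩
          rw [h.iso_inv, smul_smul, ← hgs, ← h.iso_inv]
          exact hcw
  have hprod : ∀ i, 1 ≤ i → i ≤ m → gp d (xs (i - 1)) (xs (i + 1)) (xs i) ≤ β := by
    intro i h1 h2
    obtain ⟨hcC, _, _, r, hr, hr1, hgs⟩ := hc i h1 h2
    have h3 := hA' i h1 h2 r hr hgs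
    have h4 := h.vr (c i) hcC r hr hr1 (xs (i - 1)) (r⁻¹ • xs (i + 1)) (by omega)
    rw [smul_inv_smul] at h4
    rw [xsi i h1 h2]; exact h4
  have hdist : ∀ i, 1 ≤ i → i + 1 ≤ m → σ ≤ d (xs i) (xs (i + 1)) := by
    intro i h1 h2
    rw [xsi i h1 (by omega), xsi (i + 1) (by omega) h2]
    exact h.sep _ (hc i h1 (by omega)).1 _ (hc (i + 1) (by omega) h2).1 (hcne i h1 h2)
  have hLG1 := hL X d δ β (m + 1) xs h.dg h.hyp (by omega)
    (fun i h1 h2 => hprod i h1 (by omega)) (fun i h1 h2 => by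
      have := hdist i h1 (by omega); omega)
  obtain ⟨hc1C, hc1, _, r, hr, hr1, hgs1⟩ := hc 1 le_rfl hm
  have hrfix : r • c 1 = c 1 := h.fix _ hc1C r hr
  have e1 : xs 1 = c 1 := xsi 1 le_rfl hm
  have em : xs (m + 1) = k • x := xsm _ (by omega)
  rw [xs0, em, e1] at hLG1
  refine ⟨c 1, hc1C, r, hr, hr1, ?_, ?_, ?_⟩
  · have := hVfar 1 le_rfl hm x (by simp [hgs0, hx])
    rw [h.dg.symm]; exact this
  · rw [cf4]; exact hLG1.2.1
  · have hA1 := hA' 1 le_rfl hm r hr hgs1
    simp only [Nat.sub_self, xs0] at hA1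
    have hfar : 2 * aa0 δ α β + 1 ≤ gp d (xs 2) (k • x) (c 1) := by
      by_cases hm1 : m = 1
      · have e2 : xs 2 = k • x := xsm _ (by omega)
        rw [e2, gp_self h.dg]
        have h5 := hVfar 1 le_rfl hm (g0 • x) (by
          simp only [Nat.sub_self, hgs0, inv_one, one_smul, Set.mem_ofPred_eq]
          exact hW.inv g0 hg0 x hx)
        have h6 : d (k • x) (c 1) = d (g0 • x) (c 1) := by
          have : k = r * g0 := by
            rw [hgk, hm1, hgs1, Nat.sub_self, hgs0, mul_one]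
          rw [this, mul_smul]
          conv_lhs => rw [← hrfix]
          rw [h.iso]
        rw [h6, h.dg.symm]; omega
      · have e2 : xs 2 = c 2 := xsi 2 (by omega) (by omega)
        have hLG2 := hL X d δ β m (fun i => xs (i + 1)) h.dg h.hyp (by omega)
          (fun i h1 h2 => by
            have h3 := hprod (i + 1) (by omega) (by omega)
            have e : i - 1 + 1 = i + 1 - 1 := by omega
            show gp d (xs (i - 1 + 1)) (xs (i + 1 + 1)) (xs (i + 1)) ≤ β
            rw [e]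
            exact h3)
          (fun i h1 h2 => by
            have h3 := hdist (i + 1) (by omega) (by omega)
            show β + δ < d (xs (i + 1)) (xs (i + 1 + 1))
            omega)
        have h7 : gp d (xs 1) (xs (m + 1)) (xs 2) ≤ β + δ := hLG2.2.1
        rw [e1, em] at h7
        have h8 := gp_add_gp h.dg (xs 2) (k • x) (c 1)
        have h9 : σ ≤ d (xs 1) (xs 2) := hdist 1 le_rfl (by omega)
        rw [e1, h.dg.symm] at h9
        omega
    have hrot : gp d (r⁻¹ • xs 2) (r⁻¹ • k • x) (c 1) = gp d (xs 2) (k • x) (c 1) := by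
      have h12 : r⁻¹ • c 1 = c 1 := by
        rw [inv_smul_eq_iff]; exact hrfix.symm
      conv_lhs => rw [← h12]
      exact isIso_gp h.iso r⁻¹ _ _ _
    have hH := hyp_gp h.dg h.hyp x (r⁻¹ • k • x) (r⁻¹ • xs 2) (c 1)
    rw [hrot] at hH
    simp only [Nat.reduceAdd] at hA1
    omega

end

theorem GL_proof (hL : Stmt_LGa) (hHull : Stmt_Hull) (hCh : Stmt_Chain) (hA : Stmt_ClaimA)
    (hN : Stmt_NextWind) : Stmt_GL := by
  intro G X _ _ d C R δ α β σ h x k hk hk1
  classical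
  obtain ⟨cf1, cf2, cf3, cf4, cf5, cf6, cf7, cf8, cf9, cf10, cf11⟩ := const_facts δ α β
  have hσ := h.big
  have main : ∀ W : Set X, Wind d C R δ (aa0 δ α β) W → x ∈ W →
      k ∈ KK (C ∩ W) R ∨ (∃ c ∈ C, ∃ r ∈ R c, r ≠ 1 ∧ aa0 δ α β < d x c ∧
        gp d x (k • x) c ≤ bet1 δ β ∧ alp1 δ α β ≤ gp d x (r⁻¹ • k • x) c) := by
    intro W hW hx
    have hex := mem_seqW_KK hN h hW hx hk
    have hfind := Nat.find_spec hex
    rcases Nat.eq_zero_or_eq_succ_pred (Nat.find hex) with h0 | h0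
    · left
      rw [h0] at hfind
      exact hfind
    · right
      set n := (Nat.find hex).pred with hn
      rw [h0] at hfind
      have hnot := Nat.find_min hex (m := n) (by omega)
      rw [Nat.succ_eq_add_one, seqW_KK hN h hW n] at hfind
      exact gl_step hL hCh hA h (seqW_wind hN h hW n) (seqW_mono hN h hW (Nat.zero_le n) hx)
        hfind hnot
  by_cases hcase : ∃ c ∈ C, d x c ≤ aa0 δ α β
  · obtain ⟨c0, hc0, hxc⟩ := hcase
    have hinter : C ∩ {y | d c0 y ≤ aa0 δ α β} = {c0} := by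
      ext c
      simp only [Set.mem_inter_iff, Set.mem_ofPred_eq, Set.mem_singleton_iff]
      constructor
      · rintro ⟨hc, hcd⟩
        by_contra hne
        have := h.sep c0 hc0 c hc (fun e => hne e.symm)
        omega
      · rintro rfl
        exact ⟨hc0, by rw [h.d_self]; omega⟩
    have hKK : ∀ g ∈ KK (C ∩ {y | d c0 y ≤ aa0 δ α β}) R, g ∈ R c0 := by
      intro g hg
      rw [hinter] at hg
      unfold KK at hg
      rw [Subgroup.mem_closure] at hg
      apply hg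
      rintro r ⟨c, hc, hr⟩
      rw [Set.mem_singleton_iff] at hc
      rw [hc] at hr; exact hr
    have hW : Wind d C R δ (aa0 δ α β) {y | d c0 y ≤ aa0 δ α β} := by
      refine ⟨⟨c0, by show d c0 c0 ≤ _; rw [h.d_self]; omega⟩, ?_, ?_, ?_⟩
      · intro a ha b hb p hp
        obtain ⟨w, hw, hpw⟩ := (hHull X d δ h.dg h.hyp).2 c0 (aa0 δ α β) a ha b hb p hp
        exact ⟨w, hw, by omega⟩
      · intro c hc hcn w hw
        simp only [Set.mem_ofPred_eq] at hcn hw
        have hne : c0 ≠ c := by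
          rintro rfl
          apply hcn; rw [h.d_self]; omega
        have h1 := h.sep c0 hc0 c hc hne
        have h2 := h.dg.tri c0 w c
        rw [h.dg.symm w c] at h2
        omega
      · intro g hg w hw
        have hgR := hKK g hg
        have := h.fix c0 hc0 g hgR
        show d c0 (g • w) ≤ _
        rw [← this, h.iso]; exact hw
    rcases main _ hW (by show d c0 x ≤ _; rw [h.dg.symm]; exact hxc) with h1 | h1
    · left
      exact ⟨c0, hc0, hxc, hKK k h1⟩
    · right; exact h1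
  · push Not at hcase
    have hxC : C ∩ {x} = ∅ := by
      ext c
      simp only [Set.mem_inter_iff, Set.mem_singleton_iff, Set.mem_empty_iff_false, iff_false]
      rintro ⟨hc, rfl⟩
      have := hcase c hc
      rw [h.d_self] at this; omega
    have hKK : ∀ g ∈ KK (C ∩ {x}) R, g = 1 := by
      intro g hg
      rw [hxC] at hg
      unfold KK at hg
      rw [Subgroup.mem_closure] at hg
      have := hg ⊥ (by
        rintro r ⟨c, hc, _⟩
        exact absurd hc (Set.notMem_empty c))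
      exact Subgroup.mem_bot.1 this
    have hW : Wind d C R δ (aa0 δ α β) {x} := by
      refine ⟨⟨x, rfl⟩, ?_, ?_, ?_⟩
      · intro a ha b hb p hp
        rw [Set.mem_singleton_iff] at ha hb
        subst ha
        rw [hb] at hp
        refine ⟨a, rfl, ?_⟩
        unfold Btw at hp
        rw [h.d_self] at hp
        omega
      · intro c hc hcn w hw
        rw [Set.mem_singleton_iff] at hw
        rw [hw, h.dg.symm]
        exact hcase c hc
      · intro g hg w hw
        rw [hKK g hg, one_smul]; exact hw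
    rcases main _ hW rfl with h1 | h1
    · exact absurd (hKK k h1) hk1
    · right; exact h1

theorem GLcor_proof (hGL : Stmt_GL) : Stmt_GLcor := by
  intro G X _ _ d C R δ α β σ h
  obtain ⟨cf1, cf2, cf3, cf4, cf5, cf6, cf7, cf8, cf9, cf10, cf11⟩ := const_facts δ α β
  have hσ := h.big
  refine ⟨?_, ?_, ?_⟩
  · intro x N k hk hk1 hfar hN
    rcases hGL G X d C R δ α β σ h x k hk hk1 with ⟨c, hc, h1, _⟩ | ⟨c, hc, r, hr, hr1, h1, h2, h3⟩
    · have := hfar c hc; omega
    · have h4 := gp_add h.dg x (k • x) c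
      have h5 := hN c hc
      have h6 := hN (k⁻¹ • c) (h.cinv _ c hc)
      have h7 : d (k • x) c = d x (k⁻¹ • c) := by
        rw [h.dg.symm x, h.iso_inv, h.dg.symm]
      omega
  · intro c hc k hk hkc
    by_cases hk1 : k = 1
    · rw [hk1]; exact Subgroup.one_mem _
    rcases hGL G X d C R δ α β σ h c k hk hk1 with
      ⟨c', hc', h1, h2⟩ | ⟨c', hc', r, hr, hr1, h1, h2, h3⟩
    · by_cases hcc : c = c'
      · rw [hcc]; exact h2
      · have := h.sep c hc c' hc' hcc
        omega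
    · rw [hkc, gp_self h.dg] at h2
      omega
  · intro x k hk hfar hkx
    by_contra hk1
    rcases hGL G X d C R δ α β σ h x k hk hk1 with
      ⟨c', hc', h1, h2⟩ | ⟨c', hc', r, hr, hr1, h1, h2, h3⟩
    · have := hfar c' hc'; omega
    · rw [hkx, gp_self h.dg] at h2
      omega

theorem KKnormal_proof : Stmt_KKnormal := by
  intro G X _ _ d C R δ α β σ h
  constructor
  intro n hn g
  have : KK C R ≤ (KK C R).comap (MulAut.conj g).toMonoidHom := by
    unfold KK
    rw [Subgroup.closure_le]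
    rintro r ⟨c, hc, hr⟩
    show (MulAut.conj g) r ∈ Subgroup.closure {r | ∃ c ∈ C, r ∈ R c}
    rw [MulAut.conj_apply]
    exact Subgroup.subset_closure ⟨g • c, h.cinv g c hc, (h.conj g c hc r).1 hr⟩
  have h2 := this hn
  simpa using h2

end Pool.Agent.BURN
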