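import Pool.Agent.BURN.Basic
import Pool.Agent.BURN.Stmts2

/-! Module GamLen (3.1 (c), (d)) of the blueprint. -/

namespace Pool.Agent.BURN

variable {V I : Type}

theorem GamLenX.foot_step {D : V → V → ℕ} {ρ s : ℕ} (hD : IsDG D) {u w : CV V I}
    (h : CAdj D ρ u w) (hs : s ≤ ρ) (hu : ht ρ u ≤ s) (hw : ht ρ w ≤ s) {y y' : V}
    (fu : IsFt u y) (fw : IsFt w y') : D y y' ≤ 2 ^ s := by
  have h1 : 1 ≤ 2 ^ s := Nat.one_le_two_pow
  have h0 : ∀ z, D z z = 0 := fun z => (hD.eq_zero z z).2 rfl
  cases u with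
  | b x =>
    have e1 : x = y := by
      rcases fu with e | ⟨i, t, e⟩
      · exact CV.b.inj e
      · exact absurd e (by simp)
    cases w with
    | b x' =>
      have e2 : x' = y' := by
        rcases fw with e | ⟨i, t, e⟩
        · exact CV.b.inj e
        · exact absurd e (by simp)
      subst e1; subst e2
      simp only [CAdj] at h
      omega
    | c i z t =>
      have e2 : z = y' := by
        rcases fw with e | ⟨i, t, e⟩
        · exact absurd e (by simp)
        · simp only [CV.c.injEq] at e; exact e.2.1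
      simp only [CAdj] at h
      rw [← e1, ← e2, h.2, h0]; omega
    | a i => simp only [CAdj] at h
  | c i z t =>
    have e1 : z = y := by
      rcases fu with e | ⟨i, t, e⟩
      · exact absurd e (by simp)
      · simp only [CV.c.injEq] at e; exact e.2.1
    cases w with
    | b x' =>
      have e2 : x' = y' := by
        rcases fw with e | ⟨i, t, e⟩
        · exact CV.b.inj e
        · exact absurd e (by simp)
      simp only [CAdj] at h
      rw [← e1, ← e2, h.2, h0]; omega
    | c j z' t' =>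
      have e2 : z' = y' := by
        rcases fw with e | ⟨i, t, e⟩
        · exact absurd e (by simp)
        · simp only [CV.c.injEq] at e; exact e.2.1
      simp only [CAdj] at h
      simp only [ht] at hu hw
      rcases h with ⟨_, ⟨h, _⟩ | ⟨h, _, h'⟩⟩
      · rw [← e1, ← e2, h, h0]; omega
      · rw [← e1, ← e2]
        exact h'.trans (Nat.pow_le_pow_right (by norm_num) hu)
    | a j => simp only [ht] at hw; omega
  | a i => simp only [ht] at hu; omega

theorem GamLenX.exists_foot {ρ s : ℕ} (hs : s ≤ ρ) {u : CV V I} (hu : ht ρ u ≤ s) :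
    ∃ y, IsFt u y := by
  cases u with
  | b x => exact ⟨x, Or.inl rfl⟩
  | c i z t => exact ⟨z, Or.inr ⟨i, t, rfl⟩⟩
  | a i => simp only [ht] at hu; omega

theorem GamLenX.pow_bound (m : ℕ) : m * 2 ^ (m / 2) ≤ 2 ^ m := by
  have key : ∀ c : ℕ, 2 * c ≤ 2 ^ c := by
    intro c
    induction c with
    | zero => simp
    | succ n ih =>
      rcases Nat.eq_zero_or_pos n with h | h
      · subst h; norm_num
      · rw [pow_succ]; omega
  have h1 : m = (m - m / 2) + m / 2 := by omega
  have h2 : m ≤ 2 * (m - m / 2) := by omega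
  calc m * 2 ^ (m / 2) ≤ 2 ^ (m - m / 2) * 2 ^ (m / 2) :=
        Nat.mul_le_mul_right _ (h2.trans (key _))
    _ = 2 ^ m := by rw [← pow_add, ← h1]

theorem GamLen_proof (hG : Stmt_GamDG) : Stmt_GamLen := by
  intro V I D Y ρ hCD
  obtain ⟨hdg, hadj, hht, -, -, -, -, -⟩ := hG V I D Y ρ hCD
  have part1 : ∀ (k s : ℕ) (g : ℕ → Gam Y ρ) (y y' : V), GSeq (dGam D Y ρ) k g → s ≤ ρ →
      (∀ j ≤ k, ht ρ (g j).1 ≤ s) → IsFt (g 0).1 y → IsFt (g k).1 y' → D y y' ≤ k * 2 ^ s := by
    intro k s g y y' hg hs hh f0 fk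
    have key : ∀ j ≤ k, ∀ z, IsFt (g j).1 z → D y z ≤ j * 2 ^ s := by
      intro j
      induction j with
      | zero =>
        intro _ z hz
        have e : y = z := by
          rcases f0 with e | ⟨i, t, e⟩ <;> rcases hz with e' | ⟨i', t', e'⟩ <;> rw [e] at e'
          · exact CV.b.inj e'
          · exact absurd e' (by simp)
          · exact absurd e' (by simp)
          · simp only [CV.c.injEq] at e'; exact e'.2.1
        rw [e, (hCD.dg.eq_zero z z).2 rfl]; omega
      | succ j ih =>
        intro hj z hz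
        obtain ⟨w, hw⟩ := GamLenX.exists_foot hs (hh j (by omega))
        have h1 := ih (by omega) w hw
        have h2 : CAdj D ρ (g j).1 (g (j + 1)).1 := by
          rw [← hadj]; rw [hg j (j + 1) (by omega) hj]; omega
        have h3 := GamLenX.foot_step hCD.dg h2 hs (hh j (by omega)) (hh (j + 1) hj) hw hz
        have h4 := hCD.dg.tri y w z
        rw [Nat.succ_mul]; omega
    exact key k le_rfl y' fk
  refine ⟨part1, ?_⟩
  intro x y hxy
  obtain ⟨g, hg⟩ := exists_geod hdg (vb Y ρ x) (vb Y ρ y)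
  set m := dGam D Y ρ (vb Y ρ x) (vb Y ρ y) with hm
  have hgs : GSeq (dGam D Y ρ) m g := hg.2.2
  have hh : ∀ j ≤ m, ht ρ (g j).1 ≤ m / 2 := by
    intro j hj
    have h1 := hht (vb Y ρ x) (g j)
    have h2 := hht (vb Y ρ y) (g j)
    have h3 : dGam D Y ρ (vb Y ρ x) (g j) = j := hg.dist_left hj
    have h4 : dGam D Y ρ (g j) (vb Y ρ y) = m - j := hg.dist_right hj
    rw [hdg.symm] at h4
    have h5 : ht ρ (vb Y ρ x).1 = 0 := rfl
    have h6 : ht ρ (vb Y ρ y).1 = 0 := rfl
    rw [h5, h3] at h1
    rw [h6, h4] at h2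
    omega
  have h7 := part1 m (m / 2) g x y hgs (by omega) hh (by rw [hg.1]; exact Or.inl rfl)
    (by rw [hg.2.1]; exact Or.inl rfl)
  exact h7.trans (GamLenX.pow_bound m)

end Pool.Agent.BURN
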