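import Pool.Agent.BURN.Basic
import Pool.Agent.BURN.Stmts2

/-! Section 3.6 (d) of the blueprint: the rotating family of the cone-off. -/

namespace Pool.Agent.BURN

theorem CV.smul_b' {G V I : Type} [SMul G V] [SMul G I] (g : G) (v : V) :
    g • (CV.b v : CV V I) = .b (g • v) := rfl

theorem CV.smul_c' {G V I : Type} [SMul G V] [SMul G I] (g : G) (i : I) (v : V) (s : ℕ) :
    g • (CV.c i v s : CV V I) = .c (g • i) (g • v) s := rfl

theorem CV.smul_a' {G V I : Type} [SMul G V] [SMul G I] (g : G) (i : I) :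
    g • (CV.a i : CV V I) = .a (g • i) := rfl

theorem iso_unique {G X : Type} [Group G] {d : X → X → ℕ} (inst act : MulAction G X)
    (h : ∀ (g : G) (u : X), @HSMul.hSMul _ _ _ (@instHSMul _ _ act.toSemigroupAction.toSMul) g u =
      @HSMul.hSMul _ _ _ (@instHSMul _ _ inst.toSemigroupAction.toSMul) g u)
    (hi : @IsIso X G _ act d) : @IsIso X G _ inst d := by
  have e : act = inst := by
    ext g u
    exact h g u
  rw [← e]; exact hi

theorem del1_pos_rf : 1 ≤ del1 := by
  have h : del1 = Dlt 250 + 4 * (2 * f3 + 18) := by unfold del1; rfl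
  omega

theorem GamRF_proof (hDG : Stmt_GamDG) (hHyp : Stmt_HypGam) (hVR : Stmt_VR0)
    (hFE : Stmt_FootEx) (hAct : Stmt_GamAct) : Stmt_GamRF := by
  intro G V I _ _ _ D Y ρ Rot _ hCD hiso hY hsm hRfix hRconj hRbig hsig R hR
  obtain ⟨hdg, -, -, hhor, -, -, -, -⟩ := hDG V I D Y ρ hCD
  have hhyp := hHyp V I D Y ρ hCD
  obtain ⟨hfe, -, -⟩ := hFE V I D Y ρ hCD
  have hva : ∀ (g : G) (i : I), g • va Y ρ i = va Y ρ (g • i) := by
    intro g i; apply Subtype.ext; rw [hsm]; rfl
  have hvb : ∀ (g : G) (v : V), g • vb Y ρ v = vb Y ρ (g • v) := by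
    intro g i; apply Subtype.ext; rw [hsm]; rfl
  have hisoG : IsIso G (dGam D Y ρ) := by
    obtain ⟨act, h1, h2⟩ := hAct G V I D Y ρ hCD hiso hY
    exact iso_unique _ act (fun g u => Subtype.ext ((h1 g u).trans (hsm g u).symm)) h2
  refine ⟨hdg, hhyp, del1_pos_rf, hisoG, ?_, ?_, ?_, ?_, ?_, hsig⟩
  · rintro g _ ⟨i, rfl⟩
    exact ⟨g • i, (hva g i).symm⟩
  · rintro _ ⟨i, rfl⟩ r hr
    rw [hR] at hr
    rw [hva, hRfix i r hr]
  · rintro g _ ⟨i, rfl⟩ r
    rw [hva, hR, hR]
    exact hRconj g i r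
  · rintro _ ⟨i, rfl⟩ _ ⟨j, rfl⟩ hij
    have hij' : i ≠ j := fun h => hij (by rw [h])
    have := hhor i (va Y ρ i) (va Y ρ j) (Or.inr rfl) (by
      rintro (⟨y, s, h⟩ | h)
      · change CV.a j = _ at h; cases h
      · change CV.a j = _ at h; exact hij' (CV.a.inj h).symm)
    have e1 : ht ρ (va Y ρ i).1 = ρ + 1 := rfl
    have e2 : ht ρ (va Y ρ j).1 = ρ + 1 := rfl
    rw [e1, e2] at this
    omega
  · rintro _ ⟨i, rfl⟩ r hr hr1 x y hxy
    rw [hR] at hr
    have hri := hRfix i r hr
    have hri' : r⁻¹ • i = i := by rw [inv_smul_eq_iff]; exact hri.symm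
    by_cases hx : x = va Y ρ i
    · rw [hx, gp_left_self hdg]; omega
    by_cases hy : y = va Y ρ i
    · rw [hy, hva, hri, gp_right_self hdg]; omega
    obtain ⟨A, hA⟩ := hfe i x hx
    obtain ⟨B, hB⟩ := hfe i y hy
    have hAB : D A B < 2 ^ (ρ + 5) := by
      by_contra hcon
      have := hVR V I D Y ρ hCD i x y A B hA hB (not_lt.1 hcon)
      omega
    have hrB : r • B ∈ Y i := by
      have := hY r i B hB.1
      rwa [hri] at this
    have hfoot : Foot D Y ρ i (r • y) (r • B) := by
      refine ⟨hrB, ?_⟩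
      rcases hB.2 with ⟨s, hs⟩ | ⟨hnh, hd⟩
      · refine Or.inl ⟨s, ?_⟩
        rw [hsm, hs]
        change CV.c (r • i) (r • B) s = _
        rw [hri]
      · refine Or.inr ⟨?_, ?_⟩
        · rintro (⟨z, s, h⟩ | h)
          · apply hnh
            rw [hsm] at h
            rcases hy1 : y.1 with v | ⟨j, z', s'⟩ | j
            · rw [hy1, CV.smul_b'] at h; cases h
            · rw [hy1, CV.smul_c'] at h
              have : r • j = i := (CV.c.inj h).1
              have hj : j = i := by rw [← this, inv_smul_smul] at hri'; exact hri'.trans this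
              exact Or.inl ⟨z', s', by rw [hj]⟩
            · rw [hy1, CV.smul_a'] at h; cases h
          · apply hnh
            rw [hsm] at h
            rcases hy1 : y.1 with v | ⟨j, z', s'⟩ | j
            · rw [hy1, CV.smul_b'] at h; cases h
            · rw [hy1, CV.smul_c'] at h; cases h
            · rw [hy1, CV.smul_a'] at h
              have : r • j = i := CV.a.inj h
              have hj : j = i := by rw [← this, inv_smul_smul] at hri'; exact hri'.trans this
              exact Or.inr (by rw [hj])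
        · have h1 : dGam D Y ρ (r • y) (va Y ρ i) = dGam D Y ρ y (va Y ρ i) := by
            have := hisoG r y (va Y ρ i)
            rwa [hva, hri] at this
          have h2 : dGam D Y ρ (r • y) (vb Y ρ (r • B)) = dGam D Y ρ y (vb Y ρ B) := by
            have := hisoG r y (vb Y ρ B)
            rwa [hvb] at this
          rw [h1, h2]; exact hd
    refine hVR V I D Y ρ hCD i x (r • y) A (r • B) hA hfoot ?_
    have h1 := hRbig i r hr hr1 B hB.1
    have h2 := hCD.dg.tri B A (r • B)
    have h3 := hCD.dg.symm B A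
    have h4 : 2 ^ (ρ + 7) = 4 * 2 ^ (ρ + 5) := by ring
    rw [h3] at h2
    omega

end Pool.Agent.BURN
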