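import Pool.Agent.BURN.Stmts2

/-! Module Guess of the Burnside engine (blueprint 3.4 (L1)-(L3)). -/

namespace Pool.Agent.BURN

theorem f3_eq : f3 = 32 * 250 ^ 2 := by unfold f3; rfl

theorem vb_inj {V I : Type} {Y : I → Set V} {ρ : ℕ} {x y : V} (h : vb Y ρ x = vb Y ρ y) :
    x = y := by
  have := congrArg Subtype.val h
  simpa [vb] using this

theorem guess_proof (hRLC : Stmt_RLC) (hG : Stmt_GamDG) (h1 : Stmt_R1) (h2 : Stmt_R2)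
    (h3 : Stmt_R3) : Stmt_Guess := by
  intro V I D Y ρ pr cd ip
  have dg := (hG V I D Y ρ cd).1
  have key := hRLC (Gam Y ρ) (dGam D Y ρ) {u | ∃ x, u = vb Y ρ x} 250
    (fun u w => {p | ∃ x y, u = vb Y ρ x ∧ w = vb Y ρ y ∧ p ∈ Lset D Y ρ pr x y}) dg
    (by norm_num) ?_ ?_ ?_
  · obtain ⟨a1, a2, a3⟩ := key
    rw [f3_eq]
    refine ⟨?_, ?_⟩
    · intro x y g hg
      refine ⟨?_, ?_⟩
      · intro u hu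
        exact a1 _ ⟨x, rfl⟩ _ ⟨y, rfl⟩ g hg u ⟨x, y, rfl, rfl, hu⟩
      · intro j hj
        obtain ⟨p, ⟨x', y', hx, hy, hp⟩, hd⟩ := a2 _ ⟨x, rfl⟩ _ ⟨y, rfl⟩ g hg j hj
        rw [← vb_inj hx, ← vb_inj hy] at hp
        exact ⟨p, hp, hd⟩
    · intro x y z w
      exact a3 _ ⟨x, rfl⟩ _ ⟨y, rfl⟩ _ ⟨z, rfl⟩ _ ⟨w, rfl⟩
  · rintro _ ⟨x, rfl⟩ _ ⟨y, rfl⟩ _ ⟨z, rfl⟩ p ⟨x', z', hx, hz, hp⟩
    rw [← vb_inj hx, ← vb_inj hz] at hp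
    obtain ⟨w, hw, hd⟩ := h1 V I D Y ρ pr cd ip x y z p hp
    refine ⟨w, ?_, hd⟩
    rcases hw with hw | hw
    · exact Or.inl ⟨x, y, rfl, rfl, hw⟩
    · exact Or.inr ⟨y, z, rfl, rfl, hw⟩
  · rintro _ ⟨x, rfl⟩ _ ⟨y, rfl⟩ g hg hn p ⟨x', y', hx, hy, hp⟩
    rw [← vb_inj hx, ← vb_inj hy] at hp
    refine h2 V I D Y ρ pr cd ip x y g hg ?_ p hp
    intro j hj0 hj v hv
    exact hn j hj0 hj ⟨v, Subtype.ext hv⟩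
  · rintro _ ⟨x, rfl⟩ _ ⟨y, rfl⟩
    obtain ⟨m, u, hu0, hum, hu, hs⟩ := h3 V I D Y ρ pr cd ip x y
    exact ⟨m, u, hu0, hum, fun j hj => ⟨x, y, rfl, rfl, hu j hj⟩, hs⟩

end Pool.Agent.BURN
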