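import Pool.Agent.BURN.Stmts3
import Pool.Agent.BURN.Basic

/-! Section 4.8 (a), (b): quasi-lines of killed groups and their overlaps. -/

namespace Pool.Agent.BURN

namespace OverlapX

variable {G X : Type} [Group G] [MulAction G X] {d : X → X → ℕ}

theorem lox_ne_one (hd : IsDG d) {g : G} (x : X) (h : Lox d g) : g ≠ 1 := by
  rintro rfl
  obtain ⟨m, hm⟩ := h x 0
  rw [one_pow, one_smul, (hd.eq_zero x x).2 rfl] at hm
  exact absurd hm (lt_irrefl 0)

theorem lox_not_fin {g : G} (x : X) (h : Lox d g) :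
    ¬ IsOfFinOrder g := by
  intro hf
  rw [isOfFinOrder_iff_pow_eq_one] at hf
  obtain ⟨n, hn, hg⟩ := hf
  have hb : ∀ m : ℕ, d x (g ^ m • x) ≤ ∑ i ∈ Finset.range n, d x (g ^ i • x) := by
    intro m
    have e : g ^ m = g ^ (m % n) := by
      conv_lhs => rw [← Nat.div_add_mod m n, pow_add, pow_mul, hg, one_pow, one_mul]
    rw [e]
    exact Finset.single_le_sum (f := fun i => d x (g ^ i • x)) (fun i _ => Nat.zero_le _)
      (Finset.mem_range.2 (Nat.mod_lt m hn))
  obtain ⟨m, hm⟩ := h x (∑ i ∈ Finset.range n, d x (g ^ i • x))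
  exact absurd hm (not_lt.2 (hb m))

theorem disp_inv (hd : IsDG d) (hi : IsIso G d) (g : G) (x : X) :
    d x (g⁻¹ • x) = d x (g • x) := by
  have h := hi g x (g⁻¹ • x)
  rw [smul_inv_smul] at h
  rw [← h, hd.symm]

theorem minSet_inv (hd : IsDG d) (hi : IsIso G d) (g : G) : MinSet d g⁻¹ = MinSet d g := by
  unfold MinSet
  ext x
  simp only [disp_inv hd hi]

/-- a point of minimal displacement exists -/
theorem minSet_nonempty [Nonempty X] (g : G) : (MinSet d g).Nonempty := by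
  classical
  have hex : ∃ n, ∃ x : X, d x (g • x) = n := by
    obtain ⟨x⟩ := ‹Nonempty X›
    exact ⟨_, x, rfl⟩
  obtain ⟨x, hx⟩ := Nat.find_spec hex
  refine ⟨x, ?_⟩
  intro y
  rw [hx]
  exact Nat.find_min' hex ⟨y, rfl⟩

theorem subset_hull (hd : IsDG d) (A : Set X) : A ⊆ hull d A := by
  intro x hx
  refine ⟨x, hx, x, hx, ?_⟩
  unfold Btw
  rw [(hd.eq_zero x x).2 rfl]

end OverlapX

open OverlapX

theorem Overlap_proof (hHull : Stmt_Hull) (hMid : Stmt_Mid) (hMC : Stmt_MaxCyc) :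
    Stmt_Overlap := by
  intro S
  have hd := S.good.dg
  have hy := S.good.hyp
  have hi := S.good.iso
  have := S.good.nonempty
  -- equivariance
  have hequiv : ∀ i (g : S.G), ∀ y ∈ S.Y i, g • y ∈ S.Y (g • i) := by
    intro i g y hyi
    obtain ⟨x1, ⟨w1, e1, m1⟩, x2, ⟨w2, e2, m2⟩, hb⟩ := hyi
    have key : ∀ (w : S.G) (x : S.X), S.E i = Subgroup.zpowers w → x ∈ MinSet S.d w →
        ∃ w' : S.G, S.E (g • i) = Subgroup.zpowers w' ∧ g • x ∈ MinSet S.d w' := by
      intro w x e m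
      refine ⟨g * w * g⁻¹, ?_, ?_⟩
      · ext z
        rw [S.conj, e, Subgroup.mem_zpowers_iff, Subgroup.mem_zpowers_iff]
        constructor
        · rintro ⟨k, hk⟩
          refine ⟨k, ?_⟩
          rw [conj_zpow, hk]
          group
        · rintro ⟨k, hk⟩
          refine ⟨k, ?_⟩
          rw [← hk, conj_zpow]
          group
      · intro y
        have h1 := m (g⁻¹ • y)
        have h2 : S.d (g • x) ((g * w * g⁻¹) • g • x) = S.d x (w • x) := by
          rw [← hi g x (w • x)]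
          congr 1
          rw [smul_smul, smul_smul]
          congr 1
          group
        have h3 : S.d y ((g * w * g⁻¹) • y) = S.d (g⁻¹ • y) (w • g⁻¹ • y) := by
          rw [← hi g (g⁻¹ • y) (w • g⁻¹ • y), smul_inv_smul]
          congr 1
          rw [smul_smul, smul_smul]
        rw [h2, h3]
        exact h1
    obtain ⟨w1', e1', m1'⟩ := key w1 x1 e1 m1
    obtain ⟨w2', e2', m2'⟩ := key w2 x2 e2 m2
    refine ⟨g • x1, ⟨w1', e1', m1'⟩, g • x2, ⟨w2', e2', m2'⟩, ?_⟩
    unfold Btw at *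
    rw [hi, hi, hi]
    exact hb
  -- displacement
  have hdisp : ∀ i (w : S.G), S.E i = Subgroup.zpowers w → ∀ y ∈ S.Y i,
      S.d y (w • y) ≤ 21 * dd := by
    intro i w ew y hyi
    obtain ⟨x1, ⟨w1, e1, m1⟩, x2, ⟨w2, e2, m2⟩, hb⟩ := hyi
    obtain ⟨w0, e0, hc0, x0, hx0⟩ := S.kil i
    have hfin0 : ¬ IsOfFinOrder w0 := lox_not_fin x0 hc0.1
    have gen : ∀ w' : S.G, S.E i = Subgroup.zpowers w' →
        (∀ x : S.X, S.d x (w' • x) = S.d x (w0 • x)) := by
      intro w' e' x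
      have hz : Subgroup.zpowers w0 = Subgroup.zpowers w' := by rw [← e0, e']
      rcases (Subgroup.zpowers_eq_zpowers_iff hfin0).1 hz with h | h
      · rw [h]
      · rw [← h, disp_inv hd hi]
    have key : ∀ (w' : S.G) (x : S.X), S.E i = Subgroup.zpowers w' → x ∈ MinSet S.d w' →
        S.d x (w • x) ≤ 20 * dd := by
      intro w' x e' m
      have h1 := m x0
      rw [gen w' e', gen w' e'] at h1
      rw [gen w ew]
      exact h1.trans hx0
    obtain ⟨γ, hγ⟩ := exists_geod hd x1 x2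
    have h := (hMid S.G S.X S.d dd (20 * dd) x1 x2 γ w hd hy hi hγ (key w1 x1 e1 m1)
      (key w2 x2 e2 m2)).1 y hb
    omega
  refine ⟨fun i => (hHull S.X S.d dd hd hy).1 _, ?_, ?_, hequiv, hdisp, ?_⟩
  · intro i
    obtain ⟨w0, e0, hc0, x0, hx0⟩ := S.kil i
    obtain ⟨x, hx⟩ := minSet_nonempty (d := S.d) w0
    exact ⟨x, subset_hull hd _ ⟨w0, e0, hx⟩⟩
  · intro i g hg y hyi
    have h := hequiv i g y hyi
    have e : g • i = i := by
      apply S.inj
      ext z
      rw [S.conj]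
      constructor
      · intro hz
        have := (S.E i).mul_mem ((S.E i).mul_mem hg hz) ((S.E i).inv_mem hg)
        have e2 : g * (g⁻¹ * z * g) * g⁻¹ = z := by group
        rwa [e2] at this
      · intro hz
        exact (S.E i).mul_mem ((S.E i).mul_mem ((S.E i).inv_mem hg) hz) hg
    rw [e] at h
    exact h
  · intro i j s x y hij hxi hyi hxj hyj
    by_contra hcon
    rw [not_lt] at hcon
    obtain ⟨γ, hγ⟩ := exists_geod hd x y
    have near : ∀ l, (∃ a ∈ S.Y l, S.d x a ≤ s) → (∃ a ∈ S.Y l, S.d y a ≤ s) →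
        ∀ t, s + dd + 1 ≤ t → t + s + dd + 1 ≤ S.d x y → ∀ w : S.G, S.E l = Subgroup.zpowers w →
        S.d (γ t) (w • γ t) ≤ 100 * dd := by
      intro l hx hy' t ht1 ht2 w ew
      obtain ⟨a, ha, hxa⟩ := hx
      obtain ⟨b, hb, hyb⟩ := hy'
      have htn : t ≤ S.d x y := by omega
      have dl := hγ.dist_left htn
      have dr := hγ.dist_right htn
      -- gp x a at γ t
      have g1 := gp_add hd x a (γ t)
      have g2 := gp_add hd y b (γ t)
      have g0 : gp S.d x y (γ t) = 0 := (btw_iff hd _ _ _).1 (hγ.btw' htn)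
      have t1 := hd.tri x a (γ t)
      have t2 := hd.tri y b (γ t)
      rw [hd.symm y (γ t)] at t2 g2
      have k1 := hyp_gp hd hy x y a (γ t)
      have k2 := hyp_gp hd hy a y b (γ t)
      rw [gp_comm hd b y] at k2
      rw [hd.symm a (γ t)] at t1 g1
      rw [hd.symm b (γ t)] at t2 g2
      have hab : gp S.d a b (γ t) ≤ 2 * dd := by omega
      obtain ⟨γ', hγ'⟩ := exists_geod hd a b
      obtain ⟨hu1, hu2⟩ := near_geod hd hy hγ' (γ t)
      obtain ⟨v, hv, hv2⟩ := (hHull S.X S.d dd hd hy).1 _ a ha b hb _ (hγ'.btw' hu1)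
      have hvt : S.d (γ t) v ≤ 4 * dd := by
        have := hd.tri (γ t) (γ' (gp S.d b (γ t) a / 2)) v
        omega
      have hdv := hdisp l w ew v hv
      have t3 := hd.tri (γ t) v (w • γ t)
      have t4 := hd.tri v (w • v) (w • γ t)
      rw [hi, hd.symm v (γ t)] at t4
      omega
    obtain ⟨wi, ei, hci, -⟩ := S.kil i
    obtain ⟨wj, ej, hcj, -⟩ := S.kil j
    have n1 : s + dd + 1 ≤ S.d x y - (s + dd + 1) := by omega
    have n2 : S.d x y - (s + dd + 1) + s + dd + 1 ≤ S.d x y := by omega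
    have n3 : s + dd + 1 + s + dd + 1 ≤ S.d x y := by omega
    have hdist : A0 ≤ S.d (γ (s + dd + 1)) (γ (S.d x y - (s + dd + 1))) := by
      rw [hγ.2.2 _ _ n1 (by omega)]
      omega
    obtain ⟨c, hc, hcg⟩ := S.good.acyl _ _ hdist
    have hwi := hcg wi (near i hxi hyi _ (le_refl _) n3 wi ei) (near i hxi hyi _ n1 n2 wi ei)
    have hwj := hcg wj (near j hxj hyj _ (le_refl _) n3 wj ej) (near j hxj hyj _ n1 n2 wj ej)
    have hi1 := lox_ne_one hd x hci.1
    have hj1 := lox_ne_one hd x hcj.1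
    obtain ⟨-, M2', M3', -, -⟩ := hMC S.G S.X S.d S.N S.good
    have hci' := M3' c wi wi hci hi1 (Subgroup.mem_zpowers wi) hwi
    have hcj' := M3' c wj wj hcj hj1 (Subgroup.mem_zpowers wj) hwj
    have hc1 : c ≠ 1 := by
      rintro rfl
      rw [Subgroup.zpowers_one_eq_bot, Subgroup.mem_bot] at hwi
      exact hi1 hwi
    have hz := M2' wi wj c hci hcj hc1 hci' hcj'
    exact hij (S.inj i j (by rw [ei, ej, hz]))

end Pool.Agent.BURN
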