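import Pool.Agent.BURN.Stmts3
import Pool.Agent.BURN.Basic
import Pool.Agent.BURN.Overlap

/-! Section 4.13: (h3), (h4) for the quotient. -/

namespace Pool.Agent.BURN

namespace H34X

/-- a lox element of a space has no trivial positive power -/
theorem pow_ne_one {G X : Type} [Group G] [MulAction G X] {d : X → X → ℕ} {g : G} (x : X)
    (h : Lox d g) {n : ℕ} (hn : 1 ≤ n) : g ^ n ≠ 1 := by
  intro e
  exact OverlapX.lox_not_fin x h (isOfFinOrder_iff_pow_eq_one.2 ⟨n, hn, e⟩)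

end H34X

open H34X OverlapX

theorem H34_proof (hLift : Stmt_Lift) (hLB2 : Stmt_LB2) (hKS : Stmt_KStab) (hIso1 : Stmt_Iso1)
    (hIso2 : Stmt_Iso2) (hKRF : Stmt_KRF) : Stmt_H34 := by
  intro S
  obtain ⟨-, bdg, biso, bhyp, -, -, -⟩ := hKRF S
  have hN : 1 ≤ S.N := by
    rcases S.good.odd with ⟨k, hk⟩
    omega
  have htors : ∀ i (g : S.G), g ∈ S.E i → S.π g ^ S.N = 1 := by
    intro i g hg
    obtain ⟨c, hc⟩ := S.ndvd i
    have h := (hKS S).2.2.2.2.2.1 i g hg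
    rw [hc, pow_mul, h, one_pow]
  have hne : Nonempty S.Xb := by
    obtain ⟨x⟩ := S.good.nonempty
    exact ⟨S.q (S.bs x)⟩
  -- the main alternative for elements with small displacement
  have main : ∀ (gb : S.Gb) (xb : S.Xb), S.db xb (gb • xb) ≤ 3 * dd + 1 →
      ∃ g : S.G, S.π g = gb ∧ ((¬ Lox S.d g) ∨ (∃ i, g ∈ S.E i) ∨
        (Lox S.db (S.π g) ∧ ∀ (x : S.Xb) (m : ℕ), m ≤ Rr * S.db x (S.π g ^ m • x))) := by
    intro gb xb hx
    have hdd := dd_ge
    obtain ⟨g, x, h1, h2, h3, h4⟩ := hLift S gb xb (3 * dd + 1) (by omega) hx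
    refine ⟨g, h1, ?_⟩
    by_cases hE : ∃ i, g ∈ S.E i
    · exact Or.inr (Or.inl hE)
    by_cases hl : Lox S.d g
    · rcases h4 with h4 | ⟨-, x0, -, hx0⟩
      · exact absurd h4 hE
      · have e : 2 * (3 * dd + 1) = 6 * dd + 2 := by ring
        rw [e] at hx0
        have hM : S.d x0 (g • x0) ≤ Lam * M2 :=
          hx0.trans (Nat.mul_le_mul_left _ pow_6dd_le_M2)
        have h := hLB2 S g hl (fun i hi => hE ⟨i, hi⟩) x0 hM
        exact Or.inr (Or.inr ⟨h.2.1, h.2.2⟩)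
    · exact Or.inl hl
  have A : ∀ gb : S.Gb, ¬ Lox S.db gb →
      (∃ g : S.G, S.π g = gb ∧ ((¬ Lox S.d g) ∨ ∃ i, g ∈ S.E i)) := by
    intro gb hgb
    obtain ⟨xb⟩ := hne
    obtain ⟨y, hy1, hy2⟩ := bdg.geo xb (gb • xb) (S.db xb (gb • xb) / 2) (Nat.div_le_self _ _)
    have hb : Btw S.db xb y (gb • xb) := by
      unfold Btw
      rw [hy1, hy2]
      omega
    have h := (hIso1 S.Gb S.Xb S.db dd bdg bhyp biso).2.2 gb xb hgb y hb hy1
    obtain ⟨g, hg, h1 | h1 | h1⟩ := main gb y h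
    · exact ⟨g, hg, Or.inl h1⟩
    · exact ⟨g, hg, Or.inr h1⟩
    · rw [hg] at h1
      exact absurd h1.1 hgb
  refine ⟨A, ?_, ?_⟩
  · intro gb hgb
    obtain ⟨g, rfl, h | ⟨i, h⟩⟩ := A gb hgb
    · rw [← map_pow, S.good.tors g h, map_one]
    · exact htors i g h
  · intro gb hgb
    by_cases hm : ∃ xb : S.Xb, S.db xb (gb • xb) ≤ 3 * dd + 1
    · obtain ⟨xb, hxb⟩ := hm
      obtain ⟨g, rfl, h1 | ⟨i, h1⟩ | h1⟩ := main gb xb hxb
      · exfalso
        have e : S.π g ^ S.N = 1 := by rw [← map_pow, S.good.tors g h1, map_one]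
        exact pow_ne_one xb hgb hN e
      · exfalso
        exact pow_ne_one xb hgb hN (htors i g h1)
      · exact h1.2
    · push Not at hm
      obtain ⟨o, ho⟩ := minSet_nonempty (d := S.db) gb
      have hm' := hm o
      have h := (hIso2 S.Gb S.Xb S.db dd (S.db o (gb • o)) bdg bhyp biso (by omega) gb o rfl
        ho).2.2.2
      intro x m
      have h1 := h x m
      have h2 : m * 1 ≤ m * (S.db o (gb • o) - 3 * dd) := Nat.mul_le_mul_left _ (by omega)
      have h3 : 1 * S.db x (gb ^ m • x) ≤ Rr * S.db x (gb ^ m • x) :=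
        Nat.mul_le_mul_right _ Rr_pos
      omega

end Pool.Agent.BURN
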