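import Pool.Agent.BURN.Basic
import Pool.Agent.BURN.Stmts1

/-! Module Hull of the Burnside engine: hulls and balls are quasiconvex (1.6). -/

namespace Pool.Agent.BURN

theorem Hull_proof : Stmt_Hull := by
  intro X d δ h hy
  refine ⟨?_, ?_⟩
  · intro A u hu v hv p hp
    have hself : ∀ x, Btw d x x x := fun x => by
      unfold Btw; have := (h.eq_zero x x).2 rfl; omega
    have key : ∀ u ∈ hull d A, ∀ q, ∃ a1 ∈ A, gp d a1 q u ≤ δ := by
      rintro u ⟨a, ha, b, hb, hab⟩ q
      have hh := hyp_gp h hy a b q u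
      rw [(btw_iff h a u b).1 hab] at hh
      rcases min_le_iff.1 hh with h1 | h1
      · exact ⟨a, ha, by omega⟩
      · exact ⟨b, hb, by rw [gp_comm h]; omega⟩
    by_cases h1 : d u p ≤ δ
    · exact ⟨u, hu, by rw [h.symm]; omega⟩
    by_cases h2 : d v p ≤ 2 * δ
    · exact ⟨v, hv, by rw [h.symm]; omega⟩
    obtain ⟨a1, ha1, ha2⟩ := key u hu p
    obtain ⟨b1, hb1, hb2⟩ := key v hv p
    have e1 := gp_add_gp h a1 p u
    have hup := (btw_iff h u p v).1 hp
    -- gp a1 u p = 2 d u p - gp a1 p u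
    have f1 := gp_add h a1 u p
    have f2 := gp_add h a1 p u
    have g1 := gp_add h b1 v p
    have g2 := gp_add h b1 p v
    rw [h.symm p u] at f2
    rw [h.symm p v] at g2
    have k1 := hyp_gp h hy u v a1 p
    rw [hup, gp_comm h u a1] at k1
    have k2 := hyp_gp h hy v a1 b1 p
    rw [gp_comm h v b1, gp_comm h v a1, gp_comm h b1 a1] at k2
    have k3 : gp d a1 b1 p ≤ 2 * δ := by omega
    obtain ⟨g, hg⟩ := exists_geod h a1 b1
    obtain ⟨hl, hn⟩ := near_geod h hy hg p
    exact ⟨_, ⟨a1, ha1, b1, hb1, hg.btw' hl⟩, by omega⟩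
  · intro c r u hu v hv p hp
    simp only [Set.mem_ofPred_eq] at hu hv ⊢
    have hn := near_of_btw h hy hp c
    by_cases hr : d c p ≤ r
    · exact ⟨p, hr, by rw [(h.eq_zero p p).2 rfl]; omega⟩
    · obtain ⟨z, hz1, hz2⟩ := h.geo c p r (by omega)
      exact ⟨z, by omega, by rw [h.symm]; omega⟩

end Pool.Agent.BURN
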