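import Pool.Agent.BURN.Stmts2
import Pool.Agent.BURN.Basic

/-! Module HypGam (blueprint 3.5). -/

namespace Pool.Agent.BURN

theorem del1_eq : del1 = Dlt 250 + (2 * f3 + 18) + (2 * f3 + 18) + (2 * f3 + 18) + (2 * f3 + 18) := by
  unfold del1
  generalize Dlt 250 = a
  generalize f3 = b
  omega

open Classical in
theorem HypGam_proof (hG : Stmt_GamDG) (hGu : Stmt_Guess) (hE : Stmt_ClaimE) : Stmt_HypGam := by
  intro V I D Y ρ hcd
  obtain ⟨hdg, -⟩ := hG V I D Y ρ hcd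
  have hex : ∀ i x, ∃ p, IsNear D (Y i) x p := by
    intro i x
    obtain ⟨y, hy, -⟩ := hcd.unb i 0
    have hne : ∃ n, ∃ w ∈ Y i, D x w = n := ⟨_, y, hy, rfl⟩
    obtain ⟨w, hw, hwn⟩ := Nat.find_spec hne
    refine ⟨w, hw, fun w' hw' => ?_⟩
    rw [hwn]
    exact Nat.find_min' hne ⟨w', hw', rfl⟩
  choose pr hpr using hex
  obtain ⟨-, h4⟩ := hGu V I D Y ρ pr hcd hpr
  rw [del1_eq]
  generalize Dlt 250 = E at h4 ⊢
  have hE' := hE V I D Y ρ hcd
  generalize 2 * f3 + 18 = C at hE' ⊢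
  -- replace the first point
  have key : ∀ (e : ℕ) (x y z w : Gam Y ρ),
      (∀ x' : V, dGam D Y ρ (vb Y ρ x') y + dGam D Y ρ z w ≤
        max (dGam D Y ρ (vb Y ρ x') z + dGam D Y ρ y w)
          (dGam D Y ρ (vb Y ρ x') w + dGam D Y ρ y z) + e) →
      dGam D Y ρ x y + dGam D Y ρ z w ≤
        max (dGam D Y ρ x z + dGam D Y ρ y w)
          (dGam D Y ρ x w + dGam D Y ρ y z) + (e + C) := by
    intro e x y z w h
    obtain ⟨x', a1, a2, a3⟩ := hE' x y z w
    have h' := h x'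
    have g1 := gp_add hdg (vb Y ρ x') y x
    have g2 := gp_add hdg (vb Y ρ x') z x
    have g3 := gp_add hdg (vb Y ρ x') w x
    have t2 := hdg.tri (vb Y ρ x') x z
    have t3 := hdg.tri (vb Y ρ x') x w
    rw [hdg.symm y x] at g1
    rw [hdg.symm z x] at g2
    rw [hdg.symm w x] at g3
    omega
  intro x y z w
  -- V-points for the last three, replace x
  have s1 : ∀ (x : Gam Y ρ) (y z w : V), dGam D Y ρ x (vb Y ρ y) + dGam D Y ρ (vb Y ρ z) (vb Y ρ w)
      ≤ max (dGam D Y ρ x (vb Y ρ z) + dGam D Y ρ (vb Y ρ y) (vb Y ρ w))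
          (dGam D Y ρ x (vb Y ρ w) + dGam D Y ρ (vb Y ρ y) (vb Y ρ z)) + (E + C) := by
    intro x y z w
    exact key _ _ _ _ _ fun x' => h4 x' y z w
  have s2 : ∀ (x y : Gam Y ρ) (z w : V), dGam D Y ρ x y + dGam D Y ρ (vb Y ρ z) (vb Y ρ w)
      ≤ max (dGam D Y ρ x (vb Y ρ z) + dGam D Y ρ y (vb Y ρ w))
          (dGam D Y ρ x (vb Y ρ w) + dGam D Y ρ y (vb Y ρ z)) + (E + C + C) := by
    intro x y z w
    have := key (E + C) y x (vb Y ρ z) (vb Y ρ w) (by
      intro y'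
      have := s1 x y' z w
      rw [hdg.symm (vb Y ρ y') x]
      rw [Nat.max_comm]
      rw [Nat.add_comm (dGam D Y ρ (vb Y ρ y') (vb Y ρ w)) _,
        Nat.add_comm (dGam D Y ρ (vb Y ρ y') (vb Y ρ z)) _]
      exact this)
    rw [hdg.symm y x] at this
    omega
  have s3 : ∀ (x y z : Gam Y ρ) (w : V), dGam D Y ρ x y + dGam D Y ρ z (vb Y ρ w)
      ≤ max (dGam D Y ρ x z + dGam D Y ρ y (vb Y ρ w))
          (dGam D Y ρ x (vb Y ρ w) + dGam D Y ρ y z) + (E + C + C + C) := by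
    intro x y z w
    have := key (E + C + C) z (vb Y ρ w) x y (by
      intro z'
      have h := s2 x y z' w
      rw [hdg.symm (vb Y ρ z') x, hdg.symm (vb Y ρ z') y, hdg.symm (vb Y ρ w) y,
        hdg.symm (vb Y ρ w) x]
      omega)
    rw [hdg.symm z x, hdg.symm z y, hdg.symm (vb Y ρ w) y, hdg.symm (vb Y ρ w) x] at this
    omega
  have := key (E + C + C + C) w z x y (by
    intro w'
    have h := s3 x y z w'
    rw [hdg.symm (vb Y ρ w') x, hdg.symm (vb Y ρ w') y, hdg.symm (vb Y ρ w') z,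
      hdg.symm z x, hdg.symm z y]
    omega)
  rw [hdg.symm w x, hdg.symm w y, hdg.symm w z, hdg.symm z x, hdg.symm z y] at this
  omega

end Pool.Agent.BURN
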