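import Pool.Agent.BURN.Stmts3

/-! Module KCD (4.8(c) of the blueprint). -/

namespace Pool.Agent.BURN

namespace KCDX

/-- elements of `RotS (zpowers w) n` are powers of `w ^ n` -/
theorem rotS_mem {G : Type} [Group G] {w : G} {n : ℕ} {r : G}
    (hr : r ∈ RotS (Subgroup.zpowers w) n) : ∃ k : ℤ, r = w ^ ((n : ℤ) * k) := by
  have hle : RotS (Subgroup.zpowers w) n ≤ Subgroup.zpowers (w ^ n) := by
    unfold RotS
    rw [Subgroup.closure_le]
    rintro x ⟨e, he, rfl⟩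
    obtain ⟨k, rfl⟩ := Subgroup.mem_zpowers_iff.mp he
    refine Subgroup.mem_zpowers_iff.mpr ⟨k, ?_⟩
    rw [← zpow_natCast, ← zpow_natCast, ← zpow_mul, ← zpow_mul, mul_comm]
  obtain ⟨k, hk⟩ := Subgroup.mem_zpowers_iff.mp (hle hr)
  exact ⟨k, by rw [← hk, ← zpow_natCast, ← zpow_mul]⟩

theorem dsc_le {X : Type} {d : X → X → ℕ} {Λ B : ℕ} (hΛ : 1 ≤ Λ) {x y : X}
    (h : Dsc Λ d x y ≤ B) : d x y ≤ B * Λ := by
  unfold Dsc at h
  have h1 : (d x y + Λ - 1) / Λ < B + 1 := by omega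
  rw [Nat.div_lt_iff_lt_mul (by omega)] at h1
  have h2 : (B + 1) * Λ = B * Λ + Λ := by ring
  omega

theorem le_dsc {X : Type} {d : X → X → ℕ} {Λ B : ℕ} (hΛ : 1 ≤ Λ) {x y : X}
    (h : B * Λ ≤ d x y) : B ≤ Dsc Λ d x y := by
  unfold Dsc
  rw [Nat.le_div_iff_mul_le (by omega)]
  omega

theorem dsc_le_of_le {X : Type} {d : X → X → ℕ} {Λ B : ℕ} (hΛ : 1 ≤ Λ) {x y : X}
    (h : d x y ≤ B * Λ) : Dsc Λ d x y ≤ B := by
  unfold Dsc
  have h1 : (d x y + Λ - 1) / Λ < B + 1 := by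
    rw [Nat.div_lt_iff_lt_mul (by omega)]
    have h2 : (B + 1) * Λ = B * Λ + Λ := by ring
    omega
  omega

/-- displacement of the powers of a loxodromic element -/
theorem stab_zpow {G X : Type} [Group G] [MulAction G X] {d : X → X → ℕ} {N : ℕ}
    (hG : Good (G := G) d N) {w : G} (hw : Lox d w) (y : X) (k : ℤ) :
    k.natAbs ≤ Rr * d y (w ^ k • y) := by
  rcases Int.natAbs_eq k with h | h
  · have h1 := hG.stab w hw y k.natAbs
    rwa [← zpow_natCast, ← h] at h1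
  · have h1 := hG.stab w hw y k.natAbs
    have h2 : d y (w ^ k • y) = d y (w ^ k.natAbs • y) := by
      have h3 : d y (w ^ k • y) = d (w ^ k.natAbs • y) (w ^ k.natAbs • w ^ k • y) :=
        (hG.iso _ _ _).symm
      have h4 : w ^ k.natAbs • w ^ k • y = y := by
        rw [← mul_smul, ← zpow_natCast, ← zpow_add]
        have : (k.natAbs : ℤ) + k = 0 := by omega
        rw [this, zpow_zero, one_smul]
      rw [h3, h4, hG.dg.symm]
    rw [h2]; exact h1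

end KCDX

open KCDX

theorem KCD_proof (hO : Stmt_Overlap) (hR : Stmt_Rescale) : Stmt_KCD := by
  intro S
  obtain ⟨hqc, hne, hinv, _, _, hov⟩ := hO S
  have hG := S.good
  have hL1 : 1 ≤ Lam := Lam_pos
  have hLe := Lam_eq
  have hdd := dd_ge
  obtain ⟨hdg, hhyp, hq⟩ := hR S.X S.d dd (2 * dd) Lam hG.dg hG.hyp (by omega) (by omega)
  refine ⟨⟨hdg, hhyp, fun i => hq _ (hqc i), ?_, ?_, ?_⟩, ?_, ?_⟩
  · -- unbounded
    intro i B
    obtain ⟨w, hw, hmc, _⟩ := S.kil i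
    obtain ⟨y, hy⟩ := hne i
    obtain ⟨m, hm⟩ := hmc.1 y ((B + 1) * Lam)
    refine ⟨y, hy, w ^ m • y, hinv i (w ^ m) ?_ y hy, ?_⟩
    · rw [hw]; exact Subgroup.npow_mem_zpowers w m
    · have : B + 1 ≤ Dsc Lam S.d y (w ^ m • y) := le_dsc hL1 hm.le
      exact this
  · intro i l hil x y hxi hxl hyi hyl
    have conv : ∀ (z : S.X) (j : S.I), Nr S.D z (S.Y j) → ∃ a ∈ S.Y j, S.d z a ≤ 25 * Lam := by
      rintro z j ⟨a, ha, hza⟩
      exact ⟨a, ha, dsc_le hL1 hza⟩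
    have h1 := hov i l (25 * Lam) x y hil (conv x i hxi) (conv y i hyi) (conv x l hxl)
      (conv y l hyl)
    have h2 : S.d x y ≤ 53 * Lam := by omega
    exact dsc_le_of_le hL1 h2
  · rw [rho_eq]; omega
  · intro g x y
    change Dsc Lam S.d (g • x) (g • y) = Dsc Lam S.d x y
    unfold Dsc
    rw [hG.iso]
  · intro i r hr hr1 y hy
    obtain ⟨w, hw, hmc, _⟩ := S.kil i
    rw [hw] at hr
    obtain ⟨k, hk⟩ := rotS_mem hr
    have hk0 : k ≠ 0 := by
      rintro rfl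
      rw [mul_zero, zpow_zero] at hk
      exact hr1 hk
    have h1 := stab_zpow hG hmc.1 y ((S.nE i : ℤ) * k)
    rw [← hk, Int.natAbs_mul, Int.natAbs_natCast] at h1
    have h2 : 1 ≤ k.natAbs := Int.natAbs_pos.mpr hk0
    have h3 : n0 ≤ S.nE i * k.natAbs := by
      calc n0 ≤ S.nE i := S.nge i
        _ ≤ S.nE i * k.natAbs := Nat.le_mul_of_pos_right _ h2
    have h4 : Rr * (2 ^ (rho + 7) * Lam) ≤ Rr * S.d y (r • y) := by
      have : n0 = Rr * (2 ^ (rho + 7) * Lam) := by rw [n0_eq]; ring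
      omega
    exact le_dsc hL1 (Nat.le_of_mul_le_mul_left h4 Rr_pos)

end Pool.Agent.BURN
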