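import Pool.Agent.BURN.Stmts3

/-! Module KRF (4.8(c) of the blueprint): the rotating family of a killing system and the
hyperbolicity of the quotient. -/

namespace Pool.Agent.BURN

namespace KRFX

theorem rotS_le {G : Type} [Group G] (E : Subgroup G) (n : ℕ) : RotS E n ≤ E := by
  unfold RotS
  rw [Subgroup.closure_le]
  rintro x ⟨e, he, rfl⟩
  exact E.pow_mem he n

theorem idx_fix (S : KSys) (i : S.I) (g : S.G) (hg : g ∈ S.E i) : g • i = i := by
  refine S.inj _ _ ?_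
  ext x
  rw [S.conj]
  constructor
  · intro hx
    have h1 := (S.E i).mul_mem ((S.E i).mul_mem hg hx) ((S.E i).inv_mem hg)
    have h2 : g * (g⁻¹ * x * g) * g⁻¹ = x := by group
    rwa [h2] at h1
  · intro hx
    exact (S.E i).mul_mem ((S.E i).mul_mem ((S.E i).inv_mem hg) hx) hg

theorem rot_conj (S : KSys) (g : S.G) (i : S.I) (r : S.G) (hr : r ∈ RotS (S.E i) (S.nE i)) :
    g * r * g⁻¹ ∈ RotS (S.E (g • i)) (S.nE (g • i)) := by
  rw [S.nconj]
  have hle : RotS (S.E i) (S.nE i) ≤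
      (RotS (S.E (g • i)) (S.nE i)).comap (MulAut.conj g).toMonoidHom := by
    conv_lhs => unfold RotS
    rw [Subgroup.closure_le]
    rintro x ⟨e, he, rfl⟩
    refine Subgroup.subset_closure ⟨g * e * g⁻¹, ?_, ?_⟩
    · rw [S.conj]
      have h2 : g⁻¹ * (g * e * g⁻¹) * g = e := by group
      rwa [h2]
    · change g * e ^ S.nE i * g⁻¹ = (g * e * g⁻¹) ^ S.nE i
      rw [conj_pow]
  exact hle hr

theorem rot_conj_iff (S : KSys) (g : S.G) (i : S.I) (r : S.G) :
    r ∈ RotS (S.E i) (S.nE i) ↔ g * r * g⁻¹ ∈ RotS (S.E (g • i)) (S.nE (g • i)) := by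
  constructor
  · exact rot_conj S g i r
  · intro h
    have h1 := rot_conj S g⁻¹ (g • i) _ h
    rw [inv_smul_smul] at h1
    have h2 : g⁻¹ * (g * r * g⁻¹) * g⁻¹⁻¹ = r := by group
    rwa [h2] at h1

end KRFX

open KRFX

theorem KRF_proof (hC : Stmt_KCD) (hO : Stmt_Overlap) (hR : Stmt_GamRF) (hN : Stmt_KKnormal)
    (hX : Stmt_QuotEx) (hH : Stmt_QuotHyp) : Stmt_KRF := by
  intro S
  obtain ⟨hcd, hiso, hdis⟩ := hC S
  obtain ⟨_, _, _, hY, _, _⟩ := hO S
  have hrf : RF S.dg (Set.range S.ap) S.R del1 (2 * f3 + 1) (2 * f3) (2 * rho + 2) := by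
    refine hR S.G S.X S.I (Dsc Lam S.d) (YE S.d S.E) rho (fun i => RotS (S.E i) (S.nE i)) hcd hiso
      (fun g i y hy => hY i g y hy) S.act ?_ ?_ ?_ ?_ S.R S.rot
    · intro i r hr
      exact idx_fix S i r (rotS_le _ _ hr)
    · intro g i r
      exact rot_conj_iff S g i r
    · exact hdis
    · rw [rho_eq]; omega
  have hK : (KK (Set.range S.ap) S.R).Normal := hN S.G S.Gm S.dg _ S.R _ _ _ _ hrf
  let φ : S.G ⧸ KK (Set.range S.ap) S.R →* S.Gb :=
    QuotientGroup.lift (KK (Set.range S.ap) S.R) S.π (fun g hg => (S.pker g).mpr hg)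
  letI act : MulAction (S.G ⧸ KK (Set.range S.ap) S.R) S.Xb := MulAction.compHom S.Xb φ
  have hsm : ∀ (g : S.G) (z : S.Xb),
      (QuotientGroup.mk g : S.G ⧸ KK (Set.range S.ap) S.R) • z = S.π g • z := fun _ _ => rfl
  have hQ : IsQuot S.dg (KK (Set.range S.ap) S.R) S.db S.q :=
    { surj := S.qsurj
      eq_iff := S.qeq
      dist := S.qdist
      smul := by
        intro g x
        rw [hsm]
        exact S.qsmul g x }
  obtain ⟨hdg, hiso', hle, hex, hgeo⟩ := (hX S.G S.Gm S.dg (KK (Set.range S.ap) S.R) hrf.dg hrf.iso).2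
    S.Xb S.db S.q hQ
  have hhyp : Hyp S.db dd := by
    rw [dd_eq]
    exact hH S.G S.Gm S.dg _ S.R _ _ _ _ hrf hK S.Xb S.db S.q hQ
  refine ⟨hrf, hdg, ?_, hhyp, hle, hex, ?_⟩
  · intro gb x y
    obtain ⟨g, rfl⟩ := S.psurj gb
    have h1 := hiso' (QuotientGroup.mk g) x y
    rw [hsm, hsm] at h1
    exact h1
  · intro u wb g hg
    obtain ⟨w, g', h1, h2, h3⟩ := hgeo u wb g hg
    refine ⟨w, g', h1, ?_, h2, h3⟩
    have h4 := h3 (S.dg u w) le_rfl
    rw [h2.2.1] at h4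
    rw [h4, h1]
    exact hg.2.1

end Pool.Agent.BURN
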