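import Pool.Agent.BURN.Stmts3
import Pool.Agent.BURN.Basic

/-! Module LB1: 4.11 (a) of the blueprint, shadows of the axis of a non-killed element. -/

namespace Pool.Agent.BURN

namespace LB1X

theorem Dsc_bounds {X : Type} (d : X → X → ℕ) {Λ : ℕ} (h : 1 ≤ Λ) (x y : X) :
    d x y ≤ Dsc Λ d x y * Λ ∧ Dsc Λ d x y * Λ ≤ d x y + Λ - 1 := by
  unfold Dsc
  have h1 := Nat.div_mul_le_self (d x y + Λ - 1) Λ
  have h2 := Nat.lt_div_mul_add (a := d x y + Λ - 1) (b := Λ) (by omega)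
  omega

theorem exists_min {G X : Type} [Group G] [MulAction G X] [Nonempty X] (d : X → X → ℕ) (g : G) :
    ∃ x, ∀ y, d x (g • x) ≤ d y (g • y) := by
  classical
  have hex : ∃ n, ∃ x : X, d x (g • x) = n := ⟨_, Classical.arbitrary X, rfl⟩
  obtain ⟨x, hx⟩ := Nat.find_spec hex
  refine ⟨x, fun y => ?_⟩
  rw [hx]
  exact Nat.find_min' hex ⟨y, rfl⟩

theorem lox_ne_one {G X : Type} [Group G] [MulAction G X] [Nonempty X] {d : X → X → ℕ}
    (hd : IsDG d) {g : G} (hg : Lox d g) : g ≠ 1 := by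
  rintro rfl
  obtain ⟨m, hm⟩ := hg (Classical.arbitrary X) 0
  rw [one_pow, one_smul, (hd.eq_zero _ _).2 rfl] at hm
  omega

end LB1X

open LB1X in
theorem LB1_proof (hCyc : Stmt_Cyc) (hIso2 : Stmt_Iso2) (hAxis : Stmt_Axis) (hKCD : Stmt_KCD)
    (hProj : Stmt_Proj) (hOv : Stmt_Overlap) (hSC : Stmt_SC) (hMC : Stmt_MaxCyc) :
    Stmt_LB1 := by
  intro S g hg hnk z hz o ho
  have hgood := S.good
  have hd := hgood.dg
  have hy := hgood.hyp
  have hi := hgood.iso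
  have hne : Nonempty S.X := hgood.nonempty
  have hg1 : g ≠ 1 := lox_ne_one hd hg
  have hdd := dd_ge
  have hLp := Lam_pos
  -- part 1
  have hp1 : 17 * dd + 1 ≤ S.d o (g • o) := by
    obtain ⟨c, hc, hce⟩ := hCyc S.G S.X S.d S.N hgood g hg
    have hgc : g ∈ Subgroup.zpowers c := (hce g).1 ⟨1, le_rfl, by simp⟩
    have hnc : ∀ x, ¬ S.d x (c • x) ≤ 20 * dd := by
      intro x hx
      obtain ⟨i, hi'⟩ := S.all (Subgroup.zpowers c) ⟨c, rfl, hc, x, hx⟩
      exact hnk i (hi' ▸ hgc)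
    obtain ⟨x, hx⟩ := exists_min S.d c
    have hx1 := hnc x
    obtain ⟨-, -, -, h4⟩ := hIso2 S.G S.X S.d dd (S.d x (c • x)) hd hy hi (by omega) c x rfl hx
    obtain ⟨j, hj⟩ := Subgroup.mem_zpowers_iff.1 hgc
    have hj0 : j ≠ 0 := by
      rintro rfl
      exact hg1 (by rw [← hj, zpow_zero])
    have key : ∀ (n : ℕ), 1 ≤ n → 17 * dd + 1 ≤ S.d o (c ^ n • o) := by
      intro n hn
      have h5 := h4 o n
      have h6 : 1 * (S.d x (c • x) - 3 * dd) ≤ n * (S.d x (c • x) - 3 * dd) :=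
        Nat.mul_le_mul_right _ hn
      omega
    rcases Int.natAbs_eq j with h | h
    · rw [h, zpow_natCast] at hj
      rw [← hj]
      exact key _ (Int.natAbs_pos.2 hj0)
    · rw [h, zpow_neg, zpow_natCast] at hj
      rw [← hj]
      have h7 := hi (c ^ j.natAbs) o ((c ^ j.natAbs)⁻¹ • o)
      rw [smul_inv_smul, hd.symm] at h7
      rw [← h7]
      exact key _ (Int.natAbs_pos.2 hj0)
  have hp2 : S.d o (g • o) ≤ Lam * M2 := (ho z).trans hz
  refine ⟨hp1, hp2, ?_⟩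
  intro k i
  by_contra hcon
  push Not at hcon
  obtain ⟨hCD, hiD, -⟩ := hKCD S
  obtain ⟨hO1, hO2, hO3, hO4, hO5, hO6⟩ := hOv S
  obtain ⟨w, hEw, hwc, -⟩ := S.kil i
  have hDG := hCD.dg
  have hpr : IsPr S.D S.Y S.pr := S.prn
  -- D geodesic
  obtain ⟨γ, hγ⟩ := exists_geod hDG o (g ^ k • o)
  obtain ⟨-, -, -, -, -, hP5⟩ := hProj S.X S.D 2 1 7 7 9 22 (S.Y i) hDG hCD.hyp (hCD.qc i) rfl rfl
    rfl rfl
  have hOm := Om_eq
  obtain ⟨i0, j0, hi0, hj0, hpi, hpj, hw⟩ := hP5 o (g ^ k • o) (S.pr i o) (S.pr i (g ^ k • o)) γ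
    (hpr i o) (hpr i _) (by omega) hγ
  -- distance between the two points
  have hfar : Om ≤ S.D (γ i0) (γ j0) + 13 := by
    have t1 := hDG.tri (S.pr i o) (γ i0) (S.pr i (g ^ k • o))
    have t2 := hDG.tri (γ i0) (γ j0) (S.pr i (g ^ k • o))
    rw [hDG.symm (S.pr i o) (γ i0)] at t1
    omega
  -- points on the D-geodesic are near the axis
  obtain ⟨-, hAq, -⟩ := hAxis S.G S.X S.d dd (S.d o (g • o)) hd hy hi (by omega) g o rfl ho
  have hmemA : ∀ n : ℕ, g ^ n • o ∈ {p | ∃ i : ℤ, Btw S.d (g ^ i • o) p (g ^ (i + 1) • o)} := by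
    intro n
    refine ⟨n, ?_⟩
    unfold Btw
    rw [zpow_natCast, (hd.eq_zero _ _).2 rfl, Nat.zero_add]
  have hgp : ∀ p, Btw S.D o p (g ^ k • o) → S.d p (g • p) ≤ Lam * M2 + 2 * Lam := by
    intro p hp
    have b1 := Dsc_bounds S.d hLp o p
    have b2 := Dsc_bounds S.d hLp p (g ^ k • o)
    have b3 := Dsc_bounds S.d hLp o (g ^ k • o)
    have hp' : Dsc Lam S.d o p + Dsc Lam S.d p (g ^ k • o) = Dsc Lam S.d o (g ^ k • o) := hp
    have hp2' : Dsc Lam S.d o p * Lam + Dsc Lam S.d p (g ^ k • o) * Lam =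
        Dsc Lam S.d o (g ^ k • o) * Lam := by rw [← add_mul, hp']
    have hgp1 : gp S.d o (g ^ k • o) p ≤ Lam - 1 := by
      unfold gp
      rw [hd.symm (g ^ k • o) p]
      omega
    obtain ⟨σ, hσ⟩ := exists_geod hd o (g ^ k • o)
    obtain ⟨h1, h2⟩ := near_geod hd hy hσ p
    have hbt := hσ.btw' h1
    have h0A : o ∈ {p | ∃ i : ℤ, Btw S.d (g ^ i • o) p (g ^ (i + 1) • o)} := by
      have := hmemA 0
      rwa [pow_zero, one_smul] at this
    obtain ⟨q, ⟨a, hqa⟩, hq2⟩ := hAq o h0A (g ^ k • o) (hmemA k) _ hbt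
    have hqg : S.d q (g • q) ≤ S.d o (g • o) := by
      have e1 : S.d (g ^ (a + 1) • o) (g • q) = S.d (g ^ a • o) q := by
        rw [← hi g (g ^ a • o) q, smul_smul, ← zpow_one_add, add_comm]
      have e2 : S.d (g ^ a • o) (g ^ (a + 1) • o) = S.d o (g • o) := by
        rw [zpow_add_one, mul_smul, hi]
      have t := hd.tri q (g ^ (a + 1) • o) (g • q)
      unfold Btw at hqa
      omega
    have hpq : S.d p q ≤ Lam / 2 + 7 * dd := by
      have t := hd.tri p (σ (gp S.d (g ^ k • o) p o / 2)) q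
      omega
    have hL := Lam_eq
    have t1 := hd.tri p q (g • p)
    have t2 := hd.tri q (g • q) (g • p)
    rw [hi, hd.symm q p] at t2
    omega
  have hwp : ∀ p, (∃ y ∈ S.Y i, S.D p y ≤ 22) → S.d p (w • p) ≤ 46 * Lam := by
    rintro p ⟨y, hy1, hy2⟩
    have b1 := (Dsc_bounds S.d hLp p y).1
    have b2 : Dsc Lam S.d p y * Lam ≤ 22 * Lam := Nat.mul_le_mul_right _ hy2
    have b3 := hO5 i w hEw y hy1
    have t1 := hd.tri p y (w • p)
    have t2 := hd.tri y (w • y) (w • p)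
    rw [hi, hd.symm y p] at t2
    have hL := Lam_eq
    omega
  have hb1 := hγ.btw' hi0
  have hb2 := hγ.btw' hj0
  have hLM : Lam * (M2 + 50) = Lam * M2 + 50 * Lam := by ring
  have hfar2 : A0 + 8 * (Lam * (M2 + 50)) + 20 * dd ≤ S.d (γ i0) (γ j0) := by
    have b := (Dsc_bounds S.d hLp (γ i0) (γ j0)).2
    have hD : S.D (γ i0) (γ j0) = Dsc Lam S.d (γ i0) (γ j0) := rfl
    have hb0 : 8 * M2 + 467 ≤ Dsc Lam S.d (γ i0) (γ j0) := by
      rw [hD, hOm] at hfar
      clear * - hfar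
      omega
    have hb : (8 * M2 + 467) * Lam ≤ Dsc Lam S.d (γ i0) (γ j0) * Lam :=
      Nat.mul_le_mul_right _ hb0
    have he : (8 * M2 + 467) * Lam = 8 * (Lam * M2) + 467 * Lam := by ring
    have hL := Lam_eq
    rw [he] at hb
    rw [hLM]
    clear * - b hb hL
    generalize Dsc Lam S.d (γ i0) (γ j0) * Lam = Q at b hb
    generalize Lam * M2 = P at hb ⊢
    generalize S.d (γ i0) (γ j0) = T at b ⊢
    generalize Lam = L at *
    generalize A0 = a0 at *
    generalize A1 = a1 at *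
    generalize dd = e at *
    omega
  obtain ⟨v, hv, hvall⟩ := hSC S.G S.X S.d S.N hgood (γ i0) (γ j0) (Lam * (M2 + 50)) hfar2
  have hgv : g ∈ Subgroup.zpowers v := by
    apply hvall
    · exact (hgp _ hb1).trans (by omega)
    · exact (hgp _ hb2).trans (by omega)
  have hwv : w ∈ Subgroup.zpowers v := by
    apply hvall
    · exact (hwp _ (hw i0 (min_le_left _ _) (le_max_left _ _))).trans (by omega)
    · exact (hwp _ (hw j0 (min_le_right _ _) (le_max_right _ _))).trans (by omega)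
  rcases hv with hv | hv
  · subst hv
    rw [Subgroup.zpowers_one_eq_bot, Subgroup.mem_bot] at hgv
    exact hg1 hgv
  · have hw1 : w ≠ 1 := lox_ne_one hd hwc.1
    have := (hMC S.G S.X S.d S.N hgood).2.1 w v w hwc hv hw1 (Subgroup.mem_zpowers w) hwv
    apply hnk i
    rw [hEw, this]
    exact hgv

end Pool.Agent.BURN
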