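import Pool.Agent.BURN.Basic
import Pool.Agent.BURN.Stmts1

/-! Module LG of the Burnside engine: broken geodesics (1.4). -/

namespace Pool.Agent.BURN

namespace LGX

variable {X : Type} {d : X → X → ℕ} {δ a : ℕ}

theorem aux (h : IsDG d) (hy : Hyp d δ) : ∀ n, 2 ≤ n → ∀ x : ℕ → X,
    (∀ i, 1 ≤ i → i + 1 ≤ n → gp d (x (i - 1)) (x (i + 1)) (x i) ≤ a) →
    (∀ i, 1 ≤ i → i + 2 ≤ n → a + δ < d (x i) (x (i + 1))) →
    gp d (x 0) (x n) (x (n - 1)) ≤ a + δ := by
  intro n hn
  induction n, hn using Nat.le_induction with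
  | base =>
    intro x h1 _
    have := h1 1 le_rfl (by omega)
    simp only [Nat.sub_self] at this
    exact this.trans (Nat.le_add_right _ _)
  | succ n hn ih =>
    intro x h1 h2
    have e := ih x (fun i hi hi' => h1 i hi (by omega)) (fun i hi hi' => h2 i hi (by omega))
    have e2 := gp_add_gp h (x 0) (x n) (x (n - 1))
    -- gp x0 xn x(n-1) + gp x(n-1) xn x0 = 2 d x0 x(n-1)
    have k1 := gp_add h (x 0) (x n) (x (n - 1))
    have k2 := gp_add h (x (n - 1)) (x 0) (x n)
    have hd := h2 (n - 1) (by omega) (by omega)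
    rw [show n - 1 + 1 = n by omega] at hd
    have hh := hyp_gp h hy (x (n - 1)) (x (n + 1)) (x 0) (x n)
    have h3 := h1 n (by omega) (by omega)
    rw [h.symm (x n) (x (n - 1))] at k1
    rw [h.symm (x (n - 1)) (x 0)] at k2
    rw [show n + 1 - 1 = n by omega]
    omega

theorem aux2 (h : IsDG d) (hy : Hyp d δ) (n : ℕ) (hn : 2 ≤ n) (x : ℕ → X)
    (h1 : ∀ i, 1 ≤ i → i + 1 ≤ n → gp d (x (i - 1)) (x (i + 1)) (x i) ≤ a)
    (h2 : ∀ i, 1 ≤ i → i + 2 ≤ n → a + δ < d (x i) (x (i + 1))) :
    gp d (x 0) (x n) (x 1) ≤ a + δ := by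
  have := aux (a := a) h hy n hn (fun i => x (n - i)) ?_ ?_
  · simp only [Nat.sub_zero, Nat.sub_self] at this
    rw [show n - (n - 1) = 1 by omega, gp_comm h] at this
    exact this
  · intro i hi hi'
    have := h1 (n - i) (by omega) (by omega)
    rw [gp_comm h] at this
    rw [show n - (i - 1) = n - i + 1 by omega, show n - (i + 1) = n - i - 1 by omega]
    exact this
  · intro i hi hi'
    have := h2 (n - (i + 1)) (by omega) (by omega)
    rw [show n - (i + 1) + 1 = n - i by omega, h.symm] at this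
    exact this

theorem auxSum (h : IsDG d) (hy : Hyp d δ) (n : ℕ) (x : ℕ → X)
    (h1 : ∀ i, 1 ≤ i → i + 1 ≤ n → gp d (x (i - 1)) (x (i + 1)) (x i) ≤ a)
    (h2 : ∀ i, 1 ≤ i → i + 2 ≤ n → a + δ < d (x i) (x (i + 1))) :
    ∀ m, m + 1 ≤ n → (∑ i ∈ Finset.range (m + 1), d (x i) (x (i + 1))) ≤
    d (x 0) (x (m + 1)) + m * (a + δ) := by
  intro m
  induction m with
  | zero => intro _; simp
  | succ m ih =>
    intro hm
    rw [Finset.sum_range_succ]
    have e := ih (by omega)
    have k := aux (a := a) h hy (m + 2) (by omega) x (fun i hi hi' => h1 i hi (by omega))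
      (fun i hi hi' => h2 i hi (by omega))
    have k1 := gp_add h (x 0) (x (m + 2)) (x (m + 1))
    rw [show m + 2 - 1 = m + 1 by omega] at k
    rw [h.symm (x (m + 2)) (x (m + 1))] at k1
    rw [show m + 1 + 1 = m + 2 by omega]
    have : (m + 1) * (a + δ) = m * (a + δ) + (a + δ) := by ring
    omega

end LGX

theorem LGa_proof : Stmt_LGa := by
  intro X d δ a n x h hy hn h1 h2
  exact ⟨LGX.aux h hy n hn x h1 h2, LGX.aux2 h hy n hn x h1 h2, LGX.auxSum h hy n x h1 h2⟩

theorem LGb_proof : Stmt_LGb := by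
  intro X d δ a n x h hy hn h1 h2 i hi hi'
  have h2' : ∀ i, 1 ≤ i → i + 2 ≤ n → a + δ < d (x i) (x (i + 1)) := fun i hi hi' => by
    have := h2 i hi hi'; omega
  by_cases hin : i + 1 = n
  · have := LGX.aux (a := a) h hy n hn x h1 h2'
    rw [show n - 1 = i by omega] at this
    omega
  · have k1 := LGX.aux (a := a) h hy (i + 1) (by omega) x (fun j hj hj' => h1 j hj (by omega))
      (fun j hj hj' => h2' j hj (by omega))
    rw [show i + 1 - 1 = i by omega] at k1
    have k2 := LGX.aux2 (a := a) h hy (n - i) (by omega) (fun j => x (i + j))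
      (fun j hj hj' => by
        have := h1 (i + j) (by omega) (by omega)
        rw [show i + j - 1 = i + (j - 1) by omega, show i + j + 1 = i + (j + 1) by omega] at this
        exact this)
      (fun j hj hj' => by
        have := h2' (i + j) (by omega) (by omega)
        rw [show i + j + 1 = i + (j + 1) by omega] at this
        exact this)
    simp only [Nat.add_zero] at k2
    rw [show i + (n - i) = n by omega] at k2
    have hd := h2 i hi (by omega)
    have e1 := gp_add h (x i) (x n) (x (i + 1))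
    have e2 := gp_add h (x n) (x (i + 1)) (x i)
    rw [h.symm (x n) (x i), h.symm (x (i + 1)) (x i)] at e2
    have hh := hyp_gp h hy (x 0) (x (i + 1)) (x n) (x i)
    omega

end Pool.Agent.BURN
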