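import Pool.Agent.BURN.Basic
import Pool.Agent.BURN.Stmts1

/-! 2.6 of the blueprint: unique lifting. -/

namespace Pool.Agent.BURN

theorem dK_attained {G X : Type} [Group G] [MulAction G X] (d : X → X → ℕ) (K : Subgroup G)
    (x y : X) : ∃ k ∈ K, d x (k • y) = dK d K x y := by
  have hne : {n | ∃ k ∈ K, n = d x (k • y)}.Nonempty := ⟨_, 1, K.one_mem, rfl⟩
  obtain ⟨k, hk, he⟩ := Nat.sInf_mem hne
  exact ⟨k, hk, he.symm⟩

theorem LL_proof (hcor : Stmt_GLcor) : Stmt_LL := by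
  intro G X _ _ d C R δ α β σ hR
  have key : ∀ (x : X) (N : ℕ) (g g' : G), aa0 δ α β < N → (∀ c ∈ C, N ≤ d x c) →
     g' * g⁻¹ ∈ KK C R → d x (g • x) + d x (g' • x) + bet1 δ β < 2 * N → g = g' := by
    intro x N g g' hN hx hk hlt
    by_contra hne
    have hk1 : g' * g⁻¹ ≠ 1 := by
      intro h
      exact hne (mul_inv_eq_one.1 h).symm
    have hfar : ∀ c ∈ C, N ≤ d (g • x) c := by
      intro c hc
      have h1 := hx (g⁻¹ • c) (hR.cinv g⁻¹ c hc)
      have h2 := hR.iso g x (g⁻¹ • c)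
      rw [smul_inv_smul] at h2
      omega
    have h3 := (hcor G X d C R δ α β σ hR).1 (g • x) N (g' * g⁻¹) hk hk1
      (fun c hc => lt_of_lt_of_le hN (hfar c hc)) hfar
    rw [mul_smul, inv_smul_smul] at h3
    have h4 := hR.dg.tri (g • x) x (g' • x)
    rw [hR.dg.symm (g • x) x] at h4
    omega
  refine ⟨key, ?_⟩
  intro x y N l p g0 hN hp hl hfar hdK
  have hex : ∀ i, ∃ g : G, i ≤ d x y → g * g0⁻¹ ∈ KK C R ∧ d (p i) (g • p i) ≤ l := by
    intro i
    by_cases hi : i ≤ d x y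
    · obtain ⟨k, hk, he⟩ := dK_attained d (KK C R) (p i) (g0 • p i)
      refine ⟨k * g0, fun _ => ⟨?_, ?_⟩⟩
      · simpa using hk
      · rw [mul_smul, he]; exact hdK i hi
    · exact ⟨1, fun h => absurd h hi⟩
  choose gs hgs using hex
  have hstep : ∀ i, i + 1 ≤ d x y → gs i = gs (i + 1) := by
    intro i hi
    have h1 := hgs i (by omega)
    have h2 := hgs (i + 1) hi
    refine key (p i) N (gs i) (gs (i + 1)) hN (fun c hc => hfar i (by omega) c hc) ?_ ?_
    · have : gs (i + 1) * (gs i)⁻¹ = (gs (i + 1) * g0⁻¹) * (gs i * g0⁻¹)⁻¹ := by group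
      rw [this]
      exact (KK C R).mul_mem h2.1 ((KK C R).inv_mem h1.1)
    · have e1 : d (p i) (p (i + 1)) = 1 := by
        have := hp.2.2 i (i + 1) (by omega) hi; omega
      have e2 : d (gs (i + 1) • p (i + 1)) (gs (i + 1) • p i) = 1 := by
        rw [hR.iso, hR.dg.symm]; exact e1
      have t1 := hR.dg.tri (p i) (p (i + 1)) (gs (i + 1) • p i)
      have t2 := hR.dg.tri (p (i + 1)) (gs (i + 1) • p (i + 1)) (gs (i + 1) • p i)
      have := h1.2
      have := h2.2
      omega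
  have hall : ∀ i, i ≤ d x y → gs i = gs 0 := by
    intro i
    induction i with
    | zero => intro _; rfl
    | succ i ih => intro hi; rw [← hstep i hi]; exact ih (by omega)
  refine ⟨gs 0, (hgs 0 (by omega)).1, ?_⟩
  intro i hi
  rw [← hall i hi]
  exact (hgs i hi).2

end Pool.Agent.BURN
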