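import Pool.Agent.BURN.Basic
import Pool.Agent.BURN.Stmts1

/-! Section 2.4.2 of the blueprint: the ladder. -/

namespace Pool.Agent.BURN

namespace LadderX

variable {X : Type} {d : X → X → ℕ} {δ : ℕ}

/-- 1.2 for intervals -/
theorem near_btw (h : IsDG d) (hy : Hyp d δ) (x y z : X) :
    ∃ p, Btw d x p y ∧ d z p ≤ (gp d x y z + 1) / 2 + δ := by
  obtain ⟨g, hg⟩ := exists_geod h x y
  obtain ⟨h1, h2⟩ := near_geod h hy hg z
  exact ⟨_, hg.btw' h1, h2⟩

/-- 1.2 for intervals, with a given point of the interval on one side -/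
theorem near_btw_through (h : IsDG d) (hy : Hyp d δ) {x q y : X} (hq : Btw d x q y) (z : X) :
    ∃ p, Btw d x p y ∧ d z p ≤ (gp d x y z + 1) / 2 + δ ∧ (Btw d x q p ∨ Btw d p q y) := by
  obtain ⟨g, hg, hgq⟩ := exists_geod_through h hq
  obtain ⟨h1, h2⟩ := near_geod h hy hg z
  refine ⟨_, hg.btw' h1, h2, ?_⟩
  have hq' : d x q ≤ d x y := by unfold Btw at hq; omega
  rcases le_total (d x q) (gp d y z x / 2) with hle | hle
  · left
    have := hg.btw (Nat.zero_le _) hle h1
    rw [hg.1, hgq] at this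
    exact this
  · right
    have := hg.btw hle hq' le_rfl
    rw [hg.2.1, hgq] at this
    exact this

theorem btw_trans_left (h : IsDG d) {x q p y : X} (h1 : Btw d x q p) (h2 : Btw d x p y) :
    Btw d x q y := by
  have t1 := h.tri x q y
  have t2 := h.tri q p y
  unfold Btw at *
  omega

theorem btw_trans_right (h : IsDG d) {x q p y : X} (h1 : Btw d x p y) (h2 : Btw d p q y) :
    Btw d x q y := by
  have t1 := h.tri x q y
  have t2 := h.tri x p q
  unfold Btw at *
  omega

theorem btw_smul {G : Type} [Group G] [MulAction G X] (hi : IsIso G d) (g : G) {x p y : X}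
    (hb : Btw d x p y) : Btw d (g • x) (g • p) (g • y) := by
  unfold Btw at *
  rw [hi, hi, hi]
  exact hb

theorem self_zero (h : IsDG d) (x : X) : d x x = 0 := (h.eq_zero x x).2 rfl

/-- a point of an interval is near an interval with nearby endpoints -/
theorem near_pair (h : IsDG d) (hy : Hyp d δ) {x q y : X} (hq : Btw d x q y) (x' y' : X)
    (a b : ℕ) (ha : d x' x ≤ a) (hb : d y' y ≤ b) :
    ∃ q', Btw d x' q' y' ∧ d q q' ≤ a + b + δ := by
  obtain ⟨q', h1, h2⟩ := near_btw h hy x' y' q
  refine ⟨q', h1, ?_⟩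
  have e0 := (btw_iff h x q y).1 hq
  have e1 := gp_le_of_near h x' x y' q
  have e2 := gp_le_of_near_right h x y' y q
  omega

theorem consts (δ α β σ : ℕ) (hδ : 1 ≤ δ) (hσ : sig0 δ α β ≤ σ) :
    bet1 δ β < alp1 δ α β ∧ (eta1 δ β + 1) / 2 + δ ≤ ee3 δ β ∧ δ ≤ ee3 δ β ∧
    δ ≤ aa0 δ α β ∧ alp1 δ α β + eta1 δ β + 4 * ee3 δ β ≤ 2 * σ ∧ 2 * ee3 δ β < σ := by
  have h1 : eta1 δ β + δ ≤ alp1 δ α β := le_max_right _ _
  have h2 : alp1 δ α β + 9 * δ + 1 = aa0 δ α β := rfl
  have h3 : bet1 δ β ≤ eta1 δ β := by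
    unfold eta1 tht BB eta; omega
  have h4 : ee3 δ β = eta1 δ β + δ + 1 := rfl
  unfold sig0 at hσ
  refine ⟨?_, ?_, ?_, ?_, ?_, ?_⟩ <;> omega

/-- the anchored case (flag 0) -/
theorem anchored (hGL : Stmt_GL) (hFS : Stmt_FS) (hIrr : Stmt_IrrMin)
    {G : Type} [Group G] [MulAction G X] (C : Set X)
    (R : X → Subgroup G) (α β σ : ℕ) (hRF : RF d C R δ α β σ) :
    ∀ (n : ℕ) (p p' x x' y a : X) (k : G), d p y < n → k ∈ KK C R → Btw d x p y →
      Btw d x' p' (k • y) → Irr d C R (eta δ β) (tht δ β) x y →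
      Irr d C R (eta δ β) (tht δ β) x' (k • y) → a ∈ C → d p a ≤ ee3 δ β → d p' a ≤ ee3 δ β →
      alp1 δ α β ≤ gp d y (k • y) a → ∀ q, Btw d p q y →
      ∃ k' ∈ KK C R, ∃ q', Btw d p' q' (k • y) ∧
        d (k' • q) q' ≤ 4 * ee3 δ β + 2 * aa0 δ α β := by
  obtain ⟨c1, c2, c3, c4, c5, c6⟩ := consts δ α β σ hRF.one_le hRF.big
  have h := hRF.dg
  have hy := hRF.hyp
  have hi := hRF.iso
  intro n
  induction n with
  | zero => intro p p' x x' y a k hn; omega
  | succ n ih =>
    intro p p' x x' y a k hn hk hp hp' hI hI' ha hpa hpa' hal q hq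
    have hpp : d p' p ≤ 2 * ee3 δ β := by
      have := h.tri p' a p
      rw [h.symm a p] at this
      omega
    by_cases hk1 : k = 1
    · subst hk1
      rw [one_smul]
      obtain ⟨q', hq1, hq2⟩ := near_pair h hy hq p' y _ 0 hpp (le_of_eq (self_zero h y))
      refine ⟨1, one_mem _, q', hq1, ?_⟩
      rw [one_smul]
      omega
    · rcases hGL G X d C R δ α β σ hRF y k hk hk1 with ⟨c, hc, hyc, hkc⟩ |
        ⟨c, hc, r, hr, hr1, hyc, hb, hal'⟩
      · have e1 : d (k • y) c = d y c := by
          have := hi k y c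
          rw [hRF.fix c hc k hkc] at this
          exact this
        have e2 : d (k • y) y ≤ 2 * aa0 δ α β := by
          have := h.tri (k • y) c y
          rw [h.symm c y] at this
          omega
        obtain ⟨q', hq1, hq2⟩ := near_pair h hy hq p' (k • y) _ _ hpp e2
        refine ⟨1, one_mem _, q', hq1, ?_⟩
        rw [one_smul]
        omega
      · have hac : a ≠ c := by
          rintro rfl
          omega
        have hσ := hRF.sep a ha c hc hac
        have e1 := h.tri a p c
        have e2 := h.tri a p' c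
        rw [h.symm a p] at e1
        rw [h.symm a p'] at e2
        have e3 := gp_add h p p' c
        have e4 := h.symm p p'
        obtain ⟨f1, f2⟩ := hFS G X d C R δ α β σ hRF p p' x x' y k hk hp hp' hI hI' c hc r hr hb
          hal' (Or.inr (by omega))
        obtain ⟨p1, g1, g2, g3⟩ := near_btw_through h hy hq c
        obtain ⟨p1', g1', g2'⟩ := near_btw h hy p' (k • y) c
        have d1 : d c p1 ≤ ee3 δ β := by omega
        have d1' : d c p1' ≤ ee3 δ β := by omega
        rcases g3 with g3 | g3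
        · have e5 : d p1' p1 ≤ 2 * ee3 δ β := by
            have := h.tri p1' c p1
            rw [h.symm p1' c] at this
            omega
          obtain ⟨q', hq1, hq2⟩ := near_pair h hy g3 p' p1' _ _ hpp e5
          refine ⟨1, one_mem _, q', btw_trans_left h hq1 g1', ?_⟩
          rw [one_smul]
          omega
        · have hrK : r ∈ KK C R := Subgroup.subset_closure ⟨c, hc, hr⟩
          have hlt : d p1 y < n := by
            have t1 := h.tri a p c
            have t2 := h.tri p p1 c
            rw [h.symm a p] at t1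
            rw [h.symm p1 c] at t2
            unfold Btw at g1
            omega
          have e6 : (r⁻¹ * k) • y = r⁻¹ • k • y := mul_smul _ _ _
          have e7 : d (r⁻¹ • p1') c ≤ ee3 δ β := by
            have := hi r⁻¹ p1' c
            rw [show r⁻¹ • c = c from hRF.fix c hc r⁻¹ (inv_mem hr)] at this
            rw [this, h.symm]
            exact d1'
          obtain ⟨k', hk', q'', hq1, hq2⟩ := ih p1 (r⁻¹ • p1') x (r⁻¹ • x') y c (r⁻¹ * k) hlt
            (mul_mem (inv_mem hrK) hk) (btw_trans_right h hp g1)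
            (by rw [e6]; exact btw_smul hi r⁻¹ (btw_trans_right h hp' g1'))
            hI
            (by rw [e6]; exact (hIrr G X d C R δ α β σ hRF).2.2 r⁻¹ x' (k • y) hI')
            hc (by rw [h.symm]; exact d1) e7 (by rw [e6]; exact hal') q g3
          refine ⟨r * k', mul_mem hrK hk', r • q'', ?_, ?_⟩
          · have := btw_smul hi r hq1
            rw [e6, smul_inv_smul, smul_inv_smul] at this
            exact btw_trans_right h g1' this
          · rw [mul_smul, hi]
            exact hq2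

/-- the start -/
theorem start (hGL : Stmt_GL) (hFS : Stmt_FS) (hIrr : Stmt_IrrMin)
    {G : Type} [Group G] [MulAction G X] (C : Set X)
    (R : X → Subgroup G) (α β σ : ℕ) (hRF : RF d C R δ α β σ)
    (x y : X) (k : G) (hk : k ∈ KK C R)
    (hI : Irr d C R (eta δ β) (tht δ β) x y) (hI' : Irr d C R (eta δ β) (tht δ β) x (k • y))
    (q : X) (hq : Btw d x q y) :
      ∃ k' ∈ KK C R, ∃ q', Btw d x q' (k • y) ∧
        d (k' • q) q' ≤ 4 * ee3 δ β + 2 * aa0 δ α β := by
  obtain ⟨c1, c2, c3, c4, c5, c6⟩ := consts δ α β σ hRF.one_le hRF.big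
  have h := hRF.dg
  have hy := hRF.hyp
  have hi := hRF.iso
  have hxx : d x x = 0 := self_zero h x
  have hbx : ∀ z, Btw d x x z := fun z => by unfold Btw; omega
  by_cases hk1 : k = 1
  · subst hk1
    refine ⟨1, one_mem _, q, by rw [one_smul]; exact hq, ?_⟩
    rw [one_smul, self_zero h]
    omega
  · rcases hGL G X d C R δ α β σ hRF y k hk hk1 with ⟨c, hc, hyc, hkc⟩ |
      ⟨c, hc, r, hr, hr1, hyc, hb, hal'⟩
    · have e1 : d (k • y) c = d y c := by
        have := hi k y c
        rw [hRF.fix c hc k hkc] at this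
        exact this
      have e2 : d (k • y) y ≤ 2 * aa0 δ α β := by
        have := h.tri (k • y) c y
        rw [h.symm c y] at this
        omega
      obtain ⟨q', hq1, hq2⟩ := near_pair h hy hq x (k • y) 0 _ (le_of_eq hxx) e2
      refine ⟨1, one_mem _, q', hq1, ?_⟩
      rw [one_smul]
      omega
    · obtain ⟨f1, f2⟩ := hFS G X d C R δ α β σ hRF x x x x y k hk (hbx _) (hbx _) hI hI' c hc r hr
        hb hal' (Or.inl rfl)
      obtain ⟨p1, g1, g2, g3⟩ := near_btw_through h hy hq c
      obtain ⟨p1', g1', g2'⟩ := near_btw h hy x (k • y) c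
      have d1 : d c p1 ≤ ee3 δ β := by omega
      have d1' : d c p1' ≤ ee3 δ β := by omega
      rcases g3 with g3 | g3
      · have e5 : d p1' p1 ≤ 2 * ee3 δ β := by
          have := h.tri p1' c p1
          rw [h.symm p1' c] at this
          omega
        obtain ⟨q', hq1, hq2⟩ := near_pair h hy g3 x p1' 0 _ (le_of_eq hxx) e5
        refine ⟨1, one_mem _, q', btw_trans_left h hq1 g1', ?_⟩
        rw [one_smul]
        omega
      · have hrK : r ∈ KK C R := Subgroup.subset_closure ⟨c, hc, hr⟩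
        have e6 : (r⁻¹ * k) • y = r⁻¹ • k • y := mul_smul _ _ _
        have e7 : d (r⁻¹ • p1') c ≤ ee3 δ β := by
          have := hi r⁻¹ p1' c
          rw [show r⁻¹ • c = c from hRF.fix c hc r⁻¹ (inv_mem hr)] at this
          rw [this, h.symm]
          exact d1'
        obtain ⟨k', hk', q'', hq1, hq2⟩ := anchored hGL hFS hIrr C R α β σ hRF
          (d p1 y + 1) p1 (r⁻¹ • p1') x (r⁻¹ • x) y c (r⁻¹ * k) (Nat.lt_succ_self _)
          (mul_mem (inv_mem hrK) hk) g1
          (by rw [e6]; exact btw_smul hi r⁻¹ g1')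
          hI
          (by rw [e6]; exact (hIrr G X d C R δ α β σ hRF).2.2 r⁻¹ x (k • y) hI')
          hc (by rw [h.symm]; exact d1) e7 (by rw [e6]; exact hal') q g3
        refine ⟨r * k', mul_mem hrK hk', r • q'', ?_, ?_⟩
        · have := btw_smul hi r hq1
          rw [e6, smul_inv_smul, smul_inv_smul] at this
          exact btw_trans_right h g1' this
        · rw [mul_smul, hi]
          exact hq2

end LadderX

theorem Ladder_proof (hGL : Stmt_GL) (hFS : Stmt_FS) (hIrr : Stmt_IrrMin) : Stmt_Ladder := by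
  intro G X _ _ d C R δ α β σ hRF x y k g g' hk hg hg' hI hI' i hi
  have h := hRF.dg
  obtain ⟨c1, c2, c3, c4, c5, c6⟩ := LadderX.consts δ α β σ hRF.one_le hRF.big
  obtain ⟨k', hk', q', hq1, hq2⟩ := LadderX.start hGL hFS hIrr C R α β σ hRF x y k hk hI hI' (g i)
    (hg.btw' hi)
  have hj : d x q' ≤ d x (k • y) := by unfold Btw at hq1; omega
  refine ⟨k', hk', d x q', hj, ?_⟩
  have e1 : d q' (g' (d x q')) ≤ δ :=
    btw_near h hRF.hyp hq1 (hg'.btw' hj) (hg'.dist_left hj).symm
  have e2 := h.tri (k' • g i) q' (g' (d x q'))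
  unfold CL
  omega

end Pool.Agent.BURN
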