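import Pool.Agent.BURN.Stmts3
import Pool.Agent.BURN.Basic

/-! 4.17 (LR): large rotations of the quotient space -/

namespace Pool.Agent.BURN

namespace LargeRotX

theorem n0_big : 2 * rho + 2 > 2 * N0 + 2 * dd ∧ 2 * N0 > 2 * f3 + 2 * dd ∧ N0 < rho + 1 := by
  have h1 := f3_le_dd
  have h2 := dd_ge
  have h3 := N0_eq
  have h4 := rho_eq
  refine ⟨?_, ?_, ?_⟩ <;> omega

end LargeRotX

open LargeRotX in
theorem LargeRot_proof (hKCD : Stmt_KCD) (hKRF : Stmt_KRF) (hKS : Stmt_KStab)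
    (hGam : Stmt_GamDG) (hVR : Stmt_VR0) : Stmt_LargeRot := by
  intro S i r z hr hbig
  obtain ⟨hCD, hIsoD, -⟩ := hKCD S
  obtain ⟨hRF, hdb, hisob, hhyp, -, hlift, hgeod⟩ := hKRF S
  obtain ⟨ks1, ks2, -, ks4, -, -, -, -, -⟩ := hKS S
  obtain ⟨g1, -, g3, g4, -, -, -, -⟩ := hGam S.X S.I S.D S.Y rho hCD
  obtain ⟨c1, c2, c3⟩ := n0_big
  by_contra hcon
  push Not at hcon
  set vbar := S.q (S.ap i) with hvbar
  have hrv : r • S.ap i = S.ap i := (ks1 i r).2 hr
  have hrvb : S.π r • vbar = vbar := by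
    rw [hvbar, S.qsmul, hrv]
  obtain ⟨sb, hsb⟩ := exists_geod hdb vbar z
  obtain ⟨w, sg, hw1, hw2, hsg, hq⟩ := hgeod (S.ap i) z sb hsb
  have hle : gp S.db z (S.π r • z) vbar ≤ 2 * S.db z vbar := gp_le_left hdb _ _ _
  have hN : N0 ≤ S.db vbar z := by rw [hdb.symm]; omega
  have hN' : N0 ≤ S.dg (S.ap i) w := by rw [hw1]; exact hN
  -- the point at distance N0 is moved by at most 2 * dd
  have hmove : S.db (sb N0) (S.π r • sb N0) ≤ 2 * dd := by
    have hb1 : Btw S.db vbar (sb N0) z := hsb.btw' hN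
    have hb2 : Btw S.db vbar (S.π r • sb N0) (S.π r • z) := by
      have : Btw S.db (S.π r • vbar) (S.π r • sb N0) (S.π r • z) := by
        unfold Btw; rw [hisob, hisob, hisob]; exact hb1
      rwa [hrvb] at this
    have e : S.db vbar (sb N0) = S.db vbar (S.π r • sb N0) := by
      conv_rhs => rw [← hrvb]
      rw [hisob]
    refine fellow hdb hhyp hb1 hb2 e ?_
    rw [hsb.dist_left hN]
    omega
  set x1 := sg N0 with hx1
  have hqx1 : S.q x1 = sb N0 := hq N0 hN'
  rw [← hqx1, S.qsmul] at hmove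
  obtain ⟨k, hk, hkd⟩ := hlift x1 (r • x1)
  have hd1 : S.dg x1 ((k * r) • x1) ≤ 2 * dd := by
    rw [mul_smul, hkd]; exact hmove
  have hdist : S.dg (S.ap i) x1 = N0 := hsg.dist_left hN'
  have hdist' : S.dg x1 (S.ap i) = N0 := by
    have := hRF.dg.symm x1 (S.ap i)
    rw [this]; exact hdist
  have hht : rho + 1 ≤ ht rho x1.1 + N0 := by
    have := g3 x1 (S.ap i)
    have e : dGam S.D S.Y rho x1 (S.ap i) = N0 := hdist'
    rw [e] at this
    exact this
  obtain ⟨j, hj, hjE⟩ := ks2 x1 (k * r) (by omega)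
  -- x1 lies in the horoball i
  have hHor : Hor i x1.1 := by
    by_contra hnot
    have h1 := g4 i (S.ap i) x1 (Or.inr rfl) hnot
    have e : dGam S.D S.Y rho (S.ap i) x1 = N0 := hdist
    rw [e] at h1
    have e2 : ht rho (S.ap i).1 = rho + 1 := rfl
    rw [e2] at h1
    omega
  have hji : j = i := by
    rcases hj with ⟨y, s, hy⟩ | hy <;> rcases hHor with ⟨y', s', hy'⟩ | hy'
    · rw [hy] at hy'; injection hy'
    · rw [hy] at hy'; cases hy'
    · rw [hy] at hy'; cases hy'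
    · rw [hy] at hy'; injection hy'
  subst hji
  have hkE : k ∈ S.E j := by
    have := (S.E j).mul_mem hjE ((S.E j).inv_mem hr)
    rwa [mul_inv_cancel_right] at this
  have hkR : k ∈ RotS (S.E j) (S.nE j) := (ks4 j k hkE).1 hk
  have hlarge := hbig (k * r) (by rw [mul_inv_cancel_right]; exact hkR)
  -- feet
  have hN0 : 0 < N0 := by omega
  have hgi : (k * r) • S.ap j = S.ap j := (ks1 j (k * r)).2 hjE
  rcases hHor with ⟨y, s, hy⟩ | hy
  · have hyY : y ∈ S.Y j := by
      have := x1.2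
      rw [hy] at this
      exact this.1
    have hgx : ((k * r) • x1).1 = .c ((k * r) • j) ((k * r) • y) s := by
      rw [S.act, hy]; rfl
    have hgj : (k * r) • j = j := by
      have := congrArg Subtype.val hgi
      rw [S.act] at this
      have h2 : (k * r) • (CV.a j : CV S.X S.I) = CV.a ((k * r) • j) := rfl
      have h3 : (S.ap j).1 = CV.a j := rfl
      rw [h3, h2] at this
      injection this
    rw [hgj] at hgx
    have hgyY : (k * r) • y ∈ S.Y j := by
      have := ((k * r) • x1).2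
      rw [hgx] at this
      exact this.1
    have hfin := hVR S.X S.I S.D S.Y rho hCD j x1 ((k * r) • x1) y ((k * r) • y)
      ⟨hyY, Or.inl ⟨s, hy⟩⟩ ⟨hgyY, Or.inl ⟨s, hgx⟩⟩ (hlarge y hyY)
    have hgp := gp_add g1 x1 ((k * r) • x1) (va S.Y rho j)
    have e1 : dGam S.D S.Y rho x1 (va S.Y rho j) = N0 := hdist'
    have e2 : dGam S.D S.Y rho ((k * r) • x1) (va S.Y rho j) = N0 := by
      have h1 := hRF.iso (k * r) x1 (S.ap j)
      rw [hgi] at h1
      exact h1.trans hdist'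
    have e3 : dGam S.D S.Y rho x1 ((k * r) • x1) ≤ 2 * dd := hd1
    rw [e1, e2] at hgp
    omega
  · have : x1 = S.ap j := Subtype.ext hy
    rw [this] at hdist'
    have h0 := (g1.eq_zero (S.ap j) (S.ap j)).2 rfl
    have h0' : S.dg (S.ap j) (S.ap j) = 0 := h0
    omega

end Pool.Agent.BURN
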