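import Pool.Agent.BURN.Basic
import Pool.Agent.BURN.Stmts3

/-! Module Lift: 4.12 of the blueprint. -/

namespace Pool.Agent.BURN

namespace LiftX

theorem Dsc_le {X : Type} {d : X → X → ℕ} {x y : X} {M : ℕ} (h : Dsc Lam d x y ≤ M) :
    d x y ≤ Lam * M := by
  unfold Dsc at h
  have hL := Lam_pos
  generalize Lam = L at *
  have h1 : (d x y + L - 1) / L < M + 1 := by omega
  rw [Nat.div_lt_iff_lt_mul (by omega)] at h1
  have h2 : (M + 1) * L = L * M + L := by ring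
  omega

end LiftX

open LiftX in
theorem Lift_proof (hKRF : Stmt_KRF) (hKStab : Stmt_KStab) (hGD : Stmt_GamDG)
    (hLen : Stmt_GamLen) (hKCD : Stmt_KCD) : Stmt_Lift := by
  intro S gb xb l hl hdb
  obtain ⟨hRF, -, -, -, -, hlift, -⟩ := hKRF S
  obtain ⟨-, hst, -, -, -, -, -, -, -⟩ := hKStab S
  obtain ⟨hCD, -, -⟩ := hKCD S
  have hCD' : CD (Dsc Lam S.d) (YE S.d S.E) rho := hCD
  obtain ⟨gdg, -, -, -, -, -, gvert, -⟩ := hGD S.X S.I _ _ _ hCD'
  obtain ⟨-, hlen⟩ := hLen S.X S.I _ _ _ hCD'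
  obtain ⟨g0, rfl⟩ := S.psurj gb
  obtain ⟨x, rfl⟩ := S.qsurj xb
  rw [S.qsmul] at hdb
  obtain ⟨k, hk, hkd⟩ := hlift x (g0 • x)
  have hrho : 1000 * dd ≤ rho := by rw [rho_eq]; omega
  have hdd := dd_ge
  have hsm : k • g0 • x = (k * g0) • x := by rw [mul_smul]
  rw [hsm] at hkd
  have hle : S.dg x ((k * g0) • x) ≤ l := by rw [hkd]; exact hdb
  have hπ : S.π (k * g0) = S.π g0 := by
    rw [map_mul, (S.pker k).2 hk, one_mul]
  refine ⟨k * g0, x, hπ, rfl, hle, ?_⟩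
  generalize k * g0 = g at *
  by_cases hht : S.dg x (g • x) < 2 * ht rho x.1
  · obtain ⟨i, -, hi⟩ := hst x g hht
    exact Or.inl ⟨i, hi⟩
  · refine Or.inr ⟨by omega, ?_⟩
    have hex : ∃ x0 : S.X, S.dg x (S.bs x0) = ht rho x.1 := by
      rcases hx : x.1 with v | ⟨i, v, s⟩ | i
      · refine ⟨v, ?_⟩
        have : x = S.bs v := Subtype.ext hx
        rw [this]
        exact (gdg.eq_zero _ _).2 rfl
      · refine ⟨v, ?_⟩
        have hok := x.2
        rw [hx] at hok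
        have h1 := gvert i v 0 s (vb (YE S.d S.E) rho v) x (Nat.zero_le _)
          (Or.inl ⟨rfl, hok.1, rfl⟩) (Or.inr ⟨hok.2.1, hx⟩)
        have h2 := gdg.symm x (vb (YE S.d S.E) rho v)
        show dGam (Dsc Lam S.d) (YE S.d S.E) rho x (vb (YE S.d S.E) rho v) = _
        rw [h2, h1]; rfl
      · exfalso
        have h1 : ht rho x.1 = rho + 1 := by rw [hx]; rfl
        omega
    obtain ⟨x0, hx0⟩ := hex
    refine ⟨x0, hx0, ?_⟩
    apply Dsc_le
    have hb : S.bs (g • x0) = g • S.bs x0 := by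
      apply Subtype.ext; rw [S.act]; rfl
    have t1 := gdg.tri (S.bs x0) x (g • S.bs x0)
    have t2 := gdg.tri x (g • x) (g • S.bs x0)
    have t3 : dGam (Dsc Lam S.d) (YE S.d S.E) rho (g • x) (g • S.bs x0) =
        S.dg x (S.bs x0) := hRF.iso g x (S.bs x0)
    have t4 := gdg.symm (S.bs x0) x
    have t5 : dGam (Dsc Lam S.d) (YE S.d S.E) rho x (S.bs x0) = S.dg x (S.bs x0) := rfl
    have t6 : dGam (Dsc Lam S.d) (YE S.d S.E) rho x (g • x) = S.dg x (g • x) := rfl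
    have t7 : dGam (Dsc Lam S.d) (YE S.d S.E) rho (vb (YE S.d S.E) rho x0)
        (vb (YE S.d S.E) rho (g • x0)) =
        dGam (Dsc Lam S.d) (YE S.d S.E) rho (S.bs x0) (g • S.bs x0) := by
      rw [← hb]; rfl
    have hle2 : dGam (Dsc Lam S.d) (YE S.d S.E) rho (vb (YE S.d S.E) rho x0)
        (vb (YE S.d S.E) rho (g • x0)) ≤ 2 * l := by
      rw [t7]; omega
    have h1 := hlen x0 (g • x0) (by omega)
    exact h1.trans (Nat.pow_le_pow_right (by norm_num) hle2)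

end Pool.Agent.BURN
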