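import Pool.Agent.BURN.Stmts3

/-! Section 5 of the blueprint: base, tower, limit group. -/

namespace Pool.Agent.BURN

/-- 5.1 base stages: groups acting on trees (Hyp 0) with trivial stabilisers of pairs of points -/
def Stmt_Base : Prop := ∀ (G X : Type) [Group G] [MulAction G X] (d : X → X → ℕ) (N : ℕ),
  IsDG d → Hyp d 0 → IsIso G d → Nonempty X → Odd N →
  (∀ (g : G) (x y : X), x ≠ y → g • x = x → g • y = y → g = 1) →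
  (∀ g : G, ¬ Lox d g → g ^ N = 1) →
  (∀ g : G, Lox d g → ∀ (x : X) (m : ℕ), m ≤ d x (g ^ m • x)) →
  Good (G := G) d N

/-- the word metric of a free group -/
def dF {S : Type} [DecidableEq S] (x y : FreeGroup S) : ℕ := (x⁻¹ * y).norm

/-- 5.1 the free group acting on itself -/
def Stmt_BaseF : Prop := ∀ (S : Type) [DecidableEq S] (N : ℕ), Odd N →
  Good (G := FreeGroup S) (X := FreeGroup S) dF N ∧
  (∀ g : FreeGroup S, ¬ Lox (X := FreeGroup S) dF g → g = 1) ∧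
  ((∃ a b : S, a ≠ b) → NE (G := FreeGroup S) (X := FreeGroup S) dF)

/-- bundled good stage -/
structure StgG (N : ℕ) where
  (G X : Type)
  [gG : Group G]
  [aX : MulAction G X]
  d : X → X → ℕ
  good : Good (G := G) d N

attribute [instance] StgG.gG StgG.aX

/-- a tower of good stages, all exponents equal to p -/
structure Tow (N p : ℕ) where
  T : ℕ → StgG N
  π : ∀ k, (T k).G →* (T (k + 1)).G
  ι : ∀ k, (T k).X → (T (k + 1)).X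
  rel : ∀ k, StepRel (T k).d (T (k + 1)).d (π k) (ι k) (fun _ => p)

/-- 5.2 (module Tower) -/
def Stmt_Tower : Prop := ∀ (N p : ℕ) (s : StgG N), n0 ≤ p → p ∣ N → ∃ W : Tow N p, W.T 0 = s

/-- the map from the bottom group to stage k -/
def Tow.φ {N p : ℕ} (W : Tow N p) : ∀ k, (W.T 0).G →* (W.T k).G
  | 0 => MonoidHom.id _
  | k + 1 => (W.π k).comp (W.φ k)

/-- the kernel of the map to the limit group -/
def Tow.M {N p : ℕ} (W : Tow N p) : Subgroup (W.T 0).G := ⨆ k, (W.φ k).ker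

/-- 5.3 (module Lim1) -/
def Stmt_Lim1 : Prop := ∀ (N p : ℕ) (W : Tow N p), 1 ≤ p →
  (∀ x, x ∈ W.M ↔ ∃ k, W.φ k x = 1) ∧
  W.M.Normal ∧
  (∀ k, Function.Surjective (W.φ k)) ∧
  (∀ x, ∃ k, ¬ Lox (W.T k).d (W.φ k x)) ∧
  (∀ k l x, k ≤ l → ¬ Lox (W.T k).d (W.φ k x) → ¬ Lox (W.T l).d (W.φ l x)) ∧
  (∀ k (g : (W.T k).G), ¬ Lox (W.T k).d g → g ^ p = 1 ∨
    ∃ g0, ¬ Lox (W.T 0).d g0 ∧ W.φ k g0 = g) ∧
  (∀ x : (W.T 0).G, x ^ p ∈ W.M ∨ ∃ g0, ¬ Lox (W.T 0).d g0 ∧ x * g0⁻¹ ∈ W.M) ∧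
  (∀ x : (W.T 0).G, x ^ N ∈ W.M) ∧
  (∀ g0, ¬ Lox (W.T 0).d g0 → g0 ∈ W.M → g0 = 1) ∧
  W.M ≤ Subgroup.closure {x | ∃ y : (W.T 0).G, x = y ^ p} ∧
  (∀ S : Finset (W.T 0).G, (∀ x ∈ S, x ∈ W.M) → ∃ k, ∀ x ∈ S, W.φ k x = 1)

/-- 5.4 (module Lim2): centralisers in the limit group -/
def Stmt_Lim2 : Prop := ∀ (N p : ℕ) (W : Tow N p), 1 ≤ p →
  (∀ g g' h : (W.T 0).G, ¬ Lox (W.T 0).d g → ¬ Lox (W.T 0).d g' → g ≠ 1 →
    h * g * h⁻¹ * g'⁻¹ ∈ W.M → ∃ h', h' * h⁻¹ ∈ W.M ∧ h' * g * h'⁻¹ = g') ∧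
  (∀ x : (W.T 0).G, x ∉ W.M → (∀ g0, ¬ Lox (W.T 0).d g0 → x * g0⁻¹ ∉ W.M) →
    ∃ c : (W.T 0).G, c ^ p ∈ W.M ∧ ∀ y, x * y * x⁻¹ * y⁻¹ ∈ W.M → ∃ j : ℕ, y * (c ^ j)⁻¹ ∈ W.M)

/-- 5.5 (module Lim3): no stage is finite; needed for finite presentability arguments -/
def Stmt_Lim3 : Prop := ∀ (N p : ℕ) (W : Tow N p), 1 ≤ p → NE (G := (W.T 0).G) (W.T 0).d →
  (∀ k, NE (G := (W.T k).G) (W.T k).d) ∧
  (∀ k (U : Subgroup (W.T 0).G), U.Normal → U.FiniteIndex →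
    ∃ x : (W.T 0).G, ∃ u ∈ U, W.φ k (x ^ p * u * (x ^ p)⁻¹ * u⁻¹) ≠ 1)

/-- 5.6 (module LimM): the (M) property passes to the limit -/
def Stmt_LimM : Prop := ∀ (N p : ℕ) (W : Tow N p), 1 ≤ p →
  ∀ (A : Subgroup (W.T 0).G) (P : (W.T 0).X), (∀ a ∈ A, a • P = P) →
  (∀ c1 ∈ A, ∀ c2 ∈ A, ∀ c3 ∈ A, c1 ≠ 1 → c2 ≠ 1 → c3 ≠ 1 → ∀ y h : (W.T 0).G,
    c1 * (y⁻¹ * c2 * y) = h * c3 * h⁻¹ → y ∈ A) →
  (∀ c1 ∈ A, ∀ c2 ∈ A, ∀ c3 ∈ A, c1 ≠ 1 → c2 ≠ 1 → c3 ≠ 1 → ∀ y h : (W.T 0).G,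
    c1 * (y⁻¹ * c2 * y) * (h * c3 * h⁻¹)⁻¹ ∈ W.M → ∃ a ∈ A, y * a⁻¹ ∈ W.M)

/-- 5.7 (module BurnF): free Burnside groups. For odd p ≥ n0 and a free group F on S the verbal
subgroup F^p = {x | products of p-th powers}: all centralisers of the quotient are finite cyclic,
and if S has two elements then F^p is not central in a finite index subgroup modulo finitely many
of its elements. -/
def Stmt_BurnF : Prop := ∀ (S : Type) [DecidableEq S] (p : ℕ), Odd p → n0 ≤ p →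
  ∀ Fp : Subgroup (FreeGroup S), Fp = Subgroup.normalClosure {x | ∃ y : FreeGroup S, x = y ^ p} →
  (∀ x ∉ Fp, ∃ c : FreeGroup S, c ^ p ∈ Fp ∧
    ∀ y, x * y * x⁻¹ * y⁻¹ ∈ Fp → ∃ j : ℕ, y * (c ^ j)⁻¹ ∈ Fp) ∧
  ((∃ a b : S, a ≠ b) → ∀ K : Finset (FreeGroup S), (∀ x ∈ K, x ∈ Fp) →
    ∀ U : Subgroup (FreeGroup S), U.Normal → U.FiniteIndex →
    ∃ x : FreeGroup S, ∃ u ∈ U, x ^ p * u * (x ^ p)⁻¹ * u⁻¹ ∉
      Subgroup.normalClosure (K : Set (FreeGroup S)))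

end Pool.Agent.BURN
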