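import Pool.Agent.BURN.Basic
import Pool.Agent.BURN.Stmts4

/-! Module Lim2: 5.4 of the blueprint (centralisers in the limit group). -/

namespace Pool.Agent.BURN

namespace Lim2X

theorem φ_succ {N p : ℕ} (W : Tow N p) (k : ℕ) (x : (W.T 0).G) :
    W.φ (k + 1) x = W.π k (W.φ k x) := rfl

/-- going down with s3 from stage k + n to stage k -/
theorem down {N p : ℕ} (W : Tow N p) (hsurj : ∀ k, Function.Surjective (W.φ k))
    (hpers : ∀ k l x, k ≤ l → ¬ Lox (W.T k).d (W.φ k x) → ¬ Lox (W.T l).d (W.φ l x))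
    (j : ℕ) (g g' : (W.T 0).G) (hg : ¬ Lox (W.T j).d (W.φ j g)) (hg' : ¬ Lox (W.T j).d (W.φ j g'))
    (hne : ∀ k, W.φ k g ≠ 1) :
    ∀ (n : ℕ) (h : (W.T 0).G), W.φ (j + n) (h * g * h⁻¹) = W.φ (j + n) g' →
      ∃ h', W.φ (j + n) h' = W.φ (j + n) h ∧ W.φ j (h' * g * h'⁻¹) = W.φ j g' := by
  intro n
  induction n with
  | zero => intro h hh; exact ⟨h, rfl, hh⟩
  | succ n ih =>
    intro h hh
    have e : j + (n + 1) = (j + n) + 1 := by omega
    rw [e] at hh ⊢
    have e1 : W.φ (j + n) (h * g * h⁻¹) =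
        W.φ (j + n) h * W.φ (j + n) g * (W.φ (j + n) h)⁻¹ := by
      rw [map_mul, map_mul, map_inv]
    rw [φ_succ, φ_succ, e1] at hh
    obtain ⟨h1, h1a, h1b⟩ := (W.rel (j + n)).s3 (W.φ (j + n) g) (W.φ (j + n) g')
      (W.φ (j + n) h) (hpers j (j + n) g (by omega) hg) (hpers j (j + n) g' (by omega) hg')
      (hne _) hh
    obtain ⟨h2, rfl⟩ := hsurj (j + n) h1
    rw [← map_inv, ← map_mul, ← map_mul] at h1b
    obtain ⟨h', h3, h4⟩ := ih h2 h1b
    refine ⟨h', ?_, h4⟩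
    rw [φ_succ, φ_succ, h3, h1a]

end Lim2X

open Lim2X in
theorem Lim2_proof (hL : Stmt_Lim1) (hMC : Stmt_MaxCyc) : Stmt_Lim2 := by
  intro N p W hp
  obtain ⟨hM, hnorm, hsurj, hev, hpers, -, -, -, h9, -, -⟩ := hL N p W hp
  have hmem : ∀ k x, W.φ k x = 1 → x ∈ W.M := fun k x h => (hM x).2 ⟨k, h⟩
  have hmem2 : ∀ k x y, W.φ k x = W.φ k y → x * y⁻¹ ∈ W.M := by
    intro k x y h
    refine hmem k _ ?_
    rw [map_mul, map_inv, h, mul_inv_cancel]
  constructor
  · intro g g' h hg hg' hne hh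
    obtain ⟨k, hk⟩ := (hM _).1 hh
    have hk' : W.φ k (h * g * h⁻¹) = W.φ k g' := by
      rw [map_mul, map_inv] at hk
      exact mul_inv_eq_one.1 hk
    have hne' : ∀ k, W.φ k g ≠ 1 := fun k hk => hne (h9 g hg (hmem k g hk))
    have e : (0 : ℕ) + k = k := by omega
    obtain ⟨h', h1, h2⟩ := down W hsurj hpers 0 g g' hg hg' hne' k h (by rw [e]; exact hk')
    rw [e] at h1
    exact ⟨h', hmem2 k _ _ h1, h2⟩
  · intro x hx hx0
    classical
    -- the first stage at which x is congruent to a non-loxodromic element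
    have hex : ∃ j, ∃ g : (W.T 0).G, ¬ Lox (W.T j).d (W.φ j g) ∧ g * x⁻¹ ∈ W.M := by
      obtain ⟨k, hk⟩ := hev x
      exact ⟨k, x, hk, by rw [mul_inv_cancel]; exact one_mem _⟩
    obtain ⟨g, hgl, hgx⟩ := Nat.find_spec hex
    have hmin := fun m (hm : m < Nat.find hex) => Nat.find_min hex hm
    generalize Nat.find hex = j at *
    have hj0 : j ≠ 0 := by
      rintro rfl
      refine hx0 g hgl ?_
      have := inv_mem hgx
      rwa [mul_inv_rev, inv_inv] at this
    obtain ⟨i, rfl⟩ : ∃ i, j = i + 1 := ⟨j - 1, by omega⟩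
    have hgM : g ∉ W.M := by
      intro h
      apply hx
      have h1 := mul_mem (inv_mem hgx) h
      rw [mul_inv_rev, inv_inv, mul_assoc, inv_mul_cancel, mul_one] at h1
      exact h1
    have hgne : ∀ k, W.φ k g ≠ 1 := fun k hk => hgM (hmem k g hk)
    -- the image of g comes from a killed group
    obtain ⟨e, he, hcase⟩ := (W.rel i).nonlox (W.φ (i + 1) g) hgl
    have hE : ∃ E, Kil (W.T i).d E ∧ e ∈ E := by
      rcases hcase with h | h
      · exfalso
        obtain ⟨g', rfl⟩ := hsurj i e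
        refine hmin i (by omega) ⟨g', h, ?_⟩
        have h1 : g' * g⁻¹ ∈ W.M := hmem2 (i + 1) _ _ he
        have h2 := mul_mem h1 hgx
        rwa [mul_assoc, inv_mul_cancel_left] at h2
      · exact h
    obtain ⟨E, hKil, heE⟩ := hE
    obtain ⟨w, hEw, hw, -⟩ := id hKil
    obtain ⟨c, hc⟩ := hsurj i w
    have hwE : w ∈ E := by rw [hEw]; exact Subgroup.mem_zpowers w
    have hcp : c ^ p ∈ W.M := by
      refine hmem (i + 1) _ ?_
      rw [φ_succ, map_pow, hc]
      exact ((W.rel i).ord E hKil (w ^ p) (pow_mem hwE p)).2 ⟨w, hwE, rfl⟩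
    refine ⟨c, hcp, ?_⟩
    intro y hy
    -- y commutes with g modulo M
    have hy1 : y * g * y⁻¹ * g⁻¹ ∈ W.M := by
      -- work in the quotient
      have q1 : (QuotientGroup.mk g : (W.T 0).G ⧸ W.M) = QuotientGroup.mk x := by
        rw [QuotientGroup.eq]
        have h1 := hnorm.conj_mem _ (inv_mem hgx) g⁻¹
        rw [mul_inv_rev, inv_inv] at h1
        have h2 : g⁻¹ * (x * g⁻¹) * g⁻¹⁻¹ = g⁻¹ * x := by group
        rwa [h2] at h1
      have q2 : (QuotientGroup.mk (x * y * x⁻¹ * y⁻¹) : (W.T 0).G ⧸ W.M) = 1 :=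
        (QuotientGroup.eq_one_iff _).2 hy
      rw [← QuotientGroup.eq_one_iff]
      have q3 : (QuotientGroup.mk (x * y * x⁻¹ * y⁻¹) : (W.T 0).G ⧸ W.M) =
        QuotientGroup.mk x * QuotientGroup.mk y * (QuotientGroup.mk x)⁻¹ *
          (QuotientGroup.mk y)⁻¹ := rfl
      have q4 : (QuotientGroup.mk (y * g * y⁻¹ * g⁻¹) : (W.T 0).G ⧸ W.M) =
        QuotientGroup.mk y * QuotientGroup.mk g * (QuotientGroup.mk y)⁻¹ *
          (QuotientGroup.mk g)⁻¹ := rfl
      rw [q4, q1]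
      rw [q3] at q2
      have q5 := inv_eq_one.2 q2
      rw [← q5]; group
    obtain ⟨l, hl⟩ := (hM _).1 hy1
    -- go to a stage l ≥ i + 1
    have hl' : ∃ n, W.φ (i + 1 + n) (y * g * y⁻¹ * g⁻¹) = 1 := by
      have hstep : ∀ n, W.φ (l + n) (y * g * y⁻¹ * g⁻¹) = 1 := by
        intro n
        induction n with
        | zero => exact hl
        | succ n ih =>
          have e : l + (n + 1) = (l + n) + 1 := by omega
          rw [e, φ_succ, ih, map_one]
      refine ⟨l, ?_⟩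
      have := hstep (i + 1)
      have e : i + 1 + l = l + (i + 1) := by omega
      rw [e]; exact this
    obtain ⟨n, hn⟩ := hl'
    have hn' : W.φ (i + 1 + n) (y * g * y⁻¹) = W.φ (i + 1 + n) g := by
      rw [map_mul, map_inv] at hn
      exact mul_inv_eq_one.1 hn
    obtain ⟨y', hy2, hy3⟩ := down W hsurj hpers (i + 1) g g hgl hgl hgne n y hn'
    have hyy' : y * y'⁻¹ ∈ W.M := hmem2 _ _ _ hy2.symm
    -- s5
    have hpe : W.π i e ≠ 1 := by rw [he]; exact hgne _
    have hconj : W.π i (W.φ i y' * e * (W.φ i y')⁻¹) = W.π i e := by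
      rw [map_mul, map_mul, map_inv, he, ← φ_succ, ← map_inv, ← map_mul, ← map_mul]
      exact hy3
    obtain ⟨h', h1, h2⟩ := (W.rel i).s5 E E e e (W.φ i y') hKil hKil heE heE hpe hconj
    have h3 : h'⁻¹ * w * h' ∈ Subgroup.zpowers w := by
      rw [← hEw]; exact (h2 w).1 hwE
    obtain ⟨m, hm⟩ := Subgroup.mem_zpowers_iff.1 h3
    have h4 : h'⁻¹ ∈ Subgroup.zpowers w := by
      refine (hMC _ _ _ _ (W.T i).good).1 w h'⁻¹ 1 m hw (by norm_num) ?_
      rw [zpow_one, inv_inv]; exact hm.symm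
    have h5 : h' ∈ Subgroup.zpowers w := by
      have := inv_mem h4; rwa [inv_inv] at this
    obtain ⟨k, hk⟩ := Subgroup.mem_zpowers_iff.1 h5
    have h6 : W.φ (i + 1) y' = W.φ (i + 1) (c ^ k) := by
      rw [φ_succ, φ_succ, map_zpow, hc, hk, h1]
    have h7 : y' * (c ^ k)⁻¹ ∈ W.M := hmem2 _ _ _ h6
    have h8 : y * (c ^ k)⁻¹ ∈ W.M := by
      have := mul_mem hyy' h7
      rwa [mul_assoc, inv_mul_cancel_left] at this
    -- reduce the exponent modulo p
    have hp' : (p : ℤ) ≠ 0 := by exact_mod_cast (by omega : p ≠ 0)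
    refine ⟨(k % (p : ℤ)).toNat, ?_⟩
    have h9' : ((k % (p : ℤ)).toNat : ℤ) = k % p := Int.toNat_of_nonneg (Int.emod_nonneg _ hp')
    have h10 : c ^ k * (c ^ ((k % (p : ℤ)).toNat))⁻¹ ∈ W.M := by
      have e1 : c ^ k * (c ^ ((k % (p : ℤ)).toNat))⁻¹ = (c ^ p) ^ (k / (p : ℤ)) := by
        rw [← zpow_natCast c ((k % (p : ℤ)).toNat), h9', ← zpow_neg, ← zpow_add,
          ← zpow_natCast c p, ← zpow_mul]
        congr 1
        have := Int.emod_add_mul_ediv k p
        linarith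
      rw [e1]
      exact zpow_mem hcp _
    have := mul_mem h8 h10
    rwa [mul_assoc, inv_mul_cancel_left] at this

end Pool.Agent.BURN
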