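import Pool.Agent.BURN.Stmts4

/-! Section 5.5 of the blueprint: no stage of the tower is finite over finitely many relations. -/

namespace Pool.Agent.BURN

theorem Lim3_phi_surj {N p : ℕ} (W : Tow N p) : ∀ k, Function.Surjective (W.φ k)
  | 0 => fun x => ⟨x, rfl⟩
  | k + 1 => by
    intro y
    obtain ⟨z, hz⟩ := (W.rel k).surj y
    obtain ⟨x, hx⟩ := Lim3_phi_surj W k z
    exact ⟨x, by simp [Tow.φ, hx, hz]⟩

theorem Lim3_pow_ne {G X : Type} [Group G] [MulAction G X] {d : X → X → ℕ} {N : ℕ}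
    (hg : Good (G := G) d N) {g : G} (hl : Lox d g) {m : ℕ} (hm : 1 ≤ m) : g ^ m ≠ 1 := by
  intro h
  obtain ⟨x⟩ := hg.nonempty
  have h1 := hg.stab g hl x m
  rw [h, one_smul, (hg.dg.eq_zero x x).2 rfl] at h1
  omega

theorem Lim3_proof (hC : Stmt_Cyc) (hM : Stmt_MaxCyc) : Stmt_Lim3 := by
  intro N p W hp hne
  have hNE : ∀ k, NE (G := (W.T k).G) (W.T k).d := by
    intro k
    induction k with
    | zero => exact hne
    | succ k ih => exact (W.rel k).ne ih
  refine ⟨hNE, ?_⟩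
  intro k U hU hfin
  by_contra hcon
  push Not at hcon
  obtain ⟨g, h, hg, hh⟩ := hNE k
  have hgood := (W.T k).good
  obtain ⟨c, hc, hE⟩ := hC _ _ (W.T k).d N hgood g hg
  obtain ⟨x, hx⟩ := Lim3_phi_surj W k g
  obtain ⟨xh, hxh⟩ := Lim3_phi_surj W k h
  -- the image of U lies in the elementary group of g
  have hUc : ∀ u ∈ U, W.φ k u ∈ Subgroup.zpowers c := by
    intro u hu
    refine (hE _).1 ⟨p, hp, ?_⟩
    have h1 := hcon x u hu
    simp only [map_mul, map_pow, map_inv, hx] at h1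
    have h2 : g ^ p * W.φ k u = W.φ k u * g ^ p := by
      have := mul_inv_eq_one.1 h1
      have h3 := mul_inv_eq_iff_eq_mul.1 this
      exact h3
    rw [← h2, mul_inv_cancel_right]
  obtain ⟨m, hm, -, hmU⟩ := Subgroup.exists_pow_mem_of_index_ne_zero
    (H := U) hfin.index_ne_zero (xh * x * xh⁻¹)
  have h1 := hUc _ hmU
  rw [map_pow, map_mul, map_mul, map_inv, hx, hxh, conj_pow] at h1
  obtain ⟨j, hj⟩ := Subgroup.mem_zpowers_iff.1 h1
  have hgc : g ∈ Subgroup.zpowers c := (hE g).1 ⟨1, le_rfl, by simp⟩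
  obtain ⟨a, ha⟩ := Subgroup.mem_zpowers_iff.1 hgc
  have hne0 : a * m ≠ 0 := by
    intro h0
    have h2 : g ^ m = 1 := by
      rw [← ha, ← zpow_natCast, ← zpow_mul, h0, zpow_zero]
    exact Lim3_pow_ne hgood hg hm h2
  have hmem : h ∈ Subgroup.zpowers c := by
    refine (hM _ _ (W.T k).d N hgood).1 c h (a * m) j hc hne0 ?_
    rw [hj, zpow_mul, ha, zpow_natCast]
  obtain ⟨m', hm', hm''⟩ := (hE h).2 hmem
  exact hh m' hm' hm''

end Pool.Agent.BURN
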