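import Pool.Agent.BURN.Stmts4

/-! Module LimM (5.6 of the blueprint): the (M) property passes to the limit. -/

namespace Pool.Agent.BURN

namespace LimMX

theorem step {N p : ℕ} (W : Tow N p) (A : Subgroup (W.T 0).G) (P : (W.T 0).X)
    (hfix : ∀ a ∈ A, a • P = P)
    (hM : ∀ c1 ∈ A, ∀ c2 ∈ A, ∀ c3 ∈ A, c1 ≠ 1 → c2 ≠ 1 → c3 ≠ 1 → ∀ y h : (W.T 0).G,
      c1 * (y⁻¹ * c2 * y) = h * c3 * h⁻¹ → y ∈ A) :
    ∀ k, (∃ Q : (W.T k).X, ∀ a ∈ A.map (W.φ k), a • Q = Q) ∧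
      (∀ c1 ∈ A.map (W.φ k), ∀ c2 ∈ A.map (W.φ k), ∀ c3 ∈ A.map (W.φ k),
        c1 ≠ 1 → c2 ≠ 1 → c3 ≠ 1 → ∀ y h : (W.T k).G,
        c1 * (y⁻¹ * c2 * y) = h * c3 * h⁻¹ → y ∈ A.map (W.φ k)) := by
  intro k
  induction k with
  | zero =>
    have h0 : A.map (W.φ 0) = A := Subgroup.map_id A
    rw [h0]
    exact ⟨⟨P, hfix⟩, hM⟩
  | succ k ih =>
    obtain ⟨⟨Q, hQ⟩, hMk⟩ := ih
    have h1 : A.map (W.φ (k + 1)) = (A.map (W.φ k)).map (W.π k) :=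
      (Subgroup.map_map A (W.π k) (W.φ k)).symm
    rw [h1]
    refine ⟨⟨W.ι k Q, ?_⟩, ?_⟩
    · rintro _ ⟨a, ha, rfl⟩
      rw [← (W.rel k).equiv, hQ a ha]
    · rintro _ ⟨c1, hc1, rfl⟩ _ ⟨c2, hc2, rfl⟩ _ ⟨c3, hc3, rfl⟩ n1 n2 n3 y h heq
      refine (W.rel k).mstep (A.map (W.φ k)) Q hQ hMk c1 hc1 c2 hc2 c3 hc3 ?_ ?_ ?_ y h heq
      · rintro rfl; exact n1 (map_one _)
      · rintro rfl; exact n2 (map_one _)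
      · rintro rfl; exact n3 (map_one _)

end LimMX

open LimMX

theorem LimM_proof (h1 : Stmt_Lim1) : Stmt_LimM := by
  intro N p W hp A P hfix hM c1 hc1 c2 hc2 c3 hc3 n1 n2 n3 y h hmem
  obtain ⟨hker, _, _, _, _, _, _, _, hnl, _⟩ := h1 N p W hp
  obtain ⟨k, hk⟩ := (hker _).1 hmem
  have hlox : ∀ c ∈ A, c ≠ 1 → W.φ k c ≠ 1 := by
    intro c hc hn hone
    refine hn (hnl c ?_ ((hker c).2 ⟨k, hone⟩))
    intro hlx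
    obtain ⟨m, hm⟩ := hlx P 0
    rw [hfix (c ^ m) (A.pow_mem hc m)] at hm
    have : (W.T 0).d P P = 0 := ((W.T 0).good.dg.eq_zero P P).2 rfl
    omega
  have hy := (step W A P hfix hM k).2 (W.φ k c1) ⟨c1, hc1, rfl⟩ (W.φ k c2) ⟨c2, hc2, rfl⟩
    (W.φ k c3) ⟨c3, hc3, rfl⟩ (hlox c1 hc1 n1) (hlox c2 hc2 n2) (hlox c3 hc3 n3)
    (W.φ k y) (W.φ k h) (by
      rw [map_mul, map_inv, mul_inv_eq_one] at hk
      simpa only [map_mul, map_inv] using hk)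
  obtain ⟨a, ha, hay⟩ := hy
  refine ⟨a, ha, (hker _).2 ⟨k, ?_⟩⟩
  rw [map_mul, map_inv, hay, mul_inv_cancel]

end Pool.Agent.BURN
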