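import Pool.Agent.BURN.Fix38

/-! 6.3: the step property (M). -/

namespace Pool.Agent.BURN.MStep

open Pool.Agent.BURN.Kit38 Pool.Agent.BURN.Fix38

theorem M1_M2 : 64 * M1 + 100 * dd ≤ M2 := by
  rw [M1_eq, M2_eq]
  have h0 := dd_ge
  have h1 : dd < 2 ^ dd := Nat.lt_two_pow_self
  have h2 : 2 ^ dd ≤ 2 ^ (4 * dd) := Nat.pow_le_pow_right (by norm_num) (by omega)
  have h3 : 2 ^ (4 * dd + 9) ≤ 2 ^ (202 * dd) := Nat.pow_le_pow_right (by norm_num) (by omega)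
  have h4 : 2 ^ (4 * dd + 9) = 512 * 2 ^ (4 * dd) := by rw [pow_add]; ring
  omega

theorem MStep_proof (hG : Stmt_GamDG) (hC : Stmt_KCD) (hR : Stmt_KRF) (hL : Stmt_LL)
    (hS : Stmt_KStab) (hMid : Stmt_Mid) (hLP : Stmt_LoxProd) (h3 : Stmt_S3)
    (h5 : Stmt_S5b) : Stmt_MStep := by
  intro S A P hAP hM c1 hc1 c2 hc2 c3 hc3 ne1 ne2 ne3 yb hb heq
  obtain ⟨y0, rfl⟩ := S.psurj yb
  obtain ⟨h0, rfl⟩ := S.psurj hb
  have n3 : S.π c3 ≠ 1 := by
    intro h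
    obtain ⟨h', -, h2⟩ := h3 S c3 1 1 (not_lox_of_fix S c3 P (hAP c3 hc3))
      (not_lox_of_fix S 1 P (one_smul _ _)) ne3 (by rw [one_mul, inv_one, mul_one, h, map_one])
    apply ne3
    have := congrArg (fun t => h'⁻¹ * t * h') h2
    simpa [mul_assoc] using this
  obtain ⟨rf, hdb, hib, hhb, hqle, hqmin, hlift⟩ := hR S
  have hdg := isDG S hG hC
  have hiso := isIso S hR
  have hM12 := M1_M2
  have hdd := dd_ge
  have hrho := rho_eq
  have hN0 := N0_eq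
  have hbet := bet1_le
  have zero : ∀ u : S.Gm, S.dg u u = 0 := fun u => (hdg.eq_zero _ _).2 rfl
  -- the product is not loxodromic
  have hnl : ¬ Lox S.db (S.π c1 * S.π (y0⁻¹ * c2 * y0)) := by
    have e : S.π c1 * S.π (y0⁻¹ * c2 * y0) = S.π (h0 * c3 * h0⁻¹) := by
      have := heq
      simp only [map_mul, map_inv] at this ⊢
      exact this
    rw [e]
    intro hlox
    obtain ⟨m, hm⟩ := hlox (S.q (S.bs (h0 • P))) 0
    have fx : ∀ m : ℕ, (h0 * c3 * h0⁻¹) ^ m • S.bs (h0 • P) = S.bs (h0 • P) := by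
      intro m
      have : (h0 * c3 * h0⁻¹) • S.bs (h0 • P) = S.bs (h0 • P) := by
        rw [smul_bs]
        congr 1
        rw [mul_smul, mul_smul, inv_smul_smul, hAP c3 hc3]
      induction m with
      | zero => simp
      | succ n ih => rw [pow_succ, mul_smul, this, ih]
    rw [← map_pow, q_smul, fx, (hdb.eq_zero _ _).2 rfl] at hm
    omega
  have hdist : S.db (S.q (S.bs P)) (S.q (S.bs (y0⁻¹ • P))) ≤ 8 * M1 + dd := by
    by_contra hcon
    push Not at hcon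
    apply hnl
    apply hLP S c1 (y0⁻¹ * c2 * y0) P (y0⁻¹ • P) ne1 _ (hAP c1 hc1) _ hcon
    · intro h
      apply ne2
      have := congrArg (fun t => y0 * t * y0⁻¹) h
      simpa [mul_assoc] using this
    · rw [mul_smul, mul_smul, smul_inv_smul, hAP c2 hc2]
  -- choose the lift of y
  obtain ⟨k, hkK, hk⟩ := hqmin (S.bs P) (S.bs (y0⁻¹ • P))
  have hkK' : k ∈ KK (Set.range (va (YE S.d S.E) rho)) S.R := hkK
  have hπk : S.π k = 1 := (S.pker k).2 hkK'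
  obtain ⟨y, hy⟩ : ∃ y, y = y0 * k⁻¹ := ⟨_, rfl⟩
  have hπy : S.π y = S.π y0 := by rw [hy, map_mul, map_inv, hπk, inv_one, mul_one]
  have hyP : S.bs (y⁻¹ • P) = k • S.bs (y0⁻¹ • P) := by
    rw [smul_bs, hy]; congr 1; rw [mul_inv_rev, inv_inv, mul_smul]
  obtain ⟨u, hu⟩ : ∃ u, u = c1 * (y⁻¹ * c2 * y) := ⟨_, rfl⟩
  have hyd : S.dg (S.bs P) (S.bs (y⁻¹ • P)) ≤ 8 * M1 + dd := by
    rw [hyP, hk]; exact hdist
  have huP : S.dg (S.bs P) (u • S.bs P) ≤ 16 * M1 + 2 * dd := by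
    have e1 : S.dg (S.bs P) (u • S.bs P) = S.dg (S.bs P) ((y⁻¹ * c2 * y) • S.bs P) := by
      have := hiso c1 (S.bs P) ((y⁻¹ * c2 * y) • S.bs P)
      rw [smul_bs S c1 P, hAP c1 hc1, ← mul_smul, ← hu] at this
      exact this
    have e2 : (y⁻¹ * c2 * y) • S.bs (y⁻¹ • P) = S.bs (y⁻¹ • P) := by
      rw [smul_bs]; congr 1
      rw [mul_smul, mul_smul, smul_inv_smul, hAP c2 hc2]
    have e3 := hiso (y⁻¹ * c2 * y) (S.bs (y⁻¹ • P)) (S.bs P)
    rw [e2] at e3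
    have t1 := hdg.tri (S.bs P) (S.bs (y⁻¹ • P)) ((y⁻¹ * c2 * y) • S.bs P)
    have t2 := hdg.symm (S.bs P) (S.bs (y⁻¹ • P))
    omega
  -- geodesic to the fixed point of h c3 h⁻¹
  obtain ⟨gb, hgb⟩ := exists_geod hdb (S.q (S.bs P)) (S.q (S.bs (h0 • P)))
  obtain ⟨w, γ, hw1, hw2, hγ, hγq⟩ := hlift (S.bs P) _ gb hgb
  obtain ⟨k2, hk2, hk2w⟩ := (S.qeq _ _).1 hw2.symm
  have hπk2 : S.π k2 = 1 := (S.pker k2).2 hk2
  obtain ⟨h, hh⟩ : ∃ h, h = k2 * h0 := ⟨_, rfl⟩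
  have hπh : S.π h = S.π h0 := by rw [hh, map_mul, hπk2, one_mul]
  have hwh : w = S.bs (h • P) := by rw [← hk2w, smul_bs, hh, mul_smul]
  have hπu : S.π u = S.π (h * c3 * h⁻¹) := by
    rw [hu, map_mul, map_mul, map_mul, map_inv, hπy, map_mul, map_mul, map_inv, hπh]
    exact heq
  have hcw : (h * c3 * h⁻¹) • w = w := by
    rw [hwh, smul_bs]; congr 1
    rw [mul_smul, mul_smul, inv_smul_smul, hAP c3 hc3]
  have hdispend : S.db (S.q w) (S.π u • S.q w) = 0 := by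
    rw [hπu, q_smul, hcw]; exact (hdb.eq_zero _ _).2 rfl
  have hdisp0 : S.db (S.q (S.bs P)) (S.π u • S.q (S.bs P)) ≤ 16 * M1 + 2 * dd := by
    rw [q_smul]; exact (hqle _ _).trans huP
  have hdisp : ∀ i ≤ S.dg (S.bs P) w, S.db (S.q (γ i)) (S.π u • S.q (γ i)) ≤ 16 * M1 + 3 * dd := by
    intro i hi
    rw [hγq i hi]
    have hi2 : i ≤ S.db (S.q (S.bs P)) (S.q (S.bs (h0 • P))) := by omega
    have b1 := hgb.btw' hi2
    have := (hMid S.Gb S.Xb S.db dd (16 * M1 + 2 * dd) _ _ gb (S.π u) hdb hhb hib hgb hdisp0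
      (by rw [← hw2, hdispend]; omega)).1 (gb i) b1
    omega
  rcases dich S hG hC hR hL hS hγ (16 * M1 + 3 * dd) (16 * M1 + 3 * dd) (by omega) (by omega)
    (by omega) (by show (0:ℕ) ≤ _; omega) u (by omega) hdisp with ⟨i, hi⟩ | hlow
  · exfalso
    have hnr : u ∉ RotS (S.E i) (S.nE i) := by
      intro hr
      have hk3 := ((hS S).2.2.2.1 i u hi).2 hr
      have hk3' : u ∈ KK (Set.range (va (YE S.d S.E) rho)) S.R := hk3
      have h1 := (S.pker u).2 hk3'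
      rw [hπu, map_mul, map_mul, map_inv] at h1
      apply n3
      have := congrArg (fun t => (S.π h)⁻¹ * t * S.π h) h1
      simpa [mul_assoc] using this
    exact h5 S i c3 u h (not_lox_of_fix S c3 P (hAP c3 hc3)) ne3 hi hnr hπu.symm
  · have hend := (hlow (S.dg (S.bs P) w) le_rfl)
    rw [hγ.2.1] at hend
    obtain ⟨hwht, hwd⟩ := hend
    obtain ⟨L1, -⟩ := hL S.G S.Gm S.dg (Set.range S.ap) S.R _ _ _ _ rf
    have hueq : u = h * c3 * h⁻¹ := by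
      apply L1 w (rho + 1) u (h * c3 * h⁻¹) (by omega)
      · intro c hc
        have := far_apex S hG hC w c hc
        have e : ht rho w.1 = 0 := by rw [hwh]; rfl
        omega
      · exact π_eq S _ _ hπu.symm
      · rw [hcw, zero]; omega
    rw [hu] at hueq
    have := hM c1 hc1 c2 hc2 c3 hc3 ne1 ne2 ne3 y h hueq
    exact ⟨y, this, hπy⟩

end Pool.Agent.BURN.MStep
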