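import Pool.Agent.BURN.Stmts3
import Pool.Agent.BURN.W97Mid

/-! module Mid (4.2) -/

namespace Pool.Agent.BURN

theorem Mid_proof : Stmt_Mid := by
  intro G X _ _ d δ l x y γ u h hy hi hg hx hyy
  have hg0 : γ 0 = x := hg.1
  refine ⟨fun p hb => w97_hulldisp h hy hi hb hx hyy, ?_, ?_⟩
  · intro t h1 h2
    obtain ⟨a1, a2, a3, -⟩ := w97_mid h hy hi hg hx hyy h1 h2
    have a4 := w97_middisp h hy hi hg hx hyy h1 h2
    unfold Tr
    rw [hg0]
    refine ⟨by rw [abs_le]; constructor <;> omega, by omega, a3, ?_⟩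
    rcases le_total t (d x (u • γ t)) with hc | hc
    · rw [min_eq_left hc, max_eq_right hc] at a4
      rw [abs_of_nonneg (by omega)]; omega
    · rw [min_eq_right hc, max_eq_left hc] at a4
      rw [abs_of_nonpos (by omega)]; omega
  · intro s t h1 h2 h3
    obtain ⟨a1, a2⟩ := w97_mid_mono h hy hi hg hx hyy h1 h2 h3
    unfold Tr
    rw [hg0]
    constructor <;> omega

end Pool.Agent.BURN
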