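import Pool.Agent.BURN.Basic
import Pool.Agent.BURN.Stmts3

/-! 4.7 (NA) -/

namespace Pool.Agent.BURN

namespace NAX

variable {G X : Type} [Group G] [MulAction G X] {d : X → X → ℕ}

theorem exists_min [Nonempty X] (g : G) : ∃ x : X, ∀ y, d x (g • x) ≤ d y (g • y) := by
  classical
  obtain ⟨x0⟩ := ‹Nonempty X›
  have h : ∃ n, ∃ x : X, d x (g • x) = n := ⟨_, x0, rfl⟩
  obtain ⟨x, hx⟩ := Nat.find_spec h
  refine ⟨x, fun y => ?_⟩
  rw [hx]
  exact Nat.find_min' h ⟨y, rfl⟩

theorem minSet_smul (hi : IsIso G d) {w : G} {v : X} (hv : v ∈ MinSet d w) {g : G}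
    (hg : g ∈ Subgroup.zpowers w) : g • v ∈ MinSet d w := by
  intro y
  obtain ⟨n, rfl⟩ := hg
  have e : w • (w ^ n) • v = (w ^ n) • w • v := by
    rw [smul_smul, smul_smul, (Commute.refl w).zpow_right n |>.eq]
  have e' : d ((fun x => w ^ x) n • v) (w • (fun x => w ^ x) n • v) = d v (w • v) := by
    change d ((w ^ n) • v) (w • (w ^ n) • v) = _
    rw [e, hi]
  rw [e']
  exact hv y

/-- product at `q` is large if one point is close to the other and far from `q`. -/
theorem gp_big (h : IsDG d) (a a' q : X) (A B : ℕ) (h1 : d a a' ≤ A) (h2 : A + B ≤ d a q) :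
    2 * B ≤ gp d a a' q := by
  have g1 := gp_add h a a' q
  have t1 := h.tri a a' q
  omega

end NAX

open NAX in
theorem NA_proof (hAxis : Stmt_Axis) (hMax : Stmt_MaxCyc) : Stmt_NA := by
  intro G X _ _ d N hG w e z l hw he he1 hz
  have hdg := hG.dg
  have hyp := hG.hyp
  have hi := hG.iso
  have := hG.nonempty
  have hdd := dd_ge
  obtain ⟨x0, hx0⟩ := exists_min (d := d) e
  obtain ⟨v, hv⟩ := exists_min (d := d) w
  have hv' : v ∈ MinSet d w := hv
  have hlox : Lox d e := (hMax G X d N hG).2.2.2.2 w e hw he he1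
  by_cases hm : 16 * dd + 2 ≤ d x0 (e • x0)
  · obtain ⟨hax, -, hq⟩ := hAxis G X d dd _ hdg hyp hi hm e x0 rfl hx0
    obtain ⟨q, ⟨i, hiq⟩, hq2⟩ := hq z
    -- the large power
    obtain ⟨k, hk⟩ : ∃ k : ℕ, k = Rr * (d x0 q + d x0 v + 10 * dd) + i.natAbs + 2 := ⟨_, rfl⟩
    have hbig : d x0 q + d x0 v + 10 * dd < d x0 (e ^ k • x0) := by
      have h1 := hG.stab e hlox x0 k
      by_contra hcon
      have h2 : Rr * d x0 (e ^ k • x0) ≤ Rr * (d x0 q + d x0 v + 10 * dd) :=
        Nat.mul_le_mul_left _ (by omega)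
      omega
    set a := e ^ (-(k : ℤ)) • x0 with ha
    set b := e ^ (k : ℤ) • x0 with hb
    set a' := e ^ (-(k : ℤ)) • v with ha'
    set b' := e ^ (k : ℤ) • v with hb'
    set u := e ^ i • x0 with hu
    set u' := e ^ (i + 1) • x0 with hu'
    have hda : d a x0 = d x0 (e ^ k • x0) := by
      have h1 := hi (e ^ k) a x0
      have h2 : e ^ k • a = x0 := by
        rw [ha, smul_smul, zpow_neg, zpow_natCast, mul_inv_cancel, one_smul]
      rw [h2] at h1
      exact h1.symm
    have hdb : d b x0 = d x0 (e ^ k • x0) := by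
      rw [hdg.symm, hb, zpow_natCast]
    have haa : d a a' = d x0 v := hi _ _ _
    have hbb : d b b' = d x0 v := hi _ _ _
    have hk1 : -(k : ℤ) < i := by omega
    have hk2 : i + 1 < (k : ℤ) := by omega
    have g1 : gp d a b u ≤ 4 * dd := hax _ _ _ hk1 (by omega)
    have g2 : gp d u b u' ≤ 4 * dd := hax _ _ _ (by omega) hk2
    have hqab : gp d a b q ≤ 8 * dd := by
      have e1 := gp_add hdg a b u
      have e2 := gp_add hdg u b u'
      have e3 := gp_add hdg a b q
      unfold Btw at hiq
      have t1 := hdg.tri a u q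
      have t2 := hdg.tri b u' q
      rw [hdg.symm u' q] at t2
      rw [hdg.symm b u] at e1
      omega
    have haq : d x0 v + 10 * dd ≤ d a q := by
      have t1 := hdg.tri a q x0
      rw [hdg.symm q x0] at t1
      omega
    have hbq : d x0 v + 10 * dd ≤ d b q := by
      have t1 := hdg.tri b q x0
      rw [hdg.symm q x0] at t1
      omega
    have G1 := gp_big hdg a a' q _ _ haa.le haq
    have G2 := gp_big hdg b b' q _ _ hbb.le hbq
    have H1 := hyp_gp hdg hyp a b a' q
    have h9 : gp d a' b q ≤ 9 * dd := by omega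
    have H2 := hyp_gp hdg hyp a' b b' q
    rw [gp_comm hdg b' b] at H2
    have h10 : gp d a' b' q ≤ 10 * dd := by omega
    obtain ⟨g, hg⟩ := exists_geod hdg a' b'
    obtain ⟨n1, n2⟩ := near_geod hdg hyp hg q
    refine ⟨g (gp d b' q a' / 2), ?_, ?_⟩
    · refine ⟨a', ?_, b', ?_, hg.btw' n1⟩
      · exact minSet_smul hi hv' (Subgroup.zpow_mem _ he _)
      · exact minSet_smul hi hv' (Subgroup.zpow_mem _ he _)
    · have t1 := hdg.tri z q (g (gp d b' q a' / 2))
      omega
  · have hm' : d x0 (e • x0) ≤ 16 * dd + 1 := by omega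
    obtain ⟨g, hg⟩ := exists_geod hdg z x0
    by_cases hn : d z x0 ≤ l + dd + 1
    · obtain ⟨y, hy, hy2⟩ := hG.near w e hw he he1 x0 (by omega)
      refine ⟨y, hy, ?_⟩
      have t1 := hdg.tri z x0 y
      omega
    · have hp1 : d z (g (l + dd + 1)) = l + dd + 1 := hg.dist_left (by omega)
      have hp2 : d (g (l + dd + 1)) x0 = d z x0 - (l + dd + 1) := hg.dist_right (by omega)
      have hpb : Btw d z (g (l + dd + 1)) x0 := hg.btw' (by omega)
      set p := g (l + dd + 1) with hp
      have hzp : gp d z x0 p = 0 := (btw_iff hdg _ _ _).1 hpb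
      have h1 : 2 * (dd + 1) ≤ gp d z (e • z) p :=
        gp_big hdg z (e • z) p l (dd + 1) hz (by omega)
      have H1 := hyp_gp hdg hyp z x0 (e • z) p
      have h2 : gp d (e • z) x0 p ≤ dd := by omega
      by_cases hc : gp d (e • x0) x0 p ≤ 2 * dd
      · have h3 : d p x0 ≤ d x0 (e • x0) + dd := by
          have e1 := gp_add hdg (e • x0) x0 p
          have t1 := hdg.tri x0 (e • x0) p
          rw [hdg.symm (e • x0) x0] at e1
          rw [hdg.symm p x0]
          omega
        obtain ⟨y, hy, hy2⟩ := hG.near w e hw he he1 x0 (by omega)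
        refine ⟨y, hy, ?_⟩
        have t1 := hdg.tri z x0 y
        omega
      · have H2 := hyp_gp hdg hyp (e • z) x0 (e • x0) p
        have h3 : gp d (e • z) (e • x0) p ≤ 2 * dd := by omega
        -- the translated geodesic
        have hlen : d (e • z) (e • x0) = d z x0 := hi _ _ _
        have hg' : IsGeod d (e • z) (e • x0) (fun t => e • g t) := by
          refine ⟨by simp only [hg.1], ?_, ?_⟩
          · change e • g _ = _
            rw [hlen, hg.2.1]
          · intro i j hij hj
            rw [hlen] at hj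
            change d (e • g i) (e • g j) = _
            rw [hi]
            exact hg.2.2 i j hij hj
        obtain ⟨n1, n2⟩ := near_geod hdg hyp hg' p
        set t' := gp d (e • x0) p (e • z) / 2 with ht'
        rw [hlen] at n1
        have n2' : d p (e • g t') ≤ 2 * dd := by
          have : d p (e • g t') ≤ (gp d (e • z) (e • x0) p + 1) / 2 + dd := n2
          omega
        have hr : d (e • g t') (e • x0) = d z x0 - t' := by
          rw [hi]; exact hg.dist_right n1
        have hpe : d p (e • p) ≤ d x0 (e • x0) + 4 * dd := by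
          have t1 := hdg.tri p (e • g t') (e • p)
          have t2 : d (e • g t') (e • p) = d (g t') p := hi _ _ _
          have t3 : d (g t') p ≤ d x0 (e • x0) + 2 * dd := by
            have s1 := hdg.tri p (e • g t') (e • x0)
            have s2 := hdg.tri p (e • x0) x0
            have s3 := hdg.tri (e • g t') p (e • x0)
            have s4 := hdg.tri p x0 (e • x0)
            rw [hdg.symm (e • x0) x0] at s2
            rw [hdg.symm (e • g t') p] at s3
            rcases Nat.le_total t' (l + dd + 1) with hh | hh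
            · rw [hp, hg.2.2 t' (l + dd + 1) hh (by omega)]
              omega
            · rw [hdg.symm, hp, hg.2.2 (l + dd + 1) t' hh (by omega)]
              omega
          omega
        obtain ⟨y, hy, hy2⟩ := hG.near w e hw he he1 p (by omega)
        refine ⟨y, hy, ?_⟩
        have t1 := hdg.tri z p y
        omega

end Pool.Agent.BURN
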