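import Pool.Agent.BURN.Basic
import Pool.Agent.BURN.Stmts2

/-! Section 3.7 of the blueprint: no deep shadows. -/

namespace Pool.Agent.BURN

theorem NoDeep_proof (hDG : Stmt_GamDG) (hLen : Stmt_GamLen) (hGuess : Stmt_Guess)
    (hHyp : Stmt_HypGam) : Stmt_NoDeep := by
  intro V I D Y ρ pr hCD hPr x y s s3 hs3 hs3ρ hsh
  obtain ⟨hdg, -, hlip, -, -, -, -, -⟩ := hDG V I D Y ρ hCD
  obtain ⟨hlen, -⟩ := hLen V I D Y ρ hCD
  obtain ⟨hG, -⟩ := hGuess V I D Y ρ pr hCD hPr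
  have hhyp := hHyp V I D Y ρ hCD
  -- heights
  have hht : ∀ g, IsGeod (dGam D Y ρ) (vb Y ρ x) (vb Y ρ y) g →
      ∀ j ≤ dGam D Y ρ (vb Y ρ x) (vb Y ρ y), ht ρ (g j).1 ≤ s3 := by
    intro g hg j hj
    obtain ⟨u, hu, hd⟩ := (hG x y g hg).2 j hj
    have hu' : ht ρ u.1 ≤ s := by
      rcases hu with ⟨p, hp, -, -⟩ | ⟨i, -, hA⟩
      · rw [hp]; simp [ht]
      · have hcl : Nat.clog 2 (D (pr i x) (pr i y)) ≤ s :=
          Nat.clog_le_of_le_pow (hsh i)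
        rcases hA with h | h | ⟨t, -, ht2, -, h | h⟩ | ⟨h1, h⟩
        · rw [h]; simp [ht]
        · rw [h]; simp [ht]
        · rw [h]; simp only [ht]; omega
        · rw [h]; simp only [ht]; omega
        · exfalso; omega
    have h1 := hlip u (g j)
    rw [hdg.symm u (g j)] at h1
    omega
  obtain ⟨g, hg⟩ := exists_geod hdg (vb Y ρ x) (vb Y ρ y)
  refine ⟨hht, ?_, ?_⟩
  · have := hlen (dGam D Y ρ (vb Y ρ x) (vb Y ρ y)) s3 g x y hg.2.2 hs3ρ (hht g hg)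
      (by rw [hg.1]; exact Or.inl rfl) (by rw [hg.2.1]; exact Or.inl rfl)
    rw [mul_comm]; exact this
  · intro i
    obtain ⟨h1, h2⟩ := near_geod hdg hhyp hg (va Y ρ i)
    have h3 := hht g hg _ h1
    have h4 := hlip (g (gp (dGam D Y ρ) (vb Y ρ y) (va Y ρ i) (vb Y ρ x) / 2)) (va Y ρ i)
    rw [hdg.symm (g _) (va Y ρ i)] at h4
    have h5 : ht ρ (va Y ρ i).1 = ρ + 1 := rfl
    rw [h5] at h4
    omega

end Pool.Agent.BURN
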