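import Pool.Agent.BURN.Basic
import Pool.Agent.BURN.Stmts1

/-! Section 1.9 of the blueprint: projections to quasiconvex sets. -/

namespace Pool.Agent.BURN

namespace ProjAux

variable {X : Type} {d : X → X → ℕ} {δ k : ℕ} {W : Set X}

theorem p1 (h : IsDG d) (hy : Hyp d δ) (hq : QC d k W) {x p w : X} (hn : IsNear d W x p)
    (hw : w ∈ W) : gp d x w p ≤ 2 * k + 2 * δ + 1 := by
  obtain ⟨g, hg⟩ := exists_geod h p w
  obtain ⟨ht, hd⟩ := near_geod h hy hg x
  obtain ⟨w', hw', hd'⟩ := hq p hn.1 w hw _ (hg.btw' ht)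
  have h1 := hn.2 w' hw'
  have h2 := h.tri x (g (gp d w x p / 2)) w'
  have h3 := gp_add_gp h x w p
  omega

theorem p2a (h : IsDG d) (hy : Hyp d δ) (hq : QC d k W) {x x' p p' : X} (hn : IsNear d W x p)
    (hn' : IsNear d W x' p') (hd : 2 * k + 3 * δ + 1 < d p p') :
    gp d x x' p ≤ 2 * k + 3 * δ + 1 := by
  have h1 := p1 h hy hq hn hn'.1
  have h2 := p1 h hy hq hn' hn.1
  have h3 := hyp_gp h hy x p' x' p
  have h4 := gp_add_gp h p x' p'
  have e1 := gp_comm h x' p p'
  have e2 := gp_comm h p' x' p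
  omega

theorem p2 (h : IsDG d) (hy : Hyp d δ) (hq : QC d k W) {x x' p p' : X} (hn : IsNear d W x p)
    (hn' : IsNear d W x' p') (hd : 2 * k + 3 * δ + 1 < d p p') :
    gp d x x' p ≤ 2 * k + 3 * δ + 1 ∧ gp d x x' p' ≤ 2 * k + 3 * δ + 1 ∧
      d x p + d p p' + d p' x' ≤ d x x' + 2 * (2 * k + 3 * δ + 1) := by
  have h1 := p2a h hy hq hn hn' hd
  have h2 := p2a h hy hq hn' hn (by rw [h.symm]; exact hd)
  rw [gp_comm h] at h2
  refine ⟨h1, h2, ?_⟩
  have h3 := p1 h hy hq hn' hn.1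
  have h4 := gp_add h x x' p
  have h5 := gp_add h x' p p'
  rw [h.symm x' p] at h4 h5
  rw [h.symm p' x']
  omega

end ProjAux

open ProjAux in
theorem Proj_proof : Stmt_Proj := by
  intro X d δ k c1 c2 c3 c5 W h hy hq e1 e3 e2 e5
  have ec3 : c3 = 2 * k + 3 * δ + 1 := by omega
  refine ⟨?_, ?_, ?_, ?_, ?_, ?_⟩
  · intro x p w hn hw
    rw [e1]; exact p1 h hy hq hn hw
  · intro x x' p p' hn hn' hd
    rw [ec3] at hd ⊢
    exact p2 h hy hq hn hn' hd
  · intro x x' p p' hn hn'
    by_cases hd : c3 < d p p'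
    · rw [ec3] at hd
      have := (p2 h hy hq hn hn' hd).2.2
      omega
    · omega
  · intro x p p' hn hn'
    have h1 := p1 h hy hq hn hn'.1
    have h2 := gp_add h x p' p
    have h3 := hn'.2 p hn.1
    rw [h.symm p' p] at h2
    have h4 := hn.2 p' hn'.1
    omega
  · intro x x' q p p' r hn hn' hb hr hd hd'
    rw [ec3] at hd hd'
    rw [h.symm] at hd
    have a1 := (p2 h hy hq hn hr hd).2.1
    have a2 := (p2 h hy hq hr hn' hd').1
    have g1 := gp_add h x q r
    have g2 := gp_add h q x' r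
    have t := h.tri x r x'
    rw [h.symm r x'] at t
    unfold Btw at hb
    omega
  · intro x x' p p' g hn hn' hd hg
    rw [ec3] at hd
    obtain ⟨a1, a2, -⟩ := p2 h hy hq hn hn' hd
    obtain ⟨b1, b2⟩ := near_geod h hy hg p
    obtain ⟨b1', b2'⟩ := near_geod h hy hg p'
    refine ⟨_, _, b1, b1', ?_, ?_, ?_⟩
    · rw [h.symm]; omega
    · rw [h.symm]; omega
    · generalize gp d x' p x / 2 = i at *
      generalize gp d x' p' x / 2 = j at *
      intro l hl hl'
      have hb : Btw d (g i) (g l) (g j) := by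
        rcases le_total i j with hij | hij
        · exact hg.btw (by omega) (by omega) b1'
        · exact btw_symm h (hg.btw (by omega) (by omega) b1)
      have z0 := (btw_iff h _ _ _).1 hb
      have z1 := gp_le_of_near h p (g i) p' (g l)
      have z2 := gp_le_of_near_right h (g i) p' (g j) (g l)
      obtain ⟨f, hf⟩ := exists_geod h p p'
      obtain ⟨y1, y2⟩ := near_geod h hy hf (g l)
      obtain ⟨w, hw, hdw⟩ := hq p hn.1 p' hn'.1 _ (hf.btw' y1)
      refine ⟨w, hw, ?_⟩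
      have t := h.tri (g l) (f (gp d p' (g l) p / 2)) w
      omega

end Pool.Agent.BURN
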