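import Pool.Agent.BURN.Stmts1
import Pool.Agent.BURN.Basic

/-! Section 2.5 of the blueprint: the quotient of a DG-space by a normal subgroup of its group of
isometries. -/

namespace Pool.Agent.BURN

namespace QuotExX

variable {G X : Type} [Group G] [MulAction G X] {d : X → X → ℕ} {K : Subgroup G}

theorem dK_le {x y : X} {k : G} (hk : k ∈ K) : dK d K x y ≤ d x (k • y) :=
  Nat.sInf_le ⟨k, hk, rfl⟩

theorem dK_spec (d : X → X → ℕ) (K : Subgroup G) (x y : X) :
    ∃ k ∈ K, d x (k • y) = dK d K x y := by
  have hne : {n | ∃ k ∈ K, n = d x (k • y)}.Nonempty := ⟨_, 1, K.one_mem, rfl⟩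
  obtain ⟨k, hk, e⟩ := Nat.sInf_mem hne
  exact ⟨k, hk, e.symm⟩

theorem dK_symm_le (h : IsDG d) (hi : IsIso G d) (x y : X) : dK d K y x ≤ dK d K x y := by
  obtain ⟨k, hk, e⟩ := dK_spec d K x y
  have h1 : dK d K y x ≤ d y (k⁻¹ • x) := dK_le (K.inv_mem hk)
  have h2 : d y (k⁻¹ • x) = d x (k • y) := by
    rw [← hi k y (k⁻¹ • x), smul_inv_smul, h.symm]
  omega

theorem dK_symm (h : IsDG d) (hi : IsIso G d) (x y : X) : dK d K x y = dK d K y x :=
  le_antisymm (dK_symm_le h hi y x) (dK_symm_le h hi x y)

theorem dK_tri (h : IsDG d) (hi : IsIso G d) (x y z : X) :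
    dK d K x z ≤ dK d K x y + dK d K y z := by
  obtain ⟨k1, hk1, e1⟩ := dK_spec d K x y
  obtain ⟨k2, hk2, e2⟩ := dK_spec d K y z
  have h1 : dK d K x z ≤ d x ((k1 * k2) • z) := dK_le (K.mul_mem hk1 hk2)
  have h2 := h.tri x (k1 • y) ((k1 * k2) • z)
  have h3 : d (k1 • y) ((k1 * k2) • z) = d y (k2 • z) := by rw [mul_smul, hi]
  omega

theorem dK_right_le (hi : IsIso G d) {x y : X} {k : G} (hk : k ∈ K) :
    dK d K x (k • y) ≤ dK d K x y := by
  obtain ⟨k1, hk1, e1⟩ := dK_spec d K x y
  have h1 : dK d K x (k • y) ≤ d x ((k1 * k⁻¹) • k • y) := dK_le (K.mul_mem hk1 (K.inv_mem hk))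
  rw [mul_smul, inv_smul_smul] at h1
  omega

theorem dK_right (hi : IsIso G d) {x y : X} {k : G} (hk : k ∈ K) :
    dK d K x (k • y) = dK d K x y := by
  refine le_antisymm (dK_right_le hi hk) ?_
  have := dK_right_le (d := d) hi (x := x) (y := k • y) (K.inv_mem hk)
  rwa [inv_smul_smul] at this

theorem dK_left (h : IsDG d) (hi : IsIso G d) {x y : X} {k : G} (hk : k ∈ K) :
    dK d K (k • x) y = dK d K x y := by
  rw [dK_symm h hi, dK_right hi hk, dK_symm h hi]

theorem dK_smul_le (hi : IsIso G d) [K.Normal] (g : G) (x y : X) :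
    dK d K (g • x) (g • y) ≤ dK d K x y := by
  obtain ⟨k, hk, e⟩ := dK_spec d K x y
  have hk' : g * k * g⁻¹ ∈ K := ‹K.Normal›.conj_mem k hk g
  have h1 : dK d K (g • x) (g • y) ≤ d (g • x) ((g * k * g⁻¹) • g • y) := dK_le hk'
  have h2 : (g * k * g⁻¹) • g • y = g • k • y := by
    rw [mul_smul, inv_smul_smul, mul_smul]
  rw [h2, hi] at h1
  omega

theorem dK_smul (hi : IsIso G d) [K.Normal] (g : G) (x y : X) :
    dK d K (g • x) (g • y) = dK d K x y := by
  refine le_antisymm (dK_smul_le hi g x y) ?_
  have := dK_smul_le (d := d) (K := K) hi g⁻¹ (g • x) (g • y)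
  rwa [inv_smul_smul, inv_smul_smul] at this

/-- the orbit relation of `K` -/
def rel (X : Type) [MulAction G X] (K : Subgroup G) : Setoid X where
  r x y := ∃ k ∈ K, k • x = y
  iseqv := by
    refine ⟨fun x => ⟨1, K.one_mem, one_smul _ _⟩, ?_, ?_⟩
    · rintro x y ⟨k, hk, rfl⟩
      exact ⟨k⁻¹, K.inv_mem hk, inv_smul_smul _ _⟩
    · rintro x y z ⟨k, hk, rfl⟩ ⟨k', hk', rfl⟩
      exact ⟨k' * k, K.mul_mem hk' hk, mul_smul _ _ _⟩

/-- the action of the quotient group on the orbit space -/
def act (X : Type) [MulAction G X] (K : Subgroup G) [K.Normal] (gb : G ⧸ K)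
    (yb : Quotient (rel X K)) : Quotient (rel X K) :=
  Quotient.liftOn₂' gb yb (fun g x => (Quotient.mk (rel X K) (g • x))) (by
    intro g x g' x' hg hx
    have hg' : g⁻¹ * g' ∈ K := by
      rw [← QuotientGroup.leftRel_apply]; exact hg
    obtain ⟨k, hk, rfl⟩ := hx
    apply Quotient.sound
    refine ⟨g' * k * g⁻¹, ?_, ?_⟩
    · have h1 : g * (g⁻¹ * g') * g⁻¹ ∈ K := ‹K.Normal›.conj_mem _ hg' g
      have h2 : g * k * g⁻¹ ∈ K := ‹K.Normal›.conj_mem _ hk g
      have h3 := K.mul_mem h1 h2
      have e : g * (g⁻¹ * g') * g⁻¹ * (g * k * g⁻¹) = g' * k * g⁻¹ := by group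
      rwa [e] at h3
    · simp only [mul_smul, inv_smul_smul])

theorem act_mk (K : Subgroup G) [K.Normal] (g : G) (x : X) :
    act X K (QuotientGroup.mk g) (Quotient.mk (rel X K) x) = Quotient.mk (rel X K) (g • x) := rfl

/-- the action of the quotient group on the orbit space -/
def action (X : Type) [MulAction G X] (K : Subgroup G) [K.Normal] :
    MulAction (G ⧸ K) (Quotient (rel X K)) where
  smul := act X K
  one_smul := by
    intro b
    induction b using Quotient.inductionOn with
    | h x =>
      change act X K (QuotientGroup.mk 1) (Quotient.mk (rel X K) x) = _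
      rw [act_mk, one_smul]
  mul_smul := by
    intro g g' b
    induction b using Quotient.inductionOn with
    | h x =>
      induction g using QuotientGroup.induction_on with
      | H g =>
        induction g' using QuotientGroup.induction_on with
        | H g' =>
          change act X K (QuotientGroup.mk (g * g')) (Quotient.mk (rel X K) x) =
            act X K (QuotientGroup.mk g) (act X K (QuotientGroup.mk g') (Quotient.mk (rel X K) x))
          rw [act_mk, act_mk, act_mk, mul_smul]

end QuotExX

open QuotExX in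
theorem QuotEx_proof : Stmt_QuotEx := by
  intro G X _ _ d K _ h hi
  refine ⟨?_, ?_⟩
  · refine ⟨Quotient (rel X K), action X K, fun a b => Quotient.liftOn₂' a b (fun x y => dK d K x y)
      ?_, Quotient.mk (rel X K), ?_⟩
    · rintro x y x' y' ⟨k, hk, rfl⟩ ⟨k', hk', rfl⟩
      change dK d K x y = dK d K (k • x) (k' • y)
      rw [dK_right hi hk', dK_left h hi hk]
    · letI := action X K
      refine ⟨Quotient.mk_surjective, ?_, ?_, ?_⟩
      · intro x y
        constructor
        · intro e; exact Quotient.exact e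
        · intro e; exact Quotient.sound e
      · intro x y; rfl
      · intro g x; exact act_mk K g x
  · intro Y _ dY q hq
    have symm : ∀ a b, dY a b = dY b a := by
      intro a b
      obtain ⟨x, rfl⟩ := hq.surj a
      obtain ⟨y, rfl⟩ := hq.surj b
      rw [hq.dist, hq.dist, dK_symm h hi]
    have tri : ∀ a b c, dY a c ≤ dY a b + dY b c := by
      intro a b c
      obtain ⟨x, rfl⟩ := hq.surj a
      obtain ⟨y, rfl⟩ := hq.surj b
      obtain ⟨z, rfl⟩ := hq.surj c
      rw [hq.dist, hq.dist, hq.dist]; exact dK_tri h hi x y z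
    have qk : ∀ (k : G) (y : X), k ∈ K → q (k • y) = q y := by
      intro k y hk
      exact ((hq.eq_iff y (k • y)).2 ⟨k, hk, rfl⟩).symm
    have le : ∀ x y, dY (q x) (q y) ≤ d x y := by
      intro x y
      rw [hq.dist]
      have := dK_le (d := d) (x := x) (y := y) K.one_mem
      rwa [one_smul] at this
    have min : ∀ x y, ∃ k ∈ K, d x (k • y) = dY (q x) (q y) := by
      intro x y; rw [hq.dist]; exact dK_spec d K x y
    have lift1 : ∀ (x : X) (b : Y), ∃ y, q y = b ∧ d x y = dY (q x) b := by
      intro x b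
      obtain ⟨y, rfl⟩ := hq.surj b
      obtain ⟨k, hk, e⟩ := min x y
      exact ⟨k • y, qk k y hk, e⟩
    have dg : IsDG dY := by
      refine ⟨?_, symm, tri, ?_⟩
      · intro a b
        obtain ⟨x, rfl⟩ := hq.surj a
        obtain ⟨y, rfl⟩ := hq.surj b
        constructor
        · intro e
          obtain ⟨k, hk, e'⟩ := min x y
          rw [e] at e'
          have := (h.eq_zero _ _).1 e'
          rw [this, qk k y hk]
        · intro e
          have h1 := le x x
          rw [(h.eq_zero x x).2 rfl] at h1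
          rw [← e]; omega
      · intro a b t ht
        obtain ⟨x, rfl⟩ := hq.surj a
        obtain ⟨y, rfl, e⟩ := lift1 x b
        obtain ⟨z, hz1, hz2⟩ := h.geo x y t (by omega)
        have h1 := le x z
        have h2 := le z y
        have h3 := tri (q x) (q z) (q y)
        exact ⟨q z, by omega, by omega⟩
    refine ⟨dg, ?_, le, min, ?_⟩
    · intro gb a b
      induction gb using QuotientGroup.induction_on with
      | H g =>
        obtain ⟨x, rfl⟩ := hq.surj a
        obtain ⟨y, rfl⟩ := hq.surj b
        rw [hq.smul, hq.smul, hq.dist, hq.dist, dK_smul hi]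
    · intro x yb g hg
      choose nx nx1 nx2 using lift1
      let g' : ℕ → X := fun n => Nat.rec x (fun i u => nx u (g (i + 1))) n
      have e0 : g' 0 = x := rfl
      have es : ∀ i, g' (i + 1) = nx (g' i) (g (i + 1)) := fun i => rfl
      have hqg : ∀ i, q (g' i) = g i := by
        intro i
        cases i with
        | zero => rw [e0, hg.1]
        | succ i => rw [es, nx1]
      have hstep : ∀ i, i < dY (q x) yb → d (g' i) (g' (i + 1)) = 1 := by
        intro i hi'
        rw [es, nx2, hqg, hg.2.2 i (i + 1) (by omega) (by omega)]; omega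
      have hup : ∀ i n, i + n ≤ dY (q x) yb → d (g' i) (g' (i + n)) ≤ n := by
        intro i n
        induction n with
        | zero => intro _; rw [Nat.add_zero, (h.eq_zero _ _).2 rfl]
        | succ n ih =>
          intro hn
          have h1 := ih (by omega)
          have h2 := hstep (i + n) (by omega)
          have h3 := h.tri (g' i) (g' (i + n)) (g' (i + n + 1))
          have e : i + (n + 1) = i + n + 1 := by omega
          rw [e]; omega
      have hd : ∀ i j, i ≤ j → j ≤ dY (q x) yb → d (g' i) (g' j) = j - i := by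
        intro i j hij hj
        have h1 := hup i (j - i) (by omega)
        have e : i + (j - i) = j := by omega
        rw [e] at h1
        have h2 := le (g' i) (g' j)
        rw [hqg, hqg, hg.2.2 i j hij hj] at h2
        omega
      have hD : d x (g' (dY (q x) yb)) = dY (q x) yb := by
        have := hd 0 (dY (q x) yb) (by omega) le_rfl
        rw [e0] at this; omega
      refine ⟨g' (dY (q x) yb), g', hD, ⟨e0, ?_, ?_⟩, ?_⟩
      · rw [hD]
      · rw [hD]; exact hd
      · intro i _; exact hqg i

end Pool.Agent.BURN
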