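import Pool.Agent.BURN.Basic
import Pool.Agent.BURN.Stmts1

/-! 2.5 of the blueprint: the quotient by the rotations is hyperbolic. -/

namespace Pool.Agent.BURN

theorem QuotHyp_proof (hRLC : Stmt_RLC) (hLad : Stmt_Ladder) (hTri : Stmt_Triangle)
    (hQ : Stmt_QuotEx) (hIrr : Stmt_IrrMin) : Stmt_QuotHyp := by
  intro G X _ _ d C R δ α β σ hR hN Y _ dY q hq
  obtain ⟨hDY, hIY, hle, hlift, -⟩ := (hQ G X d (KK C R) hR.dg hR.iso).2 Y dY q hq
  obtain ⟨hmin, hsym, htr⟩ := hIrr G X d C R δ α β σ hR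
  have hqk : ∀ k ∈ KK C R, ∀ x, q (k • x) = q x := by
    intro k hk x
    exact ((hq.eq_iff x (k • x)).2 ⟨k, hk, rfl⟩).symm
  set η := eta δ β with hη
  set θ := tht δ β with hθ
  let L : Y → Y → Set Y := fun a b => {p | ∃ x y z, q x = a ∧ q y = b ∧ Irr d C R η θ x y ∧
    Btw d x z y ∧ q z = p}
  set h := CL δ α β + CT δ β + 2 with hh
  have key := hRLC Y dY Set.univ h L hDY (by omega) ?_ ?_ ?_
  · intro x y z w
    exact key.2.2 x trivial y trivial z trivial w trivial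
  · -- R1
    rintro a - b - c - p ⟨x1, z1, w, hx1, hz1, hI1, hb1, rfl⟩
    obtain ⟨y, rfl⟩ := hq.surj b
    obtain ⟨k0, hk0, he0⟩ := hlift y x1
    obtain ⟨k00, hk00, he00⟩ := hlift y z1
    set x := k0 • x1 with hx
    set z := k00 • z1 with hz
    have hqx : q x = a := by rw [hx, hqk k0 hk0, hx1]
    have hqz : q z = c := by rw [hz, hqk k00 hk00, hz1]
    have hdx : d x y = dK d (KK C R) x y := by
      rw [← hq.dist, hR.dg.symm, he0, hDY.symm, hqx, hx1]
    have hdz : d y z = dK d (KK C R) y z := by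
      rw [← hq.dist, he00, hqz, hz1]
    obtain ⟨g1, hg1⟩ := exists_geod hR.dg x y
    obtain ⟨g2, hg2⟩ := exists_geod hR.dg y z
    obtain ⟨k, hk, hIk, hthin⟩ := hTri G X d C R δ α β σ hR x y z g1 g2 hdx hdz hg1 hg2
    -- the irreducible pair (x, k0 • z1)
    have hI2 : Irr d C R η θ x (k0 • z1) := htr k0 _ _ hI1
    have hb2 : Btw d x (k0 • w) (k0 • z1) := by
      unfold Btw at *; rw [hx, hR.iso, hR.iso, hR.iso]; exact hb1
    have hq3 : q (k0 • z1) = q (k • z) := by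
      rw [hqk k0 hk0, hqk k hk, hqz, hz1]
    obtain ⟨k3, hk3, he3⟩ := (hq.eq_iff _ _).1 hq3
    obtain ⟨g, hg, hgp⟩ := exists_geod_through hR.dg hb2
    obtain ⟨g', hg'⟩ := exists_geod hR.dg x (k3 • k0 • z1)
    have hI3 : Irr d C R η θ x (k3 • k0 • z1) := by rw [he3]; exact hIk
    have hdle : d x (k0 • w) ≤ d x (k0 • z1) := by unfold Btw at hb2; omega
    obtain ⟨k', hk', j, hj, hdj⟩ := hLad G X d C R δ α β σ hR x (k0 • z1) k3 g g' hk3 hg hg' hI2 hI3
      (d x (k0 • w)) hdle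
    rw [hgp] at hdj
    have hbj : Btw d x (g' j) (k • z) := by
      have := hg'.btw' hj
      rwa [he3] at this
    have e1 : dY (q w) (q (g' j)) ≤ CL δ α β := by
      have := hle (k' • k0 • w) (g' j)
      rw [hqk k' hk', hqk k0 hk0] at this
      omega
    rcases hthin (g' j) hbj with ⟨i, hi, hdi⟩ | ⟨i, hi, hdi⟩
    · refine ⟨q (g1 i), Or.inl ⟨x, y, g1 i, hqx, rfl, (hmin x y hdx).2, hg1.btw' hi, rfl⟩, ?_⟩
      have e2 := hle (g' j) (g1 i)
      have e3 := hDY.tri (q w) (q (g' j)) (q (g1 i))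
      omega
    · refine ⟨q (g2 i), Or.inr ⟨y, z, g2 i, rfl, hqz, (hmin y z hdz).2, hg2.btw' hi, rfl⟩, ?_⟩
      have e2 := hle (g' j) (k • g2 i)
      rw [hqk k hk] at e2
      have e3 := hDY.tri (q w) (q (g' j)) (q (g2 i))
      omega
  · -- R2
    rintro a - b - g hg hno p ⟨x, y, w, hx, hy, hI, hb, rfl⟩
    have hd1 : dY a b ≤ 1 := by
      by_contra hcon
      exact hno 1 (by omega) (by omega) trivial
    obtain ⟨k, hk, he⟩ := hlift x y
    rw [hx, hy] at he
    have hdk : d x (k • y) = dK d (KK C R) x (k • y) := by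
      rw [← hq.dist, hqk k hk, hx, hy, he]
    obtain ⟨g1, hg1, hgw⟩ := exists_geod_through hR.dg hb
    obtain ⟨g2, hg2⟩ := exists_geod hR.dg x (k • y)
    have hdle : d x w ≤ d x y := by unfold Btw at hb; omega
    obtain ⟨k', hk', j, hj, hdj⟩ := hLad G X d C R δ α β σ hR x y k g1 g2 hk hg1 hg2 hI
      (hmin x _ hdk).2 (d x w) hdle
    rw [hgw] at hdj
    have e1 := hle (k' • w) (g2 j)
    rw [hqk k' hk'] at e1
    by_cases hj0 : j = 0
    · refine ⟨0, by omega, ?_⟩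
      rw [hg.1, ← hx]
      rw [hj0, hg2.1] at e1 hdj
      omega
    · have hj1 : j = d x (k • y) := by omega
      refine ⟨dY a b, le_rfl, ?_⟩
      rw [hg.2.1, ← hy]
      rw [hj1, hg2.2.1, hqk k hk] at e1
      rw [hj1, hg2.2.1] at hdj
      omega
  · -- R3
    rintro a - b -
    obtain ⟨x, rfl⟩ := hq.surj a
    obtain ⟨y, rfl⟩ := hq.surj b
    obtain ⟨k, hk, he⟩ := hlift x y
    have hdk : d x (k • y) = dK d (KK C R) x (k • y) := by
      rw [← hq.dist, hqk k hk, he]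
    obtain ⟨g, hg⟩ := exists_geod hR.dg x (k • y)
    refine ⟨d x (k • y), fun i => q (g i), ?_, ?_, ?_, ?_⟩
    · simp only [hg.1]
    · simp only [hg.2.1, hqk k hk]
    · intro j hj
      exact ⟨x, k • y, g j, rfl, hqk k hk y, (hmin x _ hdk).2, hg.btw' hj, rfl⟩
    · intro j hj
      have e1 := hle (g j) (g (j + 1))
      have e2 := hg.2.2 j (j + 1) (by omega) (by omega)
      have : dY (q (g j)) (q (g (j + 1))) ≤ h := by omega
      exact this

end Pool.Agent.BURN
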