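import Pool.Agent.BURN.Stmts2
import Pool.Agent.BURN.Basic

/-! Section 3.4, condition (R1) of the guessing lemma for the cone-off. -/

namespace Pool.Agent.BURN

namespace R1X

variable {V I : Type} {D : V → V → ℕ} {Y : I → Set V} {ρ : ℕ} {pr : I → V → V}

/-- the cone vertex `(i,y,s)` -/
def vc (Y : I → Set V) (ρ : ℕ) (i : I) (y : V) (s : ℕ) (hy : y ∈ Y i) (h1 : 1 ≤ s)
    (h2 : s ≤ ρ) : Gam Y ρ := ⟨.c i y s, hy, h1, h2⟩

theorem deep_symm {i : I} {x y p : V} : Deep D pr i x y p ↔ Deep D pr i y x p := by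
  unfold Deep; exact and_comm

theorem lset_symm (hD : IsDG D) (x y : V) : Lset D Y ρ pr x y = Lset D Y ρ pr y x := by
  have key : ∀ x y, Lset D Y ρ pr x y ⊆ Lset D Y ρ pr y x := by
    intro x y u hu
    rcases hu with ⟨p, hp, hb, hd⟩ | ⟨i, hi, ha⟩
    · exact Or.inl ⟨p, hp, btw_symm hD hb, fun i => fun h => hd i (deep_symm.1 h)⟩
    · refine Or.inr ⟨i, by rw [hD.symm]; exact hi, ?_⟩
      rcases ha with h | h | ⟨t, h1, h2, h3, h4⟩ | ⟨h1, h2⟩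
      · exact Or.inr (Or.inl h)
      · exact Or.inl h
      · exact Or.inr (Or.inr (Or.inl ⟨t, h1, by rw [hD.symm]; exact h2, h3, h4.symm⟩))
      · exact Or.inr (Or.inr (Or.inr ⟨by rw [hD.symm]; exact h1, h2⟩))
  exact Set.Subset.antisymm (key x y) (key y x)

/-- the feet of a long projection are in the guessed path -/
theorem foot_mem {x y : V} {i : I} (h : 100 ≤ D (pr i x) (pr i y)) :
    vb Y ρ (pr i x) ∈ Lset D Y ρ pr x y ∧ vb Y ρ (pr i y) ∈ Lset D Y ρ pr x y :=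
  ⟨Or.inr ⟨i, h, Or.inl rfl⟩, Or.inr ⟨i, h, Or.inr (Or.inl rfl)⟩⟩

/-- one side of part (a) -/
theorem partA_side (hDG : Stmt_GamDG) (hSh : Stmt_Shadow) (hCD : CD D Y ρ) (hpr : IsPr D Y pr)
    {x y z p q : V} (hnd : ∀ i, ¬ Deep D pr i x z p) (hq : Btw D x q y) (hpq : D p q ≤ 3) :
    ∃ w ∈ Lset D Y ρ pr x y ∪ Lset D Y ρ pr y z, dGam D Y ρ (vb Y ρ p) w ≤ 232 := by
  have hD := hCD.dg
  obtain ⟨s1, s2, s3, s4, s5, s6⟩ := hSh V I D Y ρ pr hCD hpr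
  obtain ⟨g1, g2, g3, g4, g5, g6, g7, g8⟩ := hDG V I D Y ρ hCD
  by_cases hdeep : ∃ i, Deep D pr i x y q
  · obtain ⟨i, hi⟩ := hdeep
    obtain ⟨d1, d2⟩ := s3 i x y q hq hi
    have e1 := s2 i p q
    have t1 := hD.tri p q (pr i q)
    have t2 := hD.tri p (pr i q) (pr i p)
    have e2 := hD.symm (pr i q) (pr i p)
    have hpp : D p (pr i p) ≤ 33 := by omega
    have hn := hnd i
    unfold Deep at hn
    by_cases c1 : D (pr i p) (pr i x) ≤ 100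
    · refine ⟨vb Y ρ (pr i x), Or.inl (foot_mem (by omega)).1, ?_⟩
      refine (g5 p (pr i x)).trans ?_
      have t3 := hD.tri p (pr i p) (pr i x)
      omega
    · have c2 : D (pr i p) (pr i z) ≤ 100 := by
        by_contra hc
        exact hn ⟨by omega, by omega⟩
      by_cases c3 : 100 ≤ D (pr i y) (pr i z)
      · refine ⟨vb Y ρ (pr i z), Or.inr (foot_mem c3).2, ?_⟩
        refine (g5 p (pr i z)).trans ?_
        have t3 := hD.tri p (pr i p) (pr i z)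
        omega
      · refine ⟨vb Y ρ (pr i y), Or.inl (foot_mem (by omega)).2, ?_⟩
        refine (g5 p (pr i y)).trans ?_
        have t3 := hD.tri p (pr i p) (pr i z)
        have t4 := hD.tri p (pr i z) (pr i y)
        have e3 := hD.symm (pr i z) (pr i y)
        omega
  · refine ⟨vb Y ρ q, Or.inl (Or.inl ⟨q, rfl, hq, fun i h => hdeep ⟨i, h⟩⟩), ?_⟩
    exact (g5 p q).trans (by omega)

/-- part (a): a point of the core of the guessed path -/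
theorem partA (hDG : Stmt_GamDG) (hSh : Stmt_Shadow) (hCD : CD D Y ρ) (hpr : IsPr D Y pr)
    {x y z p : V} (hp : Btw D x p z) (hnd : ∀ i, ¬ Deep D pr i x z p) :
    ∃ w ∈ Lset D Y ρ pr x y ∪ Lset D Y ρ pr y z, dGam D Y ρ (vb Y ρ p) w ≤ 232 := by
  have hD := hCD.dg
  have h0 := (btw_iff hD x p z).1 hp
  have h1 := hyp_gp hD hCD.hyp x z y p
  rw [h0] at h1
  -- a near point of a side
  have near : ∀ a b : V, gp D a b p ≤ 2 → ∃ q, Btw D a q b ∧ D p q ≤ 3 := by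
    intro a b hab
    obtain ⟨g, hg⟩ := exists_geod hD a b
    obtain ⟨hl, hd⟩ := near_geod hD hCD.hyp hg p
    exact ⟨_, hg.btw' hl, by omega⟩
  rcases Nat.le_total (gp D x y p) (gp D y z p) with h | h
  · rw [min_eq_left h] at h1
    obtain ⟨q, hq, hpq⟩ := near x y (by omega)
    exact partA_side hDG hSh hCD hpr hnd hq hpq
  · rw [min_eq_right h] at h1
    obtain ⟨q, hq, hpq⟩ := near y z (by omega)
    obtain ⟨w, hw, hd⟩ := partA_side (x := z) (y := y) (z := x) hDG hSh hCD hpr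
      (fun i hi => hnd i (deep_symm.1 hi)) (btw_symm hD hq) hpq
    rw [lset_symm hD z y, lset_symm hD y x, Set.union_comm] at hw
    exact ⟨w, hw, hd⟩

/-- the left foot of a long projection -/
theorem footA (hDG : Stmt_GamDG) (hSh : Stmt_Shadow) (hCD : CD D Y ρ) (hpr : IsPr D Y pr)
    {x y z : V} {i : I} (hi : 100 ≤ D (pr i x) (pr i z)) :
    ∃ w ∈ Lset D Y ρ pr x y ∪ Lset D Y ρ pr y z, dGam D Y ρ (vb Y ρ (pr i x)) w ≤ 239 := by
  have hD := hCD.dg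
  obtain ⟨s1, s2, s3, s4, s5, s6⟩ := hSh V I D Y ρ pr hCD hpr
  obtain ⟨g1, g2, g3, g4, g5, g6, g7, g8⟩ := hDG V I D Y ρ hCD
  obtain ⟨g, hg⟩ := exists_geod hD x z
  obtain ⟨t1, t2, h12, h2, h3, h4, h5, h6⟩ := s4 i x z g hg hi
  obtain ⟨w, hw, hd⟩ := partA (y := y) hDG hSh hCD hpr (hg.btw' (by omega : t1 ≤ D x z)) h5
  refine ⟨w, hw, ?_⟩
  have a1 := g1.tri (vb Y ρ (pr i x)) (vb Y ρ (g t1)) w
  have a2 := g5 (pr i x) (g t1)
  rw [hD.symm] at a2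
  omega

theorem clog_lt {t n : ℕ} (h1 : 1 ≤ t) (h : t ≤ Nat.clog 2 n) : 2 ^ (t - 1) < n := by
  by_contra hc
  have := (Nat.clog_le_iff_le_pow (by norm_num : 1 < 2)).2 (not_lt.1 hc)
  omega

theorem lt_clog {t n : ℕ} (h : 2 ^ t < n) : t + 1 ≤ Nat.clog 2 n := by
  by_contra hc
  have := (Nat.clog_le_iff_le_pow (by norm_num : 1 < 2)).1 (by omega : Nat.clog 2 n ≤ t)
  omega

/-- part (b): points of the arch on the side of `x` -/
theorem partB (hDG : Stmt_GamDG) (hSh : Stmt_Shadow) (hCD : CD D Y ρ) (hpr : IsPr D Y pr)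
    {x y z : V} {i : I} (hi : 100 ≤ D (pr i x) (pr i z)) {t : ℕ} (h1 : 1 ≤ t)
    (h2 : t ≤ Nat.clog 2 (D (pr i x) (pr i z))) (h3 : t ≤ ρ) (u : Gam Y ρ)
    (hu : u.1 = .c i (pr i x) t) :
    ∃ w ∈ Lset D Y ρ pr x y ∪ Lset D Y ρ pr y z, dGam D Y ρ u w ≤ 250 := by
  have hD := hCD.dg
  obtain ⟨g1, g2, g3, g4, g5, g6, g7, g8⟩ := hDG V I D Y ρ hCD
  have hxY : pr i x ∈ Y i := (hpr i x).1
  have hyY : pr i y ∈ Y i := (hpr i y).1
  by_cases ht : t ≤ 8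
  · obtain ⟨w, hw, hd⟩ := footA (y := y) hDG hSh hCD hpr hi
    refine ⟨w, hw, ?_⟩
    have a1 := g1.tri u (vb Y ρ (pr i x)) w
    have a2 := g7 i (pr i x) 0 t (vb Y ρ (pr i x)) u (Nat.zero_le _) (Or.inl ⟨rfl, hxY, rfl⟩)
      (Or.inr ⟨h1, hu⟩)
    rw [g1.symm] at a2
    omega
  · have hlt := clog_lt h1 h2
    have hpow : 2 ^ (t - 1) = 2 * 2 ^ (t - 2) := by
      rw [← pow_succ']
      congr 1
      omega
    have h128 : 128 ≤ 2 ^ (t - 2) := by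
      calc (128 : ℕ) = 2 ^ 7 := by norm_num
        _ ≤ 2 ^ (t - 2) := Nat.pow_le_pow_right (by norm_num) (by omega)
    have tri := hD.tri (pr i x) (pr i y) (pr i z)
    have p1 : 1 ≤ t - 1 := by omega
    have p2 : t - 1 ≤ ρ := by omega
    have a2 := g7 i (pr i x) (t - 1) t (vc Y ρ i (pr i x) (t - 1) hxY p1 p2) u
      (by omega) (Or.inr ⟨p1, rfl⟩) (Or.inr ⟨h1, hu⟩)
    rw [g1.symm] at a2
    by_cases hAB : 2 ^ (t - 2) < D (pr i x) (pr i y)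
    · have hT := lt_clog hAB
      refine ⟨vc Y ρ i (pr i x) (t - 1) hxY p1 p2, Or.inl (Or.inr ⟨i, by omega,
        Or.inr (Or.inr (Or.inl ⟨t - 1, by omega, by omega, by omega, Or.inl rfl⟩))⟩), ?_⟩
      omega
    · have hBC : 2 ^ (t - 2) < D (pr i y) (pr i z) := by omega
      have hT := lt_clog hBC
      refine ⟨vc Y ρ i (pr i y) (t - 1) hyY p1 p2, Or.inr (Or.inr ⟨i, by omega,
        Or.inr (Or.inr (Or.inl ⟨t - 1, by omega, by omega, by omega, Or.inl rfl⟩))⟩), ?_⟩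
      have a3 := g8 i (pr i x) (pr i y) (t - 1) (vc Y ρ i (pr i x) (t - 1) hxY p1 p2)
        (vc Y ρ i (pr i y) (t - 1) hyY p1 p2) (by omega) (by omega) rfl rfl
      have a1 := g1.tri u (vc Y ρ i (pr i x) (t - 1) hxY p1 p2)
        (vc Y ρ i (pr i y) (t - 1) hyY p1 p2)
      omega

/-- part (b): the apex -/
theorem partC (hDG : Stmt_GamDG) (hCD : CD D Y ρ) (hpr : IsPr D Y pr)
    {x y z : V} {i : I} (h : ρ < Nat.clog 2 (D (pr i x) (pr i z))) (u : Gam Y ρ)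
    (hu : u.1 = .a i) :
    ∃ w ∈ Lset D Y ρ pr x y ∪ Lset D Y ρ pr y z, dGam D Y ρ u w ≤ 250 := by
  have hD := hCD.dg
  obtain ⟨g1, g2, g3, g4, g5, g6, g7, g8⟩ := hDG V I D Y ρ hCD
  have hxY : pr i x ∈ Y i := (hpr i x).1
  have hyY : pr i y ∈ Y i := (hpr i y).1
  have hρ : 20 ≤ ρ := by have := hCD.big; omega
  have hlt := clog_lt (t := ρ + 1) (by omega) h
  have hpow : 2 ^ (ρ + 1 - 1) = 2 * 2 ^ (ρ - 1) := by
    rw [← pow_succ']
    congr 1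
    omega
  have h128 : 128 ≤ 2 ^ (ρ - 1) := by
    calc (128 : ℕ) = 2 ^ 7 := by norm_num
      _ ≤ 2 ^ (ρ - 1) := Nat.pow_le_pow_right (by norm_num) (by omega)
  have tri := hD.tri (pr i x) (pr i y) (pr i z)
  have hua : u = va Y ρ i := Subtype.ext hu
  have p1 : 1 ≤ ρ := by omega
  by_cases hAB : 2 ^ (ρ - 1) < D (pr i x) (pr i y)
  · have hT := lt_clog hAB
    refine ⟨vc Y ρ i (pr i x) ρ hxY p1 le_rfl, Or.inl (Or.inr ⟨i, by omega,
      Or.inr (Or.inr (Or.inl ⟨ρ, by omega, by omega, le_rfl, Or.inl rfl⟩))⟩), ?_⟩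
    have a2 := g6 i (pr i x) ρ (vc Y ρ i (pr i x) ρ hxY p1 le_rfl) (Or.inr ⟨by omega, rfl⟩)
    rw [g1.symm, ← hua] at a2
    omega
  · have hBC : 2 ^ (ρ - 1) < D (pr i y) (pr i z) := by omega
    have hT := lt_clog hBC
    refine ⟨vc Y ρ i (pr i y) ρ hyY p1 le_rfl, Or.inr (Or.inr ⟨i, by omega,
      Or.inr (Or.inr (Or.inl ⟨ρ, by omega, by omega, le_rfl, Or.inl rfl⟩))⟩), ?_⟩
    have a2 := g6 i (pr i y) ρ (vc Y ρ i (pr i y) ρ hyY p1 le_rfl) (Or.inr ⟨by omega, rfl⟩)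
    rw [g1.symm, ← hua] at a2
    omega

end R1X

open R1X in
theorem R1_proof (hDG : Stmt_GamDG) (hSh : Stmt_Shadow) : Stmt_R1 := by
  intro V I D Y ρ pr hCD hpr x y z u hu
  have hD := hCD.dg
  have swap : (∃ w ∈ Lset D Y ρ pr z y ∪ Lset D Y ρ pr y x, dGam D Y ρ u w ≤ 250) →
      ∃ w ∈ Lset D Y ρ pr x y ∪ Lset D Y ρ pr y z, dGam D Y ρ u w ≤ 250 := by
    rintro ⟨w, hw, hd⟩
    rw [lset_symm hD z y, lset_symm hD y x, Set.union_comm] at hw
    exact ⟨w, hw, hd⟩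
  rcases hu with ⟨p, hp, hb, hnd⟩ | ⟨i, hi, ha⟩
  · have hup : u = vb Y ρ p := Subtype.ext hp
    obtain ⟨w, hw, hd⟩ := partA (y := y) hDG hSh hCD hpr hb hnd
    exact ⟨w, hw, by rw [hup]; omega⟩
  · rcases ha with h | h | ⟨t, h1, h2, h3, h4 | h4⟩ | ⟨h1, h2⟩
    · have hup : u = vb Y ρ (pr i x) := Subtype.ext h
      obtain ⟨w, hw, hd⟩ := footA (y := y) hDG hSh hCD hpr hi
      exact ⟨w, hw, by rw [hup]; omega⟩
    · have hup : u = vb Y ρ (pr i z) := Subtype.ext h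
      apply swap
      obtain ⟨w, hw, hd⟩ := footA (x := z) (y := y) (z := x) hDG hSh hCD hpr
        (by rw [hD.symm]; exact hi)
      exact ⟨w, hw, by rw [hup]; omega⟩
    · exact partB hDG hSh hCD hpr hi h1 h2 h3 u h4
    · apply swap
      exact partB hDG hSh hCD hpr (by rw [hD.symm]; exact hi) h1 (by rw [hD.symm]; exact h2) h3 u h4
    · exact partC hDG hCD hpr h1 u h2

end Pool.Agent.BURN
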