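import Pool.Agent.BURN.Stmts2

/-! Module R2 (blueprint 3.4 (R2)). -/

namespace Pool.Agent.BURN

theorem R2_proof (hG : Stmt_GamDG) (hE : Stmt_Excur) (hS : Stmt_Shadow) : Stmt_R2 := by
  intro V I D Y ρ pr hcd hpr x y g hg hnb u hu
  obtain ⟨hdg, hadj, -, -, hle, -⟩ := hG V I D Y ρ hcd
  obtain ⟨s1, s2, -, -, -, s6⟩ := hS V I D Y ρ pr hcd hpr
  have hD := hcd.dg
  have self : ∀ a : Gam Y ρ, dGam D Y ρ a a = 0 := fun a => (hdg.eq_zero a a).2 rfl
  rcases Nat.lt_or_ge (dGam D Y ρ (vb Y ρ x) (vb Y ρ y)) 2 with hm | hm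
  · -- short case
    have hxy : D x y ≤ 1 := by
      have h01 : dGam D Y ρ (vb Y ρ x) (vb Y ρ y) = 0 ∨
          dGam D Y ρ (vb Y ρ x) (vb Y ρ y) = 1 := by omega
      rcases h01 with h0 | h1
      · have e := (hdg.eq_zero _ _).1 h0
        have e1 : (CV.b x : CV V I) = CV.b y := congrArg Subtype.val e
        have e2 : x = y := by injection e1
        rw [e2, (hD.eq_zero y y).2 rfl]; omega
      · have h2 := (hadj _ _).1 h1
        have h3 : D x y = 1 := h2
        omega
    rcases hu with ⟨p, hp, hb, -⟩ | ⟨i, hi, -⟩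
    · unfold Btw at hb
      have h01 : D x p = 0 ∨ D p y = 0 := by omega
      rcases h01 with h0 | h0
      · have e := (hD.eq_zero _ _).1 h0
        refine ⟨0, by omega, ?_⟩
        have : u = g 0 := by
          rw [hg.1]; apply Subtype.ext; rw [hp, ← e]; rfl
        rw [this, self]; omega
      · have e := (hD.eq_zero _ _).1 h0
        refine ⟨dGam D Y ρ (vb Y ρ x) (vb Y ρ y), le_rfl, ?_⟩
        have : u = g (dGam D Y ρ (vb Y ρ x) (vb Y ρ y)) := by
          rw [hg.2.1]; apply Subtype.ext; rw [hp, e]; rfl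
        rw [this, self]; omega
    · have := s2 i x y; omega
  · obtain ⟨i, hx, hy, -, harch⟩ := hE V I D Y ρ hcd x y g hg hnb hm
    have px := s1 i x hx
    have py := s1 i y hy
    rcases hu with ⟨p, hp, hb, hnd⟩ | ⟨l, hl, hul⟩
    · obtain ⟨w, hw, hpw⟩ := hcd.qc i x hx y hy p hb
      have h1 := (hpr i p).2 w hw
      have hnd' := hnd i
      unfold Deep at hnd'
      rw [px, py] at hnd'
      have hor : D (pr i p) x ≤ 100 ∨ D (pr i p) y ≤ 100 := by
        by_contra hh
        push Not at hh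
        exact hnd' ⟨by omega, by omega⟩
      have hup : u = vb Y ρ p := Subtype.ext hp
      rcases hor with h | h
      · refine ⟨0, by omega, ?_⟩
        rw [hg.1, hup]
        have t1 := hle p x
        have t2 := hD.tri p (pr i p) x
        omega
      · refine ⟨dGam D Y ρ (vb Y ρ x) (vb Y ρ y), le_rfl, ?_⟩
        rw [hg.2.1, hup]
        have t1 := hle p y
        have t2 := hD.tri p (pr i p) y
        omega
    · by_cases hli : l = i
      · subst hli
        rw [px, py] at hul
        obtain ⟨j, hj, hd⟩ := harch u hul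
        exact ⟨j, hj, by omega⟩
      · have := s6 l i x y hli hx hy
        omega

end Pool.Agent.BURN
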