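import Pool.Agent.BURN.Basic
import Pool.Agent.BURN.Stmts2

/-! Section 3.4 (R3) of the blueprint: the guessed paths are coarsely connected. -/

namespace Pool.Agent.BURN

namespace R3Aux

theorem exists_seq {X : Type} {r : X → X → Prop} {a b : X} (h : Relation.ReflTransGen r a b) :
    ∃ (m : ℕ) (u : ℕ → X), u 0 = a ∧ u m = b ∧ ∀ j < m, r (u j) (u (j + 1)) := by
  induction h with
  | refl => exact ⟨0, fun _ => a, rfl, rfl, fun j hj => absurd hj (by omega)⟩
  | @tail b c _ hbc ih =>
    obtain ⟨m, u, h0, hm, hr⟩ := ih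
    refine ⟨m + 1, fun j => if j ≤ m then u j else c, by simp [h0], by simp, ?_⟩
    intro j hj
    by_cases hj' : j < m
    · have e1 : j ≤ m := by omega
      have e2 : j + 1 ≤ m := by omega
      simp only [e1, e2, if_true]; exact hr j hj'
    · have e : j = m := by omega
      subst e
      simp only [le_refl, if_true]
      have e2 : ¬ j + 1 ≤ j := by omega
      simp only [e2, if_false]; rw [hm]; exact hbc

variable {V I : Type} {D : V → V → ℕ} {Y : I → Set V} {ρ : ℕ} {pr : I → V → V}

/-- admissible vertex -/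
def vc (Y : I → Set V) (ρ : ℕ) (u : CV V I) (h : CVOk Y ρ u) : Gam Y ρ := ⟨u, h⟩

open Classical in
/-- the vertex (i,C,t), the base vertex for t = 0 -/
noncomputable def vv (Y : I → Set V) (ρ : ℕ) (i : I) (C : V) (t : ℕ) : Gam Y ρ :=
  if h : CVOk Y ρ (.c i C t) then vc Y ρ (.c i C t) h else vb Y ρ C

theorem vv_zero (i : I) (C : V) : vv Y ρ i C 0 = vb Y ρ C := by
  unfold vv; rw [dif_neg]; rintro ⟨_, h, _⟩; omega

theorem vv_pos {i : I} {C : V} {t : ℕ} (h : C ∈ Y i ∧ 1 ≤ t ∧ t ≤ ρ) :
    (vv Y ρ i C t).1 = .c i C t := by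
  have h' : CVOk Y ρ (.c i C t) := h
  unfold vv; rw [dif_pos h']; rfl

theorem vv_ivert {i : I} {C : V} (hC : C ∈ Y i) {t : ℕ} (ht : t ≤ ρ) :
    IVert Y i C t (vv Y ρ i C t).1 := by
  by_cases h : 1 ≤ t
  · right; exact ⟨h, vv_pos ⟨hC, h, ht⟩⟩
  · left
    have : t = 0 := by omega
    subst this
    exact ⟨rfl, hC, by rw [vv_zero]; rfl⟩

end R3Aux

open R3Aux in
theorem R3_proof (hG : Stmt_GamDG) (hS : Stmt_Shadow) : Stmt_R3 := by
  intro V I D Y ρ pr h hp x y
  obtain ⟨gdg, gadj, ght, ghor, gbase, gapex, gvert, ghoriz⟩ := hG V I D Y ρ h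
  obtain ⟨s1, s2, s3, s4, s5, s6⟩ := hS V I D Y ρ pr h hp
  have hρ : 20 ≤ ρ := by have := h.big; omega
  let S : Set (Gam Y ρ) := Lset D Y ρ pr x y
  let r : Gam Y ρ → Gam Y ρ → Prop := fun u w => u ∈ S ∧ w ∈ S ∧ dGam D Y ρ u w ≤ 250
  have rsymm : ∀ u w, r u w → r w u := by
    rintro u w ⟨h1, h2, h3⟩
    exact ⟨h2, h1, by rw [gdg.symm]; exact h3⟩
  have rtsymm : ∀ {u w}, Relation.ReflTransGen r u w → Relation.ReflTransGen r w u := by
    intro u w h
    induction h with
    | refl => exact Relation.ReflTransGen.refl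
    | tail _ hbc ih => exact Relation.ReflTransGen.head (rsymm _ _ hbc) ih
  have h00 : ∀ v : V, D v v = 0 := fun v => (h.dg.eq_zero v v).2 rfl
  -- climbing along one side of an arch
  have up : ∀ i, 100 ≤ D (pr i x) (pr i y) → ∀ C, (C = pr i x ∨ C = pr i y) →
      ∀ t, t ≤ Nat.clog 2 (D (pr i x) (pr i y)) → t ≤ ρ →
      vv Y ρ i C t ∈ S ∧ Relation.ReflTransGen r (vb Y ρ C) (vv Y ρ i C t) := by
    intro i hi C hC
    have hCY : C ∈ Y i := by
      rcases hC with rfl | rfl
      · exact (hp i x).1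
      · exact (hp i y).1
    have mem : ∀ t, t ≤ Nat.clog 2 (D (pr i x) (pr i y)) → t ≤ ρ → vv Y ρ i C t ∈ S := by
      intro t ht1 ht2
      right
      refine ⟨i, hi, ?_⟩
      by_cases h0 : 1 ≤ t
      · rw [vv_pos ⟨hCY, h0, ht2⟩]
        right; right; left
        refine ⟨t, h0, ht1, ht2, ?_⟩
        rcases hC with e | e <;> rw [e]
        · left; rfl
        · right; rfl
      · have : t = 0 := by omega
        subst this
        rw [vv_zero]
        rcases hC with e | e <;> rw [e]
        · left; rfl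
        · right; left; rfl
    intro t
    induction t with
    | zero =>
      intro h1 h2
      refine ⟨mem 0 h1 h2, ?_⟩
      rw [vv_zero]
    | succ t ih =>
      intro h1 h2
      obtain ⟨i1, i2⟩ := ih (by omega) (by omega)
      refine ⟨mem _ h1 h2, i2.tail ⟨i1, mem _ h1 h2, ?_⟩⟩
      have := gvert i C t (t + 1) _ _ (by omega) (vv_ivert hCY (by omega)) (vv_ivert hCY h2)
      rw [this]; omega
  -- the whole arch
  have arch : ∀ i, 100 ≤ D (pr i x) (pr i y) →
      Relation.ReflTransGen r (vb Y ρ (pr i x)) (vb Y ρ (pr i y)) := by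
    intro i hi
    have hx := (hp i x).1
    have hy := (hp i y).1
    have hpow : D (pr i x) (pr i y) ≤ 2 ^ (Nat.clog 2 (D (pr i x) (pr i y))) :=
      Nat.le_pow_clog (by norm_num) _
    have hT1 : 1 ≤ Nat.clog 2 (D (pr i x) (pr i y)) := by
      by_contra hc
      have : Nat.clog 2 (D (pr i x) (pr i y)) = 0 := by omega
      rw [this] at hpow; omega
    by_cases hT : Nat.clog 2 (D (pr i x) (pr i y)) ≤ ρ
    · obtain ⟨a1, a2⟩ := up i hi _ (Or.inl rfl) _ le_rfl hT
      obtain ⟨b1, b2⟩ := up i hi _ (Or.inr rfl) _ le_rfl hT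
      refine (a2.tail ⟨a1, b1, ?_⟩).trans (rtsymm b2)
      have := ghoriz i (pr i x) (pr i y) _ _ _ hT1 hpow (vv_pos ⟨hx, hT1, hT⟩)
        (vv_pos ⟨hy, hT1, hT⟩)
      omega
    · obtain ⟨a1, a2⟩ := up i hi _ (Or.inl rfl) ρ (by omega) le_rfl
      obtain ⟨b1, b2⟩ := up i hi _ (Or.inr rfl) ρ (by omega) le_rfl
      have am : va Y ρ i ∈ S := by
        right
        refine ⟨i, hi, ?_⟩
        right; right; right
        exact ⟨by omega, rfl⟩
      have d1 := gapex i (pr i x) ρ _ (vv_ivert hx le_rfl)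
      have d2 := gapex i (pr i y) ρ _ (vv_ivert hy le_rfl)
      have c1 : Relation.ReflTransGen r (vb Y ρ (pr i x)) (va Y ρ i) :=
        a2.tail ⟨a1, am, by rw [d1]; omega⟩
      have c2 : Relation.ReflTransGen r (vb Y ρ (pr i y)) (va Y ρ i) :=
        b2.tail ⟨b1, am, by rw [d2]; omega⟩
      exact c1.trans (rtsymm c2)
  obtain ⟨g, hg⟩ := exists_geod h.dg x y
  have good_mem : ∀ j ≤ D x y, (∀ i, ¬ Deep D pr i x y (g j)) → vb Y ρ (g j) ∈ S := by
    intro j hj hgd
    left
    exact ⟨g j, rfl, hg.btw' hj, hgd⟩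
  have prx_mem : ∀ i, 100 ≤ D (pr i x) (pr i y) → vb Y ρ (pr i x) ∈ S ∧ vb Y ρ (pr i y) ∈ S := by
    intro i hi
    exact ⟨Or.inr ⟨i, hi, Or.inl rfl⟩, Or.inr ⟨i, hi, Or.inr (Or.inl rfl)⟩⟩
  -- a good point next to an i-deep point is near one of the two ends of the arch
  have join : ∀ i j k, j ≤ D x y → k ≤ D x y → D (g j) (g k) ≤ 1 →
      (∀ l, ¬ Deep D pr l x y (g j)) → Deep D pr i x y (g k) →
      100 ≤ D (pr i x) (pr i y) ∧
      Relation.ReflTransGen r (vb Y ρ (g j)) (vb Y ρ (pr i x)) := by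
    intro i j k hj hk hjk hgd hdp
    obtain ⟨e1, e2⟩ := s3 i x y (g k) (hg.btw' hk) hdp
    have hi : 100 ≤ D (pr i x) (pr i y) := by omega
    refine ⟨hi, ?_⟩
    have e3 := s2 i (g j) (g k)
    have hn : D (pr i (g j)) (pr i x) ≤ 100 ∨ D (pr i (g j)) (pr i y) ≤ 100 := by
      by_contra hc
      push Not at hc
      exact hgd i ⟨hc.1, hc.2⟩
    have e4 := h.dg.tri (g j) (g k) (pr i (g k))
    have e5 := h.dg.tri (g j) (pr i (g k)) (pr i (g j))
    rw [h.dg.symm (pr i (g k)) (pr i (g j))] at e5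
    rcases hn with hn | hn
    · have e6 := h.dg.tri (g j) (pr i (g j)) (pr i x)
      have e7 := gbase (g j) (pr i x)
      exact Relation.ReflTransGen.single ⟨good_mem j hj hgd, (prx_mem i hi).1, by omega⟩
    · have e6 := h.dg.tri (g j) (pr i (g j)) (pr i y)
      have e7 := gbase (g j) (pr i y)
      have c1 : Relation.ReflTransGen r (vb Y ρ (g j)) (vb Y ρ (pr i y)) :=
        Relation.ReflTransGen.single ⟨good_mem j hj hgd, (prx_mem i hi).2, by omega⟩
      exact c1.trans (rtsymm (arch i hi))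
  have gx : ∀ i, ¬ Deep D pr i x y (g 0) := by
    intro i hd
    have := hd.1
    rw [hg.1, h00] at this; omega
  have gy : ∀ i, ¬ Deep D pr i x y (g (D x y)) := by
    intro i hd
    have := hd.2
    rw [hg.2.1, h00] at this; omega
  -- main induction
  have main : ∀ n j, j + n = D x y → (∀ i, ¬ Deep D pr i x y (g j)) →
      Relation.ReflTransGen r (vb Y ρ (g j)) (vb Y ρ y) := by
    intro n
    induction n using Nat.strong_induction_on with
    | _ n ih =>
      intro j hj hgd
      by_cases hn : n = 0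
      · have : j = D x y := by omega
        rw [this, hg.2.1]
      · by_cases hg1 : ∀ i, ¬ Deep D pr i x y (g (j + 1))
        · have step := ih (n - 1) (by omega) (j + 1) (by omega) hg1
          refine Relation.ReflTransGen.head ⟨good_mem j (by omega) hgd,
            good_mem (j + 1) (by omega) hg1, ?_⟩ step
          have e1 := gbase (g j) (g (j + 1))
          rw [hg.2.2 j (j + 1) (by omega) (by omega)] at e1
          omega
        · push Not at hg1
          obtain ⟨i, hi⟩ := hg1
          -- the last i-deep index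
          classical
          let P : ℕ → Prop := fun t => j + 1 ≤ t ∧ t ≤ D x y ∧ Deep D pr i x y (g t)
          have hP1 : P (j + 1) := ⟨le_rfl, by omega, hi⟩
          let k := Nat.findGreatest P (D x y)
          have hPk : P k := Nat.findGreatest_spec (P := P) (by omega : j + 1 ≤ D x y) hP1
          have hkn : k ≠ D x y := by
            intro e
            have := hPk.2.2
            rw [e] at this
            exact gy i this
          have hk1 : k + 1 ≤ D x y := by have := hPk.2.1; omega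
          have hnd : ¬ Deep D pr i x y (g (k + 1)) := by
            intro hd
            have : k + 1 ≤ k := Nat.le_findGreatest hk1 ⟨by have := hPk.1; omega, hk1, hd⟩
            omega
          have hgk : ∀ l, ¬ Deep D pr l x y (g (k + 1)) := by
            intro l hd
            have := s5 i l x y g k hg hk1 (Or.inl ⟨hPk.2.2, hd⟩)
            rw [← this] at hd
            exact hnd hd
          have hPk1 := hPk.1
          have step := ih (D x y - (k + 1)) (by omega) (k + 1) (by omega) hgk
          obtain ⟨hi1, c1⟩ := join i j (j + 1) (by omega) (by omega)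
            (by rw [hg.2.2 j (j + 1) (by omega) (by omega)]; omega) hgd hi
          obtain ⟨_, c2⟩ := join i (k + 1) k hk1 (by omega)
            (by rw [h.dg.symm, hg.2.2 k (k + 1) (by omega) hk1]; omega) hgk hPk.2.2
          exact (c1.trans (rtsymm c2)).trans step
  have fin := main (D x y) 0 (by omega) gx
  rw [hg.1] at fin
  obtain ⟨m, u, h0, hm, hr⟩ := exists_seq fin
  refine ⟨m, u, h0, hm, ?_, fun j hj => (hr j hj).2.2⟩
  intro j hj
  by_cases hj' : j < m
  · exact (hr j hj').1
  · have e : j = m := by omega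
    have hy := good_mem _ le_rfl gy
    rw [hg.2.1] at hy
    rw [e, hm]
    exact hy

end Pool.Agent.BURN
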