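import Pool.Agent.BURN.Basic
import Pool.Agent.BURN.Stmts1

/-! Section 1.7 of the blueprint: guessing geodesics, relative form. -/

namespace Pool.Agent.BURN

namespace RLCX

variable {Y : Type} {d : Y → Y → ℕ}

theorem sub_geod {x y : Y} {g : ℕ → Y} (hg : IsGeod d x y g) {a b : ℕ} (hab : a ≤ b)
    (hb : b ≤ d x y) : d (g a) (g b) = b - a ∧ IsGeod d (g a) (g b) (fun j => g (a + j)) := by
  have e : d (g a) (g b) = b - a := hg.2.2 a b hab hb
  refine ⟨e, ?_, ?_, ?_⟩
  · simp
  · show g (a + d (g a) (g b)) = g b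
    rw [e]; congr 1; omega
  · intro i j hij hj
    rw [e] at hj
    show d (g (a + i)) (g (a + j)) = j - i
    rw [hg.2.2 (a + i) (a + j) (by omega) (by omega)]; omega

theorem d_self (h : IsDG d) (x : Y) : d x x = 0 := (h.eq_zero x x).2 rfl

open Classical in
/-- Step 1: at most 2^k pieces give the bound (k+1) h. -/
theorem step1 (V : Set Y) (h : ℕ) (L : Y → Y → Set Y) (hd : IsDG d)
    (R1 : ∀ x ∈ V, ∀ y ∈ V, ∀ z ∈ V, ∀ p ∈ L x z, ∃ q ∈ L x y ∪ L y z, d p q ≤ h)
    (R2 : ∀ x ∈ V, ∀ y ∈ V, ∀ g, IsGeod d x y g → (∀ i, 0 < i → i < d x y → g i ∉ V) →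
      ∀ p ∈ L x y, ∃ i ≤ d x y, d p (g i) ≤ h) (k : ℕ) :
    ∀ x ∈ V, ∀ y ∈ V, ∀ g, IsGeod d x y g → Nat.count (fun j => g j ∈ V) (d x y) ≤ 2 ^ k →
      ∀ p ∈ L x y, ∃ i ≤ d x y, d p (g i) ≤ (k + 1) * h := by
  induction k with
  | zero =>
    intro x hx y hy g hg hc p hp
    have : ∃ i ≤ d x y, d p (g i) ≤ h := by
      refine R2 x hx y hy g hg ?_ p hp
      intro i hi0 hi hV
      have c1 : Nat.count (fun j => g j ∈ V) 1 = 1 := by
        rw [Nat.count_succ]; simp [hg.1, hx]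
      have c2 : Nat.count (fun j => g j ∈ V) (i + 1) = Nat.count (fun j => g j ∈ V) i + 1 := by
        rw [Nat.count_succ]; simp [hV]
      have m1 : Nat.count (fun j => g j ∈ V) 1 ≤ Nat.count (fun j => g j ∈ V) i :=
        Nat.count_monotone _ (by omega)
      have m2 : Nat.count (fun j => g j ∈ V) (i + 1) ≤ Nat.count (fun j => g j ∈ V) (d x y) :=
        Nat.count_monotone _ (by omega)
      simp at hc
      omega
    simpa using this
  | succ k ih =>
    intro x hx y hy g hg hc p hp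
    by_cases hc' : Nat.count (fun j => g j ∈ V) (d x y) ≤ 2 ^ k
    · obtain ⟨i, hi, hh⟩ := ih x hx y hy g hg hc' p hp
      exact ⟨i, hi, hh.trans (Nat.mul_le_mul_right _ (by omega))⟩
    · have hD : 0 < d x y := by
        rcases Nat.eq_zero_or_pos (d x y) with h0 | h0
        · rw [h0] at hc'; simp at hc'
        · exact h0
      have hex : ∃ n, 2 ^ k < Nat.count (fun j => g j ∈ V) (n + 1) :=
        ⟨d x y - 1, by rw [Nat.sub_add_cancel hD]; omega⟩
      set n := Nat.find hex with hn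
      have hn1 : 2 ^ k < Nat.count (fun j => g j ∈ V) (n + 1) := Nat.find_spec hex
      have hn2 : Nat.count (fun j => g j ∈ V) n ≤ 2 ^ k := by
        rcases Nat.eq_zero_or_pos n with h0 | h0
        · rw [h0]; simp
        · have := Nat.find_min hex (m := n - 1) (by omega)
          rw [Nat.sub_add_cancel h0] at this; omega
      have hnD : n + 1 ≤ d x y := by
        have := Nat.find_min' hex (m := d x y - 1) (by rw [Nat.sub_add_cancel hD]; omega)
        omega
      have hnV : g n ∈ V := by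
        by_contra hcon
        rw [Nat.count_succ] at hn1; simp [hcon] at hn1; omega
      have hn3 : Nat.count (fun j => g j ∈ V) (n + 1) = Nat.count (fun j => g j ∈ V) n + 1 := by
        rw [Nat.count_succ]; simp [hnV]
      obtain ⟨e1, s1⟩ := sub_geod hg (a := 0) (b := n) (by omega) (by omega)
      obtain ⟨e2, s2⟩ := sub_geod hg (a := n) (b := d x y) (by omega) (by omega)
      have hcadd : Nat.count (fun j => g j ∈ V) (d x y) =
          Nat.count (fun j => g j ∈ V) n + Nat.count (fun j => g (n + j) ∈ V) (d x y - n) := by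
        rw [← Nat.count_add]; congr 1; omega
      obtain ⟨q, hq, hpq⟩ := R1 x hx (g n) hnV y hy p hp
      rcases hq with hq | hq
      · rw [hg.1] at e1 s1
        have cc : Nat.count (fun j => g (0 + j) ∈ V) (d x (g n)) ≤ 2 ^ k := by
          rw [e1]; simpa using hn2
        obtain ⟨i, hi, hh⟩ := ih x hx (g n) hnV _ s1 cc q hq
        refine ⟨i, by omega, ?_⟩
        have := hd.tri p q (g i)
        have hh' : d q (g i) ≤ (k + 1) * h := by simpa using hh
        have : (k + 1 + 1) * h = (k + 1) * h + h := by ring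
        omega
      · rw [hg.2.1] at e2 s2
        have cc : Nat.count (fun j => g (n + j) ∈ V) (d (g n) y) ≤ 2 ^ k := by
          rw [e2]; rw [pow_succ] at hc; omega
        obtain ⟨i, hi, hh⟩ := ih (g n) hnV y hy _ s2 cc q hq
        refine ⟨n + i, by omega, ?_⟩
        have := hd.tri p q (g (n + i))
        have hh' : d q (g (n + i)) ≤ (k + 1) * h := hh
        have : (k + 1 + 1) * h = (k + 1) * h + h := by ring
        omega

theorem pow_ineq (k : ℕ) (hk : 8 ≤ k) : 5 * (k + 3) ^ 2 ≤ 2 ^ (k + 4) := by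
  induction k, hk using Nat.le_induction with
  | base => norm_num
  | succ k hk ih =>
    have e : 2 ^ (k + 1 + 4) = 2 * 2 ^ (k + 4) := by ring
    rw [e]
    nlinarith

theorem num_bound (f h k : ℕ) (hh : 1 ≤ h) (hk : k = Nat.clog 2 (4 * f + 4 * h + 4))
    (hf : f ≤ 2 * h + (k + 1) * h) : f ≤ 32 * h ^ 2 := by
  by_contra hcon
  push Not at hcon
  have hh2 : h ≤ h ^ 2 := by nlinarith
  have h5 : 4 * f + 4 * h + 4 ≤ 5 * f := by nlinarith
  have hbig : 4 * f + 4 * h + 4 ≤ 2 ^ k := by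
    rw [hk]; exact Nat.le_pow_clog (by norm_num) _
  have hk8 : 8 ≤ k := by
    by_contra hk8
    have : 2 ^ k ≤ 2 ^ 7 := Nat.pow_le_pow_right (by norm_num) (by omega)
    norm_num at this
    nlinarith
  have hlow : 2 ^ (k - 1) < 4 * f + 4 * h + 4 := by
    have := Nat.pow_pred_clog_lt_self (b := 2) (by norm_num) (x := 4 * f + 4 * h + 4) (by omega)
    rw [← hk] at this; simpa using this
  have hp := pow_ineq k hk8
  have hpow : 2 ^ (k + 4) = 32 * 2 ^ (k - 1) := by
    obtain ⟨m, rfl⟩ : ∃ m, k = m + 1 := ⟨k - 1, by omega⟩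
    simp only [Nat.add_sub_cancel]; ring
  have h1 : f ≤ h * (k + 3) := by nlinarith
  have h2 : f * f ≤ (h * (k + 3)) * (h * (k + 3)) := Nat.mul_le_mul h1 h1
  have hfpos : 0 < f := by nlinarith
  have hkk : 0 < (k + 3) ^ 2 := by positivity
  -- 32 f^2 ≤ 32 h^2 (k+3)^2 < f (k+3)^2
  have h3 : 32 * f < (k + 3) ^ 2 := by
    have h4 : f * (32 * f) < f * (k + 3) ^ 2 := by
      calc f * (32 * f) = 32 * (f * f) := by ring
        _ ≤ 32 * ((h * (k + 3)) * (h * (k + 3))) := by omega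
        _ = (32 * h ^ 2) * (k + 3) ^ 2 := by ring
        _ < f * (k + 3) ^ 2 := Nat.mul_lt_mul_of_pos_right hcon hkk
    exact Nat.lt_of_mul_lt_mul_left h4
  have : 32 * 2 ^ (k - 1) < 5 * (k + 3) ^ 2 := by
    calc 32 * 2 ^ (k - 1) < 32 * (5 * f) := by omega
      _ = 5 * (32 * f) := by ring
      _ ≤ 5 * (k + 3) ^ 2 := by omega
  omega

open Classical in
/-- left cut: last V-point at distance at least t before i, or 0 -/
theorem cutL (V : Set Y) (g : ℕ → Y) (h0 : g 0 ∈ V) (i t : ℕ) :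
    ∃ a ≤ i, g a ∈ V ∧ (a = 0 ∨ a + t ≤ i) ∧ ∀ j, a < j → j ≤ i → g j ∈ V → i < j + t := by
  by_cases hit : i < t
  · exact ⟨0, by omega, h0, Or.inl rfl, fun j _ _ _ => by omega⟩
  · refine ⟨Nat.findGreatest (fun j => g j ∈ V) (i - t), ?_, ?_, ?_, ?_⟩
    · have := Nat.findGreatest_le (P := fun j => g j ∈ V) (i - t); omega
    · exact Nat.findGreatest_spec (P := fun j => g j ∈ V) (m := 0) (by omega) h0
    · have := Nat.findGreatest_le (P := fun j => g j ∈ V) (i - t); omega
    · intro j hj hji hV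
      by_contra hcon
      exact Nat.findGreatest_is_greatest (P := fun j => g j ∈ V) hj (by omega) hV

open Classical in
/-- right cut -/
theorem cutR (V : Set Y) (g : ℕ → Y) (D : ℕ) (hD : g D ∈ V) (i t : ℕ) (hi : i ≤ D) :
    ∃ b, i ≤ b ∧ b ≤ D ∧ g b ∈ V ∧ (b = D ∨ i + t ≤ b) ∧
      ∀ j, i ≤ j → j < b → g j ∈ V → j < i + t := by
  by_cases hit : D < i + t
  · exact ⟨D, hi, le_rfl, hD, Or.inl rfl, fun j _ _ _ => by omega⟩
  · have hex : ∃ j, i + t ≤ j ∧ g j ∈ V := ⟨D, by omega, hD⟩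
    refine ⟨Nat.find hex, ?_, ?_, ?_, ?_, ?_⟩
    · have := (Nat.find_spec hex).1; omega
    · exact Nat.find_min' hex ⟨by omega, hD⟩
    · exact (Nat.find_spec hex).2
    · right; exact (Nat.find_spec hex).1
    · intro j hj hjb hV
      by_contra hcon
      exact Nat.find_min hex hjb ⟨by omega, hV⟩

open Classical in
theorem count_mid (V : Set Y) (g : ℕ → Y) (i t a b : ℕ) (_hai : a ≤ i) (_hib : i ≤ b)
    (ht : 1 ≤ t)
    (hL : ∀ j, a < j → j ≤ i → g j ∈ V → i < j + t)
    (hR : ∀ j, i ≤ j → j < b → g j ∈ V → j < i + t) :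
    Nat.count (fun j => g (a + j) ∈ V) (b - a) ≤ 2 * t + 2 := by
  rw [Nat.count_eq_card_filter_range]
  have hsub : (Finset.range (b - a)).filter (fun j => g (a + j) ∈ V) ⊆
      insert 0 (Finset.Ico (i + 1 - t - a) (i + t - a)) := by
    intro j hj
    simp only [Finset.mem_filter, Finset.mem_range] at hj
    obtain ⟨hj1, hj2⟩ := hj
    simp only [Finset.mem_insert, Finset.mem_Ico]
    rcases Nat.eq_zero_or_pos j with h0 | h0
    · left; exact h0
    · right
      rcases Nat.lt_or_ge i (a + j) with h1 | h1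
      · have := hR (a + j) (by omega) (by omega) hj2
        omega
      · have := hL (a + j) (by omega) h1 hj2
        omega
  refine (Finset.card_le_card hsub).trans ((Finset.card_insert_le _ _).trans ?_)
  rw [Nat.card_Ico]
  omega

open Classical in
theorem main_i (V : Set Y) (h : ℕ) (L : Y → Y → Set Y) (hd : IsDG d) (hh : 1 ≤ h)
    (R1 : ∀ x ∈ V, ∀ y ∈ V, ∀ z ∈ V, ∀ p ∈ L x z, ∃ q ∈ L x y ∪ L y z, d p q ≤ h)
    (R2 : ∀ x ∈ V, ∀ y ∈ V, ∀ g, IsGeod d x y g → (∀ i, 0 < i → i < d x y → g i ∉ V) →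
      ∀ p ∈ L x y, ∃ i ≤ d x y, d p (g i) ≤ h) (N : ℕ) :
    ∀ x ∈ V, ∀ y ∈ V, d x y ≤ N → ∀ g, IsGeod d x y g → ∀ p ∈ L x y,
      ∃ i ≤ d x y, d p (g i) ≤ 32 * h ^ 2 := by
  have S1 := step1 V h L hd R1 R2
  -- a bound exists
  have hex : ∃ F, ∀ x ∈ V, ∀ y ∈ V, d x y ≤ N → ∀ g, IsGeod d x y g → ∀ p ∈ L x y,
      ∃ i ≤ d x y, d p (g i) ≤ F := by
    refine ⟨(N + 1) * h, ?_⟩
    intro x hx y hy hN g hg p hp
    refine S1 N x hx y hy g hg ?_ p hp
    have h1 : Nat.count (fun j => g j ∈ V) (d x y) ≤ d x y := Nat.count_le _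
    have h2 : N < 2 ^ N := Nat.lt_two_pow_self
    omega
  set F := Nat.find hex with hF
  have A := Nat.find_spec hex
  rw [← hF] at A
  by_cases hFle : F ≤ 32 * h ^ 2
  · intro x hx y hy hN g hg p hp
    obtain ⟨i, hi, hb⟩ := A x hx y hy hN g hg p hp
    exact ⟨i, hi, hb.trans hFle⟩
  exfalso
  push Not at hFle
  have hh2 : h ≤ h ^ 2 := by nlinarith
  have B := Nat.find_min hex (m := F - 1) (by omega)
  push Not at B
  obtain ⟨x, hx, y, hy, hN, g, hg, p, hp, hfar⟩ := B
  obtain ⟨i, hi, hpi⟩ := A x hx y hy hN g hg p hp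
  have hxg : g 0 ∈ V := by rw [hg.1]; exact hx
  have hyg : g (d x y) ∈ V := by rw [hg.2.1]; exact hy
  obtain ⟨a, hai, haV, hat, haj⟩ := cutL V g hxg i (2 * F + 2 * h + 1)
  obtain ⟨b, hib, hbD, hbV, hbt, hbj⟩ := cutR V g (d x y) hyg i (2 * F + 2 * h + 1) hi
  have hcount := count_mid V g i (2 * F + 2 * h + 1) a b hai hib (by omega) haj hbj
  obtain ⟨ea, sa⟩ := sub_geod hg (a := 0) (b := a) (by omega) (by omega)
  obtain ⟨eb, sb⟩ := sub_geod hg (a := b) (b := d x y) (by omega) (by omega)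
  obtain ⟨em, sm⟩ := sub_geod hg (a := a) (b := b) (by omega) (by omega)
  rw [hg.1] at ea sa
  rw [hg.2.1] at eb sb
  obtain ⟨q1, hq1, hpq1⟩ := R1 x hx (g a) haV y hy p hp
  rcases hq1 with hq1 | hq1
  · -- case 1
    rcases hat with hat | hat
    · subst hat
      obtain ⟨j, hj, hqj⟩ := R2 x hx (g 0) haV _ sa (by intro i h1 h2; omega) q1 hq1
      have e0 : j = 0 := by omega
      subst e0
      have hqj' : d q1 (g 0) ≤ h := by simpa using hqj
      have := hfar 0 (by omega)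
      have := hd.tri p q1 (g 0)
      omega
    · obtain ⟨j, hj, hqj⟩ := A x hx (g a) haV (by omega) _ sa q1 hq1
      have hqj' : d q1 (g j) ≤ F := by simpa using hqj
      have e1 := hg.2.2 j i (by omega) hi
      have t1 := hd.tri p q1 (g j)
      have t2 := hd.tri (g j) p (g i)
      rw [hd.symm (g j) p] at t2
      omega
  · obtain ⟨q2, hq2, hq12⟩ := R1 (g a) haV (g b) hbV y hy q1 hq1
    rcases hq2 with hq2 | hq2
    · -- middle
      have hc : Nat.count (fun j => g (a + j) ∈ V) (d (g a) (g b)) ≤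
          2 ^ Nat.clog 2 (4 * F + 4 * h + 4) := by
        rw [em]
        refine hcount.trans ?_
        refine le_trans ?_ (Nat.le_pow_clog (by norm_num) _)
        omega
      obtain ⟨j, hj, hqj⟩ := S1 _ (g a) haV (g b) hbV _ sm hc q2 hq2
      have hqj' : d q2 (g (a + j)) ≤ (Nat.clog 2 (4 * F + 4 * h + 4) + 1) * h := hqj
      have := hfar (a + j) (by omega)
      have t1 := hd.tri p q1 (g (a + j))
      have t2 := hd.tri q1 q2 (g (a + j))
      have := num_bound F h _ hh rfl (by omega)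
      omega
    · rcases hbt with hbt | hbt
      · subst hbt
        obtain ⟨j, hj, hqj⟩ := R2 (g (d x y)) hbV y hy _ sb (by intro i h1 h2; omega) q2 hq2
        have e0 : j = 0 := by omega
        subst e0
        have hqj' : d q2 (g (d x y)) ≤ h := by simpa using hqj
        have := hfar (d x y) (by omega)
        have := hd.tri p q1 (g (d x y))
        have := hd.tri q1 q2 (g (d x y))
        have : 3 * h ≤ 32 * h ^ 2 := by nlinarith
        omega
      · obtain ⟨j, hj, hqj⟩ := A (g b) hbV y hy (by omega) _ sb q2 hq2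
        have hqj' : d q2 (g (b + j)) ≤ F := hqj
        have e1 := hg.2.2 i (b + j) (by omega) (by omega)
        have t0 := hd.tri q1 q2 (g (b + j))
        have t1 := hd.tri p q1 (g (b + j))
        have t2 := hd.tri (g i) p (g (b + j))
        rw [hd.symm (g i) p] at t2
        omega

end RLCX

open RLCX in
theorem RLC_proof : Stmt_RLC := by
  classical
  intro Y d V h L hd hh R1 R2 R3
  have I : ∀ x ∈ V, ∀ y ∈ V, ∀ g, IsGeod d x y g → ∀ p ∈ L x y,
      ∃ i ≤ d x y, d p (g i) ≤ 32 * h ^ 2 := by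
    intro x hx y hy g hg p hp
    exact main_i V h L hd hh R1 R2 (d x y) x hx y hy le_rfl g hg p hp
  have II : ∀ x ∈ V, ∀ y ∈ V, ∀ g, IsGeod d x y g → ∀ i ≤ d x y, ∃ p ∈ L x y,
      d (g i) p ≤ 3 * (32 * h ^ 2) + h := by
    intro x hx y hy g hg i hi
    obtain ⟨m, u, u0, um, uL, ud⟩ := R3 x hx y hy
    have hex : ∃ j, j ≤ m ∧ ∃ s, i ≤ s ∧ s ≤ d x y ∧ d (u j) (g s) ≤ 32 * h ^ 2 := by
      refine ⟨m, le_rfl, d x y, hi, le_rfl, ?_⟩
      rw [um, hg.2.1, d_self hd]; omega
    obtain ⟨hjm, s, his, hsD, hus⟩ := Nat.find_spec hex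
    rcases Nat.eq_zero_or_pos (Nat.find hex) with hz | hpos
    · rw [hz] at hus
      rw [u0] at hus
      have e1 := hg.dist_left hsD
      have hu0 := uL 0 (by omega)
      rw [u0] at hu0
      refine ⟨x, hu0, ?_⟩
      have e2 := hg.dist_left hi
      rw [hd.symm (g i) x]
      omega
    · have hmin := Nat.find_min hex (m := Nat.find hex - 1) (by omega)
      obtain ⟨s', hs'D, hus'⟩ := I x hx y hy g hg (u (Nat.find hex - 1)) (uL _ (by omega))
      have hs'i : s' < i := by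
        by_contra hcon
        exact hmin ⟨by omega, s', by omega, hs'D, hus'⟩
      have hstep := ud (Nat.find hex - 1) (by omega)
      rw [Nat.sub_add_cancel hpos] at hstep
      refine ⟨u (Nat.find hex - 1), uL _ (by omega), ?_⟩
      have e1 := hg.2.2 s' s (by omega) hsD
      have t1 := hd.tri (g s') (u (Nat.find hex - 1)) (g s)
      have t2 := hd.tri (u (Nat.find hex - 1)) (u (Nat.find hex)) (g s)
      have e2 := hg.2.2 s' i (by omega) hi
      have t3 := hd.tri (g i) (g s') (u (Nat.find hex - 1))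
      rw [hd.symm (g i) (g s')] at t3
      rw [hd.symm (g s') (u _)] at t1 t3
      omega
  refine ⟨I, II, ?_⟩
  -- thin triangles
  set T := 4 * (32 * h ^ 2) + 2 * h with hT
  have III : ∀ x ∈ V, ∀ y ∈ V, ∀ z ∈ V, ∀ g, IsGeod d x y g → ∀ i ≤ d x y,
      (∃ c, Btw d x c z ∧ d (g i) c ≤ T) ∨ (∃ c, Btw d z c y ∧ d (g i) c ≤ T) := by
    intro x hx y hy z hz g hg i hi
    obtain ⟨p, hp, hgp⟩ := II x hx y hy g hg i hi
    obtain ⟨q, hq, hpq⟩ := R1 x hx z hz y hy p hp
    rcases hq with hq | hq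
    · obtain ⟨g', hg'⟩ := exists_geod hd x z
      obtain ⟨j, hj, hqj⟩ := I x hx z hz g' hg' q hq
      left
      refine ⟨g' j, hg'.btw' hj, ?_⟩
      have t1 := hd.tri (g i) p (g' j)
      have t2 := hd.tri p q (g' j)
      omega
    · obtain ⟨g', hg'⟩ := exists_geod hd z y
      obtain ⟨j, hj, hqj⟩ := I z hz y hy g' hg' q hq
      right
      refine ⟨g' j, hg'.btw' hj, ?_⟩
      have t1 := hd.tri (g i) p (g' j)
      have t2 := hd.tri p q (g' j)
      omega
  have IV : ∀ x ∈ V, ∀ y ∈ V, ∀ z ∈ V, ∀ g, IsGeod d x y g → ∃ i ≤ d x y,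
      (∃ c, Btw d x c z ∧ d (g i) c ≤ T + 1) ∧ (∃ c, Btw d z c y ∧ d (g i) c ≤ T + 1) := by
    intro x hx y hy z hz g hg
    have h0 : ∃ c, Btw d x c z ∧ d (g 0) c ≤ T := by
      refine ⟨x, ?_, ?_⟩
      · unfold Btw; rw [d_self hd]; omega
      · rw [hg.1, d_self hd]; omega
    set i0 := Nat.findGreatest (fun i => ∃ c, Btw d x c z ∧ d (g i) c ≤ T) (d x y) with hi0
    have hle : i0 ≤ d x y := Nat.findGreatest_le _
    have hP : ∃ c, Btw d x c z ∧ d (g i0) c ≤ T :=
      Nat.findGreatest_spec (P := fun i => ∃ c, Btw d x c z ∧ d (g i) c ≤ T) (m := 0)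
        (by omega) h0
    obtain ⟨c1, hc1, hc1d⟩ := hP
    refine ⟨i0, hle, ⟨c1, hc1, by omega⟩, ?_⟩
    rcases Nat.eq_or_lt_of_le hle with he | hlt
    · refine ⟨y, ?_, ?_⟩
      · unfold Btw; rw [d_self hd]; omega
      · rw [he, hg.2.1, d_self hd]; omega
    · have hnot : ¬ ∃ c, Btw d x c z ∧ d (g (i0 + 1)) c ≤ T :=
        Nat.findGreatest_is_greatest (P := fun i => ∃ c, Btw d x c z ∧ d (g i) c ≤ T)
          (n := d x y) (k := i0 + 1) (by rw [hi0]; exact Nat.lt_succ_self _) (by omega)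
      rcases III x hx y hy z hz g hg (i0 + 1) (by omega) with h1 | h1
      · exact absurd h1 hnot
      · obtain ⟨c, hc, hcd⟩ := h1
        refine ⟨c, hc, ?_⟩
        have e := hg.2.2 i0 (i0 + 1) (by omega) (by omega)
        have t := hd.tri (g i0) (g (i0 + 1)) c
        omega
  intro x hx y hy z hz w hw
  obtain ⟨g, hg⟩ := exists_geod hd x y
  obtain ⟨i, hi, ⟨a1, ha1, ha1d⟩, ⟨b1, hb1, hb1d⟩⟩ := IV x hx y hy z hz g hg
  obtain ⟨j, hj, ⟨a2, ha2, ha2d⟩, ⟨b2, hb2, hb2d⟩⟩ := IV x hx y hy w hw g hg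
  unfold Btw at ha1 hb1 ha2 hb2
  have hDlt : Dlt h = 4 * T + 4 := by unfold Dlt; omega
  rw [hDlt]
  have xi := hg.dist_left hi
  have iy := hg.dist_right hi
  have xj := hg.dist_left hj
  have jy := hg.dist_right hj
  rcases Nat.le_total i j with hij | hij
  · have e := hg.2.2 i j hij hj
    -- x w via a2 near g j ; z y via b1 near g i
    have t1 := hd.tri x a2 (g j)
    have t2 := hd.tri (g j) a2 w
    have t3 := hd.tri z b1 (g i)
    have t4 := hd.tri (g i) b1 y
    have t5 := hd.tri z (g i) w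
    have t6 := hd.tri (g i) (g j) w
    have s1 := hd.symm a2 (g j)
    have s2 := hd.symm b1 (g i)
    have s3 := hd.symm y z
    have hmax : d x w + d y z ≤ max (d x z + d y w) (d x w + d y z) := le_max_right _ _
    omega
  · have e := hg.2.2 j i hij hi
    have t1 := hd.tri x a1 (g i)
    have t2 := hd.tri (g i) a1 z
    have t3 := hd.tri w b2 (g j)
    have t4 := hd.tri (g j) b2 y
    have t5 := hd.tri z (g j) w
    have t6 := hd.tri z (g i) (g j)
    have s1 := hd.symm a1 (g i)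
    have s2 := hd.symm b2 (g j)
    have s3 := hd.symm y w
    have s4 := hd.symm z (g i)
    have s5 := hd.symm w (g j)
    have s6 := hd.symm (g i) (g j)
    have hmax : d x z + d y w ≤ max (d x z + d y w) (d x w + d y z) := le_max_left _ _
    omega

end Pool.Agent.BURN
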