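import Pool.Agent.BURN.Stmts2
import Pool.Agent.BURN.Basic

/-! 3.8: rescaling of the metric. -/

namespace Pool.Agent.BURN

namespace Rescale

theorem le_mul (Λ n : ℕ) (h : 2 ≤ Λ) : n ≤ Λ * ((n + Λ - 1) / Λ) := by
  have h1 := Nat.div_add_mod (n + Λ - 1) Λ
  have h2 := Nat.mod_lt (n + Λ - 1) (show 0 < Λ by omega)
  omega

theorem mul_le (Λ n : ℕ) (_h : 2 ≤ Λ) : Λ * ((n + Λ - 1) / Λ) ≤ n + Λ - 1 :=
  Nat.mul_div_le _ _

theorem le_of (Λ n m : ℕ) (h : 2 ≤ Λ) (hn : n ≤ Λ * m) : (n + Λ - 1) / Λ ≤ m := by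
  rw [Nat.div_le_iff_le_mul_add_pred (by omega)]
  omega

theorem le_of' (Λ n m : ℕ) (h : 2 ≤ Λ) (hn : Λ * m < n + Λ) : m ≤ (n + Λ - 1) / Λ := by
  rw [Nat.le_div_iff_mul_le (by omega)]
  rw [Nat.mul_comm]; omega

end Rescale

open Rescale in
theorem rescale_proof : Stmt_Rescale := by
  intro X d δ k Λ hd hy hΛ hk
  have hle : ∀ x y, d x y ≤ Λ * Dsc Λ d x y := fun x y => le_mul Λ _ hΛ
  have hge : ∀ x y, Λ * Dsc Λ d x y ≤ d x y + Λ - 1 := fun x y => mul_le Λ _ hΛ
  have hub : ∀ x y m, d x y ≤ Λ * m → Dsc Λ d x y ≤ m := fun x y m h => le_of Λ _ _ hΛ h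
  have hlb : ∀ x y m, Λ * m < d x y + Λ → m ≤ Dsc Λ d x y := fun x y m h => le_of' Λ _ _ hΛ h
  refine ⟨⟨?_, ?_, ?_, ?_⟩, ?_, ?_⟩
  · intro x y
    constructor
    · intro h
      have := hle x y
      rw [h] at this
      exact (hd.eq_zero x y).1 (by omega)
    · intro h
      have h0 := (hd.eq_zero x y).2 h
      have := hub x y 0 (by omega)
      omega
  · intro x y
    unfold Dsc; rw [hd.symm x y]
  · intro x y z
    apply hub
    have h1 := hle x y
    have h2 := hle y z
    have h3 := hd.tri x y z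
    rw [Nat.mul_add]; omega
  · intro x y t ht
    by_cases h : Λ * t ≤ d x y
    · obtain ⟨z, hz1, hz2⟩ := hd.geo x y (Λ * t) h
      refine ⟨z, ?_, ?_⟩
      · apply le_antisymm
        · apply hub; omega
        · apply hlb; omega
      · apply le_antisymm
        · apply hub
          have h1 := hle x y
          rw [Nat.mul_sub]; omega
        · apply hlb
          have h1 := hge x y
          rw [Nat.mul_sub]; omega
    · have h1 : Dsc Λ d x y ≤ t := hub x y t (by omega)
      have h2 : t = Dsc Λ d x y := by omega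
      refine ⟨y, h2.symm, ?_⟩
      have h0 := (hd.eq_zero y y).2 rfl
      have := hub y y 0 (by omega)
      omega
  · intro x y z w
    have h1 := hge x y
    have h2 := hge z w
    have h3 := hy x y z w
    have hlt : Λ * (Dsc Λ d x y + Dsc Λ d z w) <
        Λ * (max (Dsc Λ d x z + Dsc Λ d y w) (Dsc Λ d x w + Dsc Λ d y z) + 3) := by
      rw [Nat.mul_add, Nat.mul_add]
      rcases le_max_iff.1 (show d x y + d z w - δ ≤
        max (d x z + d y w) (d x w + d y z) by omega) with h | h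
      · have a1 := hle x z
        have a2 := hle y w
        have a3 : Λ * (Dsc Λ d x z + Dsc Λ d y w) ≤
          Λ * max (Dsc Λ d x z + Dsc Λ d y w) (Dsc Λ d x w + Dsc Λ d y z) :=
          Nat.mul_le_mul_left _ (le_max_left _ _)
        rw [Nat.mul_add] at a3
        omega
      · have a1 := hle x w
        have a2 := hle y z
        have a3 : Λ * (Dsc Λ d x w + Dsc Λ d y z) ≤
          Λ * max (Dsc Λ d x z + Dsc Λ d y w) (Dsc Λ d x w + Dsc Λ d y z) :=
          Nat.mul_le_mul_left _ (le_max_right _ _)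
        rw [Nat.mul_add] at a3
        omega
    have := Nat.lt_of_mul_lt_mul_left hlt
    omega
  · intro W hW x hx y hyW p hp
    have h1 := hle x p
    have h2 := hle p y
    have h3 := hge x y
    unfold Btw at hp
    have h4 : Λ * (Dsc Λ d x p + Dsc Λ d p y) = Λ * Dsc Λ d x y := by rw [hp]
    rw [Nat.mul_add] at h4
    have hg := gp_add hd x y p
    have hs := hd.symm p y
    obtain ⟨g, hgd⟩ := exists_geod hd x y
    obtain ⟨hm, hn⟩ := near_geod hd hy hgd p
    set m := gp d y p x / 2 with hmdef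
    obtain ⟨w, hw, hw2⟩ := hW x hx y hyW (g m) (hgd.btw' hm)
    refine ⟨w, hw, ?_⟩
    apply hub
    have h5 := hd.tri p (g m) w
    omega

end Pool.Agent.BURN
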