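import Pool.Agent.BURN.Basic
import Pool.Agent.BURN.Stmts3

/-! 4.16 (S3) of the blueprint: conjugacy of old torsion elements lifts through a step. -/

namespace Pool.Agent.BURN

theorem smul_bs (S : KSys) (g : S.G) (x : S.X) : g • S.bs x = S.bs (g • x) := by
  apply Subtype.ext
  unfold KSys.bs
  rw [S.act]
  rfl

theorem ht_bs (S : KSys) (x : S.X) : ht rho (S.bs x).1 = 0 := rfl
theorem ht_ap (S : KSys) (i : S.I) : ht rho (S.ap i).1 = rho + 1 := rfl

/-- a non-loxodromic element moves some base point of the cone-off by at most 1 -/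
theorem nonlox_base (S : KSys) (hKCD : Stmt_KCD) (hDG : Stmt_GamDG) (hIso : Stmt_Iso1)
    (g : S.G) (hg : ¬ Lox S.d g) : ∃ P : S.X, S.dg (S.bs P) (g • S.bs P) ≤ 1 := by
  obtain ⟨x⟩ := S.good.nonempty
  obtain ⟨y, hy1, hy2⟩ := S.good.dg.geo x (g • x) (S.d x (g • x) / 2) (Nat.div_le_self _ _)
  have hb : Btw S.d x y (g • x) := by
    unfold Btw; omega
  have h1 := (hIso S.G S.X S.d dd S.good.dg S.good.hyp S.good.iso).2.2 g x hg y hb hy1
  refine ⟨y, ?_⟩
  rw [smul_bs]
  have hCD := (hKCD S).1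
  have h2 := (hDG S.X S.I S.D S.Y rho hCD).2.2.2.2.1 y (g • y)
  have h3 : S.D y (g • y) ≤ 1 := by
    unfold KSys.D Dsc
    have hL := Lam_eq
    have hd := dd_ge
    have : (S.d y (g • y) + Lam - 1) / Lam < 2 := by
      rw [Nat.div_lt_iff_lt_mul Lam_pos]
      omega
    omega
  exact le_trans h2 h3

theorem S3_proof (hKCD : Stmt_KCD) (hDG : Stmt_GamDG) (hKRF : Stmt_KRF) (hKS : Stmt_KStab)
    (hLL : Stmt_LL) (hIso : Stmt_Iso1) (hMid : Stmt_Mid) (hGL : Stmt_GLcor) : Stmt_S3 := by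
  intro S g g' h hg hg' hne hπ
  obtain ⟨hRF, hdb, hib, hyb, hle, hatt, -⟩ := hKRF S
  obtain ⟨-, hst, -, -, hlox, -, -, -, hbase⟩ := hKS S
  obtain ⟨P, hP⟩ := nonlox_base S hKCD hDG hIso g hg
  obtain ⟨P', hP'⟩ := nonlox_base S hKCD hDG hIso g' hg'
  have hD := hDG S.X S.I S.D S.Y rho (hKCD S).1
  have hht : ∀ u w : S.Gm, ht rho w.1 ≤ ht rho u.1 + S.dg u w := hD.2.2.1
  have haa := aa0_ge
  have hrho := rho_eq
  have hN0 := N0_eq
  have hdd := dd_ge
  have hK : ∀ a b : S.G, S.π a = S.π b → a * b⁻¹ ∈ KK (Set.range S.ap) S.R := by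
    intro a b hab
    refine (S.pker _).1 ?_
    rw [map_mul, map_inv, hab, mul_inv_cancel]
  have hcap : ∀ (u : S.Gm), ∀ c ∈ Set.range S.ap, rho + 1 ≤ ht rho u.1 + S.dg u c := by
    rintro u c ⟨i, rfl⟩
    exact hht u (S.ap i)
  -- g' is not trivial
  have hg'1 : g' ≠ 1 := by
    intro h1
    rw [h1, map_one] at hπ
    have hk : h * g * h⁻¹ ∈ KK (Set.range S.ap) S.R := (S.pker _).1 hπ
    have hk1 : h * g * h⁻¹ ≠ 1 := by
      intro h2
      apply hne
      have : g = h⁻¹ * (h * g * h⁻¹) * h := by group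
      rw [this, h2]; group
    have h3 := (hGL S.G S.Gm S.dg (Set.range S.ap) S.R del1 (2 * f3 + 1) (2 * f3) (2 * rho + 2)
      hRF).1 (S.bs (h • P)) (rho + 1) (h * g * h⁻¹) hk hk1
      (by
        rintro c ⟨i, rfl⟩
        have := hbase (h • P) i
        omega)
      (by
        rintro c ⟨i, rfl⟩
        exact hbase (h • P) i)
    have h4 : (h * g * h⁻¹) • S.bs (h • P) = h • (g • S.bs P) := by
      rw [← smul_bs S h P, mul_smul, inv_smul_smul, mul_smul]
    rw [h4, ← smul_bs S h P, hRF.iso] at h3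
    omega
  -- the conjugator
  obtain ⟨k, hk, hkd⟩ := hatt (S.bs P') (h • S.bs P)
  have hπk : S.π k = 1 := (S.pker k).2 hk
  have hπh : S.π (k * h) = S.π h := by rw [map_mul, hπk, one_mul]
  have hk1 : k • h • S.bs P = (k * h) • S.bs P := by rw [mul_smul]
  have hkq : S.q (h • S.bs P) = S.q ((k * h) • S.bs P) := by
    rw [S.qeq]; exact ⟨k, hk, hk1⟩
  rw [hk1, hkq] at hkd
  generalize hh' : k * h = h' at *
  have hπ' : S.π (h' * g * h'⁻¹) = S.π g' := by
    rw [← hπ, map_mul, map_mul, map_inv, hπh, map_mul, map_mul, map_inv]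
  refine ⟨h', hπh, ?_⟩
  set x := S.bs P' with hx
  set y := h' • S.bs P with hy
  obtain ⟨γ, hγ⟩ := exists_geod hRF.dg x y
  -- displacement of the end points
  have hyg : S.dg y ((h' * g * h'⁻¹) • y) ≤ 1 := by
    have : (h' * g * h'⁻¹) • y = h' • (g • S.bs P) := by
      rw [hy, mul_smul, inv_smul_smul, mul_smul]
    rw [this, hy, hRF.iso]; exact hP
  have e1 : S.db (S.q x) (S.π g' • S.q x) ≤ 1 := by
    rw [S.qsmul]; exact (hle _ _).trans hP'
  have e2 : S.db (S.q y) (S.π g' • S.q y) ≤ 1 := by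
    rw [← hπ', S.qsmul]; exact (hle _ _).trans hyg
  have hmid : ∀ i ≤ S.dg x y, S.db (S.q (γ i)) (S.q (g' • γ i)) ≤ 1 + dd := by
    intro i hi
    obtain ⟨γb, hγb⟩ := exists_geod hdb (S.q x) (S.q y)
    have hm := (hMid S.Gb S.Xb S.db dd 1 (S.q x) (S.q y) γb (S.π g') hdb hyb hib hγb e1 e2).1
      (S.q (γ i)) (by
        unfold Btw
        have a1 := hle x (γ i)
        have a2 := hle (γ i) y
        have a3 := hγ.dist_left hi
        have a4 := hγ.dist_right hi
        have a5 := hdb.tri (S.q x) (S.q (γ i)) (S.q y)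
        omega)
    rw [S.qsmul] at hm
    exact hm
  have hmidK : ∀ i ≤ S.dg x y, dK S.dg (KK (Set.range S.ap) S.R) (γ i) (g' • γ i) ≤ 1 + dd := by
    intro i hi
    have := hmid i hi
    rw [S.qdist] at this
    exact this
  have hxfar : ∀ c ∈ Set.range S.ap, rho + 1 ≤ S.dg x c := by
    rintro c ⟨i, rfl⟩
    exact hbase P' i
  have hyfar : ∀ c ∈ Set.range S.ap, rho + 1 ≤ S.dg y c := by
    rintro c ⟨i, rfl⟩
    rw [hy, smul_bs]
    exact hbase (h' • P) i
  obtain ⟨huniq, hlift⟩ := hLL S.G S.Gm S.dg (Set.range S.ap) S.R del1 (2 * f3 + 1) (2 * f3)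
    (2 * rho + 2) hRF
  -- lifting along an initial piece on which the heights are small
  have hpiece : ∀ t ≤ S.dg x y, (∀ i ≤ t, 2 * ht rho (γ i).1 ≤ 3 + dd) →
      ∀ i ≤ t, S.dg (γ i) (g' • γ i) ≤ 1 + dd := by
    intro t ht' hsm
    have hd0 : S.dg (γ 0) (γ t) = t := by rw [hγ.2.2 0 t (by omega) ht']; omega
    have hγt : IsGeod S.dg (γ 0) (γ t) γ := by
      refine ⟨rfl, by rw [hd0], ?_⟩
      intro i j hij hj
      rw [hd0] at hj
      exact hγ.2.2 i j hij (by omega)
    obtain ⟨g2, hg2K, hg2⟩ := hlift (γ 0) (γ t) (rho - 3 - dd) (1 + dd) γ g' (by omega) hγt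
      (by omega)
      (by
        intro i hi c hc
        rw [hd0] at hi
        have := hcap (γ i) c hc
        have := hsm i hi
        omega)
      (by
        intro i hi
        rw [hd0] at hi
        exact hmidK i (by omega))
    rw [hd0] at hg2
    have heq : g' = g2 := by
      refine huniq x (rho + 1) g' g2 (by omega) hxfar hg2K ?_
      have := hg2 0 (by omega)
      rw [hγ.1] at this
      omega
    rw [heq]; exact hg2
  by_cases hall : ∀ i ≤ S.dg x y, 2 * ht rho (γ i).1 ≤ 1 + dd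
  · have hlast := hpiece (S.dg x y) le_rfl (fun i hi => by have := hall i hi; omega)
      (S.dg x y) le_rfl
    rw [hγ.2.1] at hlast
    refine huniq y (rho + 1) (h' * g * h'⁻¹) g' (by omega) hyfar ?_ ?_
    · exact hK _ _ hπ'.symm
    · omega
  · exfalso
    push Not at hall
    classical
    have hex : ∃ t, t ≤ S.dg x y ∧ 1 + dd < 2 * ht rho (γ t).1 := hall
    let t := Nat.find hex
    obtain ⟨ht1, ht2⟩ : t ≤ S.dg x y ∧ 1 + dd < 2 * ht rho (γ t).1 := Nat.find_spec hex
    have hmin : ∀ i < t, 2 * ht rho (γ i).1 ≤ 1 + dd := by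
      intro i hi
      have := Nat.find_min hex hi
      push Not at this
      exact this (by omega)
    have ht0 : t ≠ 0 := by
      intro h0
      rw [h0, hγ.1, hx, ht_bs] at ht2
      omega
    have hbd : ∀ i ≤ t, 2 * ht rho (γ i).1 ≤ 3 + dd := by
      intro i hi
      by_cases hit : i = t
      · have h1 := hmin (t - 1) (by omega)
        have h2 := hht (γ (t - 1)) (γ t)
        have h3 := hγ.2.2 (t - 1) t (by omega) ht1
        rw [hit]
        omega
      · have := hmin i (by omega)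
        omega
    have h5 := hpiece t ht1 hbd t le_rfl
    obtain ⟨i, -, hi⟩ := hst (γ t) g' (by omega)
    exact hg' (hlox i g' hi hg'1)

end Pool.Agent.BURN
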