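import Pool.Agent.BURN.Stmts3
import Pool.Agent.BURN.Basic

/-! 4.16 (S5) and (S5') of the blueprint. -/

namespace Pool.Agent.BURN

namespace KSys

theorem ap_smul (S : KSys) (g : S.G) (i : S.I) : g • S.ap i = S.ap (g • i) := by
  apply Subtype.ext
  have h := S.act g (S.ap i)
  exact h

theorem ap_inj (S : KSys) {i j : S.I} (h : S.ap i = S.ap j) : i = j := by
  have h1 : (S.ap i).1 = (S.ap j).1 := by rw [h]
  have h2 : (CV.a i : CV S.X S.I) = CV.a j := h1
  injection h2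

theorem bs_smul (S : KSys) (g : S.G) (x : S.X) : g • S.bs x = S.bs (g • x) := by
  apply Subtype.ext
  have h := S.act g (S.bs x)
  exact h

end KSys

/-- a point fixed by the rotation e of E i is near the apex i -/
theorem S5_near (hRot : Stmt_Rot) (S : KSys) (hdb : IsDG S.db) (i : S.I) (e : S.G) (z : S.Xb)
    (he : e ∈ S.E i) (hn : e ∉ RotS (S.E i) (S.nE i)) (l : ℕ) (hl : l ≤ 1)
    (hz : S.db z (S.π e • z) ≤ l)
    (hfix : S.db (S.π e • z) (S.q (S.ap i)) = S.db z (S.q (S.ap i))) :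
    S.db z (S.q (S.ap i)) ≤ rho + 1 + M1 := by
  have h1 := hRot S i e z he hn
  have h2 := gp_add hdb z (S.π e • z) (S.q (S.ap i))
  rw [hfix] at h2
  omega

theorem S5_proof (hRot : Stmt_Rot) (hKS : Stmt_KStab) (hKRF : Stmt_KRF) : Stmt_S5 := by
  intro S i j e e' h he hn he' hpi
  obtain ⟨-, hdb, hiso, -, -, -, -⟩ := hKRF S
  obtain ⟨k1, -, -, -, -, -, -, k8, -⟩ := hKS S
  -- the point z
  have hz0 : S.π (h⁻¹) • S.q (S.ap j) = S.q (S.ap (h⁻¹ • j)) := by
    rw [S.qsmul, S.ap_smul]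
  have hej : S.π e' • S.q (S.ap j) = S.q (S.ap j) := by
    rw [S.qsmul, (k1 j e').2 he']
  have hei : S.π e • S.q (S.ap i) = S.q (S.ap i) := by
    rw [S.qsmul, (k1 i e).2 he]
  have hez : S.π e • S.q (S.ap (h⁻¹ • j)) = S.q (S.ap (h⁻¹ • j)) := by
    rw [← hz0]
    have hc : S.π e = S.π h⁻¹ * S.π e' * S.π h := by
      rw [← hpi, ← map_mul, ← map_mul]
      congr 1
      group
    rw [hc, ← mul_smul]
    have : S.π h⁻¹ * S.π e' * S.π h * S.π h⁻¹ = S.π h⁻¹ * S.π e' := by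
      rw [map_inv, mul_inv_cancel_right]
    rw [this, mul_smul, hej]
  have hnear := S5_near hRot S hdb i e (S.q (S.ap (h⁻¹ • j))) he hn 0 (by omega)
    (by rw [hez, (hdb.eq_zero _ _).2 rfl]) (by rw [hez])
  have hq : S.q (S.ap (h⁻¹ • j)) = S.q (S.ap i) := by
    by_contra hne
    have := k8 _ _ hne
    have hr := rho_eq
    have hd := dd_ge
    omega
  obtain ⟨k, hk, hki⟩ := (S.qeq _ _).1 hq
  rw [S.ap_smul] at hki
  have hij := S.ap_inj hki
  refine ⟨h * k⁻¹, ?_, ?_⟩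
  · rw [map_mul, map_inv, (S.pker k).2 hk, inv_one, mul_one]
  · rw [← hij, mul_smul, inv_smul_smul, smul_inv_smul]

theorem S5b_proof (hRot : Stmt_Rot) (hKS : Stmt_KStab) (hKRF : Stmt_KRF) (hLL : Stmt_LL)
    (hIso : Stmt_Iso1) (hGDG : Stmt_GamDG) (hKCD : Stmt_KCD) : Stmt_S5b := by
  intro S i g e h hg hg1 he hn hpi
  obtain ⟨hRF, hdb, hiso, hyp, hle, hlift, -⟩ := hKRF S
  obtain ⟨k1, k2, -, -, k5, -, -, -, -⟩ := hKS S
  obtain ⟨hCD, -, -⟩ := hKCD S
  obtain ⟨-, -, gh, -, gb, -, -, -⟩ := hGDG S.X S.I S.D S.Y rho hCD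
  have hdg : IsDG S.dg := hRF.dg
  have hr := rho_eq
  have hd := dd_ge
  have hN := N0_eq
  have hb := aa0_ge.1
  -- a point moved by at most one
  obtain ⟨x0⟩ := S.good.nonempty
  obtain ⟨P, hP1, hP2⟩ := S.good.dg.geo x0 (g • x0) (S.d x0 (g • x0) / 2) (Nat.div_le_self _ _)
  have hPd : S.d P (g • P) ≤ 3 * dd + 1 := by
    obtain ⟨-, -, h3⟩ := hIso S.G S.X S.d dd S.good.dg S.good.hyp S.good.iso
    refine h3 g x0 hg P ?_ hP1
    unfold Btw; omega
  have hPD : S.D P (g • P) ≤ 1 := by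
    have hL := Lam_eq
    unfold KSys.D Dsc
    rw [Nat.div_le_iff_le_mul_add_pred (by omega)]
    omega
  have hPg : S.dg (S.bs P) (g • S.bs P) ≤ 1 := by
    rw [S.bs_smul]
    exact (gb P (g • P)).trans hPD
  -- the point z = h P
  have hPb : S.db (S.q (S.bs P)) (S.π g • S.q (S.bs P)) ≤ 1 := by
    rw [S.qsmul]; exact (hle _ _).trans hPg
  have hc : S.π e * S.π h = S.π h * S.π g := by
    rw [← hpi, ← map_mul, ← map_mul]; congr 1; group
  have hei : S.π e • S.q (S.ap i) = S.q (S.ap i) := by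
    rw [S.qsmul, (k1 i e).2 he]
  have hnear := S5_near hRot S hdb i e (S.π h • S.q (S.bs P)) he hn 1 le_rfl
    (by
      rw [← mul_smul, hc, mul_smul, hiso]; exact hPb)
    (by
      conv_lhs => rw [← hei, hiso])
  -- the apex i1 = h⁻¹ i
  have hv1 : S.π h • S.q (S.ap (h⁻¹ • i)) = S.q (S.ap i) := by
    rw [S.qsmul, S.ap_smul, smul_inv_smul]
  rw [← hv1, hiso] at hnear
  have hfix1 : S.π g • S.q (S.ap (h⁻¹ • i)) = S.q (S.ap (h⁻¹ • i)) := by
    apply (MulAction.injective (S.π h))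
    simp only []
    rw [← mul_smul, ← hc, mul_smul, hv1, hei]
  obtain ⟨k, hk, hkd⟩ := hlift (S.bs P) (S.ap (h⁻¹ • i))
  have hq2 : S.q (S.ap (k • h⁻¹ • i)) = S.q (S.ap (h⁻¹ • i)) := by
    symm
    rw [S.qeq]
    exact ⟨k, hk, by rw [S.ap_smul]⟩
  rw [S.ap_smul] at hkd
  rw [← hq2] at hkd hnear hfix1
  generalize hi2 : k • h⁻¹ • i = i2 at hkd hnear hfix1 hq2
  clear hq2
  -- the geodesic
  obtain ⟨γ, hγ⟩ := exists_geod hdg (S.bs P) (S.ap i2)
  set n := S.dg (S.bs P) (S.ap i2) with hn0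
  have hmove : ∀ s ≤ n, S.db (S.q (γ s)) (S.π g • S.q (γ s)) ≤ 1 + dd := by
    intro s hs
    have a1 : S.db (S.q (S.bs P)) (S.q (γ s)) ≤ s := by
      have := hle (S.bs P) (γ s); rw [hγ.dist_left hs] at this; exact this
    have a2 : S.db (S.q (γ s)) (S.q (S.ap i2)) ≤ n - s := by
      have := hle (γ s) (S.ap i2); rw [hγ.dist_right hs] at this; exact this
    have a3 := hyp (S.q (γ s)) (S.π g • S.q (γ s)) (S.q (S.bs P)) (S.q (S.ap i2))
    have a4 : S.db (S.π g • S.q (γ s)) (S.q (S.ap i2)) ≤ n - s := by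
      rw [← hfix1, hiso]; exact a2
    have a5 : S.db (S.π g • S.q (γ s)) (S.q (S.bs P)) ≤ s + 1 := by
      have t := hdb.tri (S.π g • S.q (γ s)) (S.π g • S.q (S.bs P)) (S.q (S.bs P))
      have t1 : S.db (S.π g • S.q (γ s)) (S.π g • S.q (S.bs P)) =
        S.db (S.q (γ s)) (S.q (S.bs P)) := hiso _ _ _
      have t2 := hdb.symm (S.π g • S.q (S.bs P)) (S.q (S.bs P))
      have t3 := hdb.symm (S.q (γ s)) (S.q (S.bs P))
      omega
    have t3 := hdb.symm (S.q (γ s)) (S.q (S.bs P))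
    omega
  -- the first high point
  have hex : ∃ t, t ≤ n ∧ 1 + dd < 2 * ht rho (γ t).1 := by
    refine ⟨n, le_rfl, ?_⟩
    rw [hγ.2.1]
    have : ht rho (S.ap i2).1 = rho + 1 := rfl
    rw [this]; omega
  classical
  set t := Nat.find hex with ht0
  obtain ⟨htn, hth⟩ := Nat.find_spec hex
  rw [← ht0] at htn hth
  have hmin : ∀ s < t, 2 * ht rho (γ s).1 ≤ 1 + dd := by
    intro s hs
    have := Nat.find_min hex hs
    push Not at this
    exact this (by omega)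
  have ht1 : t ≠ 0 := by
    intro h0
    rw [h0, hγ.1] at hth
    have : ht rho (S.bs P).1 = 0 := rfl
    rw [this] at hth
    omega
  have htt : ht rho (γ t).1 ≤ ht rho (γ (t - 1)).1 + 1 := by
    have a1 := gh (γ (t - 1)) (γ t)
    have a2 : S.dg (γ (t - 1)) (γ t) = t - (t - 1) := hγ.2.2 (t - 1) t (by omega) htn
    have a3 : dGam S.D S.Y rho (γ (t - 1)) (γ t) = t - (t - 1) := a2
    rw [a3] at a1
    omega
  have hhigh : ∀ s ≤ t, ht rho (γ s).1 ≤ (1 + dd) / 2 + 1 := by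
    intro s hs
    rcases Nat.lt_or_ge s t with h1 | h1
    · have := hmin s h1; omega
    · have h2 : s = t := by omega
      have := hmin (t - 1) (by omega)
      rw [h2]; omega
  have hfar : ∀ s ≤ t, ∀ c ∈ Set.range S.ap, N0 ≤ S.dg (γ s) c := by
    rintro s hs c ⟨j, rfl⟩
    have a1 : ht rho (S.ap j).1 ≤ ht rho (γ s).1 + S.dg (γ s) (S.ap j) := gh (γ s) (S.ap j)
    have a2 : ht rho (S.ap j).1 = rho + 1 := rfl
    have := hhigh s hs
    omega
  have e0 : S.dg (γ 0) (γ t) = t := by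
    have := hγ.2.2 0 t (by omega) htn; omega
  obtain ⟨hL1, hL2⟩ := hLL S.G S.Gm S.dg (Set.range S.ap) S.R del1 (2 * f3 + 1) (2 * f3)
    (2 * rho + 2) hRF
  obtain ⟨g2, hg2, hg2m⟩ := hL2 (γ 0) (γ t) N0 (1 + dd) γ g (by omega)
    ⟨rfl, by rw [e0], fun a b hab hbt => hγ.2.2 a b hab (by omega)⟩ (by omega)
    (by rw [e0]; exact hfar)
    (by
      rw [e0]
      intro s hs
      have a1 := S.qdist (γ s) (g • γ s)
      rw [← S.qsmul] at a1
      have a2 := hmove s (by omega)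
      rw [a1] at a2
      exact a2)
  rw [e0] at hg2m
  have hgg : g = g2 := by
    refine hL1 (γ 0) N0 g g2 (by omega) (hfar 0 (by omega)) hg2 ?_
    have a1 := hg2m 0 (by omega)
    rw [hγ.1] at a1 ⊢
    omega
  have hfin := hg2m t le_rfl
  rw [← hgg] at hfin
  obtain ⟨i3, -, hi3⟩ := k2 (γ t) g (by omega)
  exact hg (k5 i3 g hi3 hg1)

end Pool.Agent.BURN
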