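import Pool.Agent.BURN.Basic
import Pool.Agent.BURN.Stmts3

/-! 4.6 (SC) -/

namespace Pool.Agent.BURN

namespace SCX

variable {G X : Type} [Group G] [MulAction G X] {d : X → X → ℕ} {N : ℕ}

/-- (1): a non-loxodromic element of S is trivial -/
theorem lox_or_one (hComm : Stmt_Comm) (hSlen : Stmt_Slen) (hG : Good (G := G) d N)
    {x y : X} {l : ℕ} (hxy : A0 + 8 * l + 20 * dd ≤ d x y) {g : G} (h1 : d x (g • x) ≤ l)
    (h2 : d y (g • y) ≤ l) (hg : ¬ Lox d g) : g = 1 := by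
  have hdg := hG.dg
  have hdd := dd_ge
  obtain ⟨γ, hγ⟩ := exists_geod hdg x y
  have hc := hComm G X d dd l x y γ g g hdg hG.hyp hG.iso hγ h1 h2 h1 h2
  have c0 := (hc (2 * l + dd + 1) le_rfl (by omega)).2.2 hg
  have c1 := (hc (d x y - (2 * l + dd + 1)) (by omega) (by omega)).2.2 hg
  have hlen : d (γ (2 * l + dd + 1)) (γ (d x y - (2 * l + dd + 1))) =
      d x y - (2 * l + dd + 1) - (2 * l + dd + 1) := hγ.2.2 _ _ (by omega) (by omega)
  obtain ⟨c, hc1, hc2⟩ := hG.acyl _ _ (show A0 ≤ d (γ (2 * l + dd + 1))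
    (γ (d x y - (2 * l + dd + 1))) by omega)
  obtain ⟨k, hk⟩ := hc2 g (by omega) (by omega)
  have hk' : c ^ k = g := hk
  rcases hc1 with rfl | hc1
  · rw [← hk', one_zpow]
  · by_cases hk0 : k = 0
    · rw [← hk', hk0, zpow_zero]
    · exact absurd (hk' ▸ ((hSlen G X d hdg hG.iso).2.2.2.2.2.1 c k hk0).2 hc1) hg

/-- (2) -/
theorem key (hMid : Stmt_Mid) (hComm : Stmt_Comm) (hCyc : Stmt_Cyc) (hMax : Stmt_MaxCyc)
    (hG : Good (G := G) d N)
    {x y : X} {l : ℕ} (hxy : A0 + 8 * l + 20 * dd ≤ d x y) {g h : G} (g1 : d x (g • x) ≤ l)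
    (g2 : d y (g • y) ≤ l) (h1 : d x (h • x) ≤ l) (h2 : d y (h • y) ≤ l)
    (hz : g⁻¹ * h⁻¹ * g * h ≠ 1) :
    ∃ w : G, IsMaxCyc d w ∧ g ∈ Subgroup.zpowers w ∧ g⁻¹ * h⁻¹ * g * h ∈ Subgroup.zpowers w := by
  have hdg := hG.dg
  have hdd := dd_ge
  obtain ⟨γ, hγ⟩ := exists_geod hdg x y
  have hc := hComm G X d dd l x y γ g h hdg hG.hyp hG.iso hγ g1 g2 h1 h2
  obtain ⟨-, hm, -⟩ := hMid G X d dd l x y γ g hdg hG.hyp hG.iso hγ g1 g2
  set z := g⁻¹ * h⁻¹ * g * h with hzdef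
  -- at γ(t + T(t)) both z and g z g⁻¹ move by at most 20 dd
  have step : ∀ t, 3 * l + dd + 1 ≤ t → t + 3 * l + dd + 1 ≤ d x y →
      ∃ s : ℕ, s ≤ d x y ∧ s ≤ t + l ∧ t ≤ s + l ∧ d (γ s) (z • γ s) ≤ 20 * dd ∧
        d (γ s) ((g * z * g⁻¹) • γ s) ≤ 20 * dd := by
    intro t ht1 ht2
    obtain ⟨m1, m2, m3, -⟩ := hm t (by omega) (by omega)
    have m4 : (d x (g • γ t) : ℤ) = t + Tr d g γ t := by
      unfold Tr; rw [hγ.1]; ring
    have m5 := abs_le.1 m1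
    set s := d x (g • γ t) with hs
    have hs1 : s ≤ t + l := by omega
    have hs2 : t ≤ s + l := by omega
    have z1 := (hc s (by omega) (by omega)).2.1
    have z2 := (hc t (by omega) (by omega)).2.1
    refine ⟨s, m2, hs1, hs2, by omega, ?_⟩
    -- conjugate
    have e1 : d (g • γ t) ((g * z * g⁻¹) • g • γ t) ≤ 14 * dd := by
      have : (g * z * g⁻¹) • g • γ t = g • z • γ t := by
        simp only [smul_smul]
        rw [mul_assoc (g * z), inv_mul_cancel, mul_one]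
      rw [this, hG.iso]
      exact z2
    have t1 := hdg.tri (γ s) (g • γ t) ((g * z * g⁻¹) • γ s)
    have t2 := hdg.tri (g • γ t) ((g * z * g⁻¹) • g • γ t) ((g * z * g⁻¹) • γ s)
    have t3 : d ((g * z * g⁻¹) • g • γ t) ((g * z * g⁻¹) • γ s) = d (g • γ t) (γ s) :=
      hG.iso _ _ _
    rw [hdg.symm (γ s) (g • γ t)] at t1
    omega
  obtain ⟨s0, a1, a2, a3, a4, a5⟩ := step (3 * l + dd + 1) le_rfl (by omega)
  obtain ⟨s1, b1, b2, b3, b4, b5⟩ := step (d x y - (3 * l + dd + 1)) (by omega) (by omega)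
  have hlen : d (γ s0) (γ s1) = s1 - s0 := hγ.2.2 _ _ (by omega) b1
  obtain ⟨c, hc1, hc2⟩ := hG.acyl _ _ (show A0 ≤ d (γ s0) (γ s1) by omega)
  obtain ⟨i, hi⟩ := hc2 z (by omega) (by omega)
  obtain ⟨j, hj⟩ := hc2 (g * z * g⁻¹) (by omega) (by omega)
  have hi' : c ^ i = z := hi
  have hj' : c ^ j = g * z * g⁻¹ := hj
  have hcl : Lox d c := by
    rcases hc1 with rfl | hc1
    · rw [one_zpow] at hi'
      exact absurd hi'.symm hz
    · exact hc1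
  obtain ⟨w, hw, hw2⟩ := hCyc G X d N hG c hcl
  have hcw : c ∈ Subgroup.zpowers w := (hw2 c).1 ⟨1, le_rfl, by
    rw [pow_one, mul_inv_cancel_right]⟩
  obtain ⟨e, he⟩ := hcw
  have he' : w ^ e = c := he
  refine ⟨w, hw, ?_, ?_⟩
  · refine (hMax G X d N hG).1 w g (e * i) (e * j) hw ?_ ?_
    · intro h0
      apply hz
      rw [← hi', ← he', ← zpow_mul, h0, zpow_zero]
    · rw [zpow_mul, zpow_mul, he', hi', hj']
  · exact ⟨e * i, by change w ^ (e * i) = z; rw [zpow_mul, he', hi']⟩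

end SCX

open SCX in
theorem SC_proof (hMid : Stmt_Mid) (hComm : Stmt_Comm) (hSlen : Stmt_Slen) (hCyc : Stmt_Cyc)
    (hMax : Stmt_MaxCyc) : Stmt_SC := by
  intro G X _ _ d N hG x y l hxy
  have hcomm : ∀ g h : G, d x (g • x) ≤ l → d y (g • y) ≤ l → d x (h • x) ≤ l →
      d y (h • y) ≤ l → g * h = h * g := by
    intro g h g1 g2 h1 h2
    have e0 : g⁻¹ * h⁻¹ * g * h = 1 → g * h = h * g := by
      intro e
      have e2 : (h * g)⁻¹ * (g * h) = 1 := by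
        rw [← e, mul_inv_rev]; group
      exact (inv_mul_eq_one.1 e2).symm
    by_contra hne
    have hz : g⁻¹ * h⁻¹ * g * h ≠ 1 := fun e => hne (e0 e)
    have hz' : h⁻¹ * g⁻¹ * h * g ≠ 1 := by
      intro e
      apply hz
      have : (h⁻¹ * g⁻¹ * h * g)⁻¹ = g⁻¹ * h⁻¹ * g * h := by group
      rw [← this, e, inv_one]
    obtain ⟨w, hw, w1, w2⟩ := key hMid hComm hCyc hMax hG hxy g1 g2 h1 h2 hz
    obtain ⟨w', hw', w1', w2'⟩ := key hMid hComm hCyc hMax hG hxy h1 h2 g1 g2 hz'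
    have w3 : g⁻¹ * h⁻¹ * g * h ∈ Subgroup.zpowers w' := by
      have : (h⁻¹ * g⁻¹ * h * g)⁻¹ = g⁻¹ * h⁻¹ * g * h := by group
      rw [← this]
      exact Subgroup.inv_mem _ w2'
    have hE := (hMax G X d N hG).2.1 w w' _ hw hw' hz w2 w3
    rw [← hE] at w1'
    obtain ⟨i, rfl⟩ := w1
    obtain ⟨j, rfl⟩ := w1'
    exact hne (by
      change w ^ i * w ^ j = w ^ j * w ^ i
      rw [← zpow_add, ← zpow_add, add_comm])
  by_cases hS : ∃ g0 : G, d x (g0 • x) ≤ l ∧ d y (g0 • y) ≤ l ∧ g0 ≠ 1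
  · obtain ⟨g0, g1, g2, g3⟩ := hS
    have hlox : Lox d g0 := by
      by_contra hcon
      exact g3 (lox_or_one hComm hSlen hG hxy g1 g2 hcon)
    obtain ⟨w, hw, hw2⟩ := hCyc G X d N hG g0 hlox
    refine ⟨w, Or.inr hw, ?_⟩
    intro g h1 h2
    refine (hw2 g).1 ⟨1, le_rfl, ?_⟩
    rw [pow_one, hcomm g g0 h1 h2 g1 g2, mul_inv_cancel_right]
  · push Not at hS
    refine ⟨1, Or.inl rfl, ?_⟩
    intro g h1 h2
    rw [hS g h1 h2]
    exact Subgroup.one_mem _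

end Pool.Agent.BURN
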