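import Pool.Agent.BURN.Basic
import Pool.Agent.BURN.Stmts2

/-! Section 3.3 of the blueprint: shadows. -/

namespace Pool.Agent.BURN

namespace ShadowAux

variable {V I : Type} {D : V → V → ℕ} {Y : I → Set V} {ρ : ℕ} {pr : I → V → V}

theorem shift_geod (_h : IsDG D) {x y : V} {g : ℕ → V} (hg : IsGeod D x y g) {t : ℕ}
    (ht : t ≤ D x y) : IsGeod D (g t) y (fun s => g (t + s)) := by
  have e : D (g t) y = D x y - t := hg.dist_right ht
  refine ⟨rfl, ?_, ?_⟩
  · show g (t + D (g t) y) = y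
    rw [e, Nat.add_sub_cancel' ht]; exact hg.2.1
  · intro i j hij hj
    rw [e] at hj
    show D (g (t + i)) (g (t + j)) = j - i
    rw [hg.2.2 (t + i) (t + j) (by omega) (by omega)]; omega

theorem rev_geod (h : IsDG D) {x y : V} {g : ℕ → V} (hg : IsGeod D x y g) :
    IsGeod D y x (fun s => g (D x y - s)) := by
  refine ⟨?_, ?_, ?_⟩
  · show g (D x y - 0) = y
    rw [Nat.sub_zero]; exact hg.2.1
  · show g (D x y - D y x) = x
    rw [h.symm y x, Nat.sub_self]; exact hg.1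
  · intro i j hij hj
    rw [h.symm y x] at hj
    show D (g (D x y - i)) (g (D x y - j)) = j - i
    rw [h.symm, hg.2.2 (D x y - j) (D x y - i) (by omega) (by omega)]; omega

theorem pr_self (h : CD D Y ρ) (hp : IsPr D Y pr) {i : I} {y : V} (hy : y ∈ Y i) :
    pr i y = y := by
  have h1 := (hp i y).2 y hy
  have h0 := (h.dg.eq_zero y y).2 rfl
  have h2 : D y (pr i y) = 0 := by omega
  exact ((h.dg.eq_zero _ _).1 h2).symm

theorem pr_lip (hP : Stmt_Proj) (h : CD D Y ρ) (hp : IsPr D Y pr) (i : I) (x y : V) :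
    D (pr i x) (pr i y) ≤ D x y + 18 := by
  have := (hP V D 2 1 7 7 9 22 (Y i) h.dg h.hyp (h.qc i) rfl rfl rfl rfl).2.2.1
    x y _ _ (hp i x) (hp i y)
  omega

theorem p2 (hP : Stmt_Proj) (h : CD D Y ρ) (hp : IsPr D Y pr) (i : I) (x y : V)
    (hd : 9 < D (pr i x) (pr i y)) :
    D x (pr i x) + D (pr i x) (pr i y) + D (pr i y) y ≤ D x y + 18 := by
  have := ((hP V D 2 1 7 7 9 22 (Y i) h.dg h.hyp (h.qc i) rfl rfl rfl rfl).2.1
    x y _ _ (hp i x) (hp i y) hd).2.2
  omega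

theorem p4 (hP : Stmt_Proj) (h : CD D Y ρ) (hp : IsPr D Y pr) (i : I) {x y q : V}
    (hb : Btw D x q y) (hd : 9 < D (pr i q) (pr i x)) (hd' : 9 < D (pr i q) (pr i y)) :
    D q (pr i q) ≤ 9 :=
  (hP V D 2 1 7 7 9 22 (Y i) h.dg h.hyp (h.qc i) rfl rfl rfl rfl).2.2.2.2.1
    x y q _ _ _ (hp i x) (hp i y) hb (hp i q) hd hd'

theorem p5 (hP : Stmt_Proj) (h : CD D Y ρ) (hp : IsPr D Y pr) (i : I) {x y : V} {g : ℕ → V}
    (hg : IsGeod D x y g) (hd : 9 < D (pr i x) (pr i y)) :
    ∃ a b, a ≤ D x y ∧ b ≤ D x y ∧ D (g a) (pr i x) ≤ 7 ∧ D (g b) (pr i y) ≤ 7 ∧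
     ∀ l, min a b ≤ l → l ≤ max a b → ∃ w ∈ Y i, D (g l) w ≤ 22 :=
  (hP V D 2 1 7 7 9 22 (Y i) h.dg h.hyp (h.qc i) rfl rfl rfl rfl).2.2.2.2.2
    x y _ _ g (hp i x) (hp i y) hd hg

theorem deep_near (hP : Stmt_Proj) (h : CD D Y ρ) (hp : IsPr D Y pr) (i : I) {x y p : V}
    (hb : Btw D x p y) (hd : Deep D pr i x y p) :
    D p (pr i p) ≤ 9 ∧ 166 ≤ D (pr i x) (pr i y) := by
  obtain ⟨d1, d2⟩ := hd
  have h1 := p4 hP h hp i hb (by omega) (by omega)
  refine ⟨h1, ?_⟩
  have s1 := h.dg.symm (pr i p) (pr i x)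
  have h2 := p2 hP h hp i x p (by omega)
  have h3 := p2 hP h hp i p y (by omega)
  have h4 := h.dg.tri x (pr i x) y
  have h5 := h.dg.tri (pr i x) (pr i y) y
  have s2 := h.dg.symm (pr i p) p
  unfold Btw at hb
  omega

/-- forward: if g t is i-deep then g t' is within 25 of Y i for t ≤ t' ≤ t + 85 -/
theorem deep_fwd (hP : Stmt_Proj) (h : CD D Y ρ) (hp : IsPr D Y pr) (i : I) {x y : V} {g : ℕ → V}
    (hg : IsGeod D x y g) {t : ℕ} (ht : t ≤ D x y) (hd : Deep D pr i x y (g t)) :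
    t + 85 ≤ D x y ∧ ∀ t', t ≤ t' → t' ≤ t + 85 → Nr D (g t') (Y i) := by
  have h1 := (deep_near hP h hp i (hg.btw' ht) hd).1
  obtain ⟨d1, d2⟩ := hd
  have hg' := shift_geod h.dg hg ht
  have e : D (g t) y = D x y - t := hg.dist_right ht
  obtain ⟨a, b, ha, hb, ha7, hb7, hl⟩ := p5 hP h hp i hg' (by omega)
  rw [e] at ha hb
  have ea : D (g t) (g (t + a)) = a := by
    rw [hg.2.2 t (t + a) (by omega) (by omega)]; omega
  have eb : D (g t) (g (t + b)) = b := by
    rw [hg.2.2 t (t + b) (by omega) (by omega)]; omega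
  have ha16 : a ≤ 16 := by
    have h2 := h.dg.tri (g t) (pr i (g t)) (g (t + a))
    rw [h.dg.symm (pr i (g t)) (g (t + a))] at h2
    omega
  have hb85 : 85 ≤ b := by
    have h2 := h.dg.tri (pr i (g t)) (g t) (pr i y)
    have h3 := h.dg.tri (g t) (g (t + b)) (pr i y)
    rw [h.dg.symm (pr i (g t)) (g t)] at h2
    omega
  refine ⟨by omega, ?_⟩
  intro t' h1' h2'
  by_cases hc : a ≤ t' - t
  · obtain ⟨w, hw, hw'⟩ := hl (t' - t) (by omega) (by omega)
    rw [Nat.add_sub_cancel' h1'] at hw'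
    exact ⟨w, hw, by omega⟩
  · refine ⟨pr i (g t), (hp i (g t)).1, ?_⟩
    have h3 := h.dg.tri (g t') (g t) (pr i (g t))
    rw [h.dg.symm (g t') (g t), hg.2.2 t t' h1' (by omega)] at h3
    omega

theorem deep_symm {i : I} {x y p : V} (hd : Deep D pr i x y p) : Deep D pr i y x p :=
  ⟨hd.2, hd.1⟩

/-- backward -/
theorem deep_bwd (hP : Stmt_Proj) (h : CD D Y ρ) (hp : IsPr D Y pr) (i : I) {x y : V} {g : ℕ → V}
    (hg : IsGeod D x y g) {t : ℕ} (ht : t ≤ D x y) (hd : Deep D pr i x y (g t)) :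
    85 ≤ t ∧ ∀ t', t' ≤ t → t ≤ t' + 85 → Nr D (g t') (Y i) := by
  have hg' := rev_geod h.dg hg
  have hs := h.dg.symm x y
  have hd' : Deep D pr i y x ((fun s => g (D x y - s)) (D x y - t)) := by
    show Deep D pr i y x (g (D x y - (D x y - t)))
    rw [Nat.sub_sub_self ht]; exact deep_symm hd
  obtain ⟨h1, h2⟩ := deep_fwd hP h hp i hg' (by omega) hd'
  refine ⟨by omega, ?_⟩
  intro t' h3 h4
  have h5 := h2 (D x y - t') (by omega) (by omega)
  rw [Nat.sub_sub_self (by omega)] at h5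
  exact h5

end ShadowAux

open ShadowAux in
theorem Shadow_proof (hP : Stmt_Proj) : Stmt_Shadow := by
  intro V I D Y ρ pr h hp
  refine ⟨?_, ?_, ?_, ?_, ?_, ?_⟩
  · intro i y hy; exact pr_self h hp hy
  · intro i x y; exact pr_lip hP h hp i x y
  · intro i x y p hb hd; exact deep_near hP h hp i hb hd
  · intro i x y g hg hd
    obtain ⟨a, b, ha, hb, ha7, hb7, hl⟩ := p5 hP h hp i hg (by omega)
    have h2 := p2 hP h hp i x y (by omega)
    have e1 := hg.dist_left ha
    have e2 := hg.dist_right hb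
    have h3 := h.dg.tri x (pr i x) (g a)
    have h4 := h.dg.tri (g b) (pr i y) y
    rw [h.dg.symm (pr i x) (g a)] at h3
    have hab : a + 68 ≤ b := by omega
    have hqa : D (pr i (g a)) (pr i x) ≤ 25 := by
      have h5 := pr_lip hP h hp i (g a) (pr i x)
      rw [pr_self h hp (hp i x).1] at h5
      omega
    have hqb : D (pr i (g b)) (pr i y) ≤ 25 := by
      have h5 := pr_lip hP h hp i (g b) (pr i y)
      rw [pr_self h hp (hp i y).1] at h5
      omega
    have hnear : ∀ l, a ≤ l → l ≤ b → Nr D (g l) (Y i) := by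
      intro l h5 h6
      obtain ⟨w, hw, hw'⟩ := hl l (by omega) (by omega)
      exact ⟨w, hw, by omega⟩
    refine ⟨a, b, by omega, hb, ha7, hb7, ?_, ?_⟩
    · intro l hdl
      by_cases hil : i = l
      · subst hil; have := hdl.1; omega
      · obtain ⟨h5, h6⟩ := deep_fwd hP h hp l hg ha hdl
        have h7 := h.ov i l hil (g a) (g (a + 60)) (hnear a le_rfl (by omega))
          (h6 a le_rfl (by omega)) (hnear (a + 60) (by omega) (by omega))
          (h6 (a + 60) (by omega) (by omega))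
        rw [hg.2.2 a (a + 60) (by omega) (by omega)] at h7
        omega
    · intro l hdl
      by_cases hil : i = l
      · subst hil; have := hdl.2; omega
      · obtain ⟨h5, h6⟩ := deep_bwd hP h hp l hg hb hdl
        have h7 := h.ov i l hil (g (b - 60)) (g b) (hnear (b - 60) (by omega) (by omega))
          (h6 (b - 60) (by omega) (by omega)) (hnear b (by omega) le_rfl)
          (h6 b le_rfl (by omega))
        rw [hg.2.2 (b - 60) b (by omega) (by omega)] at h7
        omega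
  · intro i l x y g t hg ht hor
    by_contra hil
    have key : ∀ i l, i ≠ l → Deep D pr i x y (g t) → Deep D pr l x y (g (t + 1)) → False := by
      intro i l hil h1 h2
      obtain ⟨a1, a2⟩ := deep_fwd hP h hp i hg (by omega) h1
      obtain ⟨b1, b2⟩ := deep_fwd hP h hp l hg ht h2
      have h7 := h.ov i l hil (g (t + 1)) (g (t + 61)) (a2 _ (by omega) (by omega))
        (b2 _ (by omega) (by omega)) (a2 _ (by omega) (by omega)) (b2 _ (by omega) (by omega))
      rw [hg.2.2 (t + 1) (t + 61) (by omega) (by omega)] at h7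
      omega
    rcases hor with ⟨h1, h2⟩ | ⟨h1, h2⟩
    · exact key i l hil h1 h2
    · exact key l i (Ne.symm hil) h2 h1
  · intro i l x y hil hx hy
    by_contra hc
    obtain ⟨g, hg⟩ := exists_geod h.dg x y
    obtain ⟨a, b, ha, hb, ha7, hb7, hl⟩ := p5 hP h hp i hg (by omega)
    have hi : ∀ t, min a b ≤ t → t ≤ max a b → Nr D (g t) (Y i) := by
      intro t h5 h6
      obtain ⟨w, hw, hw'⟩ := hl t h5 h6
      exact ⟨w, hw, by omega⟩
    have hll : ∀ t, t ≤ D x y → Nr D (g t) (Y l) := by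
      intro t h5
      obtain ⟨w, hw, hw'⟩ := h.qc l x hx y hy (g t) (hg.btw' h5)
      exact ⟨w, hw, by omega⟩
    have h7 := h.ov i l hil (g a) (g b) (hi a (by omega) (by omega)) (hll a ha)
      (hi b (by omega) (by omega)) (hll b hb)
    have h8 := h.dg.tri (pr i x) (g a) (pr i y)
    have h9 := h.dg.tri (g a) (g b) (pr i y)
    rw [h.dg.symm (pr i x) (g a)] at h8
    omega

end Pool.Agent.BURN
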