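import Pool.Agent.BURN.Climb
import Pool.Agent.BURN.Stmts3

/-! Module TopLen: 4.9 of the blueprint. -/

namespace Pool.Agent.BURN

namespace TopLenX

variable {V I : Type}

/-- length of a geodesic sequence of i-vertices -/
theorem top_len {D : V → V → ℕ} {Y : I → Set V} {ρ : ℕ} (hGD : Stmt_GamDG) (hC : CD D Y ρ)
    {i : I} {k H0 : ℕ} {g : ℕ → Gam Y ρ} {yy : ℕ → V} {ss : ℕ → ℕ} (hg : GSeq (dGam D Y ρ) k g)
    (hv : ∀ j ≤ k, IVert Y i (yy j) (ss j) (g j).1)
    (h0 : ∀ j < k, ¬ (ss j = 0 ∧ ss (j + 1) = 0)) (hle : ∀ j ≤ k, ss j ≤ H0) (hHρ : H0 < ρ) :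
    k ≤ 2 * H0 + 5 := by
  obtain ⟨gdg, gadj, ght, ghor, gb, gva, gvert, ghz⟩ := hGD V I D Y ρ hC
  obtain ⟨m, hm, hmax⟩ : ∃ m ≤ k, ∀ j ≤ k, ss j ≤ ss m := by
    have := Finset.exists_max_image (Finset.range (k + 1)) ss ⟨0, by simp⟩
    obtain ⟨m, hm, hmax⟩ := this
    exact ⟨m, by simpa [Nat.lt_succ_iff] using hm,
      fun j hj => hmax j (by simp; omega)⟩
  have hHm := hle m hm
  obtain ⟨S1, hS1, a1, a2⟩ := climb_chain (s := ss m) hGD hC m
    (fun i j hij hj => hg i j hij (by omega))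
    (fun j hj => hv j (by omega)) (fun j hj => h0 j (by omega))
    (fun j hj => hmax j (by omega))
  obtain ⟨S2, hS2, b1, b2⟩ := climb_chain (s := ss m) (g := fun j => g (m + j))
    (yy := fun j => yy (m + j)) (ss := fun j => ss (m + j)) hGD hC (k - m)
    (fun i j hij hj => by
      have := hg (m + i) (m + j) (by omega) (by omega)
      simp only; omega)
    (fun j hj => hv (m + j) (by omega)) (fun j hj => h0 (m + j) (by omega))
    (fun j hj => hmax (m + j) (by omega))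
  have hmk : m + (k - m) = k := by omega
  simp only [hmk, Nat.add_zero] at hS2 b1 b2
  have hS := hS1.append hS2
  have hsr : ss m + 1 ≤ ρ := by omega
  obtain ⟨u, hu⟩ : ∃ u : Gam Y ρ, u.1 = .c i (yy 0) (ss m + 1) :=
    ⟨⟨.c i (yy 0) (ss m + 1), ⟨climb_mem (hv 0 (by omega)), by omega, hsr⟩⟩, rfl⟩
  obtain ⟨w, hw⟩ : ∃ u : Gam Y ρ, u.1 = .c i (yy k) (ss m + 1) :=
    ⟨⟨.c i (yy k) (ss m + 1), ⟨climb_mem (hv k le_rfl), by omega, hsr⟩⟩, rfl⟩
  have e3 := ClCh.gam_le hGD hC hsr (S1 + S2) hS u w hu hw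
  have m0 := hmax 0 (by omega)
  have mk := hmax k le_rfl
  have e4 := gvert i (yy 0) (ss 0) (ss m + 1) (g 0) u (by omega) (hv 0 (by omega))
    (Or.inr ⟨by omega, hu⟩)
  have e5 := gvert i (yy k) (ss k) (ss m + 1) (g k) w (by omega) (hv k le_rfl)
    (Or.inr ⟨by omega, hw⟩)
  rw [gdg.symm] at e5
  have e6 := hg 0 k (by omega) le_rfl
  have e7 := gdg.tri (g 0) u (g k)
  have e8 := gdg.tri u w (g k)
  have hS5 : S1 + S2 ≤ 5 := by omega
  omega

theorem exists_base {D : V → V → ℕ} {Y : I → Set V} {ρ : ℕ} (hGD : Stmt_GamDG) (hC : CD D Y ρ)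
    {H : ℕ} {g : ℕ → Gam Y ρ} (hg : GSeq (dGam D Y ρ) (2 * H + 6) g) (hH : H < ρ)
    (hh : ∀ j ≤ 2 * H + 6, ht ρ (g j).1 ≤ H) : ∃ j ≤ 2 * H + 6, ∃ v, (g j).1 = .b v := by
  classical
  by_contra hcon
  push Not at hcon
  obtain ⟨gdg, gadj, ght, ghor, gb, gva, gvert, ghz⟩ := hGD V I D Y ρ hC
  -- all vertices are cone vertices
  have hcone : ∀ j ≤ 2 * H + 6, ∃ i y s, (g j).1 = .c i y s := by
    intro j hj
    rcases h : (g j).1 with v | ⟨i, y, s⟩ | i
    · exact absurd h (hcon j hj v)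
    · exact ⟨i, y, s, rfl⟩
    · have := hh j hj
      rw [h] at this
      simp only [ht] at this
      omega
  obtain ⟨i, y0, s0, hi⟩ := hcone 0 (by omega)
  have hall : ∀ j ≤ 2 * H + 6, ∃ y s, (g j).1 = .c i y s := by
    intro j
    induction j with
    | zero => intro _; exact ⟨y0, s0, hi⟩
    | succ j ih =>
      intro hj
      obtain ⟨y, s, hys⟩ := ih (by omega)
      obtain ⟨i', y', s', h'⟩ := hcone (j + 1) hj
      have hadj := (gadj (g j) (g (j + 1))).1 (by rw [hg j (j + 1) (by omega) hj]; omega)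
      rw [hys, h'] at hadj
      have h1 : i = i' := hadj.1
      exact ⟨y', s', by rw [h', h1]⟩
  choose yy ss hys using hall
  let yy' : ℕ → V := fun j => if h : j ≤ 2 * H + 6 then yy j h else y0
  let ss' : ℕ → ℕ := fun j => if h : j ≤ 2 * H + 6 then ss j h else 0
  have hys' : ∀ j ≤ 2 * H + 6, (g j).1 = .c i (yy' j) (ss' j) := by
    intro j hj
    simp only [yy', ss', dif_pos hj]
    exact hys j hj
  have hpos : ∀ j ≤ 2 * H + 6, 1 ≤ ss' j ∧ ss' j ≤ H := by
    intro j hj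
    have h1 := (g j).2
    have h2 := hh j hj
    rw [hys' j hj] at h1 h2
    exact ⟨h1.2.1, h2⟩
  have := top_len (i := i) (yy := yy') (ss := ss') hGD hC hg
    (fun j hj => Or.inr ⟨(hpos j hj).1, hys' j hj⟩)
    (fun j hj h => by have := (hpos j (by omega)).1; omega)
    (fun j hj => (hpos j hj).2) hH
  omega

end TopLenX

open TopLenX in
theorem TopLen_proof (hGD : Stmt_GamDG) : Stmt_TopLen := by
  intro V I D Y ρ hC x y g H hg hH hh hn
  have gdg := (hGD V I D Y ρ hC).1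
  constructor
  · exact exists_base hGD hC (fun i j hij hj => hg.2.2 i j hij (by omega)) hH
      (fun j hj => hh j (by omega))
  · have := exists_base (g := fun j => g (dGam D Y ρ x y - j)) hGD hC
      (fun i j hij hj => by
        have h1 := hg.2.2 (dGam D Y ρ x y - j) (dGam D Y ρ x y - i) (by omega) (by omega)
        show dGam D Y ρ (g (dGam D Y ρ x y - i)) (g (dGam D Y ρ x y - j)) = j - i
        rw [gdg.symm, h1]; omega) hH
      (fun j hj => hh (dGam D Y ρ x y - j) (by omega))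
    exact this

end Pool.Agent.BURN
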