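import Pool.Agent.BURN.Stmts4

/-! module Tower (5.2) -/

namespace Pool.Agent.BURN

namespace TowerX

/-- one step -/
structure Nxt {N : ℕ} (p : ℕ) (s : StgG N) where
  t : StgG N
  π : s.G →* t.G
  ι : s.X → t.X
  rel : StepRel s.d t.d π ι (fun _ => p)

theorem nxt (hStep : Stmt_Step) {N p : ℕ} (hp : n0 ≤ p) (hd : p ∣ N) (s : StgG N) :
    Nonempty (Nxt p s) := by
  obtain ⟨G', X', gG, gX, d', π, ι, hg, hr⟩ := hStep s.G s.X s.d N (fun _ => p) s.good
    (fun _ _ => ⟨hp, hd⟩) (fun _ _ _ _ _ => rfl)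
  exact ⟨⟨{ G := G', X := X', gG := gG, aX := gX, d := d', good := hg }, π, ι, hr⟩⟩

end TowerX

open TowerX in
theorem Tower_proof (hStep : Stmt_Step) : Stmt_Tower := by
  intro N p s hp hd
  let T : ℕ → StgG N := fun k => Nat.rec s (fun _ t => (Classical.choice (nxt hStep hp hd t)).t) k
  exact ⟨{ T := T
           π := fun k => (Classical.choice (nxt hStep hp hd (T k))).π
           ι := fun k => (Classical.choice (nxt hStep hp hd (T k))).ι
           rel := fun k => (Classical.choice (nxt hStep hp hd (T k))).rel }, rfl⟩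

end Pool.Agent.BURN
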