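import Pool.Agent.BURN.Basic
import Pool.Agent.BURN.Stmts1

/-! Section 2.4.3 of the blueprint: the triangle lemma. -/

namespace Pool.Agent.BURN

namespace TriangleX

theorem exists_max {G : Type} (P : G → Prop) (f : G → ℕ) (B : ℕ) (h0 : ∃ g, P g)
    (hB : ∀ g, P g → f g ≤ B) : ∃ g, P g ∧ ∀ g', P g' → f g' ≤ f g := by
  classical
  have hex : ∃ n, ∃ g, P g ∧ B - f g = n := by
    obtain ⟨g, hg⟩ := h0
    exact ⟨_, g, hg, rfl⟩
  obtain ⟨g, hg, e⟩ := Nat.find_spec hex
  refine ⟨g, hg, fun g' hg' => ?_⟩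
  have h1 := Nat.find_min' hex ⟨g', hg', rfl⟩
  have h2 := hB g hg
  have h3 := hB g' hg'
  omega

variable {G X : Type} [Group G] [MulAction G X] {d : X → X → ℕ} {C : Set X}
  {R : X → Subgroup G} {δ α β σ : ℕ}

theorem gp_rot (hF : RF d C R δ α β σ) {c : X} (hc : c ∈ C) {r : G} (hr : r ∈ R c) (a b : X) :
    gp d (r • a) (r • b) c = gp d a b c := by
  have h := isIso_gp hF.iso r a b c
  rw [hF.fix c hc r hr] at h
  exact h

theorem d_rot (hF : RF d C R δ α β σ) {c : X} (hc : c ∈ C) {r : G} (hr : r ∈ R c) (a : X) :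
    d (r • a) c = d a c := by
  have h := hF.iso r a c
  rw [hF.fix c hc r hr] at h
  exact h

omit [MulAction G X] in
theorem mem_KK {c : X} (hc : c ∈ C) {r : G} (hr : r ∈ R c) : r ∈ KK C R :=
  Subgroup.subset_closure ⟨c, hc, hr⟩

/-- minimal pairs: no rotation increases the Gromov product -/
theorem min_gp (hF : RF d C R δ α β σ) {y z : X}
    (hm : ∀ k ∈ KK C R, d y z ≤ d y (k • z)) {κ : G} (hκ : κ ∈ KK C R) {c : X} (hc : c ∈ C)
    {r : G} (hr : r ∈ R c) :
    gp d (κ • y) (r • κ • z) c ≤ gp d (κ • y) (κ • z) c := by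
  have h1 := gp_add hF.dg (κ • y) (r • κ • z) c
  have h2 := gp_add hF.dg (κ • y) (κ • z) c
  rw [d_rot hF hc hr] at h1
  have h3 : d (κ • y) (κ • z) = d y z := hF.iso κ y z
  have h4 : d (κ • y) (r • κ • z) = d y ((κ⁻¹ * r * κ) • z) := by
    have := hF.iso κ y ((κ⁻¹ * r * κ) • z)
    rw [← this, smul_smul, smul_smul]
    congr 2
    group
  have h5 := hm (κ⁻¹ * r * κ)
    (mul_mem (mul_mem (inv_mem hκ) (mem_KK hc hr)) hκ)
  omega

/-- cutting a geodesic path -/
theorem geod_init {x y : X} {g : ℕ → X} (hg : IsGeod d x y g) {t : ℕ} (ht : t ≤ d x y) :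
    IsGeod d x (g t) g := by
  have e := hg.dist_left ht
  refine ⟨hg.1, by rw [e], ?_⟩
  intro i j hij hj
  rw [e] at hj
  exact hg.2.2 i j hij (by omega)

theorem geod_tail {x y : X} {g : ℕ → X} (hg : IsGeod d x y g) {t : ℕ} (ht : t ≤ d x y) :
    IsGeod d (g t) y (fun i => g (t + i)) := by
  have e := hg.dist_right ht
  refine ⟨by simp, ?_, ?_⟩
  · rw [e]
    have : t + (d x y - t) = d x y := by omega
    simp only [this]
    exact hg.2.1
  · intro i j hij hj
    rw [e] at hj
    have := hg.2.2 (t + i) (t + j) (by omega) (by omega)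
    simp only [this]
    omega

theorem geod_smul (hi : IsIso G d) {x y : X} {g : ℕ → X} (hg : IsGeod d x y g) (κ : G) :
    IsGeod d (κ • x) (κ • y) (fun i => κ • g i) := by
  refine ⟨by simp [hg.1], ?_, ?_⟩
  · simp only [hi κ x y, hg.2.1]
  · intro i j hij hj
    rw [hi κ x y] at hj
    show d (κ • g i) (κ • g j) = j - i
    rw [hi κ (g i) (g j)]
    exact hg.2.2 i j hij hj

/-- the final state gives the conclusion -/
theorem final (hF : RF d C R δ α β σ) {x y z : X} {g1 g2 : ℕ → X} (hg1 : IsGeod d x y g1)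
    (hg2 : IsGeod d y z g2) {κ : G} {c : X} (h1 : gp d x y c ≤ BB δ β + δ)
    (h2 : gp d (κ • y) (κ • z) c ≤ BB δ β + δ) (q : X) (hq : Btw d x q (κ • z)) :
    (∃ i ≤ d x y, d q (g1 i) ≤ CT δ β) ∨ (∃ j ≤ d y z, d q (κ • g2 j) ≤ CT δ β) := by
  have hd := hF.dg
  have hy := hF.hyp
  have hCT : CT δ β = BB δ β + 8 * δ + 4 := rfl
  have e0 := (btw_iff hd _ _ _).1 hq
  have eH := hyp_gp hd hy x (κ • z) c q
  have hg2' := geod_smul hF.iso hg2 κ
  have ed : d (κ • y) (κ • z) = d y z := hF.iso κ y z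
  rcases le_or_gt (gp d x c q) δ with hc1 | hc1
  · left
    obtain ⟨t1, t2⟩ := near_geod hd hy hg1 c
    set t := gp d y c x / 2 with ht
    have n1 := gp_le_of_near_right hd x (g1 t) c q
    rw [hd.symm (g1 t) c] at n1
    obtain ⟨s1, s2⟩ := near_geod hd hy (geod_init hg1 t1) q
    rw [hg1.dist_left t1] at s1
    refine ⟨_, le_trans s1 t1, ?_⟩
    omega
  · right
    have hc2 : gp d c (κ • z) q ≤ δ := by omega
    obtain ⟨t1, t2⟩ := near_geod hd hy hg2' c
    set t := gp d (κ • z) c (κ • y) / 2 with ht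
    have n1 := gp_le_of_near hd (κ • g2 t) c (κ • z) q
    rw [hd.symm (κ • g2 t) c] at n1
    obtain ⟨s1, s2⟩ := near_geod hd hy (geod_tail hg2' t1) q
    have e3 := hg2'.dist_right t1
    beta_reduce at e3 s1 s2 t2
    rw [e3] at s1
    refine ⟨t + gp d (κ • z) q (κ • g2 t) / 2, by omega, ?_⟩
    omega

end TriangleX

open TriangleX in
theorem Triangle_proof : Stmt_Triangle := by
  intro G X _ _ d C R δ α β σ hF x y z g1 g2 hxy hyz hg1 hg2
  have hd := hF.dg
  have hy := hF.hyp
  have hB : BB δ β = eta δ β + 4 * δ := rfl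
  have hT : tht δ β = BB δ β + 1 := rfl
  have hE1 : eta1 δ β = tht δ β + 4 * δ := rfl
  have hσ : 4 * eta1 δ β ≤ σ := by
    have := hF.big
    unfold sig0 at this
    omega
  have hsep := hF.sep
  have m1 : ∀ k ∈ KK C R, d x y ≤ d x (k • y) := by
    intro k hk
    rw [hxy]
    exact Nat.sInf_le ⟨k, hk, rfl⟩
  have m2 : ∀ k ∈ KK C R, d y z ≤ d y (k • z) := by
    intro k hk
    rw [hyz]
    exact Nat.sInf_le ⟨k, hk, rfl⟩
  have M1 : ∀ c ∈ C, ∀ r ∈ R c, gp d x (r • y) c ≤ gp d x y c := by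
    intro c hc r hr
    have := min_gp hF m1 (one_mem (KK C R)) hc hr
    simpa using this
  have M2 : ∀ κ ∈ KK C R, ∀ c ∈ C, ∀ r ∈ R c,
      gp d (κ • y) (r • κ • z) c ≤ gp d (κ • y) (κ • z) c :=
    fun κ hκ c hc r hr => min_gp hF m2 hκ hc hr
  -- the state induction
  have key : ∀ n : ℕ, ∀ c ∈ C, ∀ κ ∈ KK C R, d x c = n → gp d x y c ≤ BB δ β + δ →
      gp d (κ • y) (κ • z) c ≤ BB δ β + δ →
      (∀ r ∈ R c, gp d x (r • κ • z) c ≤ gp d x (κ • z) c) →
      ∃ k ∈ KK C R, Irr d C R (eta δ β) (tht δ β) x (k • z) ∧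
        ∀ q, Btw d x q (k • z) → (∃ i ≤ d x y, d q (g1 i) ≤ CT δ β) ∨
          (∃ j ≤ d y z, d q (k • g2 j) ≤ CT δ β) := by
    intro n
    induction n using Nat.strong_induction_on with
    | _ n ih =>
    intro c hc κ hκ hn s1 s2 s3
    by_cases hirr : Irr d C R (eta δ β) (tht δ β) x (κ • z)
    · exact ⟨κ, hκ, hirr, fun q hq => final hF hg1 hg2 s1 s2 q hq⟩
    unfold Irr at hirr
    push Not at hirr
    obtain ⟨c', hc', r', hr', i1, i2⟩ := hirr
    have hne : c' ≠ c := by
      rintro rfl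
      have := s3 r' hr'
      omega
    have hs : σ ≤ d c c' := hsep c hc c' hc' (Ne.symm hne)
    have hs' : d c' c = d c c' := hd.symm _ _
    -- both products at c'
    have claim : gp d x c c' ≤ BB δ β ∧ gp d c (κ • z) c' ≤ BB δ β := by
      have H := hyp_gp hd hy x (κ • z) c c'
      rcases le_or_gt (gp d x c c') (eta δ β + δ) with c1 | c1
      · refine ⟨by omega, ?_⟩
        by_contra hcon
        -- Case I
        have a1 := hyp_gp hd hy x (r' • c) (r' • κ • z) c'
        have a2 : gp d (r' • κ • z) (r' • c) c' = gp d (κ • z) c c' := gp_rot hF hc' hr' _ _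
        have a3 : gp d (κ • z) c c' = gp d c (κ • z) c' := gp_comm hd _ _ _
        have b1 := gp_add_gp hd c x c'
        -- <c,x>_{c'} + <c',x>_c = 2 d c c'
        have b2 : gp d c x c' = gp d x c c' := gp_comm hd _ _ _
        have b3 := hyp_gp hd hy x y c' c
        have b4 : gp d c' x c = gp d x c' c := gp_comm hd _ _ _
        have b5 := gp_add_gp hd c y c'
        have d1 := hyp_gp hd hy x (r' • y) (r' • c) c'
        have d2 : gp d (r' • c) (r' • y) c' = gp d c y c' := gp_rot hF hc' hr' _ _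
        have d3 := M1 c' hc' r' hr'
        have d4 := hyp_gp hd hy x c y c'
        have d5 : gp d y c c' = gp d c y c' := gp_comm hd _ _ _
        omega
      · have c2 : gp d c (κ • z) c' ≤ eta δ β + δ := by omega
        refine ⟨?_, by omega⟩
        by_contra hcon
        -- Case II
        have a1 := hyp_gp hd hy c (r' • κ • z) x c'
        have a2 : gp d c x c' = gp d x c c' := gp_comm hd _ _ _
        have b1 := gp_add_gp hd c (κ • z) c'
        have b3 := hyp_gp hd hy (κ • y) (κ • z) c' c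
        have b4 : gp d c' (κ • y) c = gp d (κ • y) c' c := gp_comm hd _ _ _
        have b5 := gp_add_gp hd c (κ • y) c'
        have d1 := hyp_gp hd hy (κ • y) (r' • κ • z) c c'
        have d2 : gp d (κ • y) c c' = gp d c (κ • y) c' := gp_comm hd _ _ _
        have d3 := M2 κ hκ c' hc' r' hr'
        have d4 := hyp_gp hd hy c (κ • z) (κ • y) c'
        omega
    obtain ⟨k1, k2⟩ := claim
    have n1 : gp d x y c' ≤ BB δ β + δ := by
      have b1 := gp_add_gp hd c x c'
      have b2 : gp d c x c' = gp d x c c' := gp_comm hd _ _ _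
      have b3 := hyp_gp hd hy x y c' c
      have b4 : gp d c' x c = gp d x c' c := gp_comm hd _ _ _
      have b5 := gp_add_gp hd c y c'
      have d4 := hyp_gp hd hy x c y c'
      have d5 : gp d y c c' = gp d c y c' := gp_comm hd _ _ _
      omega
    have n2 : gp d (κ • y) (κ • z) c' ≤ BB δ β + δ := by
      have b1 := gp_add_gp hd c (κ • z) c'
      have b3 := hyp_gp hd hy (κ • y) (κ • z) c' c
      have b4 : gp d c' (κ • y) c = gp d (κ • y) c' c := gp_comm hd _ _ _
      have b5 := gp_add_gp hd c (κ • y) c'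
      have d4 := hyp_gp hd hy c (κ • z) (κ • y) c'
      omega
    obtain ⟨r1, hr1, hmax⟩ := exists_max (fun r : G => r ∈ R c') (fun r => gp d x (r • κ • z) c')
      (2 * d x c') ⟨1, one_mem _⟩ (fun r _ => gp_le_left hd _ _ _)
    have hlt : d x c' < n := by
      have := gp_add hd x c c'
      omega
    refine ih (d x c') hlt c' hc' (r1 * κ) (mul_mem (mem_KK hc' hr1) hκ) rfl n1 ?_ ?_
    · rw [mul_smul, mul_smul, gp_rot hF hc' hr1]
      exact n2
    · intro r hr
      have := hmax (r * r1) (mul_mem hr hr1)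
      simp only [mul_smul] at this ⊢
      exact this
  -- start
  by_cases hirr : Irr d C R (eta δ β) (tht δ β) x z
  · refine ⟨1, one_mem _, by simpa using hirr, ?_⟩
    intro q hq
    have hCT : CT δ β = BB δ β + 8 * δ + 4 := rfl
    have hq' : Btw d x q z := by simpa using hq
    have e0 := (btw_iff hd _ _ _).1 hq'
    have eH := hyp_gp hd hy x z y q
    rcases le_or_gt (gp d x y q) δ with h1 | h1
    · left
      obtain ⟨s1, s2⟩ := near_geod hd hy hg1 q
      exact ⟨_, s1, by omega⟩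
    · right
      obtain ⟨s1, s2⟩ := near_geod hd hy hg2 q
      refine ⟨_, s1, ?_⟩
      rw [one_smul]
      omega
  · unfold Irr at hirr
    push Not at hirr
    obtain ⟨c, hc, r, hr, i1, i2⟩ := hirr
    have hst : gp d x y c ≤ BB δ β + δ ∧ gp d y z c ≤ BB δ β + δ := by
      have H := hyp_gp hd hy x z y c
      have a2 : gp d (r • z) (r • y) c = gp d z y c := gp_rot hF hc hr _ _
      have a3 : gp d z y c = gp d y z c := gp_comm hd _ _ _
      have a4 := hyp_gp hd hy x (r • y) (r • z) c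
      have a5 := M1 c hc r hr
      have b1 := hyp_gp hd hy y (r • z) x c
      have b2 : gp d y x c = gp d x y c := gp_comm hd _ _ _
      have b3 := M2 1 (one_mem _) c hc r hr
      simp only [one_smul] at b3
      omega
    obtain ⟨r1, hr1, hmax⟩ := exists_max (fun r : G => r ∈ R c) (fun r => gp d x (r • z) c)
      (2 * d x c) ⟨1, one_mem _⟩ (fun r _ => gp_le_left hd _ _ _)
    refine key (d x c) c hc r1 (mem_KK hc hr1) rfl hst.1 ?_ ?_
    · rw [gp_rot hF hc hr1]
      exact hst.2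
    · intro r hr
      have := hmax (r * r1) (mul_mem hr hr1)
      simp only [mul_smul] at this ⊢
      exact this

end Pool.Agent.BURN
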