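import Pool.Agent.BURN.Stmts2
import Pool.Agent.BURN.Basic

/-! Module VR0 (blueprint 3.6 (c)). -/

namespace Pool.Agent.BURN

namespace VR0

variable {V I : Type} {D : V → V → ℕ} {Y : I → Set V} {ρ : ℕ}

theorem hor_step {i : I} {u w : CV V I} (h : CAdj D ρ u w) (hu : Hor i u) :
    Hor i w ∨ ∃ v, w = .b v ∧ u = .c i v 1 := by
  rcases hu with ⟨y, s, rfl⟩ | rfl
  · cases w with
    | b v =>
      obtain ⟨h1, h2⟩ := h
      subst h1; subst h2
      exact Or.inr ⟨v, rfl, rfl⟩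
    | c j y' s' =>
      obtain ⟨h1, -⟩ := h
      subst h1
      exact Or.inl (Or.inl ⟨y', s', rfl⟩)
    | a j =>
      obtain ⟨h1, -⟩ := h
      subst h1
      exact Or.inl (Or.inr rfl)
  · cases w with
    | b v => exact absurd h (by simp [CAdj])
    | c j y' s' =>
      obtain ⟨h1, -⟩ := h
      subst h1
      exact Or.inl (Or.inl ⟨y', s', rfl⟩)
    | a j => exact absurd h (by simp [CAdj])

theorem hor_not_base {i : I} {u : CV V I} (hu : Hor i u) (v : V) : u ≠ .b v := by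
  rcases hu with ⟨y, s, rfl⟩ | rfl <;> intro h <;> cases h

theorem hor_unique {i l : I} {u : CV V I} (hi : Hor i u) (hl : Hor l u) : i = l := by
  rcases hi with ⟨y, s, rfl⟩ | rfl
  · rcases hl with ⟨y', s', h⟩ | h
    · cases h; rfl
    · cases h
  · rcases hl with ⟨y', s', h⟩ | h
    · cases h
    · cases h; rfl

theorem hor_or_base (u : CV V I) : (∃ v, u = .b v) ∨ ∃ i, Hor i u := by
  cases u with
  | b v => exact Or.inl ⟨v, rfl⟩
  | c i y s => exact Or.inr ⟨i, Or.inl ⟨y, s, rfl⟩⟩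
  | a i => exact Or.inr ⟨i, Or.inr rfl⟩

/-- walking in a horoball -/
theorem hor_run (hadj : ∀ u w : Gam Y ρ, dGam D Y ρ u w = 1 ↔ CAdj D ρ u.1 w.1)
    {k : ℕ} {g : ℕ → Gam Y ρ} (hg : GSeq (dGam D Y ρ) k g) {l : I} (h0 : Hor l (g 0).1) :
    ∀ j, j ≤ k → (∀ m, m ≤ j → ∀ v, (g m).1 ≠ .b v) → Hor l (g j).1 := by
  intro j
  induction j with
  | zero => intro _ _; exact h0
  | succ j ih =>
    intro hj hb
    have h1 := ih (by omega) (fun m hm => hb m (by omega))
    have h2 : dGam D Y ρ (g j) (g (j + 1)) = 1 := by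
      rw [hg j (j + 1) (by omega) hj]; omega
    rcases hor_step ((hadj _ _).1 h2) h1 with h3 | ⟨v, h3, -⟩
    · exact h3
    · exact absurd h3 (hb (j + 1) le_rfl v)

/-- leaving a horoball -/
theorem hor_exit (hadj : ∀ u w : Gam Y ρ, dGam D Y ρ u w = 1 ↔ CAdj D ρ u.1 w.1)
    {k : ℕ} {g : ℕ → Gam Y ρ} (hg : GSeq (dGam D Y ρ) k g) {l : I} (h0 : Hor l (g 0).1)
    {m : ℕ} (hm : m ≤ k) (hb : ∀ j, j < m → ∀ v, (g j).1 ≠ .b v) {v : V}
    (hv : (g m).1 = .b v) : v ∈ Y l := by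
  cases m with
  | zero => exact absurd hv (hor_not_base h0 v)
  | succ m =>
    have h1 := hor_run hadj hg h0 m (by omega) (fun j hj => hb j (by omega))
    have h2 : dGam D Y ρ (g m) (g (m + 1)) = 1 := by
      rw [hg m (m + 1) (by omega) hm]; omega
    rcases hor_step ((hadj _ _).1 h2) h1 with h3 | ⟨v', h3, h4⟩
    · exact absurd hv (hor_not_base h3 v)
    · rw [hv] at h3
      cases h3
      have h5 := (g m).2
      rw [h4] at h5
      exact h5.1

/-- the foot of a vertex, with a default value -/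
def yof (A : V) : CV V I → V
  | .b v => v
  | .c _ y _ => y
  | .a _ => A

/-- a path in horoball i of heights < ρ, possibly ending in a base vertex -/
theorem use_top (hTop : Stmt_Top) (hCD : CD D Y ρ)
    (hadj : ∀ u w : Gam Y ρ, dGam D Y ρ u w = 1 ↔ CAdj D ρ u.1 w.1)
    {k : ℕ} {g : ℕ → Gam Y ρ} (hg : GSeq (dGam D Y ρ) k g) {i : I} (h0 : Hor i (g 0).1)
    (hb : ∀ j, j < k → ∀ v, (g j).1 ≠ .b v) (hht : ∀ j, j ≤ k → ht ρ (g j).1 < ρ) (A : V) :
    D (yof A (g 0).1) (yof A (g k).1) ≤ 5 * 2 ^ (ρ - 1) := by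
  have hρ : 0 < ρ := lt_of_le_of_lt (Nat.zero_le _) (hht 0 (by omega))
  have hcone : ∀ j, j ≤ k → Hor i (g j).1 → IVert Y i (yof A (g j).1) (ht ρ (g j).1) (g j).1 ∧
      1 ≤ ht ρ (g j).1 := by
    intro j hj hh
    rcases hh with ⟨y, s, hc⟩ | hc
    · have h5 := (g j).2
      rw [hc] at h5 ⊢
      exact ⟨Or.inr ⟨h5.2.1, rfl⟩, h5.2.1⟩
    · have := hht j hj
      rw [hc] at this
      simp only [ht] at this
      omega
  apply hTop V I D Y ρ hCD i k (ρ - 1) g (fun j => yof A (g j).1) (fun j => ht ρ (g j).1) hg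
  · intro j hj
    rcases Nat.lt_or_ge j k with hjk | hjk
    · exact (hcone j hj (hor_run hadj hg h0 j hj (fun m hm => hb m (by omega)))).1
    · have hjk' : j = k := by omega
      subst hjk'
      rcases hor_or_base (g j).1 with ⟨v, hv⟩ | ⟨l, hl⟩
      · have hv' := hor_exit hadj hg h0 le_rfl hb hv
        simp only [hv, yof, ht]
        exact Or.inl ⟨rfl, hv', rfl⟩
      · have h1 : Hor i (g j).1 := by
          apply hor_run hadj hg h0 j le_rfl
          intro m hm v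
          rcases Nat.lt_or_ge m j with h2 | h2
          · exact hb m h2 v
          · have : m = j := by omega
            subst this
            exact hor_not_base hl v
        exact (hcone j hj h1).1
  · intro j hj ⟨h1, _⟩
    have h2 := (hcone j (by omega)
      (hor_run hadj hg h0 j (by omega) (fun m hm => hb m (by omega)))).2
    exact absurd h1 (by omega)
  · intro j hj
    have h2 := hht j hj
    exact Nat.le_sub_one_of_lt h2
  · omega

/-- high vertices of horoball i are near the apex -/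
theorem near_apex (hva : ∀ (i : I) (y : V) (s : ℕ) (u : Gam Y ρ), IVert Y i y s u.1 →
     dGam D Y ρ u (va Y ρ i) = ρ + 1 - s) (hdg : IsDG (dGam D Y ρ)) {i : I} {u : Gam Y ρ}
    (hu : Hor i u.1) (h : ρ ≤ ht ρ u.1) : dGam D Y ρ (va Y ρ i) u ≤ 1 := by
  rcases hu with ⟨y, s, hc⟩ | hc
  · have h5 := u.2
    rw [hc] at h5 h
    simp only [ht] at h
    have := hva i y s u (Or.inr ⟨h5.2.1, hc⟩)
    rw [hdg.symm, this]
    omega
  · have : u = va Y ρ i := Subtype.ext hc
    rw [this, (hdg.eq_zero _ _).2 rfl]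
    omega

/-- a vertex of another horoball: there is a base point of the horoball with the same foot -/
theorem other (hCD : CD D Y ρ) {pr : I → V → V} (hpr : IsPr D Y pr) (hdg : IsDG (dGam D Y ρ))
    (hadj : ∀ u w : Gam Y ρ, dGam D Y ρ u w = 1 ↔ CAdj D ρ u.1 w.1)
    (hFE : ∀ (i : I) (z : Gam Y ρ) (v : V), v ∈ Y i →
      dGam D Y ρ z (va Y ρ i) ≤ dGam D Y ρ z (vb Y ρ v) + ρ + 1)
    (hFP : Stmt_FootPr)
    {i l : I} (hil : i ≠ l) {x : Gam Y ρ} (hx : Hor l x.1) {A : V} (hA : Foot D Y ρ i x A) :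
    ∃ v ∈ Y l, D A (pr i v) ≤ 2 ^ f3 := by
  obtain ⟨hAY, hA'⟩ := hA
  have hd : dGam D Y ρ x (va Y ρ i) = dGam D Y ρ x (vb Y ρ A) + ρ + 1 := by
    rcases hA' with ⟨s, hs⟩ | ⟨_, h⟩
    · exact absurd (hor_unique (Or.inl ⟨A, s, hs⟩ : Hor i x.1) hx) hil
    · exact h
  obtain ⟨g, hg⟩ := exists_geod hdg x (vb Y ρ A)
  set k := dGam D Y ρ x (vb Y ρ A) with hk
  have hgs : GSeq (dGam D Y ρ) k g := hg.2.2
  have hex : ∃ j, ∃ v, (g j).1 = .b v := ⟨k, A, by rw [hg.2.1]; rfl⟩
  classical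
  have hj1 := Nat.find_spec hex
  have hj2 : Nat.find hex ≤ k := Nat.find_min' hex ⟨A, by rw [hg.2.1]; rfl⟩
  have hj3 : ∀ j, j < Nat.find hex → ∀ v, (g j).1 ≠ .b v := by
    intro j hj v hv
    exact Nat.find_min hex hj ⟨v, hv⟩
  set m := Nat.find hex with hm
  obtain ⟨v, hv⟩ := hj1
  have hg0 : Hor l (g 0).1 := by rw [hg.1]; exact hx
  have hvY : v ∈ Y l := hor_exit hadj hgs hg0 hj2 hj3 hv
  refine ⟨v, hvY, ?_⟩
  apply hFP V I D Y ρ pr hCD hpr i v A
  refine ⟨hAY, Or.inr ⟨fun h => hor_not_base h v rfl, ?_⟩⟩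
  have hgm : g m = vb Y ρ v := Subtype.ext hv
  have e1 : dGam D Y ρ x (vb Y ρ v) = m := by
    rw [← hgm]; exact hg.dist_left hj2
  have e2 : dGam D Y ρ (vb Y ρ v) (vb Y ρ A) = k - m := by
    rw [← hgm]; exact hg.dist_right hj2
  have e3 := hdg.tri x (vb Y ρ v) (va Y ρ i)
  have e4 := hFE i (vb Y ρ v) A hAY
  omega

/-- one side of the argument -/
theorem side (hTop : Stmt_Top) (hCD : CD D Y ρ) {pr : I → V → V} (hpr : IsPr D Y pr)
    (hdg : IsDG (dGam D Y ρ))
    (hadj : ∀ u w : Gam Y ρ, dGam D Y ρ u w = 1 ↔ CAdj D ρ u.1 w.1)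
    (hva : ∀ (i : I) (y : V) (s : ℕ) (u : Gam Y ρ), IVert Y i y s u.1 →
     dGam D Y ρ u (va Y ρ i) = ρ + 1 - s)
    (hFE : ∀ (i : I) (z : Gam Y ρ) (v : V), v ∈ Y i →
      dGam D Y ρ z (va Y ρ i) ≤ dGam D Y ρ z (vb Y ρ v) + ρ + 1)
    (hFP : Stmt_FootPr)
    (hsh1 : ∀ i y, y ∈ Y i → pr i y = y)
    (hsh6 : ∀ i l x y, i ≠ l → x ∈ Y l → y ∈ Y l → D (pr i x) (pr i y) ≤ 67)
    {i : I} {k : ℕ} {g : ℕ → Gam Y ρ} (hg : GSeq (dGam D Y ρ) k g) {A : V}
    (hA : Foot D Y ρ i (g 0) A) {m : ℕ} (hm : m ≤ k)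
    (hb : ∀ j, j < m → ∀ v, (g j).1 ≠ .b v) {v : V} (hv : (g m).1 = .b v) :
    (∃ j, j ≤ k ∧ dGam D Y ρ (va Y ρ i) (g j) ≤ 1) ∨
      D A (pr i v) ≤ 2 ^ f3 + 67 + 5 * 2 ^ (ρ - 1) := by
  have hdgD := hCD.dg
  rcases hor_or_base (g 0).1 with ⟨v0, hv0⟩ | ⟨l, hl⟩
  · -- base vertex
    have hm0 : m = 0 := by
      rcases Nat.eq_zero_or_pos m with h | h
      · exact h
      · exact absurd hv0 (hb 0 h v0)
    subst hm0
    right
    have hgv : g 0 = vb Y ρ v := Subtype.ext hv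
    rw [hgv] at hA
    have := hFP V I D Y ρ pr hCD hpr i v A hA
    omega
  · by_cases hil : i = l
    · subst hil
      by_cases hhi : ∃ j, j ≤ m ∧ ρ ≤ ht ρ (g j).1
      · obtain ⟨j, hj, hj2⟩ := hhi
        left
        refine ⟨j, by omega, ?_⟩
        have hjm : j < m := by
          rcases Nat.lt_or_ge j m with h | h
          · exact h
          · have : j = m := by omega
            subst this
            rw [hv] at hj2
            simp only [ht] at hj2
            have := hCD.big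
            omega
        exact near_apex hva hdg (hor_run hadj hg hl j (by omega)
          (fun n hn => hb n (by omega))) hj2
      · right
        push Not at hhi
        have hgm : GSeq (dGam D Y ρ) m g := fun a b hab hbm => hg a b hab (by omega)
        have h1 := use_top hTop hCD hadj hgm hl hb hhi A
        have hvY : v ∈ Y i := hor_exit hadj hg hl hm hb hv
        rw [hsh1 i v hvY]
        have h2 : yof A (g 0).1 = A := by
          rcases hA.2 with ⟨s, hs⟩ | ⟨h, _⟩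
          · rw [hs]; rfl
          · exact absurd hl h
        have h3 : yof A (g m).1 = v := by rw [hv]; rfl
        rw [h2, h3] at h1
        exact h1.trans (Nat.le_add_left _ _)
    · right
      obtain ⟨v', hv', h1⟩ := other hCD hpr hdg hadj hFE hFP hil hl hA
      have hvY : v ∈ Y l := hor_exit hadj hg hl hm hb hv
      have h2 := hsh6 i l v' v hil hv' hvY
      have h3 := hdgD.tri A (pr i v') (pr i v)
      omega

end VR0

open VR0 in
theorem vR0_proof (hGD : Stmt_GamDG) (hTop : Stmt_Top) (hGu : Stmt_Guess) (hSh : Stmt_Shadow)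
    (hFE : Stmt_FootEx) (hFP : Stmt_FootPr) : Stmt_VR0 := by
  intro V I D Y ρ hCD i x y A B hA hB hAB
  obtain ⟨hdg, hadj, -, -, -, hva, -, -⟩ := hGD V I D Y ρ hCD
  have hFE2 := (hFE V I D Y ρ hCD).2.1
  have hpre : ∃ pr : I → V → V, IsPr D Y pr := by
    have h1 : ∀ (i : I) (x : V), ∃ p, IsNear D (Y i) x p := by
      intro i x
      obtain ⟨y0, hy0, -⟩ := hCD.unb i 0
      classical
      have hex : ∃ n, ∃ p ∈ Y i, D x p = n := ⟨_, y0, hy0, rfl⟩
      obtain ⟨p, hp, hpn⟩ := Nat.find_spec hex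
      refine ⟨p, hp, fun w hw => ?_⟩
      rw [hpn]
      exact Nat.find_min' hex ⟨w, hw, rfl⟩
    choose pr hpr using h1
    exact ⟨pr, hpr⟩
  obtain ⟨pr, hpr⟩ := hpre
  obtain ⟨hsh1, -, -, -, -, hsh6⟩ := hSh V I D Y ρ pr hCD hpr
  have hL1 := (hGu V I D Y ρ pr hCD hpr).1
  have hf3 : 1 ≤ f3 := by unfold f3; norm_num
  have hbig := hCD.big
  have hdgD := hCD.dg
  -- powers of two
  have hp1 : 2 ^ (ρ + 5) = 32 * 2 ^ ρ := by rw [pow_add]; ring
  have hp2 : 2 * 2 ^ (ρ - 1) = 2 ^ ρ := by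
    rw [← pow_succ']; congr 1; omega
  have hpow : ∀ φ : ℕ, φ + 20 ≤ ρ → 2 ^ φ * 1048576 ≤ 2 ^ ρ := by
    intro φ hφ
    calc 2 ^ φ * 1048576 = 2 ^ (φ + 20) := by rw [pow_add]; norm_num
      _ ≤ 2 ^ ρ := Nat.pow_le_pow_right (by norm_num) hφ
  have hρ20 : 0 + 20 ≤ ρ := by omega
  have hp4 := hpow 0 hρ20
  have hp3 := hpow f3 hbig
  obtain ⟨F, hF⟩ : ∃ F : ℕ, F = 2 ^ f3 := ⟨_, rfl⟩
  rw [← hF] at hp3
  obtain ⟨g, hg⟩ := exists_geod hdg x y
  set k := dGam D Y ρ x y with hk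
  have hgs : GSeq (dGam D Y ρ) k g := hg.2.2
  have hnear : ∀ j r, j ≤ k → dGam D Y ρ (va Y ρ i) (g j) ≤ r →
      gp (dGam D Y ρ) x y (va Y ρ i) ≤ 2 * r := by
    intro j r hj h
    have := gp_le_of_btw hdg (hg.btw' hj) (va Y ρ i)
    omega
  by_cases hbase : ∃ j, ∃ v, j ≤ k ∧ (g j).1 = .b v
  · -- there is a base vertex
    classical
    obtain ⟨vx, hj1, hvx⟩ := Nat.find_spec hbase
    have hj3 : ∀ j, j < Nat.find hbase → ∀ v, (g j).1 ≠ .b v := by
      intro j hj v hv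
      exact Nat.find_min hbase hj ⟨v, by omega, hv⟩
    set m := Nat.find hbase with hm
    -- reversed path
    have hgr : GSeq (dGam D Y ρ) k (fun j => g (k - j)) := by
      intro a b hab hb
      simp only
      rw [hdg.symm, hgs (k - b) (k - a) (by omega) (by omega)]
      omega
    have hbase2 : ∃ j, ∃ v, j ≤ k ∧ (g (k - j)).1 = .b v :=
      ⟨k - m, vx, by omega, by rw [show k - (k - m) = m by omega]; exact hvx⟩
    obtain ⟨vy, hj1', hvy⟩ := Nat.find_spec hbase2
    have hj3' : ∀ j, j < Nat.find hbase2 → ∀ v, (g (k - j)).1 ≠ .b v := by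
      intro j hj v hv
      exact Nat.find_min hbase2 hj ⟨v, by omega, hv⟩
    set m' := Nat.find hbase2 with hm'
    have hmm : m ≤ k - m' := by
      apply Nat.find_min' hbase
      exact ⟨vy, by omega, hvy⟩
    have hA0 : Foot D Y ρ i (g 0) A := by rw [hg.1]; exact hA
    have hB0 : Foot D Y ρ i ((fun j => g (k - j)) 0) B := by
      simp only [Nat.sub_zero]
      rw [hg.2.1]; exact hB
    rcases side hTop hCD hpr hdg hadj hva hFE2 hFP hsh1 hsh6 hgs hA0 hj1 hj3 hvx
      with ⟨j, hj, h1⟩ | h1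
    · have := hnear j 1 hj h1
      omega
    rcases side hTop hCD hpr hdg hadj hva hFE2 hFP hsh1 hsh6 hgr hB0 hj1' hj3' hvy
      with ⟨j, hj, h2⟩ | h2
    · have := hnear (k - j) 1 (by omega) h2
      omega
    -- the subpath between the two base vertices
    have e1 : g m = vb Y ρ vx := Subtype.ext hvx
    have e2 : g (k - m') = vb Y ρ vy := Subtype.ext hvy
    have hdist : dGam D Y ρ (vb Y ρ vx) (vb Y ρ vy) = k - m' - m := by
      rw [← e1, ← e2, hgs m (k - m') hmm (by omega)]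
    have hgeo : IsGeod (dGam D Y ρ) (vb Y ρ vx) (vb Y ρ vy) (fun j => g (m + j)) := by
      refine ⟨by simp only [Nat.add_zero]; exact e1, ?_, ?_⟩
      · simp only
        rw [hdist, show m + (k - m' - m) = k - m' by omega]
        exact e2
      · intro a b hab hb
        simp only
        rw [hdist] at hb
        rw [hgs (m + a) (m + b) (by omega) (by omega)]
        omega
    have hD : 2 ^ ρ < D (pr i vx) (pr i vy) := by
      have t1 := hdgD.tri A (pr i vx) B
      have t2 := hdgD.tri (pr i vx) (pr i vy) B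
      have t3 := hdgD.symm (pr i vy) B
      rw [← hF] at h1 h2
      omega
    have hmem : va Y ρ i ∈ Lset D Y ρ pr vx vy := by
      refine Or.inr ⟨i, ?_, ?_⟩
      · omega
      · refine Or.inr (Or.inr (Or.inr ⟨?_, rfl⟩))
        by_contra hc
        exact hc ((Nat.lt_clog_iff_pow_lt (by norm_num : 1 < 2)).2 hD)
    obtain ⟨j, hj, h3⟩ := (hL1 vx vy _ hgeo).1 _ hmem
    rw [hdist] at hj
    exact hnear (m + j) f3 (by omega) h3
  · -- no base vertex
    push Not at hbase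
    have hnb : ∀ j, j ≤ k → ∀ v, (g j).1 ≠ .b v := fun j hj v => hbase j v hj
    rcases hor_or_base (g 0).1 with ⟨v0, hv0⟩ | ⟨l, hl⟩
    · exact absurd hv0 (hnb 0 (by omega) v0)
    have hlk : Hor l (g k).1 := hor_run hadj hgs hl k le_rfl (fun m hm => hnb m hm)
    have hxl : Hor l x.1 := by rw [← hg.1]; exact hl
    have hyl : Hor l y.1 := by rw [← hg.2.1]; exact hlk
    by_cases hil : i = l
    · subst hil
      by_cases hhi : ∃ j, j ≤ k ∧ ρ ≤ ht ρ (g j).1
      · obtain ⟨j, hj, hj2⟩ := hhi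
        have h1 := near_apex hva hdg (hor_run hadj hgs hl j hj
          (fun n hn => hnb n (by omega))) hj2
        have := hnear j 1 hj h1
        omega
      · push Not at hhi
        have h1 := use_top hTop hCD hadj hgs hl (fun j hj => hnb j (by omega)) hhi A
        have h2 : yof A (g 0).1 = A := by
          rw [hg.1]
          rcases hA.2 with ⟨s, hs⟩ | ⟨h, _⟩
          · rw [hs]; rfl
          · exact absurd hxl h
        have h3 : yof A (g k).1 = B := by
          rw [hg.2.1]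
          rcases hB.2 with ⟨s, hs⟩ | ⟨h, _⟩
          · rw [hs]; rfl
          · exact absurd hyl h
        rw [h2, h3] at h1
        exfalso
        omega
    · exfalso
      obtain ⟨v1, hv1, h1⟩ := other hCD hpr hdg hadj hFE2 hFP hil hxl hA
      obtain ⟨v2, hv2, h2⟩ := other hCD hpr hdg hadj hFE2 hFP hil hyl hB
      have h3 := hsh6 i l v1 v2 hil hv1 hv2
      rw [← hF] at h1 h2
      have t1 := hdgD.tri A (pr i v1) B
      have t2 := hdgD.tri (pr i v1) (pr i v2) B
      have t3 := hdgD.symm (pr i v2) B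
      omega

end Pool.Agent.BURN
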