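import Pool.Agent.BURN.BaseStmts
import Pool.Agent.BURN.Stmts4

/-! Application to MP_38b588: a word w(x,y) = (x^p y^-1 x^p y)^p and an infinite group G, w not a
law of G, such that for every x all but at most 3 elements y satisfy w(x,y) = 1. -/

namespace Pool.Agent.BURN.App38

/-- exceptional sets are finite -/
def Target (Γ : Type) [Group Γ] (p : ℕ) : Prop :=
  Infinite Γ ∧ (∃ x y : Γ, (x ^ p * y⁻¹ * x ^ p * y) ^ p ≠ 1) ∧
  ∀ x : Γ, {y : Γ | (x ^ p * y⁻¹ * x ^ p * y) ^ p ≠ 1}.Finite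

theorem main_of_tower (hL1 : Stmt_Lim1) (hLM : Stmt_LimM) {N p : ℕ} (hp2 : 2 ≤ p)
    (hp6 : p % 6 = 1) (W : Tow N p) (i : Multiplicative (ZMod 3) →* (W.T 0).G) (P : (W.T 0).X)
    (b : ℕ → (W.T 0).G) (hinj : Function.Injective i) (hP : ∀ a, i a • P = P)
    (hconj : ∀ g : (W.T 0).G, ¬ Lox (W.T 0).d g →
      ∃ (h : (W.T 0).G) (a : Multiplicative (ZMod 3)), g = h * i a * h⁻¹)
    (hM : MProp i.range)
    (hχ : ∀ (H : Type) [CommGroup H] (f : ℕ → H), ∃ χ : (W.T 0).G →* H, (∀ a, χ (i a) = 1) ∧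
      ∀ n, χ (b n) = f n) :
    ∃ (Γ : Type) (_ : Group Γ), Target Γ p := by
  obtain ⟨l1, l2, l3, l4, l5, l6, l7, l8, l9, l10, l11⟩ := hL1 N p W (by omega)
  have lm := hLM N p W (by omega) i.range P (by rintro _ ⟨a, rfl⟩; exact hP a) hM
  have := l2
  let Γ := (W.T 0).G ⧸ W.M
  let mk : (W.T 0).G →* Γ := QuotientGroup.mk' W.M
  have mk_one : ∀ x, mk x = 1 ↔ x ∈ W.M := fun x => by
    show (QuotientGroup.mk x : (W.T 0).G ⧸ W.M) = 1 ↔ _
    rw [QuotientGroup.eq_one_iff]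
  have mk_eq : ∀ x y, x * y⁻¹ ∈ W.M → mk x = mk y := by
    intro x y h
    have := (mk_one _).2 h
    rw [map_mul, map_inv] at this
    exact mul_inv_eq_one.1 this
  have mk_surj : Function.Surjective mk := QuotientGroup.mk'_surjective W.M
  -- facts on A = Z/3
  have cube : ∀ a : Multiplicative (ZMod 3), a ^ 3 = 1 := by
    decide
  have powp : ∀ a : Multiplicative (ZMod 3), a ^ p = a := by
    intro a
    obtain ⟨k, hk⟩ : ∃ k, p = 3 * (2 * k) + 1 := ⟨p / 6, by omega⟩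
    rw [hk, pow_add, pow_mul, cube, one_pow, pow_one, one_mul]
  have nonlox : ∀ a, ¬ Lox (W.T 0).d (i a) := by
    intro a hl
    obtain ⟨m, hm⟩ := hl P 0
    rw [← map_pow, hP, ((W.T 0).good.dg.eq_zero _ _).2 rfl] at hm
    omega
  have iM : ∀ a, mk (i a) = 1 → a = 1 := by
    intro a ha
    have := l9 (i a) (nonlox a) ((mk_one _).1 ha)
    exact hinj (by rw [this, map_one])
  -- every element is of exponent p or conjugate into A
  have dich : ∀ x : Γ, x ^ p = 1 ∨ ∃ (h : Γ) (a : Multiplicative (ZMod 3)), x = h * mk (i a) * h⁻¹ := by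
    intro x
    obtain ⟨x0, rfl⟩ := mk_surj x
    rcases l7 x0 with h | ⟨g0, hg0, h⟩
    · left; rw [← map_pow]; exact (mk_one _).2 h
    · right
      obtain ⟨h', a, rfl⟩ := hconj g0 hg0
      refine ⟨mk h', a, ?_⟩
      rw [← map_inv, ← map_mul, ← map_mul]
      exact mk_eq _ _ h
  -- (M) in the limit
  have hMl : ∀ (a1 a2 a3 : Multiplicative (ZMod 3)), a1 ≠ 1 → a2 ≠ 1 → a3 ≠ 1 → ∀ y h : Γ,
      mk (i a1) * (y⁻¹ * mk (i a2) * y) = h * mk (i a3) * h⁻¹ → ∃ a, y = mk (i a) := by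
    intro a1 a2 a3 n1 n2 n3 y h heq
    obtain ⟨y0, rfl⟩ := mk_surj y
    obtain ⟨h0, rfl⟩ := mk_surj h
    have ne : ∀ a, a ≠ 1 → i a ≠ 1 := fun a ha h => ha (hinj (by rw [h, map_one]))
    obtain ⟨_, ⟨a, rfl⟩, ha⟩ := lm (i a1) ⟨a1, rfl⟩ (i a2) ⟨a2, rfl⟩ (i a3) ⟨a3, rfl⟩ (ne a1 n1)
      (ne a2 n2) (ne a3 n3) y0 h0 (by
        apply (mk_one _).1
        rw [map_mul, map_inv]
        apply mul_inv_eq_one.2
        simpa only [map_mul, map_inv] using heq)
    exact ⟨a, mk_eq _ _ ha⟩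
  refine ⟨Γ, inferInstance, ?_, ?_, ?_⟩
  · -- infinite
    obtain ⟨χ, -, hχb⟩ := hχ (Multiplicative (ℕ →₀ ZMod p))
      (fun n => Multiplicative.ofAdd (Finsupp.single n 1))
    have hker : ∀ x ∈ W.M, χ x = 1 := by
      have : W.M ≤ χ.ker := by
        refine l10.trans ?_
        rw [Subgroup.closure_le]
        rintro _ ⟨y, rfl⟩
        show χ (y ^ p) = 1
        rw [map_pow]
        apply Multiplicative.toAdd.injective
        rw [toAdd_pow, toAdd_one]
        ext n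
        simp
      exact fun x hx => this hx
    have : Fact (1 < p) := ⟨by omega⟩
    refine Infinite.of_injective (fun n : ℕ => mk (b n)) ?_
    intro m n hmn
    have h1 : mk (b m * (b n)⁻¹) = 1 := by
      rw [map_mul, map_inv]; exact mul_inv_eq_one.2 hmn
    have h2 := hker _ ((mk_one _).1 h1)
    rw [map_mul, map_inv, hχb, hχb] at h2
    have h3 := mul_inv_eq_one.1 h2
    have h4 : (Finsupp.single m (1 : ZMod p)) = Finsupp.single n 1 := h3
    by_contra hne
    have := DFunLike.congr_fun h4 m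
    rw [Finsupp.single_eq_same, Finsupp.single_apply, if_neg (fun h => hne h.symm)] at this
    exact one_ne_zero this
  · -- not a law
    refine ⟨mk (i (Multiplicative.ofAdd 1)), 1, ?_⟩
    intro h
    have e : (mk (i (Multiplicative.ofAdd 1)) ^ p * (1 : Γ)⁻¹ * mk (i (Multiplicative.ofAdd 1)) ^ p *
        1) ^ p = mk (i (Multiplicative.ofAdd 2)) := by
      rw [inv_one, mul_one, mul_one, ← map_pow, ← map_pow, powp, ← map_mul, ← map_mul, ← map_pow,
        ← map_pow, powp]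
      rfl
    rw [e] at h
    have := iM _ h
    revert this
    decide
  · intro x
    rcases dich x with hx | ⟨h, a, hx⟩
    · have : {y : Γ | (x ^ p * y⁻¹ * x ^ p * y) ^ p ≠ 1} = ∅ := by
        ext y
        simp [hx]
      rw [this]
      exact Set.finite_empty
    · refine (Set.finite_range (fun a' : Multiplicative (ZMod 3) => h * mk (i a') * h⁻¹)).subset ?_
      intro y hy
      by_contra hny
      apply hy
      have hxp : x ^ p = h * mk (i a) * h⁻¹ := by
        rw [hx, conj_pow, ← map_pow, ← map_pow, powp]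
      by_cases ha : a = 1
      · rw [ha, map_one, map_one, mul_one, mul_inv_cancel] at hxp
        simp [hxp]
      · obtain ⟨y', hy'⟩ : ∃ y', y' = h⁻¹ * y * h := ⟨_, rfl⟩
        obtain ⟨u, hu⟩ : ∃ u, u = mk (i a) * (y'⁻¹ * mk (i a) * y') := ⟨_, rfl⟩
        have e : x ^ p * y⁻¹ * x ^ p * y = h * u * h⁻¹ := by
          rw [hxp, hu, hy']; group
        rw [e, conj_pow]
        have hup : u ^ p = 1 := by
          rcases dich u with h1 | ⟨h2, a3, h3⟩
          · exact h1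
          · by_cases ha3 : a3 = 1
            · rw [h3, ha3, map_one, map_one, mul_one, mul_inv_cancel, one_pow]
            · exfalso
              obtain ⟨a4, ha4⟩ := hMl a a a3 ha ha ha3 y' h2 (by rw [← hu]; exact h3)
              apply hny
              refine ⟨a4, ?_⟩
              show h * mk (i a4) * h⁻¹ = y
              rw [← ha4, hy']; group
        rw [hup, mul_one, mul_inv_cancel]

/-- from the engine to the group -/
theorem main (hBA : Stmt_BaseA) (hT : Stmt_Tower) (hL1 : Stmt_Lim1) (hLM : Stmt_LimM) :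
    ∃ (p : ℕ) (Γ : Type) (_ : Group Γ), Target Γ p := by
  obtain ⟨p, hp⟩ : ∃ p, p = 6 * n0 + 1 := ⟨_, rfl⟩
  have hn0 := n0_pos
  have hcard : Nat.card (Multiplicative (ZMod 3)) = 3 := by
    rw [Nat.card_eq_fintype_card]; rfl
  obtain ⟨G, X, gG, gX, d, i, P, b, good, hinj, hP, hconj, hM, hχ⟩ :=
    hBA (Multiplicative (ZMod 3)) (3 * p) (by
      rw [hp]
      exact ⟨9 * n0 + 1, by ring⟩) (by rw [hcard]; exact dvd_mul_right _ _)
  let s : StgG (3 * p) := { G := G, X := X, gG := gG, aX := gX, d := d, good := good }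
  let Q : StgG (3 * p) → Prop := fun s =>
    ∃ (i : Multiplicative (ZMod 3) →* s.G) (P : s.X) (b : ℕ → s.G), Function.Injective i ∧
      (∀ a, i a • P = P) ∧
      (∀ g : s.G, ¬ Lox s.d g → ∃ (h : s.G) (a : Multiplicative (ZMod 3)), g = h * i a * h⁻¹) ∧
      MProp i.range ∧
      (∀ (H : Type) [CommGroup H] (f : ℕ → H), ∃ χ : s.G →* H, (∀ a, χ (i a) = 1) ∧
        ∀ n, χ (b n) = f n)
  have hQ : Q s := ⟨i, P, b, hinj, hP, hconj, hM, hχ⟩
  obtain ⟨W, hW⟩ := hT (3 * p) p s (by omega) (dvd_mul_left _ _)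
  rw [← hW] at hQ
  obtain ⟨i, P, b, hinj, hP, hconj, hM, hχ⟩ := hQ
  obtain ⟨Γ, gΓ, h⟩ := main_of_tower hL1 hLM (by omega) (by omega) W i P b hinj hP hconj hM hχ
  exact ⟨p, Γ, gΓ, h⟩

open FreeGroup in
/-- the frozen negation S01206 -/
theorem final (hBA : Stmt_BaseA) (hT : Stmt_Tower) (hL1 : Stmt_Lim1) (hLM : Stmt_LimM) :
    ¬ (∀ (n : ℕ) (w : FreeGroup (Fin n)) (G : Type) [Group G],
      (Finite G ∨ ∀ x : Fin n → G, FreeGroup.lift x w = 1) ↔
        (∀ X : Fin n → Set G, (∀ i, (X i).Infinite) →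
          ∃ x : Fin n → G, (∀ i, x i ∈ X i) ∧ FreeGroup.lift x w = 1)) := by
  intro h
  obtain ⟨p, Γ, gΓ, hinf, ⟨x, y, hxy⟩, hfin⟩ := main hBA hT hL1 hLM
  have ev : ∀ z : Fin 2 → Γ, FreeGroup.lift z
      (((of 0) ^ p * (of 1)⁻¹ * (of 0) ^ p * (of 1)) ^ p : FreeGroup (Fin 2)) =
      (z 0 ^ p * (z 1)⁻¹ * z 0 ^ p * z 1) ^ p := by
    intro z
    simp
  rcases (h 2 (((of 0) ^ p * (of 1)⁻¹ * (of 0) ^ p * (of 1)) ^ p) Γ).2 (by
      intro X hX
      obtain ⟨x0, hx0⟩ := (hX 0).nonempty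
      obtain ⟨y0, hy0, hy0'⟩ := ((hX 1).sdiff (hfin x0)).nonempty
      refine ⟨![x0, y0], ?_, ?_⟩
      · intro j
        fin_cases j
        · exact hx0
        · exact hy0
      · rw [ev]
        by_contra hc
        exact hy0' hc) with h1 | h1
  · exact hinf.not_finite h1
  · have := h1 ![x, y]
    rw [ev] at this
    exact hxy this

end Pool.Agent.BURN.App38
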