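import Pool.Agent.BURN.Stmts4

/-! Application of the Burnside engine to MP_5bd9ee_al: the relatively free group of exponent `p`
on infinitely many letters has finite centralisers, and it has a subgroup of infinite index in its
normaliser which is not normal. -/

namespace Pool.Agent.BURN.App5bd

/-- every centraliser is finite or the whole group -/
def CentCofinite (G : Type) [Group G] : Prop :=
  ∀ g : G, ((Subgroup.centralizer ({g} : Set G) : Subgroup G) : Set G).Finite ∨
    Subgroup.centralizer ({g} : Set G) = ⊤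

/-- every subgroup is of finite index in its normaliser or normal -/
def FNI (G : Type) [Group G] : Prop :=
  ∀ H : Subgroup G, (H.subgroupOf (Subgroup.normalizer (H : Set G))).FiniteIndex ∨ H.Normal

/-- the verbal subgroup -/
abbrev Fp (p : ℕ) : Subgroup (FreeGroup ℕ) :=
  Subgroup.normalClosure {x | ∃ y : FreeGroup ℕ, x = y ^ p}

/-- the free Burnside group of infinite rank -/
abbrev Bu (p : ℕ) : Type := FreeGroup ℕ ⧸ Fp p

variable {p : ℕ}

/-- the generators -/
def xx (p : ℕ) (i : ℕ) : Bu p := QuotientGroup.mk (FreeGroup.of i)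

theorem pow_eq_one (g : Bu p) : g ^ p = 1 := by
  induction g using QuotientGroup.induction_on with
  | H x =>
    rw [← QuotientGroup.mk_pow]
    exact (QuotientGroup.eq_one_iff _).2 (Subgroup.subset_normalClosure ⟨x, rfl⟩)

/-- the universal property -/
def lft {Q : Type} [Group Q] (hQ : ∀ q : Q, q ^ p = 1) (f : ℕ → Q) : Bu p →* Q :=
  QuotientGroup.lift (Fp p) (FreeGroup.lift f) (by
    intro x hx
    have h : Fp p ≤ (FreeGroup.lift f).ker := by
      apply Subgroup.normalClosure_le_normal
      rintro _ ⟨y, rfl⟩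
      change _ = _
      rw [map_pow]
      exact hQ _
    exact h hx)

theorem lft_xx {Q : Type} [Group Q] (hQ : ∀ q : Q, q ^ p = 1) (f : ℕ → Q) (i : ℕ) :
    lft hQ f (xx p i) = f i := by
  unfold lft xx
  rw [QuotientGroup.lift_mk, FreeGroup.lift_apply_of]

theorem hom_ext {Q : Type} [Group Q] (f g : Bu p →* Q) (h : ∀ i, f (xx p i) = g (xx p i)) :
    f = g := by
  apply QuotientGroup.monoidHom_ext
  apply FreeGroup.ext_hom
  intro a
  exact h a

/-- centralisers of nontrivial elements are finite -/
theorem cent_finite (hB : Stmt_BurnF) (hodd : Odd p) (hp : n0 ≤ p) (g : Bu p) (hg : g ≠ 1) :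
    ((Subgroup.centralizer ({g} : Set (Bu p)) : Subgroup (Bu p)) : Set (Bu p)).Finite := by
  induction g using QuotientGroup.induction_on with
  | H x =>
    have hx : x ∉ Fp p := fun h => hg ((QuotientGroup.eq_one_iff _).2 h)
    obtain ⟨c, hc, hall⟩ := (hB ℕ p hodd hp (Fp p) rfl).1 x hx
    have hppos : 0 < p := by
      rcases hodd with ⟨k, hk⟩
      omega
    have hcp : (QuotientGroup.mk c : Bu p) ^ p = 1 := pow_eq_one _
    refine Set.Finite.subset (Set.finite_range (fun j : Fin p => (QuotientGroup.mk c : Bu p) ^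
      (j : ℕ))) ?_
    intro y hy
    induction y using QuotientGroup.induction_on with
    | H y =>
      have h1 := (Subgroup.mem_centralizer_iff.1 hy) _ (Set.mem_singleton _)
      have h2 : x * y * x⁻¹ * y⁻¹ ∈ Fp p := by
        rw [← QuotientGroup.eq_one_iff]
        have e : (QuotientGroup.mk (x * y * x⁻¹ * y⁻¹) : Bu p) =
          QuotientGroup.mk x * QuotientGroup.mk y * (QuotientGroup.mk x)⁻¹ *
            (QuotientGroup.mk y)⁻¹ := rfl
        rw [e, h1]
        group
      obtain ⟨j, hj⟩ := hall y h2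
      rw [← QuotientGroup.eq_one_iff] at hj
      have e : (QuotientGroup.mk (y * (c ^ j)⁻¹) : Bu p) =
        QuotientGroup.mk y * ((QuotientGroup.mk c : Bu p) ^ j)⁻¹ := rfl
      rw [e, mul_inv_eq_one] at hj
      refine ⟨⟨j % p, Nat.mod_lt _ hppos⟩, ?_⟩
      rw [hj]
      change (QuotientGroup.mk c : Bu p) ^ (j % p) = _
      conv_rhs => rw [← Nat.div_add_mod j p, pow_add, pow_mul, hcp, one_pow, one_mul]

theorem centCofinite (hB : Stmt_BurnF) (hodd : Odd p) (hp : n0 ≤ p) : CentCofinite (Bu p) := by
  intro g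
  by_cases hg : g = 1
  · right
    rw [Subgroup.eq_top_iff']
    intro y
    rw [Subgroup.mem_centralizer_iff]
    intro h hh
    rw [Set.mem_singleton_iff] at hh
    rw [hh, hg, one_mul, mul_one]
  · exact Or.inl (cent_finite hB hodd hp g hg)

/-- the shift -/
def sh (p : ℕ) : Bu p →* Bu p := lft pow_eq_one (fun i => xx p (i + 1))

/-- replace the first letter -/
def rr (p : ℕ) (k : Bu p) : Bu p →* Bu p :=
  lft pow_eq_one (fun i => match i with
    | 0 => k
    | i + 1 => xx p (i + 1))

theorem rr_sh (k t : Bu p) : rr p k (sh p t) = sh p t := by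
  have h : (rr p k).comp (sh p) = sh p := by
    apply hom_ext
    intro i
    rw [MonoidHom.comp_apply]
    unfold sh rr
    rw [lft_xx, lft_xx]
  exact DFunLike.congr_fun h t

/-- the abelianisation -/
def ab (p : ℕ) : Bu p →* Multiplicative (ℕ → ZMod p) :=
  lft (by
    intro q
    apply Multiplicative.toAdd.injective
    rw [toAdd_pow, toAdd_one]
    funext i
    simp) (fun i => Multiplicative.ofAdd (Pi.single i 1))

theorem ab_xx (i j : ℕ) : (ab p (xx p i)).toAdd j = if i = j then 1 else 0 := by
  unfold ab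
  rw [lft_xx, toAdd_ofAdd, Pi.single_apply]
  simp only [eq_comm]

/-- coordinates of the abelianisation after the shift -/
theorem ab_sh (t : Bu p) (j : ℕ) : (ab p (sh p t)).toAdd (j + 1) = (ab p t).toAdd j := by
  let ev : ℕ → (Multiplicative (ℕ → ZMod p) →* Multiplicative (ZMod p)) := fun j =>
    AddMonoidHom.toMultiplicative (Pi.evalAddMonoidHom (fun _ : ℕ => ZMod p) j)
  have h : ((ev (j + 1)).comp (ab p)).comp (sh p) = (ev j).comp (ab p) := by
    apply hom_ext
    intro i
    apply Multiplicative.toAdd.injective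
    have h1 : (((ev (j + 1)).comp (ab p)).comp (sh p)) (xx p i) =
      ev (j + 1) (ab p (xx p (i + 1))) := by
      rw [MonoidHom.comp_apply, MonoidHom.comp_apply]
      unfold sh
      rw [lft_xx]
    rw [h1]
    change (ab p (xx p (i + 1))).toAdd (j + 1) = (ab p (xx p i)).toAdd j
    rw [ab_xx, ab_xx]
    simp
  exact congrArg Multiplicative.toAdd (DFunLike.congr_fun h t)

/-- elements of the normal closure of `x_0` have no other coordinates -/
theorem ab_nc (t : Bu p) (ht : t ∈ Subgroup.normalClosure ({xx p 0} : Set (Bu p))) (j : ℕ) :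
    (ab p t).toAdd (j + 1) = 0 := by
  let ev : Multiplicative (ℕ → ZMod p) →* Multiplicative (ZMod p) :=
    AddMonoidHom.toMultiplicative (Pi.evalAddMonoidHom (fun _ : ℕ => ZMod p) (j + 1))
  have h : Subgroup.normalClosure ({xx p 0} : Set (Bu p)) ≤ (ev.comp (ab p)).ker := by
    apply Subgroup.normalClosure_le_normal
    intro x hx
    rw [Set.mem_singleton_iff] at hx
    change _ = _
    apply Multiplicative.toAdd.injective
    rw [hx]
    change (ab p (xx p 0)).toAdd (j + 1) = 0
    rw [ab_xx]
    simp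
  exact congrArg Multiplicative.toAdd (h ht)

/-- the subgroup: the normal closure of `x_1` in the subgroup generated by `x_1, x_2, ...` -/
def HH (p : ℕ) : Subgroup (Bu p) := (Subgroup.normalClosure ({xx p 0} : Set (Bu p))).map (sh p)

theorem ab_HH (h : Bu p) (hh : h ∈ HH p) (j : ℕ) : (ab p h).toAdd (j + 2) = 0 := by
  obtain ⟨t, ht, rfl⟩ := hh
  rw [ab_sh, ab_nc t ht]

theorem range_le : (sh p).range ≤ Subgroup.normalizer (HH p : Set (Bu p)) := by
  rw [Subgroup.le_normalizer_iff]
  rintro _ ⟨u, rfl⟩ _ ⟨t, ht, rfl⟩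
  refine ⟨u * t * u⁻¹, ?_, ?_⟩
  · exact (Subgroup.normalClosure_normal).conj_mem t ht u
  · rw [map_mul, map_mul, map_inv]

theorem sh_xx (i : ℕ) : sh p (xx p i) = xx p (i + 1) := by
  unfold sh
  rw [lft_xx]

/-- the distinct cosets -/
theorem cosets (h2 : 2 ≤ p) (i j : ℕ) (h : (xx p (i + 2))⁻¹ * xx p (j + 2) ∈ HH p) : i = j := by
  by_contra hij
  have h1 := ab_HH _ h i
  rw [map_mul, map_inv, toAdd_mul, toAdd_inv, Pi.add_apply, Pi.neg_apply, ab_xx, ab_xx] at h1
  rw [if_pos rfl, if_neg (by omega), add_zero, neg_eq_zero] at h1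
  have : Fact (1 < p) := ⟨h2⟩
  exact one_ne_zero h1

theorem infinite_Bu (h2 : 2 ≤ p) : Infinite (Bu p) := by
  apply Infinite.of_injective (fun i => xx p (i + 2))
  intro i j hij
  apply cosets h2 i j
  have : xx p (i + 2) = xx p (j + 2) := hij
  rw [this, inv_mul_cancel]
  exact Subgroup.one_mem _

theorem not_FNI (hB : Stmt_BurnF) (hodd : Odd p) (hp : n0 ≤ p) (h2 : 2 ≤ p) : ¬ FNI (Bu p) := by
  intro hF
  rcases hF (HH p) with hfi | hn
  · -- infinite index in the normaliser
    have hmem : ∀ i, xx p (i + 1) ∈ Subgroup.normalizer (HH p : Set (Bu p)) := fun i =>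
      range_le ⟨xx p i, sh_xx i⟩
    have hfin := Subgroup.finite_quotient_of_finiteIndex
      (H := (HH p).subgroupOf (Subgroup.normalizer (HH p : Set (Bu p))))
    refine not_injective_infinite_finite (fun i : ℕ =>
      (QuotientGroup.mk ⟨xx p (i + 2), hmem (i + 1)⟩ :
        (Subgroup.normalizer (HH p : Set (Bu p))) ⧸
          (HH p).subgroupOf (Subgroup.normalizer (HH p : Set (Bu p))))) ?_
    intro i j hij
    rw [QuotientGroup.eq, Subgroup.mem_subgroupOf] at hij
    exact cosets h2 i j hij
  · -- not normal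
    have h1 : xx p 1 ∈ HH p := ⟨xx p 0, Subgroup.subset_normalClosure rfl, sh_xx 0⟩
    obtain ⟨t, -, ht⟩ := hn.conj_mem _ h1 (xx p 0)
    have key : ∀ k : Bu p, k * xx p 1 * k⁻¹ = sh p t := by
      intro k
      have h3 := congrArg (rr p k) ht
      rw [rr_sh, map_mul, map_mul, map_inv] at h3
      have e0 : rr p k (xx p 0) = k := by unfold rr; rw [lft_xx]
      have e1 : rr p k (xx p 1) = xx p 1 := by unfold rr; rw [lft_xx]
      rw [e0, e1] at h3
      exact h3.symm
    have hx1 : xx p 1 ≠ 1 := by
      intro h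
      have h4 := ab_xx (p := p) 1 1
      rw [h, map_one, toAdd_one, Pi.zero_apply, if_pos rfl] at h4
      have : Fact (1 < p) := ⟨h2⟩
      exact zero_ne_one h4
    have hfin := cent_finite hB hodd hp (xx p 1) hx1
    have htop : ((Subgroup.centralizer ({xx p 1} : Set (Bu p)) : Subgroup (Bu p)) :
        Set (Bu p)) = Set.univ := by
      rw [Set.eq_univ_iff_forall]
      intro k
      rw [SetLike.mem_coe, Subgroup.mem_centralizer_iff]
      intro h hh
      rw [Set.mem_singleton_iff] at hh
      rw [hh]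
      have h5 := key k
      have h6 := key 1
      rw [one_mul, inv_one, mul_one] at h6
      rw [← h6] at h5
      rw [mul_inv_eq_iff_eq_mul] at h5
      exact h5.symm
    rw [htop] at hfin
    have := infinite_Bu h2
    exact Set.infinite_univ hfin

/-- the answer to Q1 of MP_5bd9ee_al is negative -/
theorem main (hB : Stmt_BurnF) :
    ∃ (G : Type) (_ : Group G), CentCofinite G ∧ ¬ FNI G := by
  have h1 := n0_pos
  have hodd : Odd (2 * n0 + 1) := ⟨n0, rfl⟩
  exact ⟨Bu (2 * n0 + 1), inferInstance, centCofinite hB hodd (by omega),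
    not_FNI hB hodd (by omega) (by omega)⟩

end Pool.Agent.BURN.App5bd
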