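import Pool.Agent.BURN.Basic
import Pool.Agent.BURN.Stmts1

/-! 1.8 (f) of the blueprint: the axis of an isometry with large displacement. -/

namespace Pool.Agent.BURN

namespace AxisX

variable {G X : Type} [Group G] [MulAction G X] {d : X → X → ℕ} {δ m : ℕ}

theorem shift_gp (hi : IsIso G d) (g : G) (x : X) (i j k : ℤ) (s : ℤ) :
    gp d (g ^ (i + s) • x) (g ^ (j + s) • x) (g ^ (k + s) • x) =
      gp d (g ^ i • x) (g ^ j • x) (g ^ k • x) := by
  rw [add_comm i s, add_comm j s, add_comm k s, zpow_add, zpow_add, zpow_add, mul_smul, mul_smul,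
    mul_smul, isIso_gp hi]

theorem shift_d (hi : IsIso G d) (g : G) (x : X) (i j : ℤ) (s : ℤ) :
    d (g ^ (i + s) • x) (g ^ (j + s) • x) = d (g ^ i • x) (g ^ j • x) := by
  rw [add_comm i s, add_comm j s, zpow_add, zpow_add, mul_smul, mul_smul, hi]

theorem step_d (hi : IsIso G d) (g : G) (x : X) (i : ℤ) :
    d (g ^ i • x) (g ^ (i + 1) • x) = d x (g • x) := by
  have := shift_d hi g x 0 1 i
  rw [zero_add, add_comm 1 i, zpow_zero, zpow_one, one_smul] at this
  exact this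

theorem step_gp (hi : IsIso G d) (g : G) (x : X) (k : ℤ) :
    gp d (g ^ (k - 1) • x) (g ^ (k + 1) • x) (g ^ k • x) = gp d x (g ^ 2 • x) (g • x) := by
  have := shift_gp hi g x 0 2 1 (k - 1)
  rw [zero_add, zpow_zero, zpow_one, one_smul, show (2 : ℤ) + (k - 1) = k + 1 by ring,
    show (1 : ℤ) + (k - 1) = k by ring, show (2 : ℤ) = ((2 : ℕ) : ℤ) from rfl, zpow_natCast] at this
  exact this

/-- the products at the vertices of the orbit -/
theorem prod_le (hLGb : Stmt_LGb) (h : IsDG d) (hy : Hyp d δ) (hi : IsIso G d)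
    (hm : 16 * δ + 2 ≤ m) (g : G) (x : X) (hx : d x (g • x) = m)
    (h2 : gp d x (g ^ 2 • x) (g • x) ≤ 2 * δ) (i j k : ℤ) (hik : i < k) (hkj : k < j) :
    gp d (g ^ i • x) (g ^ j • x) (g ^ k • x) ≤ 4 * δ := by
  have key := hLGb X d δ (2 * δ) (j - i).toNat (fun t => g ^ (i + (t : ℤ)) • x) h hy
    (by omega) ?_ ?_ (k - i).toNat (by omega) (by omega)
  · simp only [Nat.cast_zero, add_zero] at key
    have e1 : i + (((j - i).toNat : ℕ) : ℤ) = j := by omega
    have e2 : i + (((k - i).toNat : ℕ) : ℤ) = k := by omega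
    rw [e1, e2] at key
    omega
  · intro t ht1 ht2
    have e1 : i + (((t - 1 : ℕ)) : ℤ) = (i + t) - 1 := by omega
    have e2 : i + (((t + 1 : ℕ)) : ℤ) = (i + t) + 1 := by omega
    simp only [e1, e2]
    rw [step_gp hi]; exact h2
  · intro t ht1 ht2
    have e2 : i + (((t + 1 : ℕ)) : ℤ) = (i + t) + 1 := by omega
    simp only [e2]
    rw [step_d hi, hx]; omega

/-- the union of the intervals between consecutive points of the orbit -/
def Ax (d : X → X → ℕ) (g : G) (x : X) : Set X :=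
  {p | ∃ i : ℤ, Btw d (g ^ i • x) p (g ^ (i + 1) • x)}

theorem btw_left (h : IsDG d) (x y : X) : Btw d x x y := by
  unfold Btw; rw [(h.eq_zero x x).2 rfl]; omega

theorem btw_right (h : IsDG d) (x y : X) : Btw d x y y := by
  unfold Btw; rw [(h.eq_zero y y).2 rfl]; omega

theorem btw_sub_right (h : IsDG d) {x u p y : X} (h1 : Btw d x u y) (h2 : Btw d u p y) :
    Btw d x p y := by
  unfold Btw at *
  have := h.tri x u p; have := h.tri x p y
  omega

theorem btw_sub_left (h : IsDG d) {x u p y : X} (h1 : Btw d x u y) (h2 : Btw d x p u) :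
    Btw d x p y := by
  unfold Btw at *
  have := h.tri p u y; have := h.tri x p y
  omega

theorem gp_sub (h : IsDG d) {a u b c : X} (h1 : Btw d a u b) :
    gp d u c b ≤ gp d a c b := by
  have e1 := gp_add h u c b; have e2 := gp_add h a c b
  have := h.tri a u c
  unfold Btw at h1
  omega

theorem qc_lt (hLGb : Stmt_LGb) (hC : Stmt_Cover) (h : IsDG d) (hy : Hyp d δ) (hi : IsIso G d)
    (hm : 16 * δ + 2 ≤ m) (g : G) (x : X) (hx : d x (g • x) = m)
    (h2 : gp d x (g ^ 2 • x) (g • x) ≤ 2 * δ) (i j : ℤ) (hij : i < j) (u v p : X)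
    (hu : Btw d (g ^ i • x) u (g ^ (i + 1) • x)) (hv : Btw d (g ^ j • x) v (g ^ (j + 1) • x))
    (hp : Btw d u p v) : ∃ w ∈ Ax d g x, d p w ≤ 6 * δ := by
  obtain ⟨n, hn⟩ : ∃ n : ℕ, (n : ℤ) = j - i := ⟨(j - i).toNat, by omega⟩
  have hn1 : 1 ≤ n := by omega
  obtain ⟨y, hy0⟩ : ∃ y : ℕ → X, y = fun t =>
    if t = 0 then u else if t = n + 1 then v else g ^ (i + (t : ℤ)) • x := ⟨_, rfl⟩
  have y0 : y 0 = u := by rw [hy0]; simp
  have yn : y (n + 1) = v := by rw [hy0]; simp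
  have yt : ∀ t, 1 ≤ t → t ≤ n → y t = g ^ (i + (t : ℤ)) • x := by
    intro t h1 h3
    rw [hy0]
    simp only
    rw [if_neg (by omega), if_neg (by omega)]
  have prods : ∀ t, 1 ≤ t → t + 1 ≤ n + 1 → gp d (y (t - 1)) (y (t + 1)) (y t) ≤ 2 * δ := by
    intro t ht1 ht2
    have base : gp d (g ^ (i + (t : ℤ) - 1) • x) (g ^ (i + (t : ℤ) + 1) • x)
      (g ^ (i + (t : ℤ)) • x) ≤ 2 * δ := by rw [step_gp hi]; exact h2
    rw [yt t ht1 (by omega)]
    -- replace the left end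
    have hleft : ∀ c, gp d (y (t - 1)) c (g ^ (i + (t : ℤ)) • x) ≤
        gp d (g ^ (i + (t : ℤ) - 1) • x) c (g ^ (i + (t : ℤ)) • x) := by
      intro c
      by_cases ht : t = 1
      · subst ht
        rw [show (1 - 1 : ℕ) = 0 from rfl, y0]
        apply gp_sub h
        rw [show i + ((1 : ℕ) : ℤ) - 1 = i by omega, show i + ((1 : ℕ) : ℤ) = i + 1 by omega]
        exact hu
      · rw [yt (t - 1) (by omega) (by omega), show i + (((t - 1 : ℕ)) : ℤ) = i + (t : ℤ) - 1 by omega]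
    have hright : ∀ c, gp d c (y (t + 1)) (g ^ (i + (t : ℤ)) • x) ≤
        gp d c (g ^ (i + (t : ℤ) + 1) • x) (g ^ (i + (t : ℤ)) • x) := by
      intro c
      by_cases ht : t = n
      · subst ht
        rw [yn, gp_comm h c v, gp_comm h c]
        apply gp_sub h
        rw [show i + (t : ℤ) = j by omega]
        exact btw_symm h hv
      · rw [yt (t + 1) (by omega) (by omega), show i + (((t + 1 : ℕ)) : ℤ) = i + (t : ℤ) + 1 by omega]
    exact (hleft _).trans ((hright _).trans base)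
  have segs : ∀ t, 1 ≤ t → t + 2 ≤ n + 1 → 2 * δ + 2 * δ < d (y t) (y (t + 1)) := by
    intro t ht1 ht2
    rw [yt t ht1 (by omega), yt (t + 1) (by omega) (by omega),
      show i + (((t + 1 : ℕ)) : ℤ) = i + (t : ℤ) + 1 by omega, step_d hi, hx]
    omega
  have hLG := hLGb X d δ (2 * δ) (n + 1) y h hy (by omega) prods segs
  obtain ⟨t, ht, hcov⟩ := hC X d δ (4 * δ) (n + 1) y p h hy (by omega)
    (fun t h1 h3 => (hLG t h1 h3).trans (by omega)) (by rw [y0, yn]; exact hp)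
  obtain ⟨γ, hγ⟩ := exists_geod h (y t) (y (t + 1))
  obtain ⟨hN1, hN2⟩ := near_geod h hy hγ p
  refine ⟨γ (gp d (y (t + 1)) p (y t) / 2), ?_, by omega⟩
  have hb := hγ.btw' hN1
  refine ⟨i + (t : ℤ), ?_⟩
  have hA : ∀ q, Btw d (y t) q (g ^ (i + (t : ℤ) + 1) • x) →
      Btw d (g ^ (i + (t : ℤ)) • x) q (g ^ (i + (t : ℤ) + 1) • x) := by
    intro q hq
    by_cases ht0 : t = 0
    · subst ht0
      rw [y0] at hq
      rw [show i + ((0 : ℕ) : ℤ) = i by omega] at hq ⊢
      exact btw_sub_right h hu hq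
    · rw [yt t (by omega) (by omega)] at hq; exact hq
  by_cases htn : t = n
  · subst htn
    rw [yn, yt t (by omega) (by omega)] at hb
    have e : i + (t : ℤ) = j := by omega
    rw [yn, yt t (by omega) (by omega)]
    rw [e] at hb ⊢
    exact btw_sub_left h hv hb
  · apply hA
    rw [yt (t + 1) (by omega) (by omega),
      show i + (((t + 1 : ℕ)) : ℤ) = i + (t : ℤ) + 1 by omega] at hb ⊢
    exact hb

theorem smul_Ax (hi : IsIso G d) (g : G) (x p : X) (hp : p ∈ Ax d g x) (s : ℤ) :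
    g ^ s • p ∈ Ax d g x := by
  obtain ⟨i, hi'⟩ := hp
  refine ⟨s + i, ?_⟩
  unfold Btw at *
  rw [add_assoc, zpow_add, zpow_add, mul_smul, mul_smul, hi, hi, hi]
  exact hi'

end AxisX

open AxisX

theorem Axis_proof (hLGb : Stmt_LGb) (hC : Stmt_Cover) (hH : Stmt_Hull) (hI : Stmt_Iso2)
    (hP : Stmt_Proj) : Stmt_Axis := by
  intro G X _ _ d δ m h hy hi hm g x hx hmin
  obtain ⟨-, h2, -, -⟩ := hI G X d δ m h hy hi (by omega) g x hx hmin
  have hqc : QC d (6 * δ) (Ax d g x) := by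
    rintro u ⟨i, hu⟩ v ⟨j, hv⟩ p hp
    rcases lt_trichotomy i j with hij | hij | hij
    · exact qc_lt hLGb hC h hy hi hm g x hx h2 i j hij u v p hu hv hp
    · subst hij
      obtain ⟨w, hw, hpw⟩ := (hH X d δ h hy).1 {g ^ i • x, g ^ (i + 1) • x} u
        ⟨_, Or.inl rfl, _, Or.inr rfl, hu⟩ v ⟨_, Or.inl rfl, _, Or.inr rfl, hv⟩ p hp
      refine ⟨w, ⟨i, ?_⟩, by omega⟩
      obtain ⟨a, ha, b, hb, hab⟩ := hw
      have hz : ∀ a : X, Btw d a w a → w = a := by
        intro a ha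
        unfold Btw at ha
        have e := (h.eq_zero a a).2 rfl
        exact ((h.eq_zero _ _).1 (by omega : d a w = 0)).symm
      rcases ha with ha | ha <;> rcases hb with hb | hb
      · rw [ha, hb] at hab; rw [hz _ hab]; exact btw_left h _ _
      · rw [ha, hb] at hab; exact hab
      · rw [ha, hb] at hab; exact btw_symm h hab
      · rw [ha, hb] at hab; rw [hz _ hab]; exact btw_right h _ _
    · exact qc_lt hLGb hC h hy hi hm g x hx h2 j i hij v u p hv hu (btw_symm h hp)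
  refine ⟨fun i j k hik hkj => prod_le hLGb h hy hi hm g x hx h2 i j k hik hkj, hqc, ?_⟩
  intro z
  -- a nearest point of z in the axis
  have hne : (Ax d g x).Nonempty := ⟨x, 0, by rw [zpow_zero, one_smul]; exact btw_left h _ _⟩
  have hnear : ∃ q, IsNear d (Ax d g x) z q := by
    have hS : {n | ∃ q ∈ Ax d g x, n = d z q}.Nonempty := by
      obtain ⟨q, hq⟩ := hne; exact ⟨_, q, hq, rfl⟩
    obtain ⟨q, hq, hq2⟩ := Nat.sInf_mem hS
    refine ⟨q, hq, fun w hw => ?_⟩
    rw [← hq2]; exact Nat.sInf_le ⟨w, hw, rfl⟩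
  obtain ⟨q, hq⟩ := hnear
  have hgq : IsNear d (Ax d g x) (g • z) (g • q) := by
    refine ⟨?_, fun w hw => ?_⟩
    · have := smul_Ax hi g x q hq.1 1; rwa [zpow_one] at this
    · have := hq.2 _ (smul_Ax hi g x w hw (-1))
      rw [zpow_neg, zpow_one] at this
      rw [hi]
      have e := hi g z (g⁻¹ • w)
      rw [smul_inv_smul] at e
      omega
  obtain ⟨-, hP2, -⟩ := hP X d δ (6 * δ) (14 * δ + 1) ((15 * δ + 1 + 1) / 2 + δ) (15 * δ + 1)
    (2 * ((15 * δ + 1 + 1) / 2 + δ) + 3 * δ + 6 * δ + 1) (Ax d g x) h hy hqc (by ring)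
    (by ring) rfl rfl
  have hmq := hmin q
  obtain ⟨-, -, h3⟩ := hP2 z (g • z) q (g • q) hq hgq (by omega)
  refine ⟨q, hq.1, ?_⟩
  have e1 : d (g • q) (g • z) = d z q := by rw [hi, h.symm]
  omega

end Pool.Agent.BURN
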