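import Pool.Agent.BURN.Tree

/-! Base of the Burnside engine, part 1: the scaled tree. `psi : FreeGroup β →* FreeGroup (Bx β Λ)`
replaces each letter `b` by the word `(b,0)(b,1)...(b,Λ-1)`; it multiplies the norm by `Λ`. -/

namespace Pool.Agent.BURN.BaseX

open FreeGroup Pool.Agent.BURN.TreeX

set_option linter.unusedSectionVars false

/-- letters of the scaled tree -/
def Bx (β : Type) (Λ : ℕ) : Type := β × Fin Λ

instance (β : Type) (Λ : ℕ) [DecidableEq β] : DecidableEq (Bx β Λ) :=
  inferInstanceAs (DecidableEq (β × Fin Λ))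

variable {β : Type} [DecidableEq β] (Λ : ℕ)

/-- positive block -/
def pblk (b : β) : List (Bx β Λ × Bool) := List.ofFn (fun i : Fin Λ => (((b, i) : Bx β Λ), true))

/-- block of a letter -/
def blk (b : β × Bool) : List (Bx β Λ × Bool) := if b.2 then pblk Λ b.1 else invRev (pblk Λ b.1)

theorem pblk_len (b : β) : (pblk Λ b).length = Λ := by simp [pblk]

theorem blk_len (b : β × Bool) : (blk Λ b).length = Λ := by
  unfold blk
  split
  · exact pblk_len Λ _
  · rw [invRev_length]; exact pblk_len Λ _

theorem pblk_red (b : β) : FreeGroup.IsReduced (pblk Λ b) := by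
  unfold FreeGroup.IsReduced
  rw [List.isChain_iff_getElem]
  intro i hi _
  simp [pblk]

theorem blk_red (b : β × Bool) : FreeGroup.IsReduced (blk Λ b) := by
  unfold blk
  split
  · exact pblk_red Λ _
  · exact invRev_red (pblk_red Λ _)

/-- the scaling homomorphism -/
def psi : FreeGroup β →* FreeGroup (Bx β Λ) := FreeGroup.lift (fun b => mk (pblk Λ b))

theorem psi_mk (L : List (β × Bool)) : psi Λ (mk L) = mk (L.flatMap (blk Λ)) := by
  induction L with
  | nil => 
    have : (mk ([] : List (β × Bool))) = 1 := rfl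
    rw [this, _root_.map_one]; rfl
  | cons a l ih =>
    have h1 : mk (a :: l) = mk [a] * mk l := by rw [mul_mk]; rfl
    rw [h1, _root_.map_mul, ih, List.flatMap_cons, ← mul_mk]
    congr 1
    rcases a with ⟨b, t⟩
    cases t
    · have : mk [(b, false)] = (of b)⁻¹ := by rw [of, inv_mk]; rfl
      rw [this, _root_.map_inv, psi, FreeGroup.lift_apply_of, inv_mk]
      simp [blk]
    · have : mk [(b, true)] = of b := rfl
      rw [this, psi, FreeGroup.lift_apply_of]
      simp [blk]

theorem blk_head (hΛ : 1 ≤ Λ) (b : β × Bool) :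
    ∃ i : Fin Λ, (blk Λ b).head? = some (((b.1, i) : Bx β Λ), b.2) ∧
      i.val = if b.2 then 0 else Λ - 1 := by
  rcases b with ⟨b, t⟩
  cases t
  · refine ⟨⟨Λ - 1, by omega⟩, ?_, by simp⟩
    simp only [blk, invRev, Bool.false_eq_true, if_false]
    rw [List.head?_reverse, List.getLast?_map, List.getLast?_eq_getElem?]
    have h0 : 0 < Λ := by omega
    simp [pblk, h0]
    rfl
  · refine ⟨⟨0, by omega⟩, ?_, by simp⟩
    simp only [blk, if_true, pblk]
    rw [List.head?_eq_getElem?]
    have h0 : 0 < Λ := by omega
    simp [h0]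
    rfl

theorem blk_last (hΛ : 1 ≤ Λ) (b : β × Bool) :
    ∃ i : Fin Λ, (blk Λ b).getLast? = some (((b.1, i) : Bx β Λ), b.2) ∧
      i.val = if b.2 then Λ - 1 else 0 := by
  rcases b with ⟨b, t⟩
  cases t
  · refine ⟨⟨0, by omega⟩, ?_, by simp⟩
    simp only [blk, invRev, Bool.false_eq_true, if_false]
    rw [List.getLast?_reverse, List.head?_map, List.head?_eq_getElem?]
    have h0 : 0 < Λ := by omega
    simp [pblk, h0]
    rfl
  · refine ⟨⟨Λ - 1, by omega⟩, ?_, by simp⟩
    simp only [blk, if_true, pblk]
    rw [List.getLast?_eq_getElem?]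
    have h0 : 0 < Λ := by omega
    simp [h0]
    rfl

theorem flat_red (hΛ : 1 ≤ Λ) : ∀ L : List (β × Bool), FreeGroup.IsReduced L →
    FreeGroup.IsReduced (L.flatMap (blk Λ))
  | [], _ => by simp [FreeGroup.IsReduced]
  | [a], _ => by simpa using blk_red Λ a
  | a :: b :: l, h => by
      have ih := flat_red hΛ (b :: l) (red_tail h)
      rw [List.flatMap_cons]
      unfold FreeGroup.IsReduced
      rw [List.isChain_append]
      refine ⟨blk_red Λ a, ih, ?_⟩
      intro x hx y hy
      obtain ⟨i, hi, hi'⟩ := blk_last Λ hΛ a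
      obtain ⟨j, hj, hj'⟩ := blk_head Λ hΛ b
      have hy' : y ∈ (blk Λ b).head? := by
        rw [List.flatMap_cons, List.head?_append, hj] at hy
        rw [hj]
        exact hy
      rw [hi] at hx
      rw [hj] at hy'
      have hx2 := Option.some.inj hx
      have hy2 := Option.some.inj hy'
      subst hx2 hy2
      intro e
      have h2 := ((List.isChain_cons_cons).1 h).1
      have e' : ((a.1, i) : β × Fin Λ) = (b.1, j) := e
      rw [Prod.mk.injEq] at e'
      exact h2 e'.1

theorem flat_len (L : List (β × Bool)) : (L.flatMap (blk Λ)).length = Λ * L.length := by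
  induction L with
  | nil => simp
  | cons a l ih => rw [List.flatMap_cons, List.length_append, ih, blk_len, List.length_cons]; ring

theorem psi_norm (hΛ : 1 ≤ Λ) (w : FreeGroup β) : (psi Λ w).norm = Λ * w.norm := by
  conv_lhs => rw [← mk_toWord (x := w)]
  rw [psi_mk, norm_mk_red (flat_red Λ hΛ _ isReduced_toWord), flat_len]
  rfl

/-- every non-trivial element is conjugate to an element whose powers have no cancellation -/
theorem exists_conj (g : FreeGroup β) (hg : g ≠ 1) :
    ∃ u c : FreeGroup β, g = u * c * u⁻¹ ∧ ∀ m : ℕ, m ≤ (c ^ m).norm := by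
  classical
  set L := g.toWord with hL
  have hr : FreeGroup.IsReduced L := isReduced_toWord
  have hc := reduceCyclically.isCyclicallyReduced hr
  have e := reduceCyclically.conj_conjugator_reduceCyclically L
  refine ⟨mk (reduceCyclically.conjugator L), mk (reduceCyclically L), ?_, ?_⟩
  · rw [inv_mk, mul_mk, mul_mk, e, hL, mk_toWord]
  · intro m
    have hne : reduceCyclically L ≠ [] := by
      intro h0
      rw [h0] at e
      apply hg
      rw [← mk_toWord (x := g), ← hL, ← e]
      rw [List.append_nil, ← mul_mk, ← inv_mk, mul_inv_cancel]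
    have h1 : (mk (reduceCyclically L)) ^ m = mk (List.replicate m (reduceCyclically L)).flatten := by
      rw [pow_mk]
    rw [h1, norm_mk_red (hc.flatten_replicate m).isReduced]
    rw [List.length_flatten]
    simp
    have : 1 ≤ (reduceCyclically L).length := by
      rcases hh : reduceCyclically L with _ | ⟨a, l⟩
      · exact absurd hh hne
      · simp
    nlinarith

end Pool.Agent.BURN.BaseX
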