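import Pool.Agent.BURN.Stmts4

/-! Module BaseF (5.1.1 of the blueprint): the free group acting on itself. -/

namespace Pool.Agent.BURN

open FreeGroup

namespace BaseFX

/-- length of the longest common prefix -/
def lcp {α : Type} [DecidableEq α] : List α → List α → ℕ
  | a :: l, b :: m => if a = b then lcp l m + 1 else 0
  | [], _ => 0
  | _ :: _, [] => 0

theorem lcp_nil_right {α : Type} [DecidableEq α] (l : List α) : lcp l [] = 0 := by
  cases l <;> rfl

theorem lcp_ultra {α : Type} [DecidableEq α] (X Y Z : List α) :
    min (lcp X Z) (lcp Z Y) ≤ lcp X Y := by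
  induction X generalizing Y Z with
  | nil => simp [lcp]
  | cons a X ih =>
    cases Z with
    | nil => simp [lcp]
    | cons c Z =>
      cases Y with
      | nil => simp [lcp]
      | cons b Y =>
        by_cases h1 : a = c
        · by_cases h2 : c = b
          · subst h1; subst h2
            have := ih Y Z
            simp only [lcp, if_true]
            omega
          · simp [lcp, h2]
        · simp [lcp, h1]

variable {S : Type} [DecidableEq S]

omit [DecidableEq S] in
theorem red_tail {a : S × Bool} {L : List (S × Bool)} (h : IsReduced (a :: L)) : IsReduced L :=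
  (List.isChain_cons.1 h).2

theorem norm_mk {L : List (S × Bool)} (h : IsReduced L) : norm (mk L) = L.length := by
  rw [FreeGroup.norm, toWord_mk, h.reduce_eq]

theorem red_invRev {L : List (S × Bool)} (h : IsReduced L) : IsReduced (invRev L) := by
  rw [isReduced_iff_reduce_eq, reduce_invRev, h.reduce_eq]

/-- junction of two reduced words -/
theorem red_append {U V : List (S × Bool)} (hU : IsReduced U) (hV : IsReduced V)
    (h : ∀ a ∈ U.head?, ∀ b ∈ V.head?, a ≠ b) : IsReduced (invRev U ++ V) := by
  cases U with
  | nil => simpa using hV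
  | cons a U =>
    have h1 : IsReduced (invRev (a :: U)) := red_invRev hU
    have h2 : invRev (a :: U) = invRev U ++ [(a.1, !a.2)] := by simp [invRev]
    cases V with
    | nil => simpa using h1
    | cons b V =>
      rw [h2] at h1 ⊢
      refine IsReduced.append_overlap h1 ?_ (by simp)
      rw [List.singleton_append]
      refine isReduced_cons_cons.mpr ⟨?_, hV⟩
      have h3 : a ≠ b := h a (by simp) b (by simp)
      intro h4
      have h4' : a.1 = b.1 := h4
      have h5 : a.2 ≠ b.2 := fun h5 => h3 (Prod.ext h4' h5)
      change (!a.2) = b.2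
      cases ha : a.2 <;> cases hb : b.2 <;> simp_all

theorem norm_lcp (U V : List (S × Bool)) (hU : IsReduced U) (hV : IsReduced V) :
    norm ((mk U)⁻¹ * mk V) + 2 * lcp U V = U.length + V.length := by
  induction U generalizing V with
  | nil =>
    have : ((mk ([] : List (S × Bool)))⁻¹ * mk V) = mk V := by
      rw [← one_eq_mk, inv_one, one_mul]
    rw [this, norm_mk hV]; simp [lcp]
  | cons a U ih =>
    cases V with
    | nil =>
      have : ((mk (a :: U))⁻¹ * mk ([] : List (S × Bool))) = (mk (a :: U))⁻¹ := by
        rw [← one_eq_mk, mul_one]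
      rw [this, norm_inv_eq, norm_mk hU]; simp [lcp]
    | cons b V =>
      by_cases hab : a = b
      · subst hab
        have h1 : (mk (a :: U))⁻¹ * mk (a :: V) = (mk U)⁻¹ * mk V := by
          have e1 : mk (a :: U) = mk [a] * mk U := by rw [mul_mk]; rfl
          have e2 : mk (a :: V) = mk [a] * mk V := by rw [mul_mk]; rfl
          rw [e1, e2]; group
        have := ih V (red_tail hU) (red_tail hV)
        rw [h1]
        simp only [lcp, if_true, List.length_cons]
        omega
      · have h2 : IsReduced (invRev (a :: U) ++ (b :: V)) := by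
          refine red_append hU hV ?_
          intro x hx y hy
          simp only [List.head?_cons, Option.mem_some_iff] at hx hy
          rw [← hx, ← hy]; exact hab
        rw [inv_mk, mul_mk, norm_mk h2]
        simp [lcp, hab, invRev_length]

theorem dF_eq (x y w : FreeGroup S) :
    dF x y + 2 * lcp (w⁻¹ * x).toWord (w⁻¹ * y).toWord =
      (w⁻¹ * x).toWord.length + (w⁻¹ * y).toWord.length := by
  rw [← norm_lcp _ _ isReduced_toWord isReduced_toWord, mk_toWord, mk_toWord]
  unfold dF
  congr 2
  group

theorem dF_base (x w : FreeGroup S) : dF x w = (w⁻¹ * x).toWord.length := by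
  have : x⁻¹ * w = (w⁻¹ * x)⁻¹ := by group
  unfold dF
  rw [this, norm_inv_eq]; rfl

theorem hyp_dF : Hyp (dF (S := S)) 0 := by
  intro x y z w
  have h1 := dF_eq x y w
  have h2 := dF_eq x z w
  have h3 := dF_eq y z w
  have h4 := dF_base x w
  have h5 := dF_base y w
  have h6 := dF_base z w
  have h7 := lcp_ultra (w⁻¹ * x).toWord (w⁻¹ * y).toWord (w⁻¹ * z).toWord
  have h8 : lcp (w⁻¹ * z).toWord (w⁻¹ * y).toWord = lcp (w⁻¹ * y).toWord (w⁻¹ * z).toWord := by
    have a := dF_eq z y w
    have b : dF z y = dF y z := by
      unfold dF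
      have : z⁻¹ * y = (y⁻¹ * z)⁻¹ := by group
      rw [this, norm_inv_eq]
    omega
  omega

theorem isDG_dF : IsDG (dF (S := S)) where
  eq_zero x y := by
    unfold dF
    rw [FreeGroup.norm_eq_zero, inv_mul_eq_one]
  symm x y := by
    unfold dF
    have : x⁻¹ * y = (y⁻¹ * x)⁻¹ := by group
    rw [this, norm_inv_eq]
  tri x y z := by
    unfold dF
    have : x⁻¹ * z = (x⁻¹ * y) * (y⁻¹ * z) := by group
    rw [this]; exact norm_mul_le _ _
  geo x y t ht := by
    obtain ⟨w, hw⟩ : ∃ w, (x⁻¹ * y).toWord = w := ⟨_, rfl⟩
    have hr : IsReduced w := by rw [← hw]; exact isReduced_toWord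
    have hlen : dF x y = w.length := by rw [← hw]; rfl
    rw [hlen] at ht
    have hr1 : IsReduced (w.take t) := List.IsChain.take hr t
    have hr2 : IsReduced (w.drop t) := List.IsChain.drop hr t
    refine ⟨x * mk (w.take t), ?_, ?_⟩
    · unfold dF
      have : x⁻¹ * (x * mk (w.take t)) = mk (w.take t) := by group
      rw [this, norm_mk hr1, List.length_take]
      omega
    · have h1 : (x * mk (w.take t))⁻¹ * y = mk (w.drop t) := by
        have h2 : x⁻¹ * y = mk (w.take t) * mk (w.drop t) := by
          rw [mul_mk, List.take_append_drop, ← hw, mk_toWord]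
        calc (x * mk (w.take t))⁻¹ * y = (mk (w.take t))⁻¹ * (x⁻¹ * y) := by group
          _ = mk (w.drop t) := by rw [h2]; group
      rw [hlen]
      unfold dF
      rw [h1, norm_mk hr2, List.length_drop]

theorem le_norm_pow {h : FreeGroup S} (hh : h ≠ 1) (m : ℕ) : m ≤ norm (h ^ m) := by
  cases m with
  | zero => exact Nat.zero_le _
  | succ n =>
    have h1 : (h ^ (n + 1)).toWord = _ :=
      (toWord_pow h (n + 1)).trans (reduceCyclically.reduce_flatten_replicate_succ
        isReduced_toWord n)
    unfold FreeGroup.norm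
    rw [h1]
    have h2 : 1 ≤ (reduceCyclically h.toWord).length := by
      by_contra hc
      have h3 : reduceCyclically h.toWord = [] := List.length_eq_zero_iff.mp (by omega)
      have h4 := reduceCyclically.conj_conjugator_reduceCyclically h.toWord
      rw [h3, List.append_nil] at h4
      refine hh ?_
      have h5 : h = mk (reduceCyclically.conjugator h.toWord) *
          mk (invRev (reduceCyclically.conjugator h.toWord)) := by
        rw [mul_mk, h4, mk_toWord]
      rw [h5, ← inv_mk, mul_inv_cancel]
    simp only [List.length_append, List.length_flatten, List.map_replicate, List.sum_replicate,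
      smul_eq_mul]
    nlinarith

theorem disp (g x : FreeGroup S) (hg : g ≠ 1) (m : ℕ) : m ≤ dF x (g ^ m • x) := by
  have h1 : x⁻¹ * (g ^ m • x) = (x⁻¹ * g * x) ^ m := by
    rw [smul_eq_mul, conj_inv_pow_aux]
  unfold dF
  rw [h1]
  refine le_norm_pow ?_ m
  intro h2
  refine hg ?_
  have h3 : g = x * (x⁻¹ * g * x) * x⁻¹ := by group
  rw [h3, h2]; group
where
  conj_inv_pow_aux : x⁻¹ * (g ^ m * x) = (x⁻¹ * g * x) ^ m := by
    have := conj_pow (a := x⁻¹) (b := g) (i := m)
    rw [inv_inv] at this
    rw [this, mul_assoc]

theorem lox_dF {g : FreeGroup S} (hg : g ≠ 1) : Lox (X := FreeGroup S) dF g := by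
  intro x B
  exact ⟨B + 1, lt_of_lt_of_le (Nat.lt_succ_self B) (disp g x hg (B + 1))⟩

omit [DecidableEq S] in
theorem red_rep {a b : S} (hab : a ≠ b) (k : ℕ) :
    IsReduced (List.replicate k (a, true) ++ [(b, false)]) := by
  induction k with
  | zero => simp
  | succ k ih =>
    cases k with
    | zero =>
      simp only [List.replicate_succ, List.replicate_zero, List.cons_append, List.nil_append] at ih ⊢
      exact isReduced_cons_cons.mpr ⟨fun h => absurd h hab, ih⟩
    | succ k =>
      rw [List.replicate_succ, List.cons_append] at ih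
      rw [List.replicate_succ, List.replicate_succ, List.cons_append, List.cons_append]
      exact isReduced_cons_cons.mpr ⟨fun _ => rfl, ih⟩

theorem ne_comm {a b : S} (hab : a ≠ b) (m : ℕ) (hm : 1 ≤ m) :
    FreeGroup.of b * FreeGroup.of a ^ m * (FreeGroup.of b)⁻¹ ≠ FreeGroup.of a ^ m := by
  intro h
  obtain ⟨k, rfl⟩ : ∃ k, m = k + 1 := ⟨m - 1, by omega⟩
  have h1 : FreeGroup.of b * FreeGroup.of a ^ (k + 1) * (FreeGroup.of b)⁻¹ =
      mk ((b, true) :: (List.replicate (k + 1) (a, true) ++ [(b, false)])) := by
    have e1 : FreeGroup.of a ^ (k + 1) = mk (List.replicate (k + 1) (a, true)) := by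
      rw [← toWord_of_pow, mk_toWord]
    rw [e1]
    simp only [FreeGroup.of, inv_mk, mul_mk, invRev]
    rfl
  have h2 : IsReduced ((b, true) :: (List.replicate (k + 1) (a, true) ++ [(b, false)])) := by
    have := red_rep hab (k + 1)
    rw [List.replicate_succ, List.cons_append] at this ⊢
    exact isReduced_cons_cons.mpr ⟨fun h => absurd h.symm hab, this⟩
  have h3 : norm (FreeGroup.of a ^ (k + 1)) = k + 3 := by
    rw [← h, h1, norm_mk h2]; simp
  rw [norm_of_pow] at h3
  omega

end BaseFX

open BaseFX

theorem BaseF_proof (hB : Stmt_Base) : Stmt_BaseF := by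
  intro S _ N hN
  refine ⟨?_, ?_, ?_⟩
  · refine hB (FreeGroup S) (FreeGroup S) dF N isDG_dF hyp_dF ?_ ⟨1⟩ hN ?_ ?_ ?_
    · intro g x y
      unfold dF
      congr 1
      simp only [smul_eq_mul]
      group
    · intro g x y _ hx _
      have : g * x = x := hx
      exact mul_eq_right.mp this
    · intro g hg
      by_contra hne
      have h1 : g ≠ 1 := by rintro rfl; exact hne (one_pow N)
      exact hg (lox_dF h1)
    · intro g hg x m
      refine disp g x ?_ m
      rintro rfl
      obtain ⟨m, hm⟩ := hg 1 0
      rw [one_pow, one_smul] at hm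
      have : dF (1 : FreeGroup S) 1 = 0 := (isDG_dF.eq_zero _ _).2 rfl
      omega
  · intro g hg
    by_contra hne
    exact hg (lox_dF hne)
  · rintro ⟨a, b, hab⟩
    exact ⟨FreeGroup.of a, FreeGroup.of b, lox_dF (of_ne_one a), fun m hm => ne_comm hab m hm⟩

end Pool.Agent.BURN
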