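import Pool.Agent.BURN.Basic
import Pool.Agent.BURN.Stmts4

/-! Module BurnF: 5.7 of the blueprint (free Burnside groups). -/

namespace Pool.Agent.BURN

namespace BurnFX

/-- the limit group over a good stage -/
theorem limit_exists (hT : Stmt_Tower) (hL1 : Stmt_Lim1) (hL2 : Stmt_Lim2) (hL3 : Stmt_Lim3)
    (N p : ℕ) (s : StgG N) (hp : n0 ≤ p) (hpN : p ∣ N) :
    ∃ M : Subgroup s.G, M.Normal ∧ (∀ x, x ^ N ∈ M) ∧
      M ≤ Subgroup.closure {x | ∃ y : s.G, x = y ^ p} ∧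
      (∀ x : s.G, x ∉ M → (∀ g0, ¬ Lox s.d g0 → x * g0⁻¹ ∉ M) →
        ∃ c : s.G, c ^ p ∈ M ∧ ∀ y, x * y * x⁻¹ * y⁻¹ ∈ M → ∃ j : ℕ, y * (c ^ j)⁻¹ ∈ M) ∧
      (NE (G := s.G) s.d → ∀ K : Finset s.G, (∀ x ∈ K, x ∈ M) → ∀ U : Subgroup s.G, U.Normal →
        U.FiniteIndex → ∃ x : s.G, ∃ u ∈ U, x ^ p * u * (x ^ p)⁻¹ * u⁻¹ ∉
          Subgroup.normalClosure (K : Set s.G)) := by
  obtain ⟨W, hW⟩ := hT N p s hp hpN
  subst hW
  have h1p : 1 ≤ p := n0_pos.trans hp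
  obtain ⟨hM, hnorm, -, -, -, -, -, h8, -, h10, h11⟩ := hL1 N p W h1p
  refine ⟨W.M, hnorm, h8, h10, (hL2 N p W h1p).2, ?_⟩
  intro hNE K hK U hU hUf
  obtain ⟨k, hk⟩ := h11 K hK
  obtain ⟨x, u, hu, hne⟩ := (hL3 N p W h1p hNE).2 k U hU hUf
  refine ⟨x, u, hu, fun hmem => hne ?_⟩
  have hle : Subgroup.normalClosure (K : Set (W.T 0).G) ≤ (W.φ k).ker :=
    Subgroup.normalClosure_le_normal (fun x hx => hk x hx)
  exact hle hmem

end BurnFX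

open BurnFX in
theorem BurnF_proof (hB : Stmt_BaseF) (hT : Stmt_Tower) (hL1 : Stmt_Lim1) (hL2 : Stmt_Lim2)
    (hL3 : Stmt_Lim3) : Stmt_BurnF := by
  intro S _ p hodd hp Fp hFp
  obtain ⟨hgood, hnl, hNE⟩ := hB S p hodd
  obtain ⟨M, hnorm, h1, h2, h3, h4⟩ := limit_exists hT hL1 hL2 hL3 p p
    ⟨FreeGroup S, FreeGroup S, dF, hgood⟩ hp dvd_rfl
  have hMF : M = Fp := by
    apply le_antisymm
    · rw [hFp]
      exact h2.trans (Subgroup.closure_le_normalClosure)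
    · rw [hFp]
      refine Subgroup.normalClosure_le_normal ?_
      rintro x ⟨y, rfl⟩
      exact h1 y
  subst hMF
  constructor
  · intro x hx
    refine h3 x hx ?_
    intro g0 hg0 hmem
    rw [hnl g0 hg0, inv_one, mul_one] at hmem
    exact hx hmem
  · intro hab K hK U hU hUf
    exact h4 (hNE hab) K hK U hU hUf

end Pool.Agent.BURN
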