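import Pool.Agent.BURN.Slen

/-! module CycAb (4.4 (i)-(iii)) -/

namespace Pool.Agent.BURN

theorem CycAb_proof (hI : Stmt_Iso1) : Stmt_CycAb := by
  intro G X _ _ d N H g hg
  haveI := H.nonempty
  exact ⟨fun h hh hl => H.gw.inE_nonlox hI hg hh hl, fun h k hh hk => H.gw.inE_comm hI hg hh hk⟩

end Pool.Agent.BURN
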