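import Mathlib

/-! Burnside engine (blueprint: BURNSIDE_BLUEPRINT.md in the team store). Definitions, sections 1 and 2. -/

namespace Pool.Agent.BURN

/-- discrete geodesic metric space, distances in ℕ -/
structure IsDG {X : Type} (d : X → X → ℕ) : Prop where
  eq_zero : ∀ x y, d x y = 0 ↔ x = y
  symm : ∀ x y, d x y = d y x
  tri : ∀ x y z, d x z ≤ d x y + d y z
  geo : ∀ x y t, t ≤ d x y → ∃ z, d x z = t ∧ d z y = d x y - t

/-- doubled Gromov product: gp d x y z is written <x,y>_z in the blueprint -/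
def gp {X : Type} (d : X → X → ℕ) (x y z : X) : ℕ := d x z + d y z - d x y

/-- p lies between x and y (p ∈ [x,y]) -/
def Btw {X : Type} (d : X → X → ℕ) (x p y : X) : Prop := d x p + d p y = d x y

/-- four point hyperbolicity -/
def Hyp {X : Type} (d : X → X → ℕ) (δ : ℕ) : Prop :=
  ∀ x y z w, d x y + d z w ≤ max (d x z + d y w) (d x w + d y z) + δ

/-- g is a geodesic path from x to y, parametrised by 0,...,d x y -/
def IsGeod {X : Type} (d : X → X → ℕ) (x y : X) (g : ℕ → X) : Prop :=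
  g 0 = x ∧ g (d x y) = y ∧ ∀ i j, i ≤ j → j ≤ d x y → d (g i) (g j) = j - i

/-- W is k-quasiconvex -/
def QC {X : Type} (d : X → X → ℕ) (k : ℕ) (W : Set X) : Prop :=
  ∀ x ∈ W, ∀ y ∈ W, ∀ p, Btw d x p y → ∃ w ∈ W, d p w ≤ k

/-- union of all intervals between points of A -/
def hull {X : Type} (d : X → X → ℕ) (A : Set X) : Set X :=
  {p | ∃ x ∈ A, ∃ y ∈ A, Btw d x p y}

/-- G acts by isometries -/
def IsIso {X : Type} (G : Type) [Group G] [MulAction G X] (d : X → X → ℕ) : Prop :=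
  ∀ (g : G) (x y : X), d (g • x) (g • y) = d x y

/-- the orbits of g are unbounded -/
def Lox {G X : Type} [Group G] [MulAction G X] (d : X → X → ℕ) (g : G) : Prop :=
  ∀ (x : X) (B : ℕ), ∃ m : ℕ, B < d x (g ^ m • x)

/-! Section 2: constants -/
def bet1 (δ β : ℕ) : ℕ := β + δ
def eta (δ β : ℕ) : ℕ := bet1 δ β + 2 * δ
def BB (δ β : ℕ) : ℕ := eta δ β + 4 * δ
def tht (δ β : ℕ) : ℕ := BB δ β + 1
def eta1 (δ β : ℕ) : ℕ := tht δ β + 4 * δ
def alp1 (δ α β : ℕ) : ℕ := max α (eta1 δ β + δ)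
def ee3 (δ β : ℕ) : ℕ := eta1 δ β + δ + 1
def aa0 (δ α β : ℕ) : ℕ := alp1 δ α β + 9 * δ + 1
def bb0 (δ α β : ℕ) : ℕ := aa0 δ α β + 2 * β + 10 * δ + 10
def sig0 (δ α β : ℕ) : ℕ :=
  4 * (aa0 δ α β + bb0 δ α β + β + ee3 δ β + eta1 δ β + 10 * δ + 10) + 2 * alp1 δ α β
def CL (δ α β : ℕ) : ℕ := 4 * ee3 δ β + 2 * aa0 δ α β + δ + 2
def CT (δ β : ℕ) : ℕ := BB δ β + 8 * δ + 4
/-- 4 tau + 4 with tau = 4 f + 2 h, f = 32 h^2 -/
def Dlt (h : ℕ) : ℕ := 4 * (4 * (32 * h ^ 2) + 2 * h) + 4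
/-- hyperbolicity constant of the quotient -/
def dq1 (δ α β : ℕ) : ℕ := Dlt (CL δ α β + CT δ β + 2)

/-- rotating family -/
structure RF {G X : Type} [Group G] [MulAction G X] (d : X → X → ℕ) (C : Set X)
    (R : X → Subgroup G) (δ α β σ : ℕ) : Prop where
  dg : IsDG d
  hyp : Hyp d δ
  one_le : 1 ≤ δ
  iso : IsIso G d
  cinv : ∀ (g : G), ∀ c ∈ C, g • c ∈ C
  fix : ∀ c ∈ C, ∀ r ∈ R c, r • c = c
  conj : ∀ (g : G), ∀ c ∈ C, ∀ r : G, r ∈ R c ↔ g * r * g⁻¹ ∈ R (g • c)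
  sep : ∀ c ∈ C, ∀ c' ∈ C, c ≠ c' → σ ≤ d c c'
  vr : ∀ c ∈ C, ∀ r ∈ R c, r ≠ 1 → ∀ x y, α ≤ gp d x y c → gp d x (r • y) c ≤ β
  big : sig0 δ α β ≤ σ

/-- the subgroup generated by the rotations -/
def KK {G X : Type} [Group G] (C : Set X) (R : X → Subgroup G) : Subgroup G :=
  Subgroup.closure {r | ∃ c ∈ C, r ∈ R c}

/-- windmill -/
structure Wind {G X : Type} [Group G] [MulAction G X] (d : X → X → ℕ) (C : Set X)
    (R : X → Subgroup G) (δ a : ℕ) (W : Set X) : Prop where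
  nonempty : W.Nonempty
  qc : QC d (2 * δ) W
  far : ∀ c ∈ C, c ∉ W → ∀ w ∈ W, a < d c w
  inv : ∀ h ∈ KK (C ∩ W) R, ∀ w ∈ W, h • w ∈ W

/-- irreducible pair -/
def Irr {G X : Type} [Group G] [MulAction G X] (d : X → X → ℕ) (C : Set X)
    (R : X → Subgroup G) (η θ : ℕ) (x y : X) : Prop :=
  ∀ c ∈ C, ∀ r ∈ R c, gp d x y c ≤ η → gp d x (r • y) c < θ

/-- distance in the quotient by K -/
noncomputable def dK {G X : Type} [Group G] [MulAction G X] (d : X → X → ℕ) (K : Subgroup G)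
    (x y : X) : ℕ := sInf {n | ∃ k ∈ K, n = d x (k • y)}

end Pool.Agent.BURN
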