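import Pool.Agent.BURN.Stmts2
import Pool.Agent.BURN.Basic

/-! Section 3.6 (a): feet. Module FootEx. -/

namespace Pool.Agent.BURN

theorem footEx_hor_cases {V I : Type} {Y : I → Set V} {ρ : ℕ} {i : I} {z : Gam Y ρ}
    (h : Hor i z.1) : (∃ y s, z.1 = .c i y s ∧ y ∈ Y i ∧ 1 ≤ s ∧ s ≤ ρ) ∨ z.1 = .a i := by
  rcases h with ⟨y, s, hs⟩ | h
  · left
    have := z.2
    rw [hs] at this
    exact ⟨y, s, hs, this⟩
  · right; exact h

theorem footEx_base {V I : Type} {Y : I → Set V} {ρ : ℕ} {z : Gam Y ρ}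
    (h : ht ρ z.1 = 0) : ∃ v, z = vb Y ρ v := by
  obtain ⟨u, hu⟩ := z
  cases u with
  | b v => exact ⟨v, rfl⟩
  | c i y s =>
    exfalso
    have h1 : 1 ≤ s := hu.2.1
    have h2 : s = 0 := h
    omega
  | a i =>
    exfalso
    have h2 : ρ + 1 = 0 := h
    omega

theorem FootEx_proof (hG : Stmt_GamDG) : Stmt_FootEx := by
  intro V I D Y ρ hcd
  obtain ⟨hdg, hadj, hlip, hout, hbb, hap, hvert, hhor⟩ := hG V I D Y ρ hcd
  have hρ : 1 ≤ ρ := by have := hcd.big; omega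
  have h2 : ∀ (i : I) (z : Gam Y ρ) (v : V), v ∈ Y i →
      dGam D Y ρ z (va Y ρ i) ≤ dGam D Y ρ z (vb Y ρ v) + ρ + 1 := by
    intro i z v hv
    have h := hdg.tri z (vb Y ρ v) (va Y ρ i)
    have h' := hap i v 0 (vb Y ρ v) (Or.inl ⟨rfl, hv, rfl⟩)
    omega
  have h3 : ∀ (i : I) (z : Gam Y ρ) (g : ℕ → Gam Y ρ), ¬ Hor i z.1 →
      IsGeod (dGam D Y ρ) z (va Y ρ i) g →
      ∃ v, Foot D Y ρ i z v ∧ ρ + 1 ≤ dGam D Y ρ z (va Y ρ i) ∧
        g (dGam D Y ρ z (va Y ρ i) - (ρ + 1)) = vb Y ρ v ∧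
        ∀ s, 1 ≤ s → s ≤ ρ →
          (g (dGam D Y ρ z (va Y ρ i) - (ρ + 1) + s)).1 = .c i v s := by
    intro i z g hz hg
    have hn : ρ + 1 ≤ dGam D Y ρ z (va Y ρ i) := by
      have h := hout i (va Y ρ i) z (Or.inr rfl) hz
      rw [hdg.symm] at h
      have : ht ρ (va Y ρ i).1 = ρ + 1 := rfl
      omega
    obtain ⟨n, hn'⟩ : ∃ n, n = dGam D Y ρ z (va Y ρ i) := ⟨_, rfl⟩
    obtain ⟨k, hk⟩ : ∃ k, n = k + (ρ + 1) := ⟨n - (ρ + 1), by omega⟩
    have hkk : dGam D Y ρ z (va Y ρ i) - (ρ + 1) = k := by omega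
    rw [hkk]
    have hdist : ∀ s, s ≤ ρ + 1 → dGam D Y ρ (g (k + s)) (va Y ρ i) = ρ + 1 - s := by
      intro s hs
      rw [hg.dist_right (by omega)]; omega
    -- the point at distance rho + 1
    have hnot : ¬ Hor i (g (k + 0)).1 := by
      intro hh
      have hd := hdist 0 (by omega)
      rcases footEx_hor_cases hh with ⟨y, s, hs, hy, hs1, hs2⟩ | hs
      · have := hap i y s _ (Or.inr ⟨hs1, hs⟩)
        omega
      · have : g (k + 0) = va Y ρ i := Subtype.ext hs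
        rw [this, (hdg.eq_zero _ _).2 rfl] at hd
        omega
    have hht0 : ht ρ (g (k + 0)).1 = 0 := by
      have h := hout i (va Y ρ i) (g (k + 0)) (Or.inr rfl) hnot
      rw [hdg.symm, hdist 0 (by omega)] at h
      have : ht ρ (va Y ρ i).1 = ρ + 1 := rfl
      omega
    obtain ⟨v, hv⟩ := footEx_base hht0
    have hin : ∀ s, 1 ≤ s → s ≤ ρ → ∃ y, y ∈ Y i ∧ (g (k + s)).1 = .c i y s := by
      intro s hs1 hs2
      have hd := hdist s (by omega)
      have hh : Hor i (g (k + s)).1 := by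
        by_contra hc
        have h := hout i (va Y ρ i) (g (k + s)) (Or.inr rfl) hc
        rw [hdg.symm, hd] at h
        have : ht ρ (va Y ρ i).1 = ρ + 1 := rfl
        omega
      rcases footEx_hor_cases hh with ⟨y, s', hs', hy, h1, h2⟩ | hs'
      · have := hap i y s' _ (Or.inr ⟨h1, hs'⟩)
        have e : s' = s := by omega
        rw [e] at hs'
        exact ⟨y, hy, hs'⟩
      · have : g (k + s) = va Y ρ i := Subtype.ext hs'
        rw [this, (hdg.eq_zero _ _).2 rfl] at hd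
        omega
    have hstep : ∀ s, s ≤ ρ → CAdj D ρ (g (k + s)).1 (g (k + (s + 1))).1 := by
      intro s hs
      rw [← hadj]
      rw [hg.2.2 (k + s) (k + (s + 1)) (by omega) (by omega)]
      omega
    have hall : ∀ s, 1 ≤ s → s ≤ ρ → (g (k + s)).1 = .c i v s := by
      intro s
      induction s with
      | zero => intro h; omega
      | succ s ih =>
        intro _ hs2
        obtain ⟨y, hy, hgy⟩ := hin (s + 1) (by omega) hs2
        have hst := hstep s (by omega)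
        rcases Nat.eq_zero_or_pos s with h0 | h0
        · subst h0
          rw [hgy, hv] at hst
          have hst' : (0 + 1 = 1) ∧ v = y := hst
          rw [hgy, hst'.2]
        · rw [hgy, ih h0 (by omega)] at hst
          have hst' : i = i ∧ ((v = y ∧ (s + 1 = s + 1 ∨ s = s + 1 + 1)) ∨
            (s = s + 1 ∧ 1 ≤ D v y ∧ D v y ≤ 2 ^ s)) := hst
          rcases hst'.2 with h | h
          · rw [hgy, h.1]
          · omega
    have hvY : v ∈ Y i := by
      have h1 := hall 1 le_rfl hρ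
      have h2' := (g (k + 1)).2
      rw [h1] at h2'
      exact h2'.1
    have hgk : g k = vb Y ρ v := hv
    have hzk : dGam D Y ρ z (vb Y ρ v) = k := by
      rw [← hgk]
      exact hg.dist_left (by omega)
    exact ⟨v, ⟨hvY, Or.inr ⟨hz, by omega⟩⟩, hn, hgk, hall⟩
  refine ⟨?_, h2, h3⟩
  intro i z hz
  by_cases hh : Hor i z.1
  · rcases footEx_hor_cases hh with ⟨y, s, hs, hy, h1, h2'⟩ | hs
    · exact ⟨y, hy, Or.inl ⟨s, hs⟩⟩
    · exact absurd (Subtype.ext hs) hz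
  · obtain ⟨g, hg⟩ := exists_geod hdg z (va Y ρ i)
    obtain ⟨v, hv, _⟩ := h3 i z g hh hg
    exact ⟨v, hv⟩

end Pool.Agent.BURN
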