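import Pool.Agent.BURN.Stmts3

/-! Module KStab (4.8(d),(e) of the blueprint). -/

namespace Pool.Agent.BURN

namespace KStabX

theorem gsmul_b {G V I : Type} [SMul G V] [SMul G I] (g : G) (v : V) :
    g • (CV.b v : CV V I) = CV.b (g • v) := rfl
theorem gsmul_c {G V I : Type} [SMul G V] [SMul G I] (g : G) (i : I) (y : V) (s : ℕ) :
    g • (CV.c i y s : CV V I) = CV.c (g • i) (g • y) s := rfl
theorem gsmul_a {G V I : Type} [SMul G V] [SMul G I] (g : G) (i : I) :
    g • (CV.a i : CV V I) = CV.a (g • i) := rfl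

theorem ht_smul {G V I : Type} [SMul G V] [SMul G I] (ρ : ℕ) (g : G) (u : CV V I) :
    ht ρ (g • u) = ht ρ u := by
  cases u <;> rfl

/-- the action on apices -/
theorem smul_ap (S : KSys) (g : S.G) (i : S.I) : g • S.ap i = S.ap (g • i) :=
  Subtype.ext (S.act g (S.ap i))

theorem ap_inj (S : KSys) {i j : S.I} (h : S.ap i = S.ap j) : i = j := by
  have h1 : (CV.a i : CV S.X S.I) = CV.a j := congrArg Subtype.val h
  injection h1

/-- `g • i = i` iff `g ∈ E i` -/
theorem smul_idx (hM : Stmt_MaxCyc) (S : KSys) (i : S.I) (g : S.G) : g • i = i ↔ g ∈ S.E i := by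
  constructor
  · intro hg
    obtain ⟨w, hw, hmc, _⟩ := S.kil i
    have h1 : w ∈ S.E (g • i) := by rw [hg, hw]; exact Subgroup.mem_zpowers w
    rw [S.conj, hw] at h1
    obtain ⟨j, hj⟩ := Subgroup.mem_zpowers_iff.mp h1
    have h2 := (hM S.G S.X S.d S.N S.good).1 w g⁻¹ 1 j hmc one_ne_zero
      (by rw [zpow_one, inv_inv]; exact hj.symm)
    rw [hw]
    have h3 := Subgroup.inv_mem _ h2
    rwa [inv_inv] at h3
  · intro hg
    refine S.inj _ _ ?_
    ext x
    rw [S.conj]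
    constructor
    · intro hx
      have h1 := (S.E i).mul_mem ((S.E i).mul_mem hg hx) ((S.E i).inv_mem hg)
      have h2 : g * (g⁻¹ * x * g) * g⁻¹ = x := by group
      rwa [h2] at h1
    · intro hx
      exact (S.E i).mul_mem ((S.E i).mul_mem ((S.E i).inv_mem hg) hx) hg

theorem rot_le (S : KSys) (i : S.I) : RotS (S.E i) (S.nE i) ≤ S.K := by
  intro x hx
  exact Subgroup.subset_closure ⟨S.ap i, ⟨i, rfl⟩, by
    change x ∈ S.R (va (YE S.d S.E) rho i)
    rw [S.rot]; exact hx⟩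

end KStabX

open KStabX

theorem KStab_proof (hM : Stmt_MaxCyc) (hC : Stmt_KCD) (hF : Stmt_KRF) (hGL : Stmt_GLcor)
    (hDG : Stmt_GamDG) : Stmt_KStab := by
  intro S
  obtain ⟨hcd, _, _⟩ := hC S
  obtain ⟨hrf, _, _, _, _, hlift, _⟩ := hF S
  obtain ⟨_, _, _, hhor, _⟩ := hDG S.X S.I (Dsc Lam S.d) (YE S.d S.E) rho hcd
  have hstab : ∀ i (g : S.G), g • S.ap i = S.ap i ↔ g ∈ S.E i := by
    intro i g
    rw [smul_ap, ← smul_idx hM]
    exact ⟨fun h => ap_inj S h, fun h => by rw [h]⟩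
  have hfix : ∀ i (g : S.G), g ∈ S.K → g • S.ap i = S.ap i → g ∈ RotS (S.E i) (S.nE i) := by
    intro i g hg h
    have h1 := (hGL S.G S.Gm S.dg (Set.range S.ap) S.R del1 (2 * f3 + 1) (2 * f3) (2 * rho + 2)
      hrf).2.1 (S.ap i) ⟨i, rfl⟩ g hg h
    have h2 : S.R (S.ap i) = RotS (S.E i) (S.nE i) := S.rot i
    rwa [h2] at h1
  refine ⟨hstab, ?_, ?_, ?_, ?_, ?_, hfix, ?_, ?_⟩
  · -- short displacement in a horoball
    intro u g hu
    have hidx : ∀ i, Hor i u.1 → (Hor i (g • u.1)) := by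
      intro i hi
      by_contra hn
      have h1 := hhor i u (g • u) hi (by rw [S.act]; exact hn)
      have h2 : ht rho (g • u).1 = ht rho u.1 := by rw [S.act, ht_smul]
      rw [h2] at h1
      change _ ≤ S.dg u (g • u) at h1
      omega
    obtain ⟨uu, huu⟩ := u
    cases uu with
    | b v =>
      change S.dg _ _ < 2 * 0 at hu
      omega
    | c i y s =>
      refine ⟨i, Or.inl ⟨y, s, rfl⟩, ?_⟩
      rw [← smul_idx hM]
      rcases hidx i (Or.inl ⟨y, s, rfl⟩) with ⟨y', s', h⟩ | h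
      · rw [gsmul_c] at h
        injection h
      · rw [gsmul_c] at h
        injection h
    | a i =>
      refine ⟨i, Or.inr rfl, ?_⟩
      rw [← smul_idx hM]
      rcases hidx i (Or.inr rfl) with ⟨y', s', h⟩ | h
      · rw [gsmul_a] at h
        injection h
      · rw [gsmul_a] at h
        injection h
  · intro i j g hij hgi hgj
    by_contra hg
    obtain ⟨w, hw, hmc, _⟩ := S.kil i
    obtain ⟨w', hw', hmc', _⟩ := S.kil j
    rw [hw] at hgi
    rw [hw'] at hgj
    have h1 := (hM S.G S.X S.d S.N S.good).2.1 w w' g hmc hmc' hg hgi hgj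
    exact hij (S.inj _ _ (by rw [hw, hw', h1]))
  · intro i g hg
    exact ⟨fun h => hfix i g h ((hstab i g).2 hg), fun h => rot_le S i h⟩
  · intro i g hg hg1
    obtain ⟨w, hw, hmc, _⟩ := S.kil i
    rw [hw] at hg
    exact (hM S.G S.X S.d S.N S.good).2.2.2.2 w g hmc hg hg1
  · intro i g hg
    rw [← map_pow, S.pker]
    exact rot_le S i (Subgroup.subset_closure ⟨g, hg, rfl⟩)
  · intro i j hne
    obtain ⟨k, hk, hd⟩ := hlift (S.ap i) (S.ap j)
    rw [← hd, smul_ap]
    refine hrf.sep _ ⟨i, rfl⟩ _ ⟨_, rfl⟩ ?_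
    intro h
    refine hne ?_
    rw [h, ← smul_ap]
    exact ((S.qeq _ _).2 ⟨k, hk, rfl⟩).symm
  · intro x i
    have h1 := hhor i (S.ap i) (S.bs x) (Or.inr rfl) (by
      rintro (⟨y, s, h⟩ | h)
      · exact CV.noConfusion rfl rfl (heq_of_eq h)
      · exact CV.noConfusion rfl rfl (heq_of_eq h))
    have h2 : ht rho (S.ap i).1 = rho + 1 := rfl
    have h3 : ht rho (S.bs x).1 = 0 := rfl
    rw [h2, h3] at h1
    have h4 : S.dg (S.bs x) (S.ap i) = S.dg (S.ap i) (S.bs x) := hrf.dg.symm _ _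
    rw [h4]
    change _ ≤ S.dg (S.ap i) (S.bs x) at h1
    omega

end Pool.Agent.BURN
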