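import Pool.Agent.BURN.Basic
import Pool.Agent.BURN.Stmts1

/-! Section 2.1.3-2.1.4 of the blueprint: the next windmill. -/

namespace Pool.Agent.BURN

namespace NextWind

variable {G X : Type} [Group G] [MulAction G X] {d : X → X → ℕ} {C : Set X}
  {R : X → Subgroup G} {δ α β σ : ℕ}

theorem btw_smul (hi : IsIso G d) (g : G) {x p y : X} (h : Btw d x p y) :
    Btw d (g • x) (g • p) (g • y) := by
  unfold Btw at *; rw [hi, hi, hi]; exact h

theorem bb0_eq (δ α β : ℕ) : bb0 δ α β = aa0 δ α β + 2 * β + 10 * δ + 10 := rfl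

theorem aa0_ge (δ α β : ℕ) : α + 9 * δ + 1 ≤ aa0 δ α β := by
  unfold aa0 alp1
  have := le_max_left α (eta1 δ β + δ)
  omega

theorem sig_ge (hR : RF d C R δ α β σ) :
    4 * (aa0 δ α β + bb0 δ α β + β + 10 * δ + 10) ≤ σ := by
  have := hR.big
  unfold sig0 at this
  omega

theorem self_zero (hR : RF d C R δ α β σ) (x : X) : d x x = 0 := (hR.dg.eq_zero x x).2 rfl

theorem fin_mem {W C1 : Set X}
    (hC1 : C1 = {c | c ∈ C ∧ c ∉ W ∧ ∃ w ∈ W, d c w ≤ bb0 δ α β})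
    {c : X} (hc : c ∈ C) (h : ∃ w ∈ W, d c w ≤ bb0 δ α β) : c ∈ (C ∩ W) ∪ C1 := by
  by_cases hw : c ∈ W
  · exact Or.inl ⟨hc, hw⟩
  · right; rw [hC1]; exact ⟨hc, hw, h⟩

/-- one of the outer products is small -/
theorem side (hR : RF d C R δ α β σ) {W C1 : Set X}
    (hC1 : C1 = {c | c ∈ C ∧ c ∉ W ∧ ∃ w ∈ W, d c w ≤ bb0 δ α β})
    {a w p c : X} (hw : w ∈ W) (haw : d a w ≤ bb0 δ α β) (ha : d a w ≤ 1 ∨ a ∈ C1)
    (hp : gp d a w p ≤ 2 * β + 8 * δ) (hc : c ∈ C) (hcp : d c p ≤ aa0 δ α β) :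
    c ∈ (C ∩ W) ∪ C1 := by
  have h := hR.dg
  have g1 := gp_add h a w p
  have t1 := h.tri a w p
  have t2 := h.tri c p a
  have t3 := h.tri c a w
  have t4 := h.tri a p w
  have t5 := h.tri p a w
  have s1 := h.symm p a
  have s2 := h.symm p w
  have s3 := h.symm w p
  have s4 := h.symm w a
  have t6 := h.tri a w p
  have t7 := h.tri p w a
  rcases ha with ha | ha
  · apply fin_mem hC1 hc
    refine ⟨w, hw, ?_⟩
    have := bb0_eq δ α β
    omega
  · right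
    have haC : a ∈ C := by rw [hC1] at ha; exact ha.1
    by_cases hca : c = a
    · rw [hca]; exact ha
    · exfalso
      have h1 := hR.sep c hc a haC hca
      have h2 := sig_ge hR
      have t8 := h.tri a w p
      have t9 := h.tri w a p
      omega

theorem core (hR : RF d C R δ α β σ) {W C1 : Set X} (hqc : QC d (2 * δ) W)
    (hC1 : C1 = {c | c ∈ C ∧ c ∉ W ∧ ∃ w ∈ W, d c w ≤ bb0 δ α β})
    {a b p c : X} (ha : (∃ w ∈ W, d a w ≤ 1) ∨ a ∈ C1) (hb : (∃ w ∈ W, d b w ≤ 1) ∨ b ∈ C1)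
    (hab : gp d a b p ≤ 2 * β + 6 * δ) (hc : c ∈ C) (hcp : d c p ≤ aa0 δ α β) :
    c ∈ (C ∩ W) ∪ C1 := by
  have h := hR.dg
  have hb0 := bb0_eq δ α β
  have pick : ∀ z : X, ((∃ w ∈ W, d z w ≤ 1) ∨ z ∈ C1) →
      ∃ w ∈ W, d z w ≤ bb0 δ α β ∧ (d z w ≤ 1 ∨ z ∈ C1) := by
    intro z hz
    rcases hz with ⟨w, hw, hzw⟩ | hz
    · exact ⟨w, hw, by omega, Or.inl hzw⟩
    · have hz' := hz
      rw [hC1] at hz'
      obtain ⟨_, _, w, hw, hzw⟩ := hz'
      exact ⟨w, hw, hzw, Or.inr hz⟩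
  obtain ⟨w, hw, haw, hat⟩ := pick a ha
  obtain ⟨w', hw', hbw, hbt⟩ := pick b hb
  have H1 := hyp_gp h hR.hyp a b w p
  have H2 := hyp_gp h hR.hyp w b w' p
  by_cases c1 : gp d a w p ≤ 2 * β + 8 * δ
  · exact side hR hC1 hw haw hat c1 hc hcp
  by_cases c2 : gp d b w' p ≤ 2 * β + 8 * δ
  · exact side hR hC1 hw' hbw hbt c2 hc hcp
  rw [gp_comm h b w'] at c2
  have c3 : gp d w w' p ≤ 2 * β + 8 * δ := by omega
  obtain ⟨g, hg⟩ := exists_geod h w w'
  obtain ⟨n1, n2⟩ := near_geod h hR.hyp hg p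
  obtain ⟨w2, hw2, hd⟩ := hqc w hw w' hw' _ (hg.btw' n1)
  apply fin_mem hC1 hc
  refine ⟨w2, hw2, ?_⟩
  have t1 := h.tri c p w2
  have t2 := h.tri p (g (gp d w' p w / 2)) w2
  omega

end NextWind

open NextWind in
theorem NextWind_proof (hLGb : Stmt_LGb) (hCov : Stmt_Cover) (hHull : Stmt_Hull)
    (hChain : Stmt_Chain) (hA : Stmt_ClaimA) : Stmt_NextWind := by
  intro G X _ _ d C R δ α β σ W C1 W' hR hW hC1 hW'
  have hneX : Nonempty X := ⟨hW.nonempty.some⟩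
  have h := hR.dg
  have hd0 := self_zero hR
  set H' := KK ((C ∩ W) ∪ C1) R with hH'
  have hC1C : C1 ⊆ C := by rw [hC1]; exact fun c hc => hc.1
  have hHW : KK (C ∩ W) R ≤ H' := by
    apply Subgroup.closure_mono
    rintro r ⟨c, hc, hr⟩
    exact ⟨c, Or.inl hc, hr⟩
  -- H_W preserves C1
  have hinvC1 : ∀ g ∈ KK (C ∩ W) R, ∀ c ∈ C1, g • c ∈ C1 := by
    intro g hg c hc
    rw [hC1] at hc ⊢
    obtain ⟨c1, c2, w, hw, c3⟩ := hc
    refine ⟨hR.cinv g c c1, ?_, g • w, hW.inv g hg w hw, ?_⟩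
    · intro hgc
      apply c2
      have := hW.inv g⁻¹ (inv_mem hg) _ hgc
      rwa [inv_smul_smul] at this
    · rw [hR.iso]; exact c3
  -- nearness predicate
  let Nr : X → Prop := fun y => (∃ w ∈ W, d y w ≤ 1) ∨ y ∈ C1
  have hNr : ∀ g ∈ KK (C ∩ W) R, ∀ y, Nr y → Nr (g • y) := by
    intro g hg y hy
    rcases hy with ⟨w, hw, hyw⟩ | hy
    · exact Or.inl ⟨g • w, hW.inv g hg w hw, by rw [hR.iso]; exact hyw⟩
    · exact Or.inr (hinvC1 g hg y hy)
  set A : Set X := {x | ∃ h ∈ H', ∃ y, ((∃ w ∈ W, d y w ≤ 1) ∨ y ∈ C1) ∧ x = h • y} with hAdef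
  have hAinv : ∀ g ∈ H', ∀ x ∈ A, g • x ∈ A := by
    rintro g hg x ⟨h1, hh1, y, hy, rfl⟩
    exact ⟨g * h1, mul_mem hg hh1, y, hy, by rw [mul_smul]⟩
  have hAsub : A ⊆ W' := by
    rw [hW']
    intro x hx
    refine ⟨x, hx, x, hx, ?_⟩
    unfold Btw; rw [hd0]
  have hW'inv : ∀ g ∈ H', ∀ x ∈ W', g • x ∈ W' := by
    intro g hg x hx
    rw [hW'] at hx ⊢
    obtain ⟨u, hu, v, hv, hb⟩ := hx
    exact ⟨g • u, hAinv g hg u hu, g • v, hAinv g hg v hv, btw_smul hR.iso g hb⟩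
  have hbase : ∀ y, Nr y → y ∈ A := fun y hy => ⟨1, one_mem _, y, hy, by rw [one_smul]⟩
  have hsubNr : ∀ y ∈ (C ∩ W) ∪ C1, Nr y := by
    rintro y (hy | hy)
    · exact Or.inl ⟨y, hy.2, by rw [hd0]; omega⟩
    · exact Or.inr hy
  -- main claim
  have main : ∀ (u v' p c : X) (g : G), g ∈ H' → Nr u → Nr v' → Btw d u p (g • v') → c ∈ C →
      d c p ≤ aa0 δ α β → ∃ k ∈ H', ∃ y ∈ (C ∩ W) ∪ C1, c = k • y := by
    intro u v' p c g hg hu hv' hbt hc hcp
    obtain ⟨m, gs, cs, h1, hh1, hgs0, hgm, hgsm, hcs, hne⟩ :=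
      hChain G X d C R δ α β σ W C1 hR hC1C hinvC1 g hg
    let x : ℕ → X := fun i => if i = 0 then u else if i ≤ m then cs i else g • v'
    have hx0 : x 0 = u := by simp [x]
    have hxi : ∀ i, 1 ≤ i → i ≤ m → x i = cs i := by
      intro i hi1 hi2
      have : i ≠ 0 := by omega
      simp [x, this, hi2]
    have hxl : x (m + 1) = g • v' := by simp [x]
    -- nearness of x i and x (i+1) to gs i W
    have nl : ∀ i, i ≤ m → Nr ((gs i)⁻¹ • x i) := by
      intro i hi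
      by_cases h0 : i = 0
      · subst h0; rw [hgs0, hx0, inv_one, one_smul]; exact hu
      · rw [hxi i (by omega) hi]
        exact Or.inr (hcs i (by omega) hi).2.2.1
    have nr : ∀ i, i ≤ m → Nr ((gs i)⁻¹ • x (i + 1)) := by
      intro i hi
      by_cases h0 : i + 1 ≤ m
      · rw [hxi (i + 1) (by omega) h0]
        have := (hcs (i + 1) (by omega) h0).2.1
        rw [Nat.add_sub_cancel] at this
        exact Or.inr this
      · have him : i = m := by omega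
        subst him
        rw [hxl, hgm, mul_smul, inv_smul_smul]
        exact hNr h1 hh1 v' hv'
    -- products
    have hprod : ∀ i, 1 ≤ i → i + 1 ≤ m + 1 → gp d (x (i - 1)) (x (i + 1)) (x i) ≤ β := by
      intro i hi1 hi2
      have him : i ≤ m := by omega
      obtain ⟨e1, e2, e3, r, hr, hr1, hgi⟩ := hcs i hi1 him
      have hxi' := hxi i hi1 him
      rw [hxi']
      set c' := (gs (i - 1))⁻¹ • cs i with hc'
      have hc'C1 : c' ∈ C1 := e2
      have hc'2 : c' ∈ C ∧ c' ∉ W ∧ ∃ w ∈ W, d c' w ≤ bb0 δ α β := by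
        rw [hC1] at hc'C1; exact hc'C1
      set q := (gs (i - 1))⁻¹ • x (i - 1) with hq
      set q' := (gs i)⁻¹ • x (i + 1) with hq'
      have nq : Nr q := nl (i - 1) (by omega)
      have nq' : Nr q' := nr i him
      have tr1 : gs (i - 1) • q = x (i - 1) := by rw [hq, smul_inv_smul]
      have tr2 : gs (i - 1) • q' = r⁻¹ • x (i + 1) := by
        rw [hq', ← mul_smul, hgi, mul_inv_rev, mul_inv_cancel_left]
      have tr3 : gs (i - 1) • c' = cs i := by rw [hc', smul_inv_smul]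
      by_cases hqc : q = c'
      · have : x (i - 1) = cs i := by rw [← tr1, hqc, tr3]
        rw [this, gp_left_self h]; omega
      by_cases hqc' : q' = c'
      · have h2 : r⁻¹ • x (i + 1) = cs i := by rw [← tr2, hqc', tr3]
        have h3 : x (i + 1) = cs i := by
          have : x (i + 1) = r • cs i := by rw [← h2, smul_inv_smul]
          rw [this]; exact hR.fix _ e1 r hr
        rw [h3, gp_right_self h]; omega
      have conv : ∀ z, Nr z → z ≠ c' → (∃ v ∈ W, d z v ≤ 1) ∨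
          (z ∈ C ∧ z ≠ c' ∧ ∃ v ∈ W, d z v ≤ bb0 δ α β) := by
        intro z hz hzc
        rcases hz with hz | hz
        · exact Or.inl hz
        · rw [hC1] at hz
          exact Or.inr ⟨hz.1, hzc, hz.2.2⟩
      have hcl := hA G X d C R δ α β σ W c' q q' hR hW.qc hc'2.1 (hW.far c' hc'2.1 hc'2.2.1)
        (conv q nq hqc) (conv q' nq' hqc')
      have ha0 := aa0_ge δ α β
      have hα : α ≤ gp d q q' c' := by omega
      rw [← isIso_gp hR.iso (gs (i - 1)) q q' c', tr1, tr2, tr3] at hα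
      have := hR.vr (cs i) e1 r hr hr1 _ _ hα
      rwa [smul_inv_smul] at this
    have hsig := sig_ge hR
    have hLG : ∀ i, 1 ≤ i → i + 1 ≤ m + 1 → gp d (x 0) (x (m + 1)) (x i) ≤ β + 2 * δ := by
      by_cases hm : m = 0
      · intro i h1 h2; omega
      · refine hLGb X d δ β (m + 1) x h hR.hyp (by omega) hprod ?_
        intro i h1 h2
        rw [hxi i h1 (by omega), hxi (i + 1) (by omega) (by omega)]
        have := hR.sep (cs i) (hcs i h1 (by omega)).1 (cs (i + 1)) (hcs (i + 1) (by omega) (by omega)).1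
          (hne i h1 (by omega))
        omega
    obtain ⟨i, hi, hip⟩ := hCov X d δ (β + 2 * δ) (m + 1) x p h hR.hyp (by omega) hLG
      (by rw [hx0, hxl]; exact hbt)
    have him : i ≤ m := by omega
    have hcore := core hR (p := (gs i)⁻¹ • p) (c := (gs i)⁻¹ • c) hW.qc hC1 (nl i him) (nr i him)
      (by rw [isIso_gp hR.iso]; omega) (hR.cinv _ c hc) (by rw [hR.iso]; exact hcp)
    exact ⟨gs i, hgsm i him, _, hcore, by rw [smul_inv_smul]⟩
  have F4 : ∀ c ∈ C, ∀ p ∈ W', d c p ≤ aa0 δ α β → ∃ k ∈ H', ∃ y ∈ (C ∩ W) ∪ C1, c = k • y := by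
    intro c hc p hp hcp
    rw [hW'] at hp
    obtain ⟨u0, ⟨h1, hh1, u, hu, rfl⟩, v0, ⟨h2, hh2, v', hv', rfl⟩, hb⟩ := hp
    have hb' := btw_smul hR.iso h1⁻¹ hb
    rw [inv_smul_smul, ← mul_smul] at hb'
    obtain ⟨k, hk, y, hy, hcy⟩ := main u v' (h1⁻¹ • p) (h1⁻¹ • c) (h1⁻¹ * h2)
      (mul_mem (inv_mem hh1) hh2) hu hv' hb' (hR.cinv _ c hc) (by rw [hR.iso]; exact hcp)
    refine ⟨h1 * k, mul_mem hh1 hk, y, hy, ?_⟩
    rw [mul_smul, ← hcy, smul_inv_smul]
  have F4' : ∀ c ∈ C, ∀ p ∈ W', d c p ≤ aa0 δ α β → c ∈ W' := by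
    intro c hc p hp hcp
    obtain ⟨k, hk, y, hy, rfl⟩ := F4 c hc p hp hcp
    exact hW'inv k hk y (hAsub (hbase y (hsubNr y hy)))
  have hKK : KK (C ∩ W') R = H' := by
    apply le_antisymm
    · unfold KK
      rw [Subgroup.closure_le]
      rintro r ⟨c, ⟨hc, hcW⟩, hr⟩
      obtain ⟨k, hk, y, hy, rfl⟩ := F4 c hc c hcW (by rw [hd0]; omega)
      have hyC : y ∈ C := by
        rcases hy with hy | hy
        · exact hy.1
        · exact hC1C hy
      have h1 : k⁻¹ * r * k ∈ R y := by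
        rw [hR.conj k y hyC]
        have e : k * (k⁻¹ * r * k) * k⁻¹ = r := by group
        rw [e]; exact hr
      have h2 : k⁻¹ * r * k ∈ H' := Subgroup.subset_closure ⟨y, hy, h1⟩
      have e : r = k * (k⁻¹ * r * k) * k⁻¹ := by group
      have h3 : k * (k⁻¹ * r * k) * k⁻¹ ∈ H' := mul_mem (mul_mem hk h2) (inv_mem hk)
      rw [← e] at h3
      exact h3
    · apply Subgroup.closure_mono
      rintro r ⟨c, hc, hr⟩
      refine ⟨c, ⟨?_, hAsub (hbase c (hsubNr c hc))⟩, hr⟩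
      rcases hc with hc | hc
      · exact hc.1
      · exact hC1C hc
  refine ⟨⟨?_, ?_, ?_, ?_⟩, hKK, ?_⟩
  · obtain ⟨w, hw⟩ := hW.nonempty
    exact ⟨w, hAsub (hbase w (Or.inl ⟨w, hw, by rw [hd0]; omega⟩))⟩
  · rw [hW']
    exact (hHull X d δ h hR.hyp).1 A
  · intro c hc hcW w hw
    by_contra hcon
    exact hcW (F4' c hc w hw (by omega))
  · intro g hg w hw
    rw [hKK] at hg
    exact hW'inv g hg w hw
  · intro y hy
    exact hAsub (hbase y (Or.inl hy))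

end Pool.Agent.BURN
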