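import Pool.Agent.BURN.W97Cyc5

/-! 4.5 and 4.6 -/

namespace Pool.Agent.BURN.W97

variable {G X : Type} [Group G] [MulAction G X] {d : X → X → ℕ} {δ L A0 R N : ℕ}

theorem lox_conj (hi : IsIso G d) {c : G} (hc : Lox d c) (g : G) : Lox d (g * c * g⁻¹) := by
  intro x B
  obtain ⟨m, hm⟩ := hc (g⁻¹ • x) B
  refine ⟨m, ?_⟩
  have : d (g⁻¹ • x) (c ^ m • g⁻¹ • x) = d x ((g * c * g⁻¹) ^ m • x) := by
    rw [← hi g, smul_inv_smul, conj_pow, mul_smul, mul_smul]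
  rwa [this] at hm

theorem lox_inv (h : IsDG d) (hi : IsIso G d) {c : G} (hc : Lox d c) : Lox d c⁻¹ := by
  intro x B
  obtain ⟨m, hm⟩ := hc x B
  refine ⟨m, ?_⟩
  have : d x (c ^ m • x) = d x (c⁻¹ ^ m • x) := by
    rw [← hi (c⁻¹ ^ m) x (c ^ m • x), ← mul_smul, show c⁻¹ ^ m * c ^ m = 1 by simp, one_smul,
      h.symm]
  rwa [this] at hm

theorem IsMaxCyc'.conj (hi : IsIso G d) {c : G} (hc : IsMaxCyc' d c) (g : G) :
    IsMaxCyc' d (g * c * g⁻¹) := by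
  refine ⟨lox_conj hi hc.1 g, ?_⟩
  intro h m hm he
  have h1 : (g⁻¹ * h * g) * c ^ m * (g⁻¹ * h * g)⁻¹ = c ^ m := by
    have e : (g * c * g⁻¹) ^ m = g * c ^ m * g⁻¹ := conj_pow
    rw [e] at he
    calc (g⁻¹ * h * g) * c ^ m * (g⁻¹ * h * g)⁻¹ = g⁻¹ * (h * (g * c ^ m * g⁻¹) * h⁻¹) * g := by
          group
      _ = c ^ m := by rw [he]; group
  obtain ⟨k, hk⟩ := hc.2 _ m hm h1
  refine ⟨k, ?_⟩
  simp only at hk ⊢
  rw [conj_zpow, hk]; group

theorem IsMaxCyc'.inv (h : IsDG d) (hi : IsIso G d) {c : G} (hc : IsMaxCyc' d c) :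
    IsMaxCyc' d c⁻¹ := by
  refine ⟨lox_inv h hi hc.1, ?_⟩
  intro k m hm he
  rw [Subgroup.zpowers_inv]
  refine hc.2 k m hm ?_
  have := congrArg (·⁻¹) he
  simpa [mul_assoc] using this

/-- 4.5 (a) -/
theorem GW.maxcyc_conj (W : GW (G := G) d δ L A0 R N) [Nonempty X] {c h : G}
    (hc : IsMaxCyc' d c) {i j : ℤ} (hi : i ≠ 0) (he : h * c ^ i * h⁻¹ = c ^ j) :
    h ∈ Subgroup.zpowers c := by
  obtain ⟨x0⟩ := ‹Nonempty X›
  haveI : Nonempty X := ⟨x0⟩
  -- the case of a centralising element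
  have cen : ∀ (k : G) (i : ℤ), i ≠ 0 → Commute k (c ^ i) → k ∈ Subgroup.zpowers c := by
    intro k i hi hk
    rcases Int.eq_nat_or_neg i with ⟨n, rfl | rfl⟩
    · refine hc.2 k n (by omega) (mul_inv_eq_iff_eq_mul.2 ?_)
      rw [zpow_natCast] at hk; exact hk
    · refine hc.2 k n (by omega) (mul_inv_eq_iff_eq_mul.2 ?_)
      rw [zpow_neg, zpow_natCast] at hk
      have := hk.inv_right
      rw [inv_inv] at this; exact this
  rcases W.eq_or_inv (c := c) (z := c ^ i) (h := h) (Or.inr hc.1) ⟨i, rfl⟩ (by rw [he]; exact ⟨j, rfl⟩)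
    with h1 | h1
  · exact cen h i hi (mul_inv_eq_iff_eq_mul.1 h1)
  · -- inversion: contradiction
    exfalso
    have h2 : Commute (h ^ 2) (c ^ i) := by
      have e : h ^ 2 * c ^ i * (h ^ 2)⁻¹ = c ^ i := by
        calc h ^ 2 * c ^ i * (h ^ 2)⁻¹ = h * (h * c ^ i * h⁻¹) * h⁻¹ := by
              rw [pow_two]; group
          _ = h * (c ^ i)⁻¹ * h⁻¹ := by rw [h1]
          _ = (h * c ^ i * h⁻¹)⁻¹ := by group
          _ = c ^ i := by rw [h1, inv_inv]
      exact mul_inv_eq_iff_eq_mul.1 e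
    obtain ⟨k, hk⟩ := cen _ i hi h2
    simp only at hk
    have noinv : ∀ l : ℤ, c ^ l = (c ^ l)⁻¹ → l = 0 := by
      intro l hl
      rw [← zpow_neg] at hl
      have := W.zpow_inj hc.1 hl
      omega
    by_cases hl : Lox d h
    · have hk0 : k ≠ 0 := by
        rintro rfl
        rw [zpow_zero] at hk
        have : Lox d (h ^ (2 : ℤ)) := W.lox_zpow hl (by norm_num)
        rw [show h ^ (2 : ℤ) = h ^ 2 from zpow_ofNat h 2, ← hk] at this
        exact W.not_lox_one this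
      have e1 : h * c ^ (i * k) * h⁻¹ = (c ^ (i * k))⁻¹ := by
        rw [zpow_mul, ← conj_zpow, h1, inv_zpow]
      have e2 : h * c ^ (i * k) * h⁻¹ = c ^ (i * k) := by
        rw [mul_comm i k, zpow_mul, hk]
        have : Commute h ((h ^ 2) ^ i) := ((Commute.refl h).pow_right 2).zpow_right i
        exact mul_inv_eq_iff_eq_mul.2 this
      have := noinv _ (e2.symm.trans e1)
      rcases mul_eq_zero.1 this with h0 | h0
      · exact hi h0
      · exact hk0 h0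
    · have hN := W.h3 h hl
      obtain ⟨n, hn⟩ := W.odd
      have e1 : h ^ N * c ^ i * (h ^ N)⁻¹ = (c ^ i)⁻¹ := by
        have hc2 : Commute ((h ^ 2) ^ n) (c ^ i) := h2.pow_left n
        have e : h ^ N = h * (h ^ 2) ^ n := by rw [hn, ← pow_mul, pow_succ']
        rw [e]
        calc h * (h ^ 2) ^ n * c ^ i * (h * (h ^ 2) ^ n)⁻¹
            = h * ((h ^ 2) ^ n * c ^ i * ((h ^ 2) ^ n)⁻¹) * h⁻¹ := by group
          _ = h * c ^ i * h⁻¹ := by rw [mul_inv_eq_iff_eq_mul.2 hc2.eq]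
          _ = _ := h1
      rw [hN] at e1
      have := noinv i (by simpa using e1)
      exact hi this

/-- 4.5 (b) -/
theorem GW.maxcyc_eq (W : GW (G := G) d δ L A0 R N) [Nonempty X] {c c' : G}
    (hc : IsMaxCyc' d c) (hc' : IsMaxCyc' d c') {z : G} (hz : z ≠ 1)
    (h1 : z ∈ Subgroup.zpowers c) (h2 : z ∈ Subgroup.zpowers c') :
    Subgroup.zpowers c = Subgroup.zpowers c' := by
  obtain ⟨i, hi⟩ := h1
  obtain ⟨j, hj⟩ := h2
  simp only at hi hj
  have hi0 : i ≠ 0 := by rintro rfl; exact hz (by rw [← hi, zpow_zero])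
  have hj0 : j ≠ 0 := by rintro rfl; exact hz (by rw [← hj, zpow_zero])
  apply le_antisymm
  · rw [Subgroup.zpowers_le]
    refine W.maxcyc_conj hc' hj0 (j := j) ?_
    rw [hj, ← hi]
    exact mul_inv_eq_iff_eq_mul.2 ((Commute.refl c).zpow_right i)
  · rw [Subgroup.zpowers_le]
    refine W.maxcyc_conj hc hi0 (j := i) ?_
    rw [hi, ← hj]
    exact mul_inv_eq_iff_eq_mul.2 ((Commute.refl c').zpow_right j)

/-- a lox element is contained in a maximal cyclic group -/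
theorem GW.exists_maxcyc (W : GW (G := G) d δ L A0 R N) (hI : Stmt_Iso1) [Nonempty X] {c : G}
    (hc : Lox d c) : ∃ w : G, IsMaxCyc' d w ∧ c ∈ Subgroup.zpowers w := by
  obtain ⟨w, h1, h2⟩ := W.CYC hI hc
  exact ⟨w, h1, (h2 c).1 (inE_self c)⟩

theorem GW.sc_aux (W : GW (G := G) d δ L A0 R N) (hI : Stmt_Iso1) {x y : X} {γ : ℕ → X}
    (hγ : IsGeod d x y γ) {l : ℕ} {u z : G} (hz : z ≠ 1) (hux : d x (u • x) ≤ l)
    (huy : d y (u • y) ≤ l) (hxy : A0 + 8 * l + 20 * δ ≤ d x y)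
    (hzt : ∀ t, 2 * l + δ + 1 ≤ t → t + 2 * l + δ + 1 ≤ d x y → d (γ t) (z • γ t) ≤ 14 * δ) :
    ∃ w : G, IsMaxCyc' d w ∧ z ∈ Subgroup.zpowers w ∧ u ∈ Subgroup.zpowers w := by
  haveI : Nonempty X := ⟨x⟩
  have hdg := W.dg
  have hiso := W.iso
  have hL := W.hL
  have h1δ := W.one_le
  have hz'd : ∀ t (q : X), 2 * l + δ + 1 ≤ t → t + 2 * l + δ + 1 ≤ d x y →
      d (u • γ t) q ≤ 3 * δ → d q ((u * z * u⁻¹) • q) ≤ 20 * δ := fun t q h1 h2 hq => by
    have t1 := hdg.tri q (u • γ t) ((u * z * u⁻¹) • q)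
    have t2 := hdg.tri (u • γ t) ((u * z * u⁻¹) • u • γ t) ((u * z * u⁻¹) • q)
    rw [hiso] at t2
    have e : (u * z * u⁻¹) • u • γ t = u • z • γ t := by
      rw [← mul_smul, ← mul_smul]; congr 1; group
    rw [e, hiso] at t2
    have := hzt t h1 h2
    have s := hdg.symm q (u • γ t)
    omega
  set t0 := 3 * l + δ + 1 with ht0
  set t1 := 3 * l + δ + 1 + (A0 + δ) with ht1
  obtain ⟨b1, b2, b3, -⟩ := w97_mid hdg W.hyp hiso hγ hux huy (t := t0) (by omega) (by omega)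
  obtain ⟨c1, c2, c3, -⟩ := w97_mid hdg W.hyp hiso hγ hux huy (t := t1) (by omega) (by omega)
  obtain ⟨m1, m2⟩ := w97_mid_mono hdg W.hyp hiso hγ hux huy (s := t0) (t := t1) (by omega)
    (by omega) (by omega)
  obtain ⟨c, hc, hcc⟩ := W.cyc_of_geod hγ (s := d x (u • γ t0)) (t := d x (u • γ t1))
    (by omega) (by omega)
  have q1 := hcc z (by have := hzt (d x (u • γ t0)) (by omega) (by omega); omega)
    (by have := hzt (d x (u • γ t1)) (by omega) (by omega); omega)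
  have q2 := hcc (u * z * u⁻¹)
    (by have := hz'd t0 _ (by omega) (by omega) b3; omega)
    (by have := hz'd t1 _ (by omega) (by omega) c3; omega)
  have hcl : Lox d c := by
    rcases hc with rfl | hc
    · rw [Subgroup.zpowers_one_eq_bot, Subgroup.mem_bot] at q1
      exact absurd q1 hz
    · exact hc
  obtain ⟨w, hw, hcw⟩ := W.exists_maxcyc hI hcl
  have hle : Subgroup.zpowers c ≤ Subgroup.zpowers w := by rwa [Subgroup.zpowers_le]
  refine ⟨w, hw, hle q1, ?_⟩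
  obtain ⟨i, hi⟩ := hle q1
  obtain ⟨j, hj⟩ := hle q2
  simp only at hi hj
  refine W.maxcyc_conj hw (i := i) (j := j) ?_ (by rw [hi, hj])
  rintro rfl; exact hz (by rw [← hi, zpow_zero])

/-- 4.6 -/
theorem GW.SC (W : GW (G := G) d δ L A0 R N) (hI : Stmt_Iso1) {x y : X} {l : ℕ}
    (hxy : A0 + 8 * l + 20 * δ ≤ d x y) :
    ∃ w : G, (w = 1 ∨ IsMaxCyc' d w) ∧ ∀ g : G, d x (g • x) ≤ l → d y (g • y) ≤ l →
      g ∈ Subgroup.zpowers w := by
  haveI : Nonempty X := ⟨x⟩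
  have h1δ := W.one_le
  obtain ⟨γ, hγ⟩ := exists_geod W.dg x y
  have comm : ∀ g h : G, d x (g • x) ≤ l → d y (g • y) ≤ l → d x (h • x) ≤ l →
      d y (h • y) ≤ l → Commute g h := by
    intro g h g1 g2 h1 h2
    set z := g⁻¹ * h⁻¹ * g * h with hz
    have key : z = 1 := by
      by_contra hne
      have hzt : ∀ t, 2 * l + δ + 1 ≤ t → t + 2 * l + δ + 1 ≤ d x y →
          d (γ t) (z • γ t) ≤ 14 * δ := fun t t1 t2 =>
        w97_comm' W.dg W.hyp W.iso hγ g1 g2 h1 h2 t1 t2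
      obtain ⟨w, hw, a1, a2⟩ := W.sc_aux hI hγ hne g1 g2 hxy hzt
      obtain ⟨w', hw', b1, b2⟩ := W.sc_aux hI hγ hne h1 h2 hxy hzt
      rw [← W.maxcyc_eq hw hw' hne a1 b1] at b2
      obtain ⟨i, hi⟩ := a2
      obtain ⟨j, hj⟩ := b2
      simp only at hi hj
      apply hne
      rw [hz, ← hi, ← hj]
      rw [← zpow_neg, ← zpow_neg, ← zpow_add, ← zpow_add, ← zpow_add]
      rw [show -i + -j + i + j = 0 by ring, zpow_zero]
    show g * h = h * g
    have : h * g * (g⁻¹ * h⁻¹ * g * h) = g * h := by group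
    rw [← this, ← hz, key, mul_one]
  by_cases hS : ∀ g : G, d x (g • x) ≤ l → d y (g • y) ≤ l → g = 1
  · refine ⟨1, Or.inl rfl, fun g h1 h2 => ?_⟩
    rw [hS g h1 h2]; exact Subgroup.one_mem _
  · push Not at hS
    obtain ⟨g0, h1, h2, h3⟩ := hS
    have hl : Lox d g0 := by
      by_contra hl
      exact h3 (W.eq_one_of_far hI hl h1 h2 (by omega))
    obtain ⟨w, hw, hE⟩ := W.CYC hI hl
    refine ⟨w, Or.inr hw, fun g g1 g2 => (hE g).1 ?_⟩
    refine inE_of_commute le_rfl ?_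
    rw [pow_one]
    exact comm g g0 g1 g2 h1 h2

end Pool.Agent.BURN.W97
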