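import Pool.Agent.BURN.Stmts3
import Pool.Agent.BURN.W97SC

/-! module Slen (4.3) -/

namespace Pool.Agent.BURN

theorem slen_eq_wlen {G X : Type} [Group G] [MulAction G X] {d : X → X → ℕ} (h : IsDG d)
    (hi : IsIso G d) (x : X) (g : G) : slen d x g = W97.wlen d g x :=
  (W97.wlen_tendsto h hi g x).liminf_eq

theorem lox_zpow_iff {G X : Type} [Group G] [MulAction G X] {d : X → X → ℕ} (h : IsDG d)
    (hi : IsIso G d) (g : G) (k : ℤ) (hk : k ≠ 0) : Lox d (g ^ k) ↔ Lox d g := by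
  have inv : ∀ c : G, Lox d c⁻¹ ↔ Lox d c := fun c =>
    ⟨fun hc => by simpa using W97.lox_inv h hi hc, fun hc => W97.lox_inv h hi hc⟩
  have nat : ∀ n : ℕ, n ≠ 0 → (Lox d (g ^ n) ↔ Lox d g) := by
    intro n hn
    constructor
    · intro hl x B
      obtain ⟨m, hm⟩ := hl x B
      exact ⟨n * m, by rwa [pow_mul]⟩
    · intro hl x B
      obtain ⟨m, hm⟩ := hl x (B + n * d x (g • x))
      refine ⟨m / n, ?_⟩
      have e : m = n * (m / n) + m % n := (Nat.div_add_mod m n).symm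
      have t := h.tri x ((g ^ n) ^ (m / n) • x) (g ^ m • x)
      have e2 : g ^ m = (g ^ n) ^ (m / n) * g ^ (m % n) := by
        rw [← pow_mul, ← pow_add, ← e]
      have e3 : d ((g ^ n) ^ (m / n) • x) (g ^ m • x) = d x (g ^ (m % n) • x) := by
        rw [e2, mul_smul, hi]
      have t2 := IsoAux.le_mul h hi g x (m % n)
      have t3 : m % n * d x (g • x) ≤ n * d x (g • x) :=
        Nat.mul_le_mul_right _ (Nat.mod_lt _ (Nat.pos_of_ne_zero hn)).le
      omega
  rcases Int.eq_nat_or_neg k with ⟨n, rfl | rfl⟩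
  · rw [zpow_natCast]; exact nat n (by omega)
  · rw [zpow_neg, zpow_natCast, inv]; exact nat n (by omega)

theorem lox_conj_iff {G X : Type} [Group G] [MulAction G X] {d : X → X → ℕ}
    (hi : IsIso G d) (g h : G) : Lox d (h * g * h⁻¹) ↔ Lox d g := by
  refine ⟨fun hl => ?_, fun hl => W97.lox_conj hi hl h⟩
  have := W97.lox_conj hi hl h⁻¹
  have e : h⁻¹ * (h * g * h⁻¹) * h⁻¹⁻¹ = g := by group
  rwa [e] at this

/-- a good space satisfies the hypotheses of 4.4 to 4.6 -/
theorem Good.gw {G X : Type} [Group G] [MulAction G X] {d : X → X → ℕ} {N : ℕ}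
    (H : Good (G := G) d N) : W97.GW (G := G) d dd (100 * dd) A0 Rr N where
  dg := H.dg
  hyp := H.hyp
  one_le := le_trans (by norm_num) dd_ge
  iso := H.iso
  hL := le_rfl
  h2 := H.acyl
  h3 := H.tors
  odd := H.odd
  h4 := H.stab

theorem Slen_proof : Stmt_Slen := by
  intro G X _ _ d h hi
  refine ⟨fun x g => ?_, fun x y g => ?_, fun x g k => ?_, fun x g k => ?_, fun x g => ?_,
    lox_zpow_iff h hi, lox_conj_iff hi, fun N H x g => ⟨fun hl => ?_, fun hl => ?_⟩⟩
  · rw [slen_eq_wlen h hi]; exact W97.wlen_tendsto h hi g x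
  · rw [slen_eq_wlen h hi, slen_eq_wlen h hi]; exact W97.wlen_indep h hi g x y
  · rw [slen_eq_wlen h hi, slen_eq_wlen h hi]; exact W97.wlen_conj h hi g k x
  · rw [slen_eq_wlen h hi, slen_eq_wlen h hi]; exact W97.wlen_zpow h hi g x k
  · rw [slen_eq_wlen h hi]; exact ⟨W97.wlen_nonneg h hi g x, W97.wlen_le h hi g x⟩
  · rw [slen_eq_wlen h hi]
    have := H.gw.wlen_ge hl x
    have hR : (0 : ℝ) < Rr := by exact_mod_cast Rr_pos
    rw [div_le_iff₀ hR]; linarith
  · rw [slen_eq_wlen h hi]; exact H.gw.wlen_nonlox hl x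

end Pool.Agent.BURN
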