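import Pool.Agent.BURN.Basic

/-! Word metric of a free group: a geodesic space with four point constant 0. -/

namespace Pool.Agent.BURN.TreeX

open FreeGroup

set_option linter.unusedSectionVars false

variable {β : Type} [DecidableEq β]

/-- word metric -/
def dF (x y : FreeGroup β) : ℕ := (x⁻¹ * y).norm

/-- length of the longest common prefix -/
def lcp : List (β × Bool) → List (β × Bool) → ℕ
  | a :: l, b :: m => if a = b then lcp l m + 1 else 0
  | [], _ => 0
  | _ :: _, [] => 0

theorem lcp_comm : ∀ X Y : List (β × Bool), lcp X Y = lcp Y X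
  | a :: l, b :: m => by
      unfold lcp
      rw [lcp_comm l m]
      by_cases h : a = b
      · simp [h]
      · simp [h, Ne.symm h]
  | [], [] => rfl
  | [], _ :: _ => rfl
  | _ :: _, [] => rfl

theorem lcp_ultra : ∀ X Y Z : List (β × Bool), min (lcp X Z) (lcp Z Y) ≤ lcp X Y
  | a :: l, b :: m, c :: n => by
      unfold lcp
      by_cases h1 : a = c
      · by_cases h2 : c = b
        · subst h1 h2
          have := lcp_ultra l m n
          simp only [if_true]
          omega
        · simp [h2]
      · simp [h1]
  | [], Y, Z => by simp [lcp]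
  | _ :: _, [], Z => by cases Z <;> simp [lcp]
  | _ :: _, _ :: _, [] => by simp [lcp]

theorem red_tail {a : β × Bool} {l : List (β × Bool)} (h : IsReduced (a :: l)) : IsReduced l :=
  (List.isChain_cons.1 h).2

theorem red_take {l : List (β × Bool)} (h : IsReduced l) (n : ℕ) : IsReduced (l.take n) :=
  List.IsChain.take h n

theorem red_drop {l : List (β × Bool)} (h : IsReduced l) (n : ℕ) : IsReduced (l.drop n) :=
  List.IsChain.drop h n

theorem invRev_red {l : List (β × Bool)} (h : IsReduced l) : IsReduced (invRev l) := by
  rw [isReduced_iff_reduce_eq] at h ⊢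
  rw [reduce_invRev, h]

theorem norm_mk_red {l : List (β × Bool)} (h : IsReduced l) : (mk l).norm = l.length := by
  rw [FreeGroup.norm, toWord_mk, h.reduce_eq]

theorem main : ∀ X Y : List (β × Bool), IsReduced X → IsReduced Y →
    ((mk X)⁻¹ * mk Y).norm + 2 * lcp X Y = X.length + Y.length
  | a :: l, b :: m, hX, hY => by
      by_cases h : a = b
      · subst h
        have e : (mk (a :: l))⁻¹ * mk (a :: m) = (mk l)⁻¹ * mk m := by
          have h1 : mk (a :: l) = mk [a] * mk l := by rw [mul_mk]; rfl
          have h2 : mk (a :: m) = mk [a] * mk m := by rw [mul_mk]; rfl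
          rw [h1, h2]; group
        rw [e]
        have := main l m (red_tail hX) (red_tail hY)
        simp only [lcp, if_true, List.length_cons]
        omega
      · have e : (mk (a :: l))⁻¹ * mk (b :: m) = mk (invRev (a :: l) ++ (b :: m)) := by
          rw [inv_mk, mul_mk]
        have hr : IsReduced (invRev (a :: l) ++ (b :: m)) := by
          unfold FreeGroup.IsReduced
          rw [List.isChain_append]
          refine ⟨invRev_red hX, hY, ?_⟩
          intro x hx y hy
          have hx' : x = (a.1, !a.2) := by
            simp [invRev] at hx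
            exact hx.symm
          have hy' : y = b := by simpa using hy.symm
          subst hx' hy'
          intro h1
          simp only at h1 ⊢
          rcases a with ⟨a1, a2⟩
          rcases y with ⟨b1, b2⟩
          simp only at h1 ⊢
          subst h1
          cases a2 <;> cases b2 <;> simp_all
        rw [e, norm_mk_red hr]
        simp [lcp, h, invRev_length]
  | [], Y, _, hY => by
      simp only [lcp, List.length_nil]
      have : ((mk ([] : List (β × Bool)))⁻¹ * mk Y) = mk Y := by
        rw [inv_mk, mul_mk]; rfl
      rw [this, norm_mk_red hY]; omega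
  | a :: l, [], hX, _ => by
      simp only [lcp, List.length_nil]
      have : ((mk (a :: l))⁻¹ * mk ([] : List (β × Bool))) = (mk (a :: l))⁻¹ := by
        rw [inv_mk, mul_mk]; simp
      rw [this, norm_inv_eq, norm_mk_red hX]

theorem dF_lcp (x y : FreeGroup β) : dF x y + 2 * lcp x.toWord y.toWord = x.norm + y.norm := by
  have := main x.toWord y.toWord isReduced_toWord isReduced_toWord
  simpa [dF, mk_toWord, FreeGroup.norm] using this

theorem dF_mul (g x y : FreeGroup β) : dF (g * x) (g * y) = dF x y := by
  unfold dF
  congr 1
  group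

theorem dF_isDG : IsDG (dF (β := β)) where
  eq_zero x y := by
    unfold dF
    rw [FreeGroup.norm_eq_zero, inv_mul_eq_one]
  symm x y := by
    unfold dF
    rw [← norm_inv_eq]
    congr 1
    group
  tri x y z := by
    unfold dF
    have : x⁻¹ * z = (x⁻¹ * y) * (y⁻¹ * z) := by group
    rw [this]
    exact norm_mul_le _ _
  geo x y t ht := by
    set w := x⁻¹ * y with hw
    refine ⟨x * mk (w.toWord.take t), ?_, ?_⟩
    · unfold dF
      have : x⁻¹ * (x * mk (w.toWord.take t)) = mk (w.toWord.take t) := by group
      rw [this, norm_mk_red]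
      · rw [List.length_take]
        have : t ≤ w.toWord.length := ht
        omega
      · exact red_take isReduced_toWord _
    · unfold dF
      have h1 : w = mk (w.toWord.take t) * mk (w.toWord.drop t) := by
        rw [mul_mk, List.take_append_drop, mk_toWord]
      have h2 : (x * mk (w.toWord.take t))⁻¹ * y = mk (w.toWord.drop t) := by
        have : (x * mk (w.toWord.take t))⁻¹ * y = (mk (w.toWord.take t))⁻¹ * w := by
          rw [hw]; group
        rw [this]
        nth_rewrite 2 [h1]
        group
      rw [h2, norm_mk_red]
      · rw [List.length_drop]; rfl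
      · exact red_drop isReduced_toWord _

theorem dF_hyp : Hyp (dF (β := β)) 0 := by
  intro x y z w
  -- translate w to 1
  have tr : ∀ a b : FreeGroup β, dF a b = dF (w⁻¹ * a) (w⁻¹ * b) := fun a b => (dF_mul _ _ _).symm
  rw [tr x y, tr z w, tr x z, tr y w, tr x w, tr y z, inv_mul_cancel]
  set X := w⁻¹ * x
  set Y := w⁻¹ * y
  set Z := w⁻¹ * z
  have n1 : ∀ a : FreeGroup β, dF a 1 = a.norm := by
    intro a; unfold dF; rw [mul_one, norm_inv_eq]
  rw [n1, n1, n1]
  have h1 := dF_lcp X Y
  have h2 := dF_lcp X Z
  have h3 := dF_lcp Y Z
  have h4 := lcp_ultra X.toWord Y.toWord Z.toWord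
  have h5 := lcp_comm Z.toWord Y.toWord
  omega

end Pool.Agent.BURN.TreeX
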