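import Pool.Agent.BURN.W97SL
import Pool.Agent.BURN.W97Mid
import Pool.Agent.BURN.Stmts1

/-! 4.4 and 4.5 -/

namespace Pool.Agent.BURN.W97

/-- commensurator of g -/
def InE {G : Type} [Group G] (g h : G) : Prop := ∃ m : ℕ, 1 ≤ m ∧ h * g ^ m * h⁻¹ = g ^ m

/-- the part of Good used in 4.4-4.6 -/
structure GW {G X : Type} [Group G] [MulAction G X] (d : X → X → ℕ) (δ L A0 R N : ℕ) : Prop where
  dg : IsDG d
  hyp : Hyp d δ
  one_le : 1 ≤ δ
  iso : IsIso G d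
  hL : 100 * δ ≤ L
  h2 : ∀ x y, A0 ≤ d x y → ∃ c : G, (c = 1 ∨ Lox d c) ∧
    ∀ g : G, d x (g • x) ≤ L → d y (g • y) ≤ L → g ∈ Subgroup.zpowers c
  h3 : ∀ g : G, ¬ Lox d g → g ^ N = 1
  odd : Odd N
  h4 : ∀ g : G, Lox d g → ∀ (x : X) (m : ℕ), m ≤ R * d x (g ^ m • x)

variable {G X : Type} [Group G] [MulAction G X] {d : X → X → ℕ} {δ L A0 R N : ℕ}

theorem InE.commute {g h : G} (H : InE g h) : ∃ m : ℕ, 1 ≤ m ∧ Commute h (g ^ m) := by
  obtain ⟨m, h1, h2⟩ := H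
  exact ⟨m, h1, (mul_inv_eq_iff_eq_mul.1 h2)⟩

theorem inE_of_commute {g h : G} {m : ℕ} (h1 : 1 ≤ m) (h2 : Commute h (g ^ m)) : InE g h :=
  ⟨m, h1, mul_inv_eq_iff_eq_mul.2 h2⟩

theorem inE_self (g : G) : InE g g := inE_of_commute (le_refl 1) (by simp)

theorem inE_one (g : G) : InE g 1 := inE_of_commute (le_refl 1) (by simp)

theorem InE.mul {g h k : G} (H : InE g h) (K : InE g k) : InE g (h * k) := by
  obtain ⟨m, h1, h2⟩ := H.commute
  obtain ⟨n, k1, k2⟩ := K.commute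
  refine inE_of_commute (m := m * n) (Nat.mul_pos h1 k1) (Commute.mul_left ?_ ?_)
  · rw [pow_mul]; exact h2.pow_right n
  · rw [mul_comm, pow_mul]; exact k2.pow_right m

theorem InE.inv {g h : G} (H : InE g h) : InE g h⁻¹ := by
  obtain ⟨m, h1, h2⟩ := H.commute
  exact inE_of_commute h1 h2.inv_left

theorem InE.pow {g h : G} (H : InE g h) (n : ℕ) : InE g (h ^ n) := by
  obtain ⟨m, h1, h2⟩ := H.commute
  exact inE_of_commute h1 (h2.pow_left n)

theorem GW.wlen_ge (W : GW (G := G) d δ L A0 R N) {g : G} (hg : Lox d g) (x : X) :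
    1 ≤ R * wlen d g x := W97.wlen_ge W.dg W.iso (W.h4 g hg x)

theorem GW.wlen_pos (W : GW (G := G) d δ L A0 R N) {g : G} (hg : Lox d g) (x : X) :
    0 < wlen d g x := by
  have := W.wlen_ge hg x
  have h0 := wlen_nonneg W.dg W.iso g x
  rcases h0.lt_or_eq with h | h
  · exact h
  · rw [← h] at this; norm_num at this

theorem GW.Npos (W : GW (G := G) d δ L A0 R N) : 0 < N := W.odd.pos

theorem GW.wlen_nonlox (W : GW (G := G) d δ L A0 R N) {g : G} (hg : ¬ Lox d g) (x : X) :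
    wlen d g x = 0 := wlen_torsion W.dg W.iso W.Npos (W.h3 g hg)

theorem GW.lox_iff (W : GW (G := G) d δ L A0 R N) {g : G} (x : X) :
    Lox d g ↔ 0 < wlen d g x :=
  ⟨fun h => W.wlen_pos h x, fun h => lox_of_wlen W.dg W.iso h⟩

theorem GW.lox_zpow (W : GW (G := G) d δ L A0 R N) [Nonempty X] {c : G} (hc : Lox d c) {k : ℤ}
    (hk : k ≠ 0) : Lox d (c ^ k) := by
  obtain ⟨x⟩ := ‹Nonempty X›
  rw [W.lox_iff x, wlen_zpow W.dg W.iso]
  have := W.wlen_pos hc x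
  have : (0 : ℝ) < |(k : ℝ)| := by positivity
  positivity

theorem GW.lox_of_zpow (W : GW (G := G) d δ L A0 R N) [Nonempty X] {c : G} {k : ℤ}
    (hc : Lox d (c ^ k)) : Lox d c := by
  obtain ⟨x⟩ := ‹Nonempty X›
  rw [W.lox_iff x, wlen_zpow W.dg W.iso] at hc
  rw [W.lox_iff x]
  by_contra hh
  have h0 := wlen_nonneg W.dg W.iso c x
  have : wlen d c x = 0 := by linarith
  rw [this] at hc; simp at hc

theorem GW.not_lox_one (W : GW (G := G) d δ L A0 R N) [Nonempty X] : ¬ Lox d (1 : G) := by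
  obtain ⟨x⟩ := ‹Nonempty X›
  intro h
  have := W.wlen_pos h x
  have h2 := wlen_torsion W.dg W.iso (g := (1 : G)) (x := x) (N := 1) one_pos (by simp)
  linarith

theorem GW.zpow_inj (W : GW (G := G) d δ L A0 R N) [Nonempty X] {c : G} (hc : Lox d c) {a b : ℤ}
    (hab : c ^ a = c ^ b) : a = b := by
  by_contra hne
  have h1 : c ^ (a - b) = 1 := by rw [zpow_sub, hab, mul_inv_cancel]
  have := W.lox_zpow hc (k := a - b) (by omega)
  rw [h1] at this
  exact W.not_lox_one this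

/-- FAR -/
theorem GW.far (W : GW (G := G) d δ L A0 R N) {g : G} (hg : Lox d g) {m : ℕ} (hm : 1 ≤ m)
    (S : Set G) (hS : ∀ h ∈ S, Commute h (g ^ m)) (x0 : X) (K : ℕ) :
    ∃ x y : X, K ≤ d x y ∧ ∀ h ∈ S, d x (h • x) = d x0 (h • x0) ∧
      d y (h • y) = d x0 (h • x0) := by
  have hK : K ≤ d x0 (g ^ (2 * (m * (R * K + 1))) • x0) := by
    have h4 := W.h4 g hg x0 (2 * (m * (R * K + 1)))
    by_contra hc
    push Not at hc
    have : R * d x0 (g ^ (2 * (m * (R * K + 1))) • x0) ≤ R * K := Nat.mul_le_mul_left _ hc.le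
    have h5 : R * K + 1 ≤ m * (R * K + 1) := Nat.le_mul_of_pos_left _ hm
    omega
  set k := R * K + 1
  set a := g ^ (m * k) with ha
  have hca : ∀ h ∈ S, Commute h a := fun h hh => by
    rw [ha, pow_mul]; exact (hS h hh).pow_right k
  refine ⟨a⁻¹ • x0, a • x0, ?_, fun h hh => ⟨?_, ?_⟩⟩
  · rw [← W.iso a, smul_inv_smul, ← mul_smul, ha, ← pow_add, ← two_mul]; exact hK
  · have := (hca h hh).inv_right
    rw [← mul_smul, this.eq, mul_smul, W.iso]
  · rw [← mul_smul, (hca h hh).eq, mul_smul, W.iso]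

end Pool.Agent.BURN.W97
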