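import Pool.Agent.BURN.W97Cyc
import Pool.Agent.BURN.Iso

/-! 4.4 continued: steps (i), (ii), (iii) -/

namespace Pool.Agent.BURN.W97

variable {G X : Type} [Group G] [MulAction G X] {d : X → X → ℕ} {δ L A0 R N : ℕ}

theorem GW.nl (W : GW (G := G) d δ L A0 R N) (hI : Stmt_Iso1) {u : G} (hu : ¬ Lox d u) (p : X) :
    d p (u ^ 2 • p) ≤ d p (u • p) + δ := by
  by_contra hc
  exact hu (((hI G X d δ W.dg W.hyp W.iso).1 u p (by omega)).1)

/-- two points at distance A0 on a geodesic; the common cyclic group -/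
theorem GW.cyc_of_geod (W : GW (G := G) d δ L A0 R N) {x y : X} {γ : ℕ → X}
    (hg : IsGeod d x y γ) {s t : ℕ} (hst : s + A0 ≤ t) (ht : t ≤ d x y) :
    ∃ c : G, (c = 1 ∨ Lox d c) ∧
      ∀ g : G, d (γ s) (g • γ s) ≤ L → d (γ t) (g • γ t) ≤ L → g ∈ Subgroup.zpowers c := by
  refine W.h2 _ _ ?_
  rw [hg.2.2 s t (by omega) ht]; omega

theorem GW.eq_one_of_mem (W : GW (G := G) d δ L A0 R N) [Nonempty X] {c u : G}
    (hc : c = 1 ∨ Lox d c) (hu : u ∈ Subgroup.zpowers c) (hul : ¬ Lox d u) : u = 1 := by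
  rcases hc with rfl | hc
  · simpa using hu
  · obtain ⟨k, rfl⟩ := hu
    by_contra hne
    have hk : k ≠ 0 := by
      rintro rfl; exact hne (by simp)
    exact hul (W.lox_zpow hc hk)

/-- a non-loxodromic element moving two far points by at most l is trivial -/
theorem GW.eq_one_of_far (W : GW (G := G) d δ L A0 R N) (hI : Stmt_Iso1) {u : G}
    (hu : ¬ Lox d u) {x y : X} {l : ℕ} (hx : d x (u • x) ≤ l) (hy : d y (u • y) ≤ l)
    (hxy : 4 * l + 2 * δ + 2 + A0 ≤ d x y) : u = 1 := by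
  haveI : Nonempty X := ⟨x⟩
  obtain ⟨γ, hγ⟩ := exists_geod W.dg x y
  have hL := W.hL
  have h1 := w97_nonlox W.dg W.hyp W.iso hγ (W.nl hI hu) hx hy (t := 2 * l + δ + 1)
    (by omega) (by omega)
  have h2 := w97_nonlox W.dg W.hyp W.iso hγ (W.nl hI hu) hx hy (t := 2 * l + δ + 1 + A0)
    (by omega) (by omega)
  obtain ⟨c, hc, hcc⟩ := W.cyc_of_geod hγ (s := 2 * l + δ + 1) (t := 2 * l + δ + 1 + A0)
    le_rfl (by omega)
  exact W.eq_one_of_mem hc (hcc u (by omega) (by omega)) hu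

/-- (i) -/
theorem GW.inE_nonlox (W : GW (G := G) d δ L A0 R N) (hI : Stmt_Iso1) {g h : G}
    (hg : Lox d g) (hh : InE g h) (hl : ¬ Lox d h) [Nonempty X] : h = 1 := by
  obtain ⟨x0⟩ := ‹Nonempty X›
  obtain ⟨m, hm, hc⟩ := hh.commute
  obtain ⟨x, y, hxy, hS⟩ := W.far hg hm {h} (by rintro _ rfl; exact hc) x0
    (4 * d x0 (h • x0) + 2 * δ + 2 + A0)
  obtain ⟨e1, e2⟩ := hS h rfl
  exact W.eq_one_of_far hI hl e1.le e2.le hxy

/-- FAR for two elements of E(g) -/
theorem GW.far2 (W : GW (G := G) d δ L A0 R N) {g h k : G} (hg : Lox d g) (hh : InE g h)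
    (hk : InE g k) (x0 : X) (K : ℕ) :
    ∃ x y : X, K ≤ d x y ∧ d x (h • x) = d x0 (h • x0) ∧ d y (h • y) = d x0 (h • x0) ∧
      d x (k • x) = d x0 (k • x0) ∧ d y (k • y) = d x0 (k • x0) := by
  obtain ⟨m, hm, hc⟩ := hh.commute
  obtain ⟨n, hn, hc'⟩ := hk.commute
  obtain ⟨x, y, hxy, hS⟩ := W.far hg (m := m * n) (Nat.mul_pos hm hn) {h, k} (by
    rintro _ (rfl | rfl)
    · rw [pow_mul]; exact hc.pow_right n
    · rw [mul_comm m n, pow_mul]; exact hc'.pow_right m) x0 K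
  exact ⟨x, y, hxy, (hS h (Or.inl rfl)).1, (hS h (Or.inl rfl)).2, (hS k (Or.inr rfl)).1,
    (hS k (Or.inr rfl)).2⟩

/-- an element of E(g) cannot invert a loxodromic element of E(g) -/
theorem GW.no_invert (W : GW (G := G) d δ L A0 R N) {g h z : G} (hg : Lox d g)
    (hh : InE g h) (hz : InE g z) (hzl : Lox d z) [Nonempty X] : h * z * h⁻¹ ≠ z⁻¹ := by
  intro hinv
  obtain ⟨x0⟩ := ‹Nonempty X›
  have hpos := W.wlen_pos hzl x0
  obtain ⟨j, hj⟩ := exists_nat_gt ((10 * δ : ℕ) / wlen d z x0)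
  rw [div_lt_iff₀ hpos] at hj
  have hu : InE g (z ^ j) := hz.pow j
  have hinv' : h * z ^ j * h⁻¹ = (z ^ j)⁻¹ := by
    rw [← conj_pow, hinv, inv_pow]
  obtain ⟨x, y, hxy, a1, a2, a3, a4⟩ := W.far2 hg hh hu x0
    (6 * (d x0 (h • x0) + d x0 (z ^ j • x0)) + 2 * δ + 2)
  set u := z ^ j with hudef
  set l := d x0 (h • x0) + d x0 (u • x0) with hl
  obtain ⟨γ, hγ⟩ := exists_geod W.dg x y
  have hiso := W.iso
  have hdg := W.dg
  set t := 3 * l + δ + 1 with ht
  have hux : d x (u • x) ≤ l := by omega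
  have huy : d y (u • y) ≤ l := by omega
  have hhx : d x (h • x) ≤ l := by omega
  have hhy : d y (h • y) ≤ l := by omega
  obtain ⟨b1, b2, b3⟩ := w97_comm hdg W.hyp hiso hγ hhx hhy hux huy (t := t)
    (by omega) (by omega)
  obtain ⟨c1, c2, c3, -⟩ := w97_mid hdg W.hyp hiso hγ hhx hhy (t := t) (by omega) (by omega)
  obtain ⟨d1, d2, d3, -⟩ := w97_mid hdg W.hyp hiso hγ hux huy (t := t) (by omega) (by omega)
  set Sh := d x (h • γ t) with hSh
  set Su := d x (u • γ t) with hSu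
  set r := Sh + Su - t with hr
  obtain ⟨e1, e2, e3, -⟩ := w97_mid hdg W.hyp hiso hγ hux huy (t := r) (by omega) (by omega)
  set Sr := d x (u • γ r) with hSr
  -- monotonicity between r and t
  have m1 : Sr + t ≤ Su + r + δ ∧ Su + r ≤ Sr + t + δ := by
    rcases le_total r t with hrt | hrt
    · obtain ⟨m1, m2⟩ := w97_mid_mono hdg W.hyp hiso hγ hux huy (s := r) (t := t) (by omega)
        hrt (by omega)
      rw [← hSu, ← hSr] at m1 m2
      omega
    · obtain ⟨m1, m2⟩ := w97_mid_mono hdg W.hyp hiso hγ hux huy (s := t) (t := r) (by omega)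
        hrt (by omega)
      rw [← hSu, ← hSr] at m1 m2
      omega
  -- u⁻¹ h γ t = h u γ t
  have key : (h * u) • γ t = (u⁻¹ * h) • γ t := by
    congr 1
    rw [← hinv']; group
  rw [key] at b3
  -- distance from u γ r to γ Sh
  have k1 : d (u • γ r) (γ Sh) ≤ 10 * δ := by
    have t1 := hdg.tri (u • γ r) (u • (u⁻¹ * h) • γ t) (γ Sh)
    rw [hiso, hdg.symm (γ r), mul_smul, smul_inv_smul] at t1
    rw [mul_smul] at b3
    omega
  have k2 : d (γ Sh) (γ Sr) ≤ 13 * δ := by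
    have t1 := hdg.tri (γ Sh) (u • γ r) (γ Sr)
    rw [hdg.symm (γ Sh) (u • γ r)] at t1
    omega
  have k3 : Sh ≤ Sr + 13 * δ ∧ Sr ≤ Sh + 13 * δ := by
    rcases le_total Sh Sr with hc | hc
    · have := hγ.2.2 Sh Sr hc (by omega)
      omega
    · have := hγ.2.2 Sr Sh hc (by omega)
      rw [hdg.symm] at this
      omega
  have k4 : d (γ t) (u • γ t) ≤ 10 * δ := by
    have := w97_middisp hdg W.hyp hiso hγ hux huy (t := t) (by omega) (by omega)
    rw [← hSu] at this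
    rcases le_total t Su with hc | hc
    · rw [min_eq_left hc, max_eq_right hc] at this
      omega
    · rw [min_eq_right hc, max_eq_left hc] at this
      omega
  have k5 := wlen_le hdg hiso u (γ t)
  rw [hudef, wlen_pow hdg hiso, wlen_indep hdg hiso z (γ t) x0] at k5
  have k6 : ((d (γ t) (z ^ j • γ t) : ℕ) : ℝ) ≤ (10 * δ : ℕ) := by
    exact_mod_cast k4
  linarith

end Pool.Agent.BURN.W97
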