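import Pool.Agent.BURN.W97Cyc2

/-! 4.4 continued: steps (ii), (iii), (iv), (v) -/

namespace Pool.Agent.BURN.W97

variable {G X : Type} [Group G] [MulAction G X] {d : X → X → ℕ} {δ L A0 R N : ℕ}

/-- two elements of the same cyclic group, conjugate: equal or inverse -/
theorem GW.eq_or_inv (W : GW (G := G) d δ L A0 R N) [Nonempty X] {c z h : G}
    (hc : c = 1 ∨ Lox d c) (hz : z ∈ Subgroup.zpowers c) (hz' : h * z * h⁻¹ ∈ Subgroup.zpowers c) :
    h * z * h⁻¹ = z ∨ h * z * h⁻¹ = z⁻¹ := by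
  rcases hc with rfl | hc
  · simp only [Subgroup.zpowers_one_eq_bot, Subgroup.mem_bot] at hz
    left; rw [hz]; simp
  · obtain ⟨x0⟩ := ‹Nonempty X›
    obtain ⟨a, ha⟩ := hz
    obtain ⟨b, hb⟩ := hz'
    simp only at ha hb
    have h1 := wlen_conj W.dg W.iso z h x0
    rw [← hb, wlen_zpow W.dg W.iso, ← ha, wlen_zpow W.dg W.iso] at h1
    have h2 := W.wlen_pos hc x0
    have h3 : |(b : ℝ)| = |(a : ℝ)| := mul_right_cancel₀ h2.ne' h1
    rcases abs_eq_abs.1 h3 with h4 | h4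
    · left
      have : b = a := by exact_mod_cast h4
      rw [← hb, this, ha]
    · right
      have : b = -a := by exact_mod_cast h4
      rw [← hb, this, zpow_neg, ha]

/-- (ii) -/
theorem GW.comm_small (W : GW (G := G) d δ L A0 R N) (hI : Stmt_Iso1) {g h z : G} (hg : Lox d g)
    (hh : InE g h) (hz : InE g z) {p : X} (hp : d p (z • p) ≤ 20 * δ) : h * z = z * h := by
  haveI : Nonempty X := ⟨p⟩
  have hdg := W.dg
  have hiso := W.iso
  have hL := W.hL
  by_cases hzl : Lox d z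
  swap
  · rw [W.inE_nonlox hI hg hz hzl]; simp
  obtain ⟨x, y, hxy, a1, a2, a3, a4⟩ := W.far2 hg hh hz p
    (6 * (d p (h • p) + 20 * δ) + 4 * δ + 2 + A0)
  set l := d p (h • p) + 20 * δ with hl
  obtain ⟨γ, hγ⟩ := exists_geod W.dg x y
  have hhx : d x (h • x) ≤ l := by omega
  have hhy : d y (h • y) ≤ l := by omega
  set t0 := l + δ + 1 with ht0
  set t1 := l + δ + 1 + (A0 + δ) with ht1
  obtain ⟨b1, b2, b3, -⟩ := w97_mid hdg W.hyp hiso hγ hhx hhy (t := t0) (by omega) (by omega)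
  obtain ⟨c1, c2, c3, -⟩ := w97_mid hdg W.hyp hiso hγ hhx hhy (t := t1) (by omega) (by omega)
  obtain ⟨m1, m2⟩ := w97_mid_mono hdg W.hyp hiso hγ hhx hhy (s := t0) (t := t1) (by omega)
    (by omega) (by omega)
  -- z moves every point of the geodesic by at most 21 δ
  have hzd : ∀ i, i ≤ d x y → d (γ i) (z • γ i) ≤ 21 * δ := fun i hi => by
    have := w97_hulldisp hdg W.hyp hiso (hγ.btw' hi) (u := z) (l := 20 * δ) (by omega) (by omega)
    omega
  have hz'd : ∀ i, i ≤ d x y → ∀ q : X, d (h • γ i) q ≤ 3 * δ →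
      d q ((h * z * h⁻¹) • q) ≤ 27 * δ := fun i hi q hq => by
    have t1 := hdg.tri q (h • γ i) ((h * z * h⁻¹) • q)
    have t2 := hdg.tri (h • γ i) ((h * z * h⁻¹) • h • γ i) ((h * z * h⁻¹) • q)
    rw [hiso] at t2
    have e : (h * z * h⁻¹) • h • γ i = h • z • γ i := by
      rw [← mul_smul, ← mul_smul]; congr 1; group
    rw [e, hiso] at t2
    have := hzd i hi
    have s := hdg.symm q (h • γ i)
    omega
  obtain ⟨c, hc, hcc⟩ := W.cyc_of_geod hγ (s := d x (h • γ t0)) (t := d x (h • γ t1))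
    (by omega) (by omega)
  have q1 := hcc z (by have := hzd _ (show d x (h • γ t0) ≤ d x y by omega); omega)
    (by have := hzd _ (show d x (h • γ t1) ≤ d x y by omega); omega)
  have q2 := hcc (h * z * h⁻¹)
    (by have := hz'd t0 (by omega) _ b3; omega) (by have := hz'd t1 (by omega) _ c3; omega)
  rcases W.eq_or_inv hc q1 q2 with h1 | h1
  · exact mul_inv_eq_iff_eq_mul.1 h1
  · exact absurd h1 (W.no_invert hg hh hz hzl)

/-- (iii) -/
theorem GW.inE_comm (W : GW (G := G) d δ L A0 R N) (hI : Stmt_Iso1) {g h k : G} (hg : Lox d g)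
    (hh : InE g h) (hk : InE g k) [Nonempty X] : h * k = k * h := by
  obtain ⟨x0⟩ := ‹Nonempty X›
  have hdg := W.dg
  have hiso := W.iso
  have hL := W.hL
  -- commutators of powers are small somewhere
  have small : ∀ j : ℕ, ∃ p : X, d p (((h ^ j)⁻¹ * k⁻¹ * h ^ j * k) • p) ≤ 14 * δ := fun j => by
    obtain ⟨x, y, hxy, a1, a2, a3, a4⟩ := W.far2 hg (hh.pow j) hk x0
      (4 * (d x0 (h ^ j • x0) + d x0 (k • x0)) + 2 * δ + 2)
    set l := d x0 (h ^ j • x0) + d x0 (k • x0) with hl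
    obtain ⟨γ, hγ⟩ := exists_geod W.dg x y
    exact ⟨γ (2 * l + δ + 1), w97_comm' hdg W.hyp hiso hγ (by omega : d x (h ^ j • x) ≤ l)
      (by omega) (by omega) (by omega) (by omega) (by omega)⟩
  set z := h⁻¹ * k⁻¹ * h * k with hz
  have hzE : InE g z := ((hh.inv.mul hk.inv).mul hh).mul hk
  obtain ⟨p, hp⟩ := small 1
  rw [pow_one, ← hz] at hp
  have c1 := W.comm_small hI hg hh hzE (p := p) (by omega)
  have c2 := W.comm_small hI hg hk hzE (p := p) (by omega)
  have hpow : ∀ j : ℕ, (h ^ j)⁻¹ * k⁻¹ * h ^ j * k = z ^ j := by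
    intro j
    have e1 : k⁻¹ * h * k = h * z := by rw [hz]; group
    have e2 : k⁻¹ * h ^ j * k = (h * z) ^ j := by
      rw [← e1]
      have := (conj_pow (i := j) (a := k⁻¹) (b := h)).symm
      rw [inv_inv] at this
      exact this
    have e3 : (h * z) ^ j = h ^ j * z ^ j := (show Commute h z from c1).mul_pow j
    calc (h ^ j)⁻¹ * k⁻¹ * h ^ j * k = (h ^ j)⁻¹ * (k⁻¹ * h ^ j * k) := by group
      _ = z ^ j := by rw [e2, e3]; group
  have hs : wlen d z x0 ≤ 0 := by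
    by_contra hc
    push Not at hc
    obtain ⟨j, hj⟩ := exists_nat_gt ((14 * δ : ℕ) / wlen d z x0)
    rw [div_lt_iff₀ hc] at hj
    obtain ⟨q, hq⟩ := small j
    rw [hpow j] at hq
    have k5 := wlen_le hdg hiso (z ^ j) q
    rw [wlen_pow hdg hiso, wlen_indep hdg hiso z q x0] at k5
    have k6 : ((d q (z ^ j • q) : ℕ) : ℝ) ≤ (14 * δ : ℕ) := by exact_mod_cast hq
    linarith
  have hzn : ¬ Lox d z := fun hl => absurd (W.wlen_pos hl x0) (not_lt.2 hs)
  have hz1 := W.inE_nonlox hI hg hzE hzn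
  rw [hz] at hz1
  have : k * h * (h⁻¹ * k⁻¹ * h * k) = h * k := by group
  rw [← this, hz1, mul_one]

end Pool.Agent.BURN.W97
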