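import Pool.Agent.BURN.W97Cyc3

/-! 4.4 continued: steps (iv), (v) -/

namespace Pool.Agent.BURN.W97

variable {G X : Type} [Group G] [MulAction G X] {d : X → X → ℕ} {δ L A0 R N : ℕ}

theorem GW.exp_le (W : GW (G := G) d δ L A0 R N) {c : G} (hc : Lox d c) {i : ℤ} {B : ℕ} {p : X}
    (hp : d p (c ^ i • p) ≤ B) : |i| ≤ (B * R : ℕ) := by
  have h1 := wlen_le W.dg W.iso (c ^ i) p
  rw [wlen_zpow W.dg W.iso] at h1
  have h2 := W.wlen_ge hc p
  have h3 : ((d p (c ^ i • p) : ℕ) : ℝ) ≤ B := by exact_mod_cast hp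
  have h4 : |(i : ℝ)| ≤ B * R := by
    have h5 : |(i : ℝ)| * 1 ≤ |(i : ℝ)| * (R * wlen d c p) :=
      mul_le_mul_of_nonneg_left h2 (abs_nonneg _)
    have h6 : (|(i : ℝ)| * wlen d c p) * R ≤ B * R :=
      mul_le_mul_of_nonneg_right (h1.trans h3) (by positivity)
    linarith
  exact_mod_cast h4

open Classical in
/-- (iv) -/
theorem GW.inE_pow (W : GW (G := G) d δ L A0 R N) {g h : G} (hg : Lox d g)
    (hh : InE g h) [Nonempty X] : ∃ (a : ℕ) (b : ℤ), 1 ≤ a ∧ h ^ a = g ^ b := by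
  by_contra H
  push Not at H
  obtain ⟨x0⟩ := ‹Nonempty X›
  have hdg := W.dg
  have hiso := W.iso
  have hL := W.hL
  obtain ⟨m, hm, hc⟩ := hh.commute
  set D0 := d x0 (h • x0) + d x0 (g • x0) with hD0
  set n := 12 * δ * R + 1 with hn
  set M := (4 * D0 + δ + 2) * n + 1 with hM
  set l := 2 * M * D0 with hl
  set u : ℕ × ℕ → G := fun p => h ^ p.1 * g ^ p.2 with hu
  have hinj : ∀ p q : ℕ × ℕ, u p = u q → p = q := by
    have aux : ∀ a b a' b' : ℕ, a < a' → h ^ a * g ^ b ≠ h ^ a' * g ^ b' := by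
      intro a b a' b' hlt he
      refine H (a' - a) ((b : ℤ) - b') (by omega) ?_
      rw [show a' = a + (a' - a) by omega, pow_add, mul_assoc] at he
      have := mul_left_cancel he
      rw [zpow_sub, zpow_natCast, zpow_natCast, this, mul_inv_cancel_right]
    rintro ⟨a, b⟩ ⟨a', b'⟩ he
    simp only [hu] at he
    rcases lt_trichotomy a a' with hlt | rfl | hlt
    · exact absurd he (aux _ _ _ _ hlt)
    · have := mul_left_cancel he
      have h1 : (b : ℤ) = b' := W.zpow_inj hg (by simpa using this)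
      have : b = b' := by exact_mod_cast h1
      rw [this]
    · exact absurd he.symm (aux _ _ _ _ hlt)
  obtain ⟨x, y, hxy, hS⟩ := W.far hg hm {w | ∃ p, w = u p} (by
    rintro _ ⟨p, rfl⟩
    exact (hc.pow_left _).mul_left ((Commute.refl g).pow_pow _ _)) x0 (2 * (l + δ + 1) + A0)
  obtain ⟨γ, hγ⟩ := exists_geod W.dg x y
  set t0 := l + δ + 1 with ht0
  set t1 := l + δ + 1 + A0 with ht1
  have hsmall : ∀ p : ℕ × ℕ, p.1 < M → p.2 < M → d x (u p • x) ≤ l ∧ d y (u p • y) ≤ l := by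
    intro p h1 h2
    obtain ⟨e1, e2⟩ := hS (u p) ⟨p, rfl⟩
    have e3 : d x0 (u p • x0) ≤ l := by
      have t1 := hdg.tri x0 (h ^ p.1 • x0) (u p • x0)
      have t2 : d (h ^ p.1 • x0) (u p • x0) = d x0 (g ^ p.2 • x0) := by
        simp only [hu]; rw [mul_smul, hiso]
      have t3 := IsoAux.le_mul hdg hiso h x0 p.1
      have t4 := IsoAux.le_mul hdg hiso g x0 p.2
      have t5 : p.1 * d x0 (h • x0) ≤ M * D0 := Nat.mul_le_mul h1.le (by omega)
      have t6 : p.2 * d x0 (g • x0) ≤ M * D0 := Nat.mul_le_mul h2.le (by omega)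
      have t7 : l = M * D0 + M * D0 := by rw [hl]; ring
      omega
    omega
  set s : Finset (ℕ × ℕ) := Finset.range M ×ˢ Finset.range M with hs
  set f : ℕ × ℕ → ℕ := fun p => d x (u p • γ t0) with hf
  have hmaps : ∀ p ∈ s, f p ∈ Finset.range (2 * l + δ + 2) := by
    intro p hp
    rw [hs, Finset.mem_product, Finset.mem_range, Finset.mem_range] at hp
    obtain ⟨a1, a2⟩ := hsmall p hp.1 hp.2
    obtain ⟨b1, b2, -, -⟩ := w97_mid hdg W.hyp hiso hγ a1 a2 (t := t0) (by omega) (by omega)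
    rw [Finset.mem_range]
    simp only [hf]
    omega
  have hcard : (Finset.range (2 * l + δ + 2)).card * n < s.card := by
    rw [hs, Finset.card_product, Finset.card_range, Finset.card_range, hl]
    have hM1 : 1 ≤ M := by omega
    have e1 : (2 * (2 * M * D0) + δ + 2) * n ≤ M * ((4 * D0 + δ + 2) * n) := by
      have : 2 * (2 * M * D0) + δ + 2 ≤ M * (4 * D0 + δ + 2) := by nlinarith
      calc _ ≤ (M * (4 * D0 + δ + 2)) * n := Nat.mul_le_mul_right _ this
        _ = _ := by ring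
    calc _ ≤ M * ((4 * D0 + δ + 2) * n) := e1
      _ < M * M := Nat.mul_lt_mul_of_pos_left (by omega) hM1
  obtain ⟨v, -, hv⟩ := Finset.exists_lt_card_fiber_of_mul_lt_card_of_maps_to hmaps hcard
  set F := s.filter (fun p => f p = v) with hF
  have hFne : F.Nonempty := Finset.card_pos.1 (by omega)
  obtain ⟨p0, hp0⟩ := hFne
  have hmem : ∀ p ∈ F, p.1 < M ∧ p.2 < M ∧ d x (u p • γ t0) = v := by
    intro p hp
    rw [hF, Finset.mem_filter, hs, Finset.mem_product, Finset.mem_range, Finset.mem_range] at hp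
    exact ⟨hp.1.1, hp.1.2, hp.2⟩
  obtain ⟨c, hcl, hcc⟩ := W.cyc_of_geod hγ (s := t0) (t := t1) (by omega) (by omega)
  have hdist : ∀ p ∈ F, d (γ t0) (((u p0)⁻¹ * u p) • γ t0) ≤ 6 * δ ∧
      d (γ t1) (((u p0)⁻¹ * u p) • γ t1) ≤ 7 * δ := by
    intro p hp
    obtain ⟨a1, a2, a3⟩ := hmem p hp
    obtain ⟨b1, b2, b3⟩ := hmem p0 hp0
    obtain ⟨c1, c2⟩ := hsmall p a1 a2
    obtain ⟨d1, d2⟩ := hsmall p0 b1 b2
    have move : ∀ q : X, d q (((u p0)⁻¹ * u p) • q) = d (u p0 • q) (u p • q) := fun q => by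
      rw [← hiso (u p0) q, ← mul_smul, mul_inv_cancel_left]
    rw [move, move]
    constructor
    · obtain ⟨-, -, e1, -⟩ := w97_mid hdg W.hyp hiso hγ c1 c2 (t := t0) (by omega) (by omega)
      obtain ⟨-, -, e2, -⟩ := w97_mid hdg W.hyp hiso hγ d1 d2 (t := t0) (by omega) (by omega)
      rw [a3] at e1
      rw [b3] at e2
      have t1 := hdg.tri (u p0 • γ t0) (γ v) (u p • γ t0)
      rw [hdg.symm (γ v)] at t1
      omega
    · obtain ⟨f1, f2, e1, -⟩ := w97_mid hdg W.hyp hiso hγ c1 c2 (t := t1) (by omega) (by omega)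
      obtain ⟨f3, f4, e2, -⟩ := w97_mid hdg W.hyp hiso hγ d1 d2 (t := t1) (by omega) (by omega)
      obtain ⟨m1, m2⟩ := w97_mid_mono hdg W.hyp hiso hγ c1 c2 (s := t0) (t := t1) (by omega)
        (by omega) (by omega)
      obtain ⟨m3, m4⟩ := w97_mid_mono hdg W.hyp hiso hγ d1 d2 (s := t0) (t := t1) (by omega)
        (by omega) (by omega)
      rw [a3] at m1 m2
      rw [b3] at m3 m4
      have e3 : d (γ (d x (u p0 • γ t1))) (γ (d x (u p • γ t1))) ≤ δ := by
        rcases le_total (d x (u p0 • γ t1)) (d x (u p • γ t1)) with hcs | hcs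
        · rw [hγ.2.2 _ _ hcs (by omega)]; omega
        · rw [hdg.symm, hγ.2.2 _ _ hcs (by omega)]; omega
      have t1' := hdg.tri (u p0 • γ t1) (γ (d x (u p0 • γ t1))) (u p • γ t1)
      have t2' := hdg.tri (γ (d x (u p0 • γ t1))) (γ (d x (u p • γ t1))) (u p • γ t1)
      rw [hdg.symm (γ (d x (u p • γ t1))) (u p • γ t1)] at t2'
      omega
  have hexp : ∀ p ∈ F, ∃ i : ℤ, (u p0)⁻¹ * u p = c ^ i ∧ |i| ≤ (6 * δ * R : ℕ) := by
    intro p hp
    obtain ⟨a1, a2⟩ := hdist p hp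
    have hm := hcc _ (by omega : d (γ t0) (((u p0)⁻¹ * u p) • γ t0) ≤ L) (by omega)
    rcases hcl with rfl | hcl
    · refine ⟨0, ?_, by rw [abs_zero]; exact Int.natCast_nonneg _⟩
      rw [Subgroup.zpowers_one_eq_bot, Subgroup.mem_bot] at hm
      rw [hm, zpow_zero]
    · obtain ⟨i, hi⟩ := hm
      simp only at hi
      refine ⟨i, hi.symm, ?_⟩
      rw [← hi] at a1
      exact W.exp_le hcl a1
  choose! i hi using hexp
  have hle : F.card ≤ (Finset.Icc (-((6 * δ * R : ℕ) : ℤ)) ((6 * δ * R : ℕ) : ℤ)).card := by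
    refine Finset.card_le_card_of_injOn i ?_ ?_
    · intro p hp
      have := (hi p hp).2
      rw [abs_le] at this
      simp only [Finset.coe_Icc, Set.mem_Icc]
      exact this
    · intro p hp q hq he
      apply hinj
      have h1 := (hi p hp).1
      have h2 := (hi q hq).1
      rw [he, ← h2] at h1
      exact mul_left_cancel h1
  rw [Int.card_Icc] at hle
  have : 6 * δ * R + 6 * δ * R = 12 * δ * R := by ring
  omega

end Pool.Agent.BURN.W97
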