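import Pool.Agent.BURN.W97Cyc4

/-! 4.4 (v) and 4.5 -/

namespace Pool.Agent.BURN.W97

variable {G X : Type} [Group G] [MulAction G X] {d : X → X → ℕ} {δ L A0 R N : ℕ}

/-- generator of a maximal cyclic group -/
def IsMaxCyc' (d : X → X → ℕ) (c : G) : Prop :=
  Lox d c ∧ ∀ (h : G) (m : ℕ), 1 ≤ m → h * c ^ m * h⁻¹ = c ^ m → h ∈ Subgroup.zpowers c

theorem GW.fin_order_one (W : GW (G := G) d δ L A0 R N) (hI : Stmt_Iso1) {g h : G}
    (hg : Lox d g) (hh : InE g h) [Nonempty X] {n : ℕ} (hn : 1 ≤ n) (h1 : h ^ n = 1) : h = 1 := by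
  refine W.inE_nonlox hI hg hh (fun hl => ?_)
  obtain ⟨x0⟩ := ‹Nonempty X›
  have := wlen_torsion W.dg W.iso (x := x0) (by omega : 0 < n) h1
  have h2 := W.wlen_pos hl x0
  linarith

/-- 4.4 -/
theorem GW.CYC (W : GW (G := G) d δ L A0 R N) (hI : Stmt_Iso1) [Nonempty X] {g : G}
    (hg : Lox d g) : ∃ c : G, IsMaxCyc' d c ∧ ∀ h : G, InE g h ↔ h ∈ Subgroup.zpowers c := by
  obtain ⟨x0⟩ := ‹Nonempty X›
  haveI : Nonempty X := ⟨x0⟩
  have hdg := W.dg
  have hiso := W.iso
  have hlg := W.wlen_pos hg x0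
  have hgE := inE_self g
  let A : AddSubgroup ℝ :=
    { carrier := {r | ∃ (h : G) (a : ℕ) (b : ℤ), 1 ≤ a ∧ InE g h ∧ h ^ a = g ^ b ∧
        r * a = b * wlen d g x0}
      zero_mem' := ⟨1, 1, 0, le_rfl, inE_one g, by simp, by simp⟩
      add_mem' := by
        rintro r r' ⟨h, a, b, h1, h2, h3, h4⟩ ⟨h', a', b', h1', h2', h3', h4'⟩
        refine ⟨h * h', a * a', b * a' + b' * a, Nat.mul_pos h1 h1', h2.mul h2', ?_, ?_⟩
        · have hc : Commute h h' := W.inE_comm hI hg h2 h2'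
          rw [hc.mul_pow, pow_mul, h3, mul_comm a a', pow_mul, h3', zpow_add, zpow_mul, zpow_mul,
            zpow_natCast, zpow_natCast]
        · push_cast
          linear_combination (a' : ℝ) * h4 + (a : ℝ) * h4'
      neg_mem' := by
        rintro r ⟨h, a, b, h1, h2, h3, h4⟩
        refine ⟨h⁻¹, a, -b, h1, h2.inv, ?_, ?_⟩
        · rw [inv_pow, h3, zpow_neg]
        · push_cast
          linear_combination -h4 }
  have hR : (0 : ℝ) < R := by
    have := W.wlen_ge hg x0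
    by_contra hc
    have h0 : (R : ℝ) = 0 := le_antisymm (not_lt.1 hc) (by positivity)
    rw [h0] at this; norm_num at this
  have hsl : ∀ (h : G) (a : ℕ) (b : ℤ) (r : ℝ), 1 ≤ a → h ^ a = g ^ b →
      r * a = b * wlen d g x0 → |r| = wlen d h x0 := by
    intro h a b r h1 h2 h3
    have e1 := congrArg (fun u => wlen d u x0) h2
    simp only [wlen_pow hdg hiso, wlen_zpow hdg hiso] at e1
    have e2 : |r| * a = |(b : ℝ)| * wlen d g x0 := by
      have := congrArg abs h3
      rw [abs_mul, abs_mul, abs_of_pos hlg, Nat.abs_cast] at this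
      exact this
    have e3 : (0 : ℝ) < a := by exact_mod_cast h1
    have e4 : |r| * a = wlen d h x0 * a := by rw [e2, ← e1]; ring
    exact mul_right_cancel₀ e3.ne' e4
  have hdis : Disjoint (A : Set ℝ) (Set.Ioo 0 (1 / (R : ℝ))) := by
    rw [Set.disjoint_left]
    rintro r ⟨h, a, b, h1, h2, h3, h4⟩ ⟨r1, r2⟩
    have e := hsl h a b r h1 h3 h4
    rw [abs_of_pos r1] at e
    have hl : Lox d h := (W.lox_iff x0).2 (by rw [← e]; exact r1)
    have := W.wlen_ge hl x0
    rw [← e] at this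
    rw [lt_div_iff₀ hR] at r2
    linarith
  obtain ⟨r0, hr0⟩ := AddSubgroup.cyclic_of_isolated_zero (one_div_pos.2 hR) hdis
  have hr0A : r0 ∈ A := by rw [hr0]; exact AddSubgroup.subset_closure (Set.mem_singleton _)
  obtain ⟨c, a0, b0, h1, h2, h3, h4⟩ := hr0A
  have hmem : ∀ h : G, InE g h → h ∈ Subgroup.zpowers c := by
    intro h hh
    obtain ⟨a, b, ha, hab⟩ := W.inE_pow hg hh
    have ha' : (0 : ℝ) < a := by exact_mod_cast ha
    have hrA : (b * wlen d g x0 / a : ℝ) ∈ A :=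
      ⟨h, a, b, ha, hh, hab, by field_simp⟩
    rw [hr0, AddSubgroup.mem_closure_singleton] at hrA
    obtain ⟨k, hk⟩ := hrA
    refine ⟨k, ?_⟩
    simp only
    have e1 : (k : ℝ) * r0 * a = b * wlen d g x0 := by
      rw [zsmul_eq_mul] at hk
      rw [hk]; field_simp
    have e2 : (b * a0 : ℤ) = k * b0 * a := by
      have : ((b * a0 : ℤ) : ℝ) = ((k * b0 * a : ℤ) : ℝ) := by
        apply mul_right_cancel₀ hlg.ne'
        push_cast
        linear_combination -(a0 : ℝ) * e1 + (k : ℝ) * a * h4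
      exact_mod_cast this
    have hcomm : Commute h c := W.inE_comm hI hg hh h2
    have hw : InE g (h * (c ^ k)⁻¹) := by
      refine hh.mul (InE.inv ?_)
      rcases Int.eq_nat_or_neg k with ⟨n, rfl | rfl⟩
      · rw [zpow_natCast]; exact h2.pow n
      · rw [zpow_neg, zpow_natCast]; exact (h2.pow n).inv
    have hw1 : (h * (c ^ k)⁻¹) ^ (a * a0) = 1 := by
      have hc2 : Commute h (c ^ k)⁻¹ := (hcomm.zpow_right k).inv_right
      rw [hc2.mul_pow]
      have e3 : h ^ (a * a0) = g ^ (b * a0 : ℤ) := by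
        rw [pow_mul, hab, zpow_mul, zpow_natCast]
      have e4 : (c ^ k) ^ (a * a0) = g ^ (k * b0 * a : ℤ) := by
        have : (c ^ k) ^ (a * a0) = (c ^ a0) ^ (k * a : ℤ) := by
          rw [← zpow_natCast, ← zpow_natCast c a0, ← zpow_mul, ← zpow_mul]
          congr 1; push_cast; ring
        rw [this, h3, ← zpow_mul]; congr 1; ring
      rw [inv_pow, e3, e4, e2, mul_inv_cancel]
    have := W.fin_order_one hI hg hw (Nat.mul_pos ha h1) hw1
    rw [mul_inv_eq_one] at this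
    exact this.symm
  obtain ⟨k0, hk0⟩ := hmem g hgE
  simp only at hk0
  have hcl : Lox d c := W.lox_of_zpow (k := k0) (by rw [hk0]; exact hg)
  refine ⟨c, ⟨hcl, ?_⟩, ?_⟩
  · intro h m hm hcm
    apply hmem
    refine inE_of_commute hm ?_
    have : Commute h (c ^ m) := mul_inv_eq_iff_eq_mul.1 hcm
    have e : g ^ m = (c ^ m) ^ k0 := by
      rw [← hk0, ← zpow_natCast, ← zpow_natCast, ← zpow_mul, ← zpow_mul, mul_comm]
    rw [e]; exact this.zpow_right k0
  · intro h
    refine ⟨hmem h, ?_⟩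
    rintro ⟨k, rfl⟩
    rcases Int.eq_nat_or_neg k with ⟨n, rfl | rfl⟩
    · simp only [zpow_natCast]; exact h2.pow n
    · simp only [zpow_neg, zpow_natCast]; exact (h2.pow n).inv

end Pool.Agent.BURN.W97
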